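import Pool.Agent.TInf.CoreOf
import Pool.Agent.TInf.GenZero

/-!
# The core theorem
-/

set_option autoImplicit false

noncomputable section

namespace Pool.Agent.TInf

open Pool.Agent.ZCyc Pool.Agent.VFP Polynomial

universe u

variable {k : Type u} [Field k] [IsAlgClosed k] [CharZero k] {N r n : ℕ}

theorem core (D : Dat k N r) (h : Good D n) (w : Fin n → Crd N r k)
    (hw : ∀ j, D.OnX (w j)) : AN D w = 0 :=
  core_of_gen (fun S _ hd _ _ _ _ hz _ hs _ hc hA _ hv l => gen_zero S hd hz hs hc hA hv l)
    D h w hw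

end Pool.Agent.TInf
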