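import Pool.Agent.TInf.Defs
import Pool.Agent.DCI57.At

/-!
# Values of points of the elliptic curves at places
-/

set_option autoImplicit false

noncomputable section

namespace Pool.Agent.TInf

open Pool.Agent.ZCyc Polynomial
open Pool.Agent.VFP (Om tt)

universe u

variable {k : Type u} [Field k] [IsAlgClosed k] [CharZero k]

omit [IsAlgClosed k] [CharZero k] in
private theorem mem_of_sq (v : Place k (Om k)) {y : Om k} (h : y ^ 2 ∈ v.ring) : y ∈ v.ring := by
  rcases v.ring.mem_or_inv_mem y with h1 | h1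
  · exact h1
  · by_cases hy0 : y = 0
    · rw [hy0]
      exact zero_mem _
    · have h2 : y = y ^ 2 * y⁻¹ := by field_simp
      rw [h2]
      exact mul_mem h h1

omit [IsAlgClosed k] [CharZero k] in
private theorem at_three (v : Place k (Om k)) : v.At (3 : Om k) (3 : k) := by
  have h := Place.at_const (v := v) (3 : k)
  rwa [map_ofNat] at h

omit [IsAlgClosed k] [CharZero k] in
private theorem at_two (v : Place k (Om k)) : v.At (2 : Om k) (2 : k) := by
  have h := Place.at_const (v := v) (2 : k)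
  rwa [map_ofNat] at h

omit [IsAlgClosed k] [CharZero k] in
private theorem at_rhs {v : Place k (Om k)} {α B x : Om k} {α' B' x' : k} (hα : v.At α α')
    (hB : v.At B B') (hx : v.At x x') :
    v.At (x ^ 3 - 3 * α * x + B) (x' ^ 3 - 3 * α' * x' + B') :=
  ((hx.pow 3).sub (((at_three v).mul hα).mul hx)).add hB

/-- use `DCI57.exists_at` for `x` and `y` (if `x ∈ v.ring` then `y ^ 2 ∈ v.ring`, so `y ∈ v.ring`;
if `x ∉ v.ring` then `y ^ 2 = x ³ (1 + …)`) -/
theorem evalue_exists (v : Place k (Om k)) {α B : Om k} (hα : α ∈ v.ring) (hB : B ∈ v.ring)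
    {P : EPt (Om k)} (hP : EOn α B P) : ∃ p, EVal v P p := by
  rcases P with _ | ⟨x, y⟩
  · exact ⟨none, trivial⟩
  · by_cases hx : x ∈ v.ring
    · obtain ⟨α', hα'⟩ := DCI57.exists_at v hα
      obtain ⟨B', hB'⟩ := DCI57.exists_at v hB
      obtain ⟨x', hx'⟩ := DCI57.exists_at v hx
      have hP' : y ^ 2 = x ^ 3 - 3 * α * x + B := hP
      have hy : y ∈ v.ring := by
        apply mem_of_sq v
        rw [hP']
        exact (at_rhs hα' hB' hx').mem
      obtain ⟨y', hy'⟩ := DCI57.exists_at v hy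
      exact ⟨some (x', y'), hx', hy'⟩
    · exact ⟨none, hx⟩

theorem evalue_on {v : Place k (Om k)} {α B : Om k} {α' B' : k} (hα : v.At α α') (hB : v.At B B')
    {P : EPt (Om k)} {p : EPt k} (hP : EOn α B P) (h : EVal v P p) : EOn α' B' p := by
  rcases p with _ | ⟨x', y'⟩
  · trivial
  · rcases P with _ | ⟨x, y⟩
    · exact h.elim
    · obtain ⟨hx, hy⟩ := h
      have hP' : y ^ 2 = x ^ 3 - 3 * α * x + B := hP
      have h1 : v.At (y ^ 2) (y' ^ 2) := hy.pow 2
      rw [hP'] at h1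
      exact h1.unique (at_rhs hα hB hx)

theorem evalue_unique {v : Place k (Om k)} {P : EPt (Om k)} {p q : EPt k} (hp : EVal v P p)
    (hq : EVal v P q) : p = q := by
  rcases P with _ | ⟨x, y⟩
  · rcases p with _ | ⟨x', y'⟩
    · rcases q with _ | ⟨x'', y''⟩
      · rfl
      · exact hq.elim
    · exact hp.elim
  · rcases p with _ | ⟨x', y'⟩
    · rcases q with _ | ⟨x'', y''⟩
      · rfl
      · exact absurd hq.1.mem hp
    · rcases q with _ | ⟨x'', y''⟩
      · exact absurd hp.1.mem hq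
      · rw [hp.1.unique hq.1, hp.2.unique hq.2]

/-- a constant point -/
theorem evalue_const (v : Place k (Om k)) (p : EPt k) :
    EVal v (Option.map (fun z : k × k => (algebraMap k (Om k) z.1, algebraMap k (Om k) z.2)) p)
      p := by
  rcases p with _ | ⟨x, y⟩
  · trivial
  · exact ⟨Place.at_const x, Place.at_const y⟩

private theorem pow_val_three {K : Type*} [Field K] {ζ : K} (hζ : ζ ^ 3 = 1) (n : ℕ) :
    (ζ ^ n) ^ 3 = 1 := by
  rw [← pow_mul, mul_comm, pow_mul, hζ, one_pow]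

private theorem zeta_ne {K : Type*} [Field K] {ζ : K} (hζ : ζ ^ 3 = 1) (n : ℕ) : ζ ^ n ≠ 0 := by
  intro h0
  have h := pow_val_three hζ n
  rw [h0] at h
  norm_num at h

private theorem V_ne {K : Type*} [Field K] [CharZero K] {s : Side K} (hs : s.Good) : s.V ≠ 0 := by
  obtain ⟨h1, h2, h3⟩ := hs
  exact div_ne_zero (mul_ne_zero h2 h3) (mul_ne_zero two_ne_zero h1)

private theorem Sg_sq {K : Type*} [Field K] [CharZero K] {α B : K} {s : Side K} (hs : s.Good)
    (hB : s.p + s.m = -B) (hα : (s.p - s.m) ^ 2 = 4 * α ^ 3) :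
    s.Sg ^ 2 = s.V ^ 2 + B * s.V + α ^ 3 := by
  obtain ⟨h1, _, _⟩ := hs
  have hB' : B = -(s.p + s.m) := by rw [hB, neg_neg]
  have hα' : α ^ 3 = (s.p - s.m) ^ 2 / 4 := by
    rw [hα]
    ring
  rw [hα', hB']
  unfold Side.Sg Side.V
  field_simp
  ring

/-- the point `epoint ζ α s w a` is on the curve: `x ³ - 3 α x = w ^ 6 + α ³ / w ^ 6` -/
theorem epoint_on {K : Type*} [Field K] [CharZero K] {ζ α B w : K} {s : Side K} (hζ : ζ ^ 3 = 1)
    (hs : s.Good) (hB : s.p + s.m = -B) (hα : (s.p - s.m) ^ 2 = 4 * α ^ 3) (hw : w ^ 6 = s.V)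
    (a : ZMod 3) : EOn α B (epoint ζ α s w a) := by
  have hV := V_ne hs
  have hw0 : w ≠ 0 := by
    rintro rfl
    apply hV
    rw [← hw]
    norm_num
  have hz := zeta_ne hζ a.val
  set μ := ζ ^ a.val * w ^ 2 with hμ
  have hμ0 : μ ≠ 0 := mul_ne_zero hz (pow_ne_zero 2 hw0)
  have hμ3 : μ ^ 3 = s.V := by
    rw [hμ, mul_pow, pow_val_three hζ, one_mul, ← pow_mul, hw]
  have hSg := Sg_sq hs hB hα
  show (s.Sg / w ^ 3) ^ 2 = (μ + α / μ) ^ 3 - 3 * α * (μ + α / μ) + B
  have e1 : (s.Sg / w ^ 3) ^ 2 = s.Sg ^ 2 / s.V := by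
    rw [div_pow, ← pow_mul, hw]
  have e2 : (μ + α / μ) ^ 3 - 3 * α * (μ + α / μ) = μ ^ 3 + α ^ 3 / μ ^ 3 := by
    field_simp
    ring
  rw [e1, e2, hSg, hμ3]
  field_simp
  ring

/-- specialisation of `epoint` -/
theorem epoint_val {v : Place k (Om k)} {ζ : k} {α w : Om k} {s : Side (Om k)} {α' w' : k}
    {s' : Side k} (hζ : ζ ^ 3 = 1) (hα : v.At α α') (hp : v.At s.p s'.p) (hm : v.At s.m s'.m)
    (hT : v.At s.T s'.T) (hw : v.At w w') (hs' : s'.Good) (hw' : w' ^ 6 = s'.V) (a : ZMod 3) :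
    EVal v (epoint (algebraMap k (Om k) ζ) α s w a) (epoint ζ α' s' w' a) := by
  have hV := V_ne hs'
  have hw0 : w' ≠ 0 := by
    rintro rfl
    apply hV
    rw [← hw']
    norm_num
  have hz := zeta_ne hζ a.val
  have h1 : v.At (algebraMap k (Om k) ζ ^ a.val * w ^ 2) (ζ ^ a.val * w' ^ 2) :=
    ((Place.at_const ζ).pow _).mul (hw.pow 2)
  have h2 : v.At s.Sg s'.Sg :=
    ((hT.pow 2).sub (hp.mul hm)).div ((at_two v).mul hT) (mul_ne_zero two_ne_zero hs'.1)
  exact ⟨h1.add (hα.div h1 (mul_ne_zero hz (pow_ne_zero 2 hw0))),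
    h2.div (hw.pow 3) (pow_ne_zero 3 hw0)⟩

/-- the value of `epoint` is `∞` if `w` has a zero or a pole (if `w` has a zero and `α' ≠ 0` then
`α / w ^ 2` is not in `v.ring`) -/
theorem epoint_inf {v : Place k (Om k)} {ζ : k} {α w : Om k} {s : Side (Om k)} {α' : k}
    (hζ : ζ ^ 3 = 1) (hα : v.At α α') (hα' : α' ≠ 0) (hw0 : w ≠ 0) (hw : v.At w 0 ∨ w ∉ v.ring)
    (a : ZMod 3) : EVal v (epoint (algebraMap k (Om k) ζ) α s w a) none := by
  show algebraMap k (Om k) ζ ^ a.val * w ^ 2 + α / (algebraMap k (Om k) ζ ^ a.val * w ^ 2) ∉ v.ring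
  have hζ' : (algebraMap k (Om k) ζ) ^ 3 = 1 := by rw [← map_pow, hζ, map_one]
  have hz := zeta_ne hζ' a.val
  set z := algebraMap k (Om k) ζ ^ a.val with hzdef
  have hzmem : z ∈ v.ring := pow_mem (v.const_mem ζ) _
  have hzi : z⁻¹ ∈ v.ring := by
    have e : z⁻¹ = z ^ 2 := by
      have h3 : z ^ 3 = 1 := pow_val_three hζ' a.val
      exact inv_eq_of_mul_eq_one_right (by rw [← h3]; ring)
    rw [e]
    exact pow_mem hzmem 2
  have hw2 : w ^ 2 ≠ 0 := pow_ne_zero 2 hw0
  have hμ0 : z * w ^ 2 ≠ 0 := mul_ne_zero hz hw2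
  intro hx
  rcases hw with hw | hw
  · have hwv : v.Vanishes w := Place.at_zero_iff.1 hw
    have hμv : v.Vanishes (z * w ^ 2) :=
      Place.Vanishes.mul' v (Place.Vanishes.pow v hwv two_ne_zero) hzmem
    have hμm : z * w ^ 2 ∈ v.ring := Place.Vanishes.mem v hμv
    have h1 : α / (z * w ^ 2) ∈ v.ring := by
      have h2 := sub_mem hx hμm
      rwa [add_sub_cancel_left] at h2
    have h2 : v.Vanishes α := by
      have h3 := Place.Vanishes.mul v hμv h1
      rwa [mul_div_cancel₀ _ hμ0] at h3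
    exact hα' (hα.unique (Place.at_zero_iff.2 h2))
  · have hwi : v.Vanishes w⁻¹ := by
      rw [Place.vanishes_iff_or, inv_inv]
      exact Or.inr hw
    have hwim : w⁻¹ ∈ v.ring := Place.Vanishes.mem v hwi
    have h1 : α / (z * w ^ 2) ∈ v.ring := by
      have e : α / (z * w ^ 2) = α * z⁻¹ * w⁻¹ ^ 2 := by
        field_simp
      rw [e]
      exact mul_mem (mul_mem hα.mem hzi) (pow_mem hwim 2)
    have h2 : z * w ^ 2 ∈ v.ring := by
      have h3 := sub_mem hx h1
      rwa [add_sub_cancel_right] at h3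
    have h3 : w ^ 2 ∈ v.ring := by
      have h4 := mul_mem hzi h2
      rwa [inv_mul_cancel_left₀ hz] at h4
    exact hw (mem_of_sq v h3)

end Pool.Agent.TInf
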