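import Pool.Agent.TInf.FamDefs

/-!
# The roots of `∏ (X - s j) + τ h` over `Om k`
-/

set_option autoImplicit false

noncomputable section

namespace Pool.Agent.TInf

open Pool.Agent.ZCyc Polynomial
open Pool.Agent.VFP (Om tt)

universe u

variable {k : Type u} [Field k] [IsAlgClosed k] [CharZero k] {n : ℕ}

omit [IsAlgClosed k] [CharZero k] in
/-- The polynomial is monic of degree `n`. -/
theorem exists_S (s : Fin n → k) {h : k[X]} (hh : h.degree < n) (τ : Om k) :
    ∃ S : Fin n → Om k, (∏ j, (X - C (s j))).map (algebraMap k (Om k)) +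
      C τ * h.map (algebraMap k (Om k)) = ∏ j, (X - C (S j)) ∧
      (h = 0 → S = fun j => algebraMap k (Om k) (s j)) := by
  classical
  by_cases h0 : h = 0
  · refine ⟨fun j => algebraMap k (Om k) (s j), ?_, fun _ => rfl⟩
    rw [h0, Polynomial.map_zero, mul_zero, add_zero, Polynomial.map_prod]
    refine Finset.prod_congr rfl fun j _ => ?_
    rw [Polynomial.map_sub, map_X, map_C]
  · set Q : (Om k)[X] := (∏ j, (X - C (s j))).map (algebraMap k (Om k)) +
      C τ * h.map (algebraMap k (Om k)) with hQ
    have hm : ((∏ j, (X - C (s j))).map (algebraMap k (Om k))).Monic :=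
      (monic_prod_of_monic _ _ fun j _ => monic_X_sub_C (s j)).map _
    have hd1 : ((∏ j, (X - C (s j))).map (algebraMap k (Om k))).degree = (n : WithBot ℕ) := by
      rw [degree_map, degree_prod]
      simp
    have hd2 : (C τ * h.map (algebraMap k (Om k))).degree <
        ((∏ j, (X - C (s j))).map (algebraMap k (Om k))).degree := by
      rw [hd1, ← smul_eq_C_mul]
      refine lt_of_le_of_lt (degree_smul_le _ _) ?_
      rwa [degree_map]
    have hQm : Q.Monic := hm.add_of_left hd2
    have hQd : Q.natDegree = n := by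
      apply natDegree_eq_of_degree_eq_some
      rw [hQ, degree_add_eq_left_of_degree_lt hd2, hd1]
    have hsp := IsAlgClosed.splits Q
    have hcard : Multiset.card Q.roots = n := by
      rw [← hsp.natDegree_eq_card_roots, hQd]
    obtain ⟨l, hl⟩ : ∃ l : List (Om k), (l : Multiset (Om k)) = Q.roots := Quot.exists_rep _
    have hlen : l.length = n := by
      rw [← hcard, ← hl, Multiset.coe_card]
    refine ⟨fun j => l.get (j.cast hlen.symm), ?_, fun h1 => absurd h1 h0⟩
    rw [hsp.eq_prod_roots_of_monic hQm, ← hl, Multiset.map_coe, Multiset.prod_coe]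
    subst hlen
    have h1 := (Fin.prod_univ_fun_getElem l fun a => X - C a)
    rw [← h1]
    rfl

omit [CharZero k] in
/-- If `τ` has the value `τ₁` then the roots are integral and have values. -/
theorem S_at {s : Fin n → k} {h : k[X]} {τ : Om k} {S : Fin n → Om k}
    (hS : (∏ j, (X - C (s j))).map (algebraMap k (Om k)) +
      C τ * h.map (algebraMap k (Om k)) = ∏ j, (X - C (S j))) {v : Place k (Om k)} {τ₁ : k}
    (hτ : v.At τ τ₁) :
    ∃ s' : Fin n → k, (∀ j, v.At (S j) (s' j)) ∧
      (∏ j, (X - C (s j))) + C τ₁ * h = ∏ j, (X - C (s' j)) := by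
  have hmem : ∀ j, S j ∈ v.ring := by
    intro j
    have hl : (∏ j, (X - C (S j))) ∈ lifts v.ring.subtype := by
      rw [← hS]
      have h1 : ∀ P : k[X], P.map (algebraMap k (Om k)) ∈ lifts v.ring.subtype := by
        intro P
        rw [lifts_iff_coeff_lifts]
        intro m
        rw [coeff_map]
        exact ⟨⟨_, v.const_mem _⟩, rfl⟩
      refine add_mem (h1 _) (mul_mem ?_ (h1 _))
      exact C_mem_lifts v.ring.subtype ⟨τ, hτ.mem⟩
    obtain ⟨q, hq1, -, hq2⟩ := lifts_and_natDegree_eq_and_monic hl
      (monic_prod_of_monic _ _ fun j _ => monic_X_sub_C (S j))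
    have hint : IsIntegral v.ring (S j) := by
      refine ⟨q, hq2, ?_⟩
      have h2 : Polynomial.eval₂ v.ring.subtype (S j) q = 0 := by
        rw [← eval_map, hq1, eval_prod]
        refine Finset.prod_eq_zero (Finset.mem_univ j) ?_
        rw [eval_sub, eval_X, eval_C, sub_self]
      exact h2
    obtain ⟨y, hy⟩ := IsIntegrallyClosed.isIntegral_iff.1 hint
    rw [← hy]
    exact y.2
  choose s' hs' using fun j => DCI57.exists_at v (hmem j)
  refine ⟨s', hs', ?_⟩
  have hinf : Infinite k := IsAlgClosed.instInfinite
  refine Polynomial.funext fun c => ?_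
  have h1 := congrArg (Polynomial.eval (algebraMap k (Om k) c)) hS
  have h2 : v.At (Polynomial.eval (algebraMap k (Om k) c) (∏ j, (X - C (S j))))
      (Polynomial.eval c (∏ j, (X - C (s' j)))) := by
    rw [Polynomial.eval_prod, Polynomial.eval_prod]
    refine Place.At.prod fun j _ => ?_
    rw [eval_sub, eval_X, eval_C, eval_sub, eval_X, eval_C]
    exact (Place.at_const c).sub (hs' j)
  have h3 : v.At (Polynomial.eval (algebraMap k (Om k) c)
      ((∏ j, (X - C (s j))).map (algebraMap k (Om k)) + C τ * h.map (algebraMap k (Om k))))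
      (Polynomial.eval c ((∏ j, (X - C (s j))) + C τ₁ * h)) := by
    rw [eval_add, eval_mul, eval_C, eval_map_algebraMap, eval_map_algebraMap,
      Polynomial.aeval_algebraMap_apply, Polynomial.aeval_algebraMap_apply, eval_add, eval_mul,
      eval_C]
    exact (Place.at_const _).add (hτ.mul (Place.at_const _))
  rw [h1] at h3
  exact h3.unique h2

omit [IsAlgClosed k] [CharZero k] in
/-- two products of linear factors are equal -/
theorem perm_of_prod {s s' : Fin n → k} (h : ∏ j, (X - C (s j)) = ∏ j, (X - C (s' j))) :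
    ∃ π : Equiv.Perm (Fin n), s' = s ∘ π := by
  classical
  have hroots : ∀ t : Fin n → k, (∏ j, (X - C (t j))).roots = Finset.univ.val.map t := by
    intro t
    have h1 : ∏ j, (X - C (t j)) = ((Finset.univ.val.map t).map fun a => X - C a).prod := by
      rw [Multiset.map_map]
      rfl
    rw [h1, roots_multiset_prod_X_sub_C]
  have h1 : (Finset.univ.val.map s : Multiset k) = Finset.univ.val.map s' := by
    rw [← hroots, ← hroots, h]
  have h2 : ∀ (t : Fin n → k) (z : k), Fintype.card {j // t j = z} =
      (Finset.univ.val.map t).count z := by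
    intro t z
    rw [Multiset.count_map, Fintype.card_subtype]
    show Multiset.card _ = _
    congr 1
    rw [Finset.filter_val]
    refine Multiset.filter_congr fun x _ => ?_
    exact eq_comm
  have h3 : ∀ z, Fintype.card {j // s' j = z} = Fintype.card {j // s j = z} := by
    intro z
    rw [h2, h2, h1]
  refine ⟨Equiv.ofFiberEquiv fun z => (Fintype.card_eq.1 (h3 z)).some, ?_⟩
  funext i
  exact (Equiv.ofFiberEquiv_map _ i).symm

end Pool.Agent.TInf
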