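import Pool.Agent.TInf.EVal

/-!
# Systems of classes

Let `α i`, `B i`, `i < r`, be polynomials. We consider `n`-tuples of points `(s, p)` of the fibre
product over the line of the families of the curves `y ² = x ³ - 3 α_i(s) x + B_i(s)`. The class
function `F` of a system is odd in all points `p i j` and (anti)symmetric in the `n` points of the
fibre product, and zero if not all points are on the curves. `Val v S P C` means that the tuple `(S, P)` over `Om k` has a value with the class `C`
at the place `v`.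
-/

set_option autoImplicit false

noncomputable section

namespace Pool.Agent.TInf

open Pool.Agent.ZCyc Polynomial
open Pool.Agent.VFP (Om tt)

universe u

/-- the values of the polynomial `p` at the points `s j` -/
def ev {k : Type u} [Field k] (p : k[X]) {K : Type*} [Field K] [Algebra k K] {n : ℕ}
    (s : Fin n → K) (j : Fin n) : K := aeval (s j) p

/-- all points are on the curves -/
def OnS {k : Type u} [Field k] {r n : ℕ} (α B : Fin r → k[X]) {K : Type*} [Field K] [Algebra k K]
    (s : Fin n → K) (p : Fin r → Fin n → EPt K) : Prop :=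
  ∀ i j, EOn (ev (α i) s j) (ev (B i) s j) (p i j)

/-- The assumptions about the degrees: the sum of the degrees is twice the number `n` of points; one
discriminant has a zero. -/
structure DegOk {k : Type u} [Field k] {r : ℕ} (n : ℕ) (d : Fin r → ℕ) (α B : Fin r → k[X]) :
    Prop where
  npos : 0 < n
  sum : ∑ i, d i = 2 * n
  dα : ∀ i, (α i).natDegree ≤ 2 * d i
  dB : ∀ i, (B i).natDegree ≤ 3 * d i
  zero : ∃ (i : Fin r) (δ : k), (B i).eval δ ^ 2 = 4 * (α i).eval δ ^ 3

/-- A system of classes of tuples of points of the fibre product. -/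
structure Sys (k : Type u) [Field k] (r n : ℕ) (α B : Fin r → k[X]) (W : Type*) [AddCommGroup W]
    [Module ℚ W] where
  /-- the class -/
  F : (Fin n → k) → (Fin r → Fin n → EPt k) → W
  /-- the tuple over `Om k` has a value with this class -/
  Val : Place k (Om k) → (Fin n → Om k) → (Fin r → Fin n → EPt (Om k)) → W → Prop
  perm : ∀ (s : Fin n → k) (p : Fin r → Fin n → EPt k) (π : Equiv.Perm (Fin n)),
    F (s ∘ π) (fun i => p i ∘ π) = (((Equiv.Perm.sign π : ℤˣ) : ℤ) ^ r) • F s p
  odd : ∀ (s : Fin n → k) (p : Fin r → Fin n → EPt k) (i : Fin r) (j : Fin n) (x y : k),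
    p i j = some (x, y) →
    F s (Function.update p i (Function.update (p i) j (some (x, -y)))) = -F s p
  inf : ∀ (s : Fin n → k) (p : Fin r → Fin n → EPt k) (i : Fin r) (j : Fin n), p i j = none →
    F s p = 0
  off : ∀ (s : Fin n → k) (p : Fin r → Fin n → EPt k), ¬ OnS α B s p → F s p = 0
  fin : ∀ (v : Place k (Om k)) (S : Fin n → Om k) (P : Fin r → Fin n → EPt (Om k)),
    OnS α B S P → ∀ (s : Fin n → k) (p : Fin r → Fin n → EPt k), (∀ j, v.At (S j) (s j)) →
    (∀ i j, EVal v (P i j) (p i j)) → Val v S P (F s p)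
  pole : ∀ (v : Place k (Om k)) (S : Fin n → Om k) (P : Fin r → Fin n → EPt (Om k)),
    OnS α B S P → ∀ (i : Fin r) (j : Fin n) (c : k), v.At (S j) c → EVal v (P i j) none →
    Val v S P 0
  sing : ∀ (v : Place k (Om k)) (S : Fin n → Om k) (P : Fin r → Fin n → EPt (Om k)),
    OnS α B S P → ∀ (i : Fin r) (j : Fin n) (c : k), v.At (S j) c →
    (B i).eval c ^ 2 = 4 * (α i).eval c ^ 3 → Val v S P 0
  bridge : ∀ {I : Type} [Fintype I] (w : I → ℚ) (S : I → Fin n → Om k)
    (P : I → Fin r → Fin n → EPt (Om k)), (∀ x, OnS α B (S x) (P x)) → ∀ (c₀ c₁ : k) (C₀ C₁ : W),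
    (∀ v : Place k (Om k), v.At (tt k) c₀ → ∃ C : I → W, (∀ x, Val v (S x) (P x) (C x)) ∧
      ∑ x, w x • C x = C₀) →
    (∀ v : Place k (Om k), v.At (tt k) c₁ → ∃ C : I → W, (∀ x, Val v (S x) (P x) (C x)) ∧
      ∑ x, w x • C x = C₁) → C₀ = C₁

end Pool.Agent.TInf
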