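import Pool.Agent.TInf.ConfU
import Pool.Agent.TInf.Sys

/-!
# General tuples of points of the line
-/

set_option autoImplicit false

noncomputable section

namespace Pool.Agent.TInf

open Polynomial

universe u

variable {k : Type u} [Field k]

/-- the numbers `B(x) ² / α(x) ³` are equal -/
def Iso (α B : k[X]) : Prop :=
  ∀ x y : k, B.eval x ^ 2 * α.eval y ^ 3 = B.eval y ^ 2 * α.eval x ^ 3

/-- the polynomial whose zeros are excluded for the pair `(x, y)` -/
def pairPol (α B : k[X]) (x : k) : k[X] :=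
  C (α.eval x ^ 3) * B ^ 2 - C (B.eval x ^ 2) * α ^ 3

theorem pairPol_eval (α B : k[X]) (x y : k) :
    (pairPol α B x).eval y = α.eval x ^ 3 * B.eval y ^ 2 - B.eval x ^ 2 * α.eval y ^ 3 := by
  simp [pairPol]

theorem pairPol_ne {α B : k[X]} (h : ¬ Iso α B) {x : k} (hx : α.eval x ≠ 0) :
    pairPol α B x ≠ 0 := by
  intro h0
  apply h
  have h1 : ∀ y, α.eval x ^ 3 * B.eval y ^ 2 = B.eval x ^ 2 * α.eval y ^ 3 := by
    intro y
    have h2 := pairPol_eval α B x y
    rw [h0, eval_zero] at h2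
    exact (sub_eq_zero.1 h2.symm)
  have hx3 : α.eval x ^ 3 ≠ 0 := pow_ne_zero 3 hx
  intro y z
  have hy := h1 y
  have hz := h1 z
  apply mul_left_cancel₀ hx3
  calc α.eval x ^ 3 * (B.eval y ^ 2 * α.eval z ^ 3)
      = (α.eval x ^ 3 * B.eval y ^ 2) * α.eval z ^ 3 := by ring
    _ = (B.eval x ^ 2 * α.eval y ^ 3) * α.eval z ^ 3 := by rw [hy]
    _ = (B.eval x ^ 2 * α.eval z ^ 3) * α.eval y ^ 3 := by ring
    _ = (α.eval x ^ 3 * B.eval z ^ 2) * α.eval y ^ 3 := by rw [hz]
    _ = α.eval x ^ 3 * (B.eval z ^ 2 * α.eval y ^ 3) := by ring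

variable {r n : ℕ}

open Classical in
/-- the excluded points -/
def excl (α B : Fin r → k[X]) : Finset k :=
  Finset.univ.biUnion fun i =>
    ((α i).roots.toFinset ∪ (B i).roots.toFinset) ∪ (B i ^ 2 - 4 * α i ^ 3).roots.toFinset

open Classical in
/-- the points `y` such that the pair `(x, y)` is excluded -/
def excl₂ (α B : Fin r → k[X]) (x : k) : Finset k :=
  Finset.univ.biUnion fun i => if Iso (α i) (B i) then ∅ else (pairPol (α i) (B i) x).roots.toFinset

theorem ndU_of_general {α B : Fin r → k[X]} (hα : ∀ i, α i ≠ 0) (hB : ∀ i, B i ≠ 0)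
    (hd : ∀ i, B i ^ 2 - 4 * α i ^ 3 ≠ 0) {s : Fin n → k} (h1 : ∀ j, s j ∉ excl α B)
    (h2 : ∀ j j', j < j' → s j' ∉ excl₂ α B (s j)) (i : Fin r) :
    NdU (ev (α i) s) (ev (B i) s) ∧ (Iso (α i) (B i) ∨
      ∀ j j', j ≠ j' → ev (B i) s j ^ 2 * ev (α i) s j' ^ 3 ≠
        ev (B i) s j' ^ 2 * ev (α i) s j ^ 3) := by
  classical
  have hev : ∀ (p : k[X]) (j : Fin n), ev p s j = p.eval (s j) := fun p j => by
    simp [ev, aeval_def]
  have hmem : ∀ j, s j ∉ (α i).roots.toFinset ∧ s j ∉ (B i).roots.toFinset ∧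
      s j ∉ (B i ^ 2 - 4 * α i ^ 3).roots.toFinset := by
    intro j
    have h3 := h1 j
    simp only [excl, Finset.mem_biUnion, Finset.mem_univ, true_and, not_exists,
      Finset.mem_union, not_or] at h3
    exact ⟨(h3 i).1.1, (h3 i).1.2, (h3 i).2⟩
  have ha : ∀ j, (α i).eval (s j) ≠ 0 := by
    intro j h0
    apply (hmem j).1
    rw [Multiset.mem_toFinset, mem_roots (hα i)]
    exact h0
  have hb : ∀ j, (B i).eval (s j) ≠ 0 := by
    intro j h0
    apply (hmem j).2.1
    rw [Multiset.mem_toFinset, mem_roots (hB i)]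
    exact h0
  have hc : ∀ j, (B i).eval (s j) ^ 2 ≠ 4 * (α i).eval (s j) ^ 3 := by
    intro j h0
    apply (hmem j).2.2
    rw [Multiset.mem_toFinset, mem_roots (hd i)]
    simp only [IsRoot.def, eval_sub, eval_pow, eval_mul]
    rw [h0]
    have : eval (s j) (4 : k[X]) = 4 := by
      exact eval_ofNat 4 (s j)
    rw [this, sub_self]
  have hdist : Iso (α i) (B i) ∨
      ∀ j j', j ≠ j' → ev (B i) s j ^ 2 * ev (α i) s j' ^ 3 ≠
        ev (B i) s j' ^ 2 * ev (α i) s j ^ 3 := by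
    by_cases hI : Iso (α i) (B i)
    · exact Or.inl hI
    right
    have key : ∀ j j', j < j' → (B i).eval (s j) ^ 2 * (α i).eval (s j') ^ 3 ≠
        (B i).eval (s j') ^ 2 * (α i).eval (s j) ^ 3 := by
      intro j j' hj h0
      have h3 := h2 j j' hj
      simp only [excl₂, Finset.mem_biUnion, Finset.mem_univ, true_and, not_exists] at h3
      have h4 := h3 i
      rw [if_neg hI, Multiset.mem_toFinset, mem_roots (pairPol_ne hI (ha j))] at h4
      apply h4
      rw [IsRoot.def, pairPol_eval]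
      linear_combination -h0
    intro j j' hj h0
    rw [hev, hev, hev, hev] at h0
    rcases lt_or_gt_of_ne hj with h3 | h3
    · exact key j j' h3 h0
    · exact key j' j h3 h0.symm
  refine ⟨⟨fun j => by rw [hev]; exact ha j, fun j => by rw [hev]; exact hb j,
    fun j => by rw [hev, hev]; exact hc j, ?_⟩, hdist⟩
  rcases hdist with hI | hI
  · right
    intro j j'
    rw [hev, hev, hev, hev]
    exact hI _ _
  · exact Or.inl hI

/-- admissible square roots -/
theorem exists_adm [IsAlgClosed k] {α B : Fin n → k} (h : NdU α B) (hn : 0 < n) :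
    ∃ β : Fin n → k, Adm α B β := by
  rcases h.dist with hd | hd
  · have h1 : ∀ j, ∃ z : k, z ^ 2 = α j ^ 3 := fun j =>
      IsAlgClosed.exists_pow_nat_eq _ (by norm_num)
    choose β hβ using h1
    exact ⟨β, hβ, Or.inl hd⟩
  · obtain ⟨γ, hγ⟩ := IsAlgClosed.exists_pow_nat_eq
      (α ⟨0, hn⟩ ^ 3 / B ⟨0, hn⟩ ^ 2) (n := 2) (by norm_num)
    refine ⟨fun j => γ * B j, fun j => ?_, Or.inr fun i j => by ring⟩
    rw [mul_pow, hγ]
    have h1 := hd j ⟨0, hn⟩
    have h2 := h.hB ⟨0, hn⟩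
    field_simp
    linear_combination h1

end Pool.Agent.TInf
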