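import Pool.Agent.TInf.Multi

/-!
# The value zero for several fibre indices
-/

set_option autoImplicit false

noncomputable section

namespace Pool.Agent.TInf

universe u

variable {k : Type u} [Field k] {r n : ℕ} {W : Type*} [AddCommGroup W] [Module ℚ W]

private theorem mz_class {α B : Fin r → Fin n → k} {G : (Fin r → Fin n → EPt k) → W}
    (hG : MultiClass α B G) {A : Type} (S : Finset A) (p : A → Fin r → Fin n → EPt k)
    (i : Fin r) : ClassFn (α i) (B i) fun q => ∑ a ∈ S, G (Function.update (p a) i q) := by
  have h := hG i (A := S) (fun _ => (1 : ℚ)) (fun a => p a)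
  simp only [one_smul] at h
  have e : (fun q : Fin n → EPt k => ∑ a ∈ S, G (Function.update (p a) i q)) =
      fun q => ∑ a : S, G (Function.update (p a) i q) := by
    funext q
    exact (Finset.sum_coe_sort S fun a => G (Function.update (p a) i q)).symm
  rw [e]
  exact h

/-- the numbered points for the indices in `J`, the points `P` for the other indices -/
private def mzMix (J : Finset (Fin r)) (ζ : k) (α : Fin r → Fin n → k)
    (s : Fin r → Fin n → Side k) (w : Fin r → Fin n → k) (P : Fin r → Fin n → EPt k)
    (a : Fin r → Fin n → ZMod 3) : Fin r → Fin n → EPt k := fun i =>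
  if i ∈ J then fun j => epoint ζ (α i j) (s i j) (w i j) (a i j) else P i

/-- the numbers for the indices in `J` -/
private def mzSet (n : ℕ) (J : Finset (Fin r)) (l : Fin r → ZMod 3) :
    Finset (Fin r → Fin n → ZMod 3) :=
  Finset.univ.filter fun a => (∀ i, i ∉ J → a i = 0) ∧ ∀ i ∈ J, ∑ j, a i j = l i

/-- the partial sum -/
private def mzSum (J : Finset (Fin r)) (G : (Fin r → Fin n → EPt k) → W) (ζ : k)
    (α : Fin r → Fin n → k) (s : Fin r → Fin n → Side k) (w : Fin r → Fin n → k)
    (l : Fin r → ZMod 3) (P : Fin r → Fin n → EPt k) : W :=
  ∑ a ∈ mzSet n J l, G (mzMix J ζ α s w P a)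

omit [Module ℚ W] in
private theorem mzSum_univ (G : (Fin r → Fin n → EPt k) → W) (ζ : k) (α : Fin r → Fin n → k)
    (s : Fin r → Fin n → Side k) (w : Fin r → Fin n → k) (l : Fin r → ZMod 3)
    (P : Fin r → Fin n → EPt k) : mzSum Finset.univ G ζ α s w l P = MSl G ζ α s w l := by
  unfold mzSum mzSet MSl
  rw [Finset.sum_filter]
  refine Finset.sum_congr rfl fun a _ => ?_
  have h : mzMix Finset.univ ζ α s w P a =
      fun i j => epoint ζ (α i j) (s i j) (w i j) (a i j) := by
    funext i
    unfold mzMix
    rw [if_pos (Finset.mem_univ i)]
  rw [h]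
  simp

omit [Module ℚ W] in
private theorem mzSum_empty (G : (Fin r → Fin n → EPt k) → W) (ζ : k) (α : Fin r → Fin n → k)
    (s : Fin r → Fin n → Side k) (w : Fin r → Fin n → k) (l : Fin r → ZMod 3)
    (P : Fin r → Fin n → EPt k) : mzSum ∅ G ζ α s w l P = G P := by
  have h : mzSet n (∅ : Finset (Fin r)) l = {0} := by
    ext a
    simp only [mzSet, Finset.mem_filter, Finset.mem_univ, true_and, Finset.notMem_empty,
      not_false_eq_true, IsEmpty.forall_iff, implies_true, and_true,
      Finset.mem_singleton, forall_const]
    exact funext_iff.symm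
  unfold mzSum
  rw [h, Finset.sum_singleton]
  congr 1

private theorem mzMix_insert {J : Finset (Fin r)} {i : Fin r} (hi : i ∉ J) (ζ : k)
    (α : Fin r → Fin n → k) (s : Fin r → Fin n → Side k) (w : Fin r → Fin n → k)
    (P : Fin r → Fin n → EPt k) (a : Fin r → Fin n → ZMod 3) :
    mzMix (insert i J) ζ α s w P a =
      Function.update (mzMix J ζ α s w P (Function.update a i 0)) i
        fun j => epoint ζ (α i j) (s i j) (w i j) (a i j) := by
  funext i'
  by_cases h : i' = i
  · subst h
    rw [Function.update_self]
    simp [mzMix]
  · rw [Function.update_of_ne h]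
    unfold mzMix
    by_cases hJ : i' ∈ J
    · rw [if_pos (Finset.mem_insert_of_mem hJ), if_pos hJ, Function.update_of_ne h]
    · rw [if_neg hJ, if_neg]
      intro h'
      rcases Finset.mem_insert.1 h' with h'' | h''
      · exact h h''
      · exact hJ h''

private theorem mzMix_update {J : Finset (Fin r)} {i : Fin r} (hi : i ∉ J) (ζ : k)
    (α : Fin r → Fin n → k) (s : Fin r → Fin n → Side k) (w : Fin r → Fin n → k)
    (P : Fin r → Fin n → EPt k) (a : Fin r → Fin n → ZMod 3) (q : Fin n → EPt k) :
    mzMix J ζ α s w (Function.update P i q) a = Function.update (mzMix J ζ α s w P a) i q := by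
  funext i'
  by_cases h : i' = i
  · subst h
    rw [Function.update_self]
    unfold mzMix
    rw [if_neg hi, Function.update_self]
  · rw [Function.update_of_ne h]
    unfold mzMix
    rw [Function.update_of_ne h]

omit [Module ℚ W] in
private theorem mzSum_insert {J : Finset (Fin r)} {i : Fin r} (hi : i ∉ J)
    (G : (Fin r → Fin n → EPt k) → W) (ζ : k) (α : Fin r → Fin n → k)
    (s : Fin r → Fin n → Side k) (w : Fin r → Fin n → k) (l : Fin r → ZMod 3)
    (P : Fin r → Fin n → EPt k) :
    mzSum (insert i J) G ζ α s w l P =
      Sl (fun q => mzSum J G ζ α s w l (Function.update P i q)) ζ (α i) (s i) (w i) (l i) := by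
  unfold Sl mzSum
  rw [← Finset.sum_filter, ← Finset.sum_product']
  refine Finset.sum_bij' (fun a _ => (a i, Function.update a i 0))
    (fun b _ => Function.update b.2 i b.1) ?_ ?_ ?_ ?_ ?_
  · intro a ha
    simp only [mzSet, Finset.mem_filter, Finset.mem_univ, true_and, Finset.mem_product] at ha ⊢
    obtain ⟨h1, h2⟩ := ha
    refine ⟨h2 i (Finset.mem_insert_self i J), ?_, ?_⟩
    · intro i' hi'
      by_cases h : i' = i
      · subst h
        rw [Function.update_self]
      · rw [Function.update_of_ne h]
        refine h1 i' fun h' => ?_
        rcases Finset.mem_insert.1 h' with h'' | h''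
        · exact h h''
        · exact hi' h''
    · intro i' hi'
      have h : i' ≠ i := fun h => hi (h ▸ hi')
      rw [Function.update_of_ne h]
      exact h2 i' (Finset.mem_insert_of_mem hi')
  · intro b hb
    simp only [mzSet, Finset.mem_filter, Finset.mem_univ, true_and, Finset.mem_product] at hb ⊢
    obtain ⟨h0, h1, h2⟩ := hb
    constructor
    · intro i' hi'
      have h : i' ≠ i := fun h => hi' (h ▸ Finset.mem_insert_self i J)
      rw [Function.update_of_ne h]
      exact h1 i' fun h' => hi' (Finset.mem_insert_of_mem h')
    · intro i' hi'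
      rcases Finset.mem_insert.1 hi' with h' | h'
      · subst h'
        rw [Function.update_self]
        exact h0
      · have h : i' ≠ i := fun h => hi (h ▸ h')
        rw [Function.update_of_ne h]
        exact h2 i' h'
  · intro a _
    simp
  · intro b hb
    simp only [mzSet, Finset.mem_filter, Finset.mem_univ, true_and, Finset.mem_product] at hb
    obtain ⟨h0, h1, h2⟩ := hb
    have h3 := h1 i hi
    ext1
    · simp
    · simp only [Function.update_idem]
      rw [← h3]
      exact Function.update_eq_self i b.2
  · intro a _
    rw [mzMix_insert hi, mzMix_update hi]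

/-- If all sums `MSl` are zero then `G` is zero: apply `f_zero` to one index after the other. (Let
`J` be a set of indices, and consider the sums over the `a i` with `i ∈ J` and `∑ j, a i j = l i`,
where the points with the indices `i ∉ J` are arbitrary points of the curves. These sums are zero for
`J = univ`, and if they are zero for `insert i J` then for `J`, by `f_zero`.) -/
theorem multi_zero [IsAlgClosed k] [CharZero k] {α B : Fin r → Fin n → k}
    {G : (Fin r → Fin n → EPt k) → W} (hG : MultiClass α B G) (hn : 0 < n) {ζ : k}
    (hζ : IsPrimitiveRoot ζ 3) (p m : Fin r → Fin n → k) (hB : ∀ i j, p i j + m i j = -B i j)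
    (hα : ∀ i j, (p i j - m i j) ^ 2 = 4 * α i j ^ 3) (hα0 : ∀ i j, α i j ≠ 0)
    (hpm : ∀ i j, p i j * m i j ≠ 0)
    (H : ∀ (T w : Fin r → Fin n → k), (∀ i j, (⟨p i j, m i j, T i j⟩ : Side k).Good) →
      (∀ i j, w i j ^ 6 = (⟨p i j, m i j, T i j⟩ : Side k).V) →
      ∀ l, MSl G ζ α (fun i j => ⟨p i j, m i j, T i j⟩) w l = 0)
    (P : Fin r → Fin n → EPt k) (hP : ∀ i j, EOn (α i j) (B i j) (P i j)) : G P = 0 := by
  classical
  -- the partial sums are zero
  have key : ∀ J : Finset (Fin r), ∀ (T w : Fin r → Fin n → k),
      (∀ i ∉ J, ∀ j, (⟨p i j, m i j, T i j⟩ : Side k).Good) →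
      (∀ i ∉ J, ∀ j, w i j ^ 6 = (⟨p i j, m i j, T i j⟩ : Side k).V) →
      ∀ (l : Fin r → ZMod 3) (P : Fin r → Fin n → EPt k), (∀ i j, EOn (α i j) (B i j) (P i j)) →
      mzSum Jᶜ G ζ α (fun i j => ⟨p i j, m i j, T i j⟩) w l P = 0 := by
    intro J
    induction J using Finset.induction_on with
    | empty =>
      intro T w hT hw l P _
      rw [Finset.compl_empty, mzSum_univ]
      exact H T w (fun i j => hT i (Finset.notMem_empty i) j)
        (fun i j => hw i (Finset.notMem_empty i) j) l
    | insert i J hi ih =>
      intro T w hT hw l P hP
      have hi' : i ∉ (insert i J)ᶜ := by simp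
      have hins : insert i (insert i J)ᶜ = Jᶜ := by
        ext i'
        by_cases h : i' = i
        · subst h
          simpa using hi
        · simp [h]
      have hcl : ClassFn (α i) (B i) fun q => mzSum (insert i J)ᶜ G ζ α
          (fun i j => ⟨p i j, m i j, T i j⟩) w l (Function.update P i q) := by
        unfold mzSum
        simp only [mzMix_update hi']
        exact mz_class hG _ _ i
      have h0 := f_zero hcl hn hζ (p i) (m i) (hB i) (hα i) (hα0 i) (hpm i) ?_ (P i) (hP i)
      · simp only [Function.update_eq_self] at h0
        exact h0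
      · intro T' w' hT' hw' l'
        have h1 := ih (Function.update T i T') (Function.update w i w') ?_ ?_
          (Function.update l i l') P hP
        · rw [← hins, mzSum_insert hi'] at h1
          simp only [Function.update_self] at h1
          rw [← h1]
          congr 1
          funext q
          unfold mzSum
          have hset : mzSet n (insert i J)ᶜ (Function.update l i l') = mzSet n (insert i J)ᶜ l := by
            unfold mzSet
            congr 1
            funext a
            refine propext (and_congr_right fun _ => forall₂_congr fun i' hi'' => ?_)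
            have hne : i' ≠ i := fun h => hi' (h ▸ hi'')
            rw [Function.update_of_ne hne]
          rw [hset]
          refine Finset.sum_congr rfl fun a _ => ?_
          congr 1
          funext i'
          unfold mzMix
          by_cases h : i' ∈ (insert i J)ᶜ
          · have hne : i' ≠ i := fun h' => hi' (h' ▸ h)
            rw [if_pos h, if_pos h]
            simp only [Function.update_of_ne hne]
          · rw [if_neg h, if_neg h]
        · intro i' hi'' j
          by_cases h : i' = i
          · subst h
            simp only [Function.update_self]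
            exact hT' j
          · simp only [Function.update_of_ne h]
            exact hT i' (by simp [h, hi'']) j
        · intro i' hi'' j
          by_cases h : i' = i
          · subst h
            simp only [Function.update_self]
            exact hw' j
          · simp only [Function.update_of_ne h]
            exact hw i' (by simp [h, hi'']) j
  have h1 := key Finset.univ (fun _ _ => 0) (fun _ _ => 0)
    (fun i hi => absurd (Finset.mem_univ i) hi) (fun i hi => absurd (Finset.mem_univ i) hi)
    (fun _ => 0) P hP
  rw [Finset.compl_univ, mzSum_empty] at h1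
  exact h1

end Pool.Agent.TInf
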