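import Pool.Agent.TInf.FamDefs

/-!
# Bounded families are constant
-/

set_option autoImplicit false

noncomputable section

namespace Pool.Agent.TInf

open Pool.Agent.ZCyc Polynomial
open Pool.Agent.VFP (Om tt)

universe u

variable {k : Type u} [Field k] [IsAlgClosed k] [CharZero k]

omit [IsAlgClosed k] [CharZero k] in
/-- a polynomial with a pole at `v` -/
theorem const_of_mem {v : Place k (Om k)} {τ : Om k} (hτ : τ ∉ v.ring) {p : k[X]}
    (h : aeval τ p ∈ v.ring) : p = C (p.eval 0) := by
  have hinv : τ⁻¹ ∈ v.ring := by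
    rcases v.ring.mem_or_inv_mem τ with h1 | h1
    · exact absurd h1 hτ
    · exact h1
  have hτ0 : τ ≠ 0 := by
    rintro rfl
    exact hτ (zero_mem _)
  induction hn : p.natDegree using Nat.strong_induction_on generalizing p with
  | _ n ih =>
    rcases Nat.eq_zero_or_pos n with h0 | h0
    · subst h0
      obtain ⟨c, rfl⟩ := natDegree_eq_zero.1 hn
      simp
    · have hlt : p.divX.natDegree < n := by
        rw [natDegree_divX_eq_natDegree_tsub_one, hn]
        omega
      have e1 : aeval τ p = τ * aeval τ p.divX + algebraMap k (Om k) (p.coeff 0) := by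
        have e0 := congrArg (aeval τ) (divX_mul_X_add p)
        rw [map_add, map_mul, aeval_X, aeval_C] at e0
        rw [← e0, mul_comm τ]
      have e2 : τ * aeval τ p.divX ∈ v.ring := by
        have : τ * aeval τ p.divX = aeval τ p - algebraMap k (Om k) (p.coeff 0) := by
          rw [e1]; ring
        rw [this]
        exact sub_mem h (v.const_mem _)
      have e3 : aeval τ p.divX ∈ v.ring := by
        have : aeval τ p.divX = τ⁻¹ * (τ * aeval τ p.divX) := by
          field_simp
        rw [this]
        exact mul_mem hinv e2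
      have e4 := ih _ hlt e3 rfl
      set c := p.divX.eval 0 with hc
      have e5 : c = 0 := by
        by_contra hc0
        rw [e4, aeval_C] at e2
        apply hτ
        have : τ = τ * algebraMap k (Om k) c * algebraMap k (Om k) c⁻¹ := by
          rw [mul_assoc, ← map_mul, mul_inv_cancel₀ hc0, map_one, mul_one]
        rw [this]
        exact mul_mem e2 (v.const_mem _)
      rw [e5, C_0] at e4
      have e6 : p = C (p.coeff 0) := by
        conv_lhs => rw [← divX_mul_X_add p, e4]
        simp
      rw [e6]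
      simp

omit [IsAlgClosed k] [CharZero k] in
private theorem map_const {A : k[X][X]} (h : ∀ i, A.coeff i = C ((A.coeff i).eval 0)) :
    A = (A.map (evalRingHom 0)).map C := by
  ext1 i
  rw [coeff_map, coeff_map, coe_evalRingHom]
  exact h i

omit [IsAlgClosed k] [CharZero k] in
private theorem pin_eval_one {v : Place k (Om k)} {P : (Om k)[X]} (h : PIn v P) : P.eval 1 ∈ v.ring := by
  rw [eval_eq_sum_range]
  refine sum_mem fun i _ => ?_
  simpa using h i

omit [IsAlgClosed k] [CharZero k] in
private theorem map_eval_one (τ : Om k) (A : k[X][X]) :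
    (A.map (aeval τ : k[X] →ₐ[k] Om k).toRingHom).eval 1 = aeval τ (A.eval 1) := by
  rw [eval_map]
  have := hom_eval₂ A (RingHom.id _) (aeval τ : k[X] →ₐ[k] Om k).toRingHom 1
  rw [RingHom.comp_id, map_one] at this
  rw [← this]
  rfl

omit [IsAlgClosed k] [CharZero k] in
/-- Let `τ` have a pole at `v`. If the state (in some frame `ρ`) and `w`, `w⁻¹` are bounded at `v`, and
`b(1) c(1) + a(1) ²` is constant (`hbc`), `b(1) c(1)` is not zero for `τ = 0`, then everything is
constant: the coefficients of `A` and `G`, and the products `P_x M_y` of the coefficients of `P` and `M` are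
bounded, hence constant (`const_of_mem`). `P(1) M(1)` is a constant `≠ 0`, so `P(1)` and `M(1)` are
constants `≠ 0`; `P_x M(1)` and `P(1) M_y` are constant. `x(τ) = w ² + γ / w ²` is bounded. -/
theorem const_of_bounded {v : Place k (Om k)} {τ : Om k} (hτ : τ ∉ v.ring) {A P M G : k[X][X]}
    {x : k[X]} {ρ w : Om k} (hρ : ρ ≠ 0) {γ δ : k}
    (ha : PIn v ((mo τ A P M G).rot ρ).a) (hb : PIn v ((mo τ A P M G).rot ρ).b)
    (hc : PIn v ((mo τ A P M G).rot ρ).c) (ht : PIn v ((mo τ A P M G).rot ρ).t)
    (hw : w ∈ v.ring) (hw' : w⁻¹ ∈ v.ring) (hw0 : w ≠ 0)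
    (hx : w ^ 4 - aeval τ x * w ^ 2 + algebraMap k (Om k) γ = 0)
    (hbc : (mo τ A P M G).b.eval 1 * (mo τ A P M G).c.eval 1 =
      algebraMap k (Om k) δ - (mo τ A P M G).a.eval 1 ^ 2)
    (hne : (P.map (evalRingHom 0)).eval 1 * (M.map (evalRingHom 0)).eval 1 ≠ 0) :
    A = (A.map (evalRingHom 0)).map C ∧ P = (P.map (evalRingHom 0)).map C ∧
      M = (M.map (evalRingHom 0)).map C ∧ G = (G.map (evalRingHom 0)).map C ∧
      x = C (x.eval 0) := by
  clear hbc
  have hA : A = (A.map (evalRingHom 0)).map C := by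
    refine map_const fun i => const_of_mem hτ ?_
    have := ha i
    simpa [mo, Mq.rot] using this
  have hG : G = (G.map (evalRingHom 0)).map C := by
    refine map_const fun i => const_of_mem hτ ?_
    have := ht i
    simpa [mo, Mq.rot] using this
  have hP1 : ρ * aeval τ (P.eval 1) ∈ v.ring := by
    have := pin_eval_one hb
    rw [← map_eval_one]
    simpa [mo, Mq.rot] using this
  have hM1 : ρ⁻¹ * aeval τ (M.eval 1) ∈ v.ring := by
    have := pin_eval_one hc
    rw [← map_eval_one]
    simpa [mo, Mq.rot] using this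
  have hPi : ∀ i, ρ * aeval τ (P.coeff i) ∈ v.ring := by
    intro i
    have := hb i
    simpa [mo, Mq.rot] using this
  have hMi : ∀ i, ρ⁻¹ * aeval τ (M.coeff i) ∈ v.ring := by
    intro i
    have := hc i
    simpa [mo, Mq.rot] using this
  have key : ∀ p m : k[X], ρ * aeval τ p ∈ v.ring → ρ⁻¹ * aeval τ m ∈ v.ring →
      p * m = C ((p * m).eval 0) := by
    intro p m h1 h2
    refine const_of_mem hτ ?_
    have : aeval τ (p * m) = (ρ * aeval τ p) * (ρ⁻¹ * aeval τ m) := by
      rw [map_mul]
      field_simp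
    rw [this]
    exact mul_mem h1 h2
  have e0 : ∀ A : k[X][X], (A.map (evalRingHom 0)).eval 1 = (A.eval 1).eval 0 := by
    intro A
    rw [eval_map]
    have := hom_eval₂ A (RingHom.id _) (evalRingHom (0 : k)) 1
    rw [RingHom.comp_id, map_one] at this
    rw [← this]
    rfl
  rw [e0, e0, ← eval_mul] at hne
  have hPM := key _ _ hP1 hM1
  have hu : IsUnit (P.eval 1 * M.eval 1) := by
    rw [hPM]
    exact isUnit_C.2 (isUnit_iff_ne_zero.2 hne)
  have hP1u : IsUnit (P.eval 1) := isUnit_of_mul_isUnit_left hu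
  have hM1u : IsUnit (M.eval 1) := isUnit_of_mul_isUnit_right hu
  obtain ⟨p1, hp1, hp1e⟩ := isUnit_iff.1 hP1u
  obtain ⟨m1, hm1, hm1e⟩ := isUnit_iff.1 hM1u
  have hp10 : p1 ≠ 0 := hp1.ne_zero
  have hm10 : m1 ≠ 0 := hm1.ne_zero
  have hP : P = (P.map (evalRingHom 0)).map C := by
    refine map_const fun i => ?_
    have h1 := key _ _ (hPi i) hM1
    rw [← hm1e, eval_mul, eval_C, C_mul] at h1
    exact mul_right_cancel₀ (C_ne_zero.2 hm10) h1
  have hM : M = (M.map (evalRingHom 0)).map C := by
    refine map_const fun i => ?_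
    have h1 := key _ _ hP1 (hMi i)
    rw [← hp1e, eval_mul, eval_C, C_mul] at h1
    exact mul_left_cancel₀ (C_ne_zero.2 hp10) h1
  refine ⟨hA, hP, hM, hG, const_of_mem hτ ?_⟩
  have : aeval τ x = w ^ 2 + algebraMap k (Om k) γ * w⁻¹ ^ 2 := by
    have h2 : aeval τ x * w ^ 2 = w ^ 4 + algebraMap k (Om k) γ := by linear_combination -hx
    field_simp
    rw [h2]
  rw [this]
  exact add_mem (pow_mem hw 2) (mul_mem (v.const_mem _) (pow_mem hw' 2))

end Pool.Agent.TInf
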