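import Pool.Agent.TInf.Peel

/-!
# Degrees of the entries of the state
-/

set_option autoImplicit false

noncomputable section

namespace Pool.Agent.TInf

open Polynomial

variable {K : Type*} [Field K] [CharZero K] {s : Side K}

omit [CharZero K] in
private lemma PD_mono {n m : ℕ} (h : n ≤ m) {p : K[X]} (hp : p ∈ degreeLT K n) :
    p ∈ degreeLT K m := by
  rw [mem_degreeLT] at hp ⊢
  exact hp.trans_le (Nat.cast_le.2 h)

omit [CharZero K] in
private lemma PD_C {n : ℕ} (r : K) {p : K[X]} (hp : p ∈ degreeLT K n) :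
    C r * p ∈ degreeLT K n := by
  rw [C_mul']
  exact Submodule.smul_mem _ _ hp

omit [CharZero K] in
private lemma PD_X {n : ℕ} {p : K[X]} (hp : p ∈ degreeLT K n) : X * p ∈ degreeLT K (n + 1) := by
  rw [mem_degreeLT] at hp ⊢
  by_cases h : p = 0
  · rw [h, mul_zero, degree_zero]
    exact WithBot.bot_lt_coe _
  · rw [degree_eq_natDegree h] at hp
    rw [degree_mul, degree_X, degree_eq_natDegree h]
    have h1 : p.natDegree < n := by exact_mod_cast hp
    have h2 : 1 + p.natDegree < n + 1 := by omega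
    exact_mod_cast h2

omit [CharZero K] in
private lemma PD_sub {n : ℕ} {p : K[X]} (hp : p ∈ degreeLT K n) :
    (1 - X) * p ∈ degreeLT K (n + 1) := by
  rw [sub_mul, one_mul]
  exact Submodule.sub_mem _ (PD_mono (Nat.le_succ n) hp) (PD_X hp)

omit [CharZero K] in
private lemma PD_cancel (hD : s.D ≠ 0) {n : ℕ} {p : K[X]} (hp : s.r * p ∈ degreeLT K (n + 1)) :
    p ∈ degreeLT K n := by
  rw [mem_degreeLT] at hp ⊢
  by_cases h : p = 0
  · rw [h, degree_zero]
    exact WithBot.bot_lt_coe _
  · have h1 : s.r = C (-s.D) * X + C (s.b ^ 2) := by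
      rw [Side.r, C_neg]
      ring
    rw [h1, degree_mul, degree_linear (neg_ne_zero.2 hD), degree_eq_natDegree h] at hp
    rw [degree_eq_natDegree h]
    have h2 : 1 + p.natDegree < n + 1 := by exact_mod_cast hp
    have h3 : p.natDegree < n := by omega
    exact_mod_cast h3

theorem Deg_push {n : ℕ} {M : Mq K} (h : M.Deg n) : (push s M).Deg (n + 1) := by
  obtain ⟨ha, hb, hc, ht⟩ := h
  rw [← mem_degreeLT] at ha hb hc ht
  refine ⟨?_, ?_, ?_, ?_⟩ <;> rw [← mem_degreeLT] <;> unfold push <;> dsimp only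
  · refine Submodule.add_mem _ (PD_mono (by omega) (PD_C _ ha)) (PD_X ?_)
    exact Submodule.sub_mem _ (PD_C _ hb) (PD_C _ hc)
  · refine Submodule.sub_mem _ (Submodule.sub_mem _ (Submodule.add_mem _ ?_ ?_) ?_) ?_
    · exact PD_mono (by omega) (PD_C _ ha)
    · exact PD_mono (by omega) (PD_C _ hb)
    · exact PD_mono (by omega) (PD_C _ hc)
    · rw [mul_assoc]
      exact PD_mono (by omega) (PD_sub (PD_C _ ht))
  · refine Submodule.sub_mem _ (Submodule.add_mem _ (Submodule.sub_mem _ (Submodule.neg_mem _ ?_)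
      ?_) ?_) ?_
    · exact PD_mono (by omega) (PD_C _ ha)
    · exact PD_mono (by omega) (PD_C _ hb)
    · exact PD_mono (by omega) (PD_C _ hc)
    · rw [mul_assoc]
      exact PD_mono (by omega) (PD_sub (PD_C _ ht))
  · refine Submodule.add_mem _ (Submodule.add_mem _ ?_ ?_) ?_
    · exact PD_mono (by omega) (PD_C _ ht)
    · exact PD_mono (by omega) (PD_C _ hb)
    · exact PD_mono (by omega) (PD_C _ hc)

/-- compare the degrees in `pull s M = (b ² - D θ) M₁`, `M = push s M₁` -/
theorem Deg_inner {n : ℕ} (hs : s.Good) (hn : s.Nd) {M : Mq K} (h : (push s M).Deg (n + 1)) :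
    M.Deg n := by
  obtain ⟨ha, hb, hc, ht⟩ := h
  rw [← mem_degreeLT] at ha hb hc ht
  have h1 := pull_push hs M
  have ea : (pull s (push s M)).a = s.r * M.a := by rw [h1]; rfl
  have eb : (pull s (push s M)).b = s.r * M.b := by rw [h1]; rfl
  have ec : (pull s (push s M)).c = s.r * M.c := by rw [h1]; rfl
  have et : (pull s (push s M)).t = s.r * M.t := by rw [h1]; rfl
  refine ⟨?_, ?_, ?_, ?_⟩ <;> rw [← mem_degreeLT]
  · apply PD_cancel hn.D
    rw [← ea]
    unfold pull
    dsimp only
    refine Submodule.sub_mem _ (PD_mono (by omega) (PD_C _ ha)) (PD_mono (n := (n + 1 + 1) / 2 + 1)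
      (by omega) (PD_X ?_))
    exact Submodule.sub_mem _ (PD_C _ hb) (PD_C _ hc)
  · apply PD_cancel hn.D
    rw [← eb]
    unfold pull
    dsimp only
    refine PD_C _ (Submodule.add_mem _ (Submodule.sub_mem _ (Submodule.add_mem _
      (Submodule.neg_mem _ ?_) ?_) ?_) ?_)
    · exact PD_mono (by omega) (PD_C _ ha)
    · exact PD_mono (by omega) (PD_C _ hb)
    · exact PD_mono (by omega) (PD_C _ hc)
    · rw [mul_assoc]
      exact PD_mono (by omega) (PD_sub (PD_C _ ht))
  · apply PD_cancel hn.D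
    rw [← ec]
    unfold pull
    dsimp only
    refine PD_C _ (Submodule.add_mem _ (Submodule.add_mem _ (Submodule.sub_mem _ ?_ ?_) ?_) ?_)
    · exact PD_mono (by omega) (PD_C _ ha)
    · exact PD_mono (by omega) (PD_C _ hb)
    · exact PD_mono (by omega) (PD_C _ hc)
    · rw [mul_assoc]
      exact PD_mono (by omega) (PD_sub (PD_C _ ht))
  · apply PD_cancel hn.D
    rw [← et]
    unfold pull
    dsimp only
    refine Submodule.add_mem _ (Submodule.sub_mem _ (Submodule.neg_mem _ ?_) ?_) ?_
    · exact PD_mono (by omega) (PD_C _ hb)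
    · exact PD_mono (by omega) (PD_C _ hc)
    · exact PD_mono (by omega) (PD_C _ ht)

/-- without sides -/
theorem eq_one_of_Deg {M : Mq K} (h : M.Deg 0) (hq : M.q = 1) (h0 : M.a.eval 0 = 1) :
    M = Mq.one := by
  obtain ⟨ha, hb, hc, ht⟩ := h
  have z : ∀ {p : K[X]}, p.degree < ((0 : ℕ) : WithBot ℕ) → p = 0 := by
    intro p hp
    rw [← mem_degreeLT] at hp
    rw [mem_degreeLT] at hp
    by_contra h1
    rw [degree_eq_natDegree h1] at hp
    have h2 : p.natDegree < 0 := by exact_mod_cast hp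
    omega
  have hb' := z hb
  have hc' := z hc
  have ht' := z ht
  have ha' : M.a = 1 := by
    have h1 : M.a.degree ≤ 0 := by
      have h2 : M.a.degree < ((1 : ℕ) : WithBot ℕ) := ha
      by_cases h3 : M.a = 0
      · rw [h3, degree_zero]
        exact bot_le
      · rw [degree_eq_natDegree h3] at h2 ⊢
        have h4 : M.a.natDegree < 1 := by exact_mod_cast h2
        have h5 : M.a.natDegree = 0 := by omega
        rw [h5]
        exact le_rfl
    rw [eq_C_of_degree_le_zero h1, coeff_zero_eq_eval_zero, h0, C_1]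
  apply Mq.ext
  · exact ha'
  · exact hb'
  · exact hc'
  · exact ht'

end Pool.Agent.TInf
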