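import Pool.Agent.TInf.Peel

/-!
# Existence of the inner state
-/

set_option autoImplicit false

noncomputable section

namespace Pool.Agent.TInf

open Polynomial

variable {K : Type*} [Field K] [CharZero K] {s : Side K}

/-- the conditions for the divisibility of `pull s M` -/
theorem pull_zero (hs : s.Good) (hn : s.Nd) {M : Mq K} (hq : M.q.eval s.th = 0)
    (hc : M.c.eval s.th ≠ 0) (hT : den s M * s.T = -s.b * M.c.eval s.th) :
    (pull s M).a.eval s.th = 0 ∧ (pull s M).b.eval s.th = 0 ∧ (pull s M).c.eval s.th = 0 ∧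
      (pull s M).t.eval s.th = 0 := by
  obtain ⟨h0, h1, h2⟩ := hs
  obtain ⟨h3, h4, h5⟩ := hn
  have h3' : s.p + s.m ≠ 0 := by
    intro h
    apply h3
    rw [Side.b, h, zero_div]
  have h6 : s.p ≠ 0 := by
    intro h
    apply h5
    rw [Side.D, h, zero_mul]
  have h7 : s.m ≠ 0 := by
    intro h
    apply h5
    rw [Side.D, h, mul_zero]
  simp only [Mq.q, eval_add, eval_sub, eval_mul, eval_X, eval_pow, eval_one] at hq
  unfold den at hT
  simp only [pull, eval_add, eval_sub, eval_mul, eval_C, eval_X, eval_neg, eval_one]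
  have hth : s.th = s.b ^ 2 / s.D := rfl
  generalize hA : M.a.eval s.th = A at *
  generalize hB : M.b.eval s.th = B at *
  generalize hC : M.c.eval s.th = C' at *
  generalize ht : M.t.eval s.th = t at *
  rw [hth] at hq ⊢
  have hCe : C' = -(A - s.b * s.g / s.D * t) * s.T / s.b := by
    rw [eq_div_iff h3]
    linear_combination hT
  have hBe : B = s.D * (A + s.b * s.g / s.D * t) / (s.b * s.T) := by
    have h8 : C' * (B * (s.b * s.T) - s.D * (A + s.b * s.g / s.D * t)) = 0 := by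
      have e1 : s.b ^ 2 - s.D = s.g ^ 2 := by
        simp only [Side.b, Side.D, Side.g]
        ring
      have h9 : s.D ^ 2 * (A ^ 2 + s.b ^ 2 / s.D * B * C' +
          s.b ^ 2 / s.D * (1 - s.b ^ 2 / s.D) * t ^ 2) = 0 := by
        rw [hq, mul_zero]
      have h10 : s.D ^ 2 * A ^ 2 + s.D * s.b ^ 2 * B * C' - s.b ^ 2 * s.g ^ 2 * t ^ 2 = 0 := by
        rw [← h9, ← e1]
        field_simp
        ring
      have h11 : s.b * C' = -(A - s.b * s.g / s.D * t) * s.T := by
        rw [hCe]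
        field_simp
      have h12 : s.D * (s.b * C') = -(s.D * A - s.b * s.g * t) * s.T := by
        rw [h11]
        field_simp
      have h13 : s.D * s.b * (C' * (B * (s.b * s.T) - s.D * (A + s.b * s.g / s.D * t))) = 0 := by
        have h14 : s.D * (A + s.b * s.g / s.D * t) = s.D * A + s.b * s.g * t := by
          field_simp
        rw [h14]
        linear_combination s.T * h10 - (s.D * A + s.b * s.g * t) * h12
      rcases mul_eq_zero.1 h13 with h14 | h14
      · exact absurd h14 (mul_ne_zero h5 h3)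
      · exact h14
    rcases mul_eq_zero.1 h8 with h9 | h9
    · exact absurd h9 hc
    · rw [eq_div_iff (mul_ne_zero h3 h0)]
      linear_combination h9
  rw [hBe, hCe]
  simp only [Side.b, Side.g, Side.D] at h3 h4 h5 ⊢
  refine ⟨?_, ?_, ?_, ?_⟩ <;> field_simp <;> ring

/-- existence of the inner state -/
theorem exists_inner (hs : s.Good) (hn : s.Nd) {M : Mq K} (hq : M.q.eval s.th = 0)
    (hc : M.c.eval s.th ≠ 0) (hT : den s M * s.T = -s.b * M.c.eval s.th) :
    ∃ M₁ : Mq K, pull s M = Mq.mul s.r M₁ ∧ push s M₁ = M := by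
  obtain ⟨ha, hb, hc', ht⟩ := pull_zero hs hn hq hc hT
  have hr : s.r = C (-s.D) * (X - C s.th) := by
    have h1 : s.D * s.th = s.b ^ 2 := by
      rw [Side.th, mul_div_cancel₀ _ hn.D]
    rw [Side.r, ← h1]
    simp only [C_mul, C_neg]
    ring
  have hdiv : ∀ f : K[X], f.eval s.th = 0 → ∃ g, f = s.r * g := by
    intro f hf
    obtain ⟨g, hg⟩ := dvd_iff_isRoot.2 hf
    refine ⟨C (-s.D)⁻¹ * g, ?_⟩
    rw [hr, hg]
    have h1 : C (-s.D) * C (-s.D)⁻¹ = (1 : K[X]) := by
      rw [← C_mul, mul_inv_cancel₀ (neg_ne_zero.2 hn.D), C_1]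
    linear_combination -(X - C s.th) * g * h1
  obtain ⟨a, ha⟩ := hdiv _ ha
  obtain ⟨b, hb⟩ := hdiv _ hb
  obtain ⟨c, hc'⟩ := hdiv _ hc'
  obtain ⟨t, ht⟩ := hdiv _ ht
  have h1 : pull s M = Mq.mul s.r ⟨a, b, c, t⟩ := Mq.ext ha hb hc' ht
  refine ⟨⟨a, b, c, t⟩, h1, ?_⟩
  have hr0 : s.r ≠ 0 := by
    rw [hr]
    exact mul_ne_zero (C_ne_zero.2 (neg_ne_zero.2 hn.D)) (X_sub_C_ne_zero _)
  have h2 := push_pull hs M
  rw [h1] at h2
  have h3 : push s (Mq.mul s.r ⟨a, b, c, t⟩) = Mq.mul s.r (push s ⟨a, b, c, t⟩) := by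
    apply Mq.ext <;> simp only [push, Mq.mul] <;> ring
  rw [h3] at h2
  apply Mq.ext
  · exact mul_left_cancel₀ hr0 (congrArg Mq.a h2)
  · exact mul_left_cancel₀ hr0 (congrArg Mq.b h2)
  · exact mul_left_cancel₀ hr0 (congrArg Mq.c h2)
  · exact mul_left_cancel₀ hr0 (congrArg Mq.t h2)

/-- `push s` is injective -/
theorem push_inj (hs : s.Good) (hn : s.Nd) {M M' : Mq K} (h : push s M = push s M') : M = M' := by
  have hr0 : s.r ≠ 0 := by
    intro h0
    have h1 := congrArg (fun f => Polynomial.coeff f 1) h0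
    simp only [Side.r, coeff_sub, coeff_C_mul, coeff_X_one, coeff_zero, mul_one] at h1
    rw [coeff_C_of_ne_zero one_ne_zero, zero_sub, neg_eq_zero] at h1
    exact hn.D h1
  have h1 := pull_push hs M
  rw [h, pull_push hs M'] at h1
  apply Mq.ext
  · exact mul_left_cancel₀ hr0 (congrArg Mq.a h1).symm
  · exact mul_left_cancel₀ hr0 (congrArg Mq.b h1).symm
  · exact mul_left_cancel₀ hr0 (congrArg Mq.c h1).symm
  · exact mul_left_cancel₀ hr0 (congrArg Mq.t h1).symm

end Pool.Agent.TInf
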