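import Pool.Agent.TInf.Peel

/-!
# Change of the frame, the flip of the first side
-/

set_option autoImplicit false

noncomputable section

namespace Pool.Agent.TInf

open Polynomial

variable {K : Type*} [Field K] [CharZero K] {s : Side K}

/-- change of the frame: `T' = T / ρ`, `σ = χ(T') / χ(T)`, `χ(T) = (T + p) / (T + m)` -/
theorem push_rot {s' : Side K} (hs : s.Good) (hs' : s'.Good) (hp : s'.p = s.p) (hm : s'.m = s.m)
    {ρ : K} (hρ : ρ ≠ 0) (hT : s'.T = s.T / ρ) (M : Mq K) :
    push s' (M.rot (((s'.T + s.p) * (s.T + s.m)) / ((s'.T + s.m) * (s.T + s.p)))) =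
      (push s M).rot ρ := by
  obtain ⟨p, m, T⟩ := s
  obtain ⟨p', m', T'⟩ := s'
  obtain ⟨h0, h1, h2⟩ := hs
  obtain ⟨h0', h1', h2'⟩ := hs'
  simp only at hp hm hT h0 h1 h2 h0' h1' h2'
  subst hp hm
  have hT2 : T = ρ * T' := by rw [hT]; field_simp
  subst hT2
  clear hT
  apply Mq.ext <;> refine Polynomial.funext fun x => ?_ <;>
    simp only [push, Mq.rot, eval_add, eval_sub, eval_mul, eval_C, eval_X, eval_neg,
      eval_one] <;> field_simp

omit [CharZero K] in
/-- the flip of the first side -/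
theorem push_flip (p m T : K) : push ⟨p, m, T⟩ Mq.one = push ⟨m, p, T⟩ Mq.one := by
  apply Mq.ext <;> simp only [push, Mq.one, mul_zero, mul_one, sub_zero, add_zero, sub_self,
    add_comm p m, mul_comm p m]

end Pool.Agent.TInf
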