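import Pool.Agent.TInf.PeelNe
import Pool.Agent.TInf.PeelInner
import Pool.Agent.TInf.PeelDeg
import Pool.Agent.TInf.PeelRot

/-!
# Lists of sides
-/

set_option autoImplicit false

noncomputable section

namespace Pool.Agent.TInf

open Polynomial

variable {K : Type*} [Field K]

/-- the state of a list of sides; the head of the list is the outermost side -/
def st (l : List (Side K)) : Mq K := l.foldr push Mq.one

@[simp] lemma st_nil : st ([] : List (Side K)) = Mq.one := rfl

@[simp] lemma st_cons (s : Side K) (l : List (Side K)) : st (s :: l) = push s (st l) := rfl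

/-- the pair `(p, m)` -/
def Side.pm (s : Side K) : K × K := (s.p, s.m)

/-- all denominators in the formulas for the `T` are not zero -/
def Gd : List (Side K) → Prop
  | [] => True
  | s :: l => Gd l ∧ s.Good ∧ (st (s :: l)).c.eval s.th ≠ 0

/-- the sides are nondegenerate, and the numbers `b ² / D` are distinct -/
def Ndl (l : List (Side K)) : Prop := (∀ s ∈ l, s.Nd) ∧ l.Pairwise fun s s' => s.th ≠ s'.th

/-- the second list is obtained by exchanging `p` and `m` for some of the sides -/
def Sgn : List (K × K) → List (K × K) → Prop := List.Forall₂ fun x y => y = x ∨ y = (x.2, x.1)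

variable [CharZero K]

theorem q_st {l : List (Side K)} (h : ∀ s ∈ l, s.Good) :
    (st l).q = (l.map fun s => s.r).prod := by
  induction l with
  | nil => simp [Mq.q, Mq.one]
  | cons s l ih =>
    rw [st_cons, q_push (h s (by simp)), ih fun s' hs' => h s' (by simp [hs']), List.map_cons,
      List.prod_cons]

theorem a_st (l : List (Side K)) : (st l).a.eval 0 = (l.map fun s => s.b).prod := by
  induction l with
  | nil => simp [Mq.one]
  | cons s l ih => rw [st_cons, push_a_zero, ih, List.map_cons, List.prod_cons]

theorem V_st {l : List (Side K)} (h : ∀ s ∈ l, s.Good) :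
    (st l).a.eval 1 + ((st l).b.eval 1 - (st l).c.eval 1) / 2 = (l.map fun s => s.V).prod := by
  induction l with
  | nil => simp [Mq.one]
  | cons s l ih =>
    rw [st_cons, push_V (h s (by simp)), ih fun s' hs' => h s' (by simp [hs']), List.map_cons,
      List.prod_cons]

theorem Deg_st (l : List (Side K)) : (st l).Deg l.length := by
  induction l with
  | nil =>
    refine ⟨?_, ?_, ?_, ?_⟩
    · simp [Mq.one]
    · simp [Mq.one]
    · simp [Mq.one]
    · simp [Mq.one]
  | cons s l ih => exact Deg_push ih

/-- `(st l).q` is not zero at `s.th` if `s.th` is different from the `s'.th`, `s' ∈ l` -/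
theorem q_ne {l : List (Side K)} (hg : ∀ s ∈ l, s.Good) (hn : ∀ s ∈ l, s.Nd) {x : K}
    (h : ∀ s ∈ l, s.th ≠ x) : (st l).q.eval x ≠ 0 := by
  rw [q_st hg]
  clear hg
  induction l with
  | nil => simp
  | cons s l ih =>
    rw [List.map_cons, List.prod_cons, eval_mul]
    refine mul_ne_zero ?_ (ih (fun s' hs' => hn s' (by simp [hs']))
      fun s' hs' => h s' (by simp [hs']))
    have h1 : s.D ≠ 0 := (hn s (by simp)).D
    have h2 : s.r.eval x = s.D * (s.th - x) := by
      simp only [Side.r, Side.th, eval_sub, eval_mul, eval_C, eval_X]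
      field_simp
    rw [h2]
    exact mul_ne_zero h1 (sub_ne_zero.2 (h s (by simp)))

end Pool.Agent.TInf
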