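import Pool.Agent.TInf.Bound
import Pool.Agent.TInf.Path
import Pool.Agent.VFP.Util
import Pool.Agent.DCI57.At

/-!
# Auxiliary theorems for the moving family
-/

set_option autoImplicit false

noncomputable section

namespace Pool.Agent.TInf

open Pool.Agent.ZCyc Polynomial
open Pool.Agent.VFP (Om tt)

universe u

section poles

variable {k : Type u} [Field k]

private theorem fa_vanishes_inv {v : Place k (Om k)} {τ : Om k} (hτ : τ ∉ v.ring) :
    v.Vanishes τ⁻¹ := by
  rw [Place.vanishes_iff_or, inv_inv]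
  exact Or.inr hτ

/-- a polynomial is constant if its value at an element with a pole has no pole -/
theorem const_of_pole {v : Place k (Om k)} {τ : Om k} (hτ : τ ∉ v.ring) {p : k[X]}
    (hp : aeval τ p ∈ v.ring) : p = C (p.eval 0) := by
  have hτ0 : τ ≠ 0 := fun h => hτ (h ▸ zero_mem _)
  have hv := fa_vanishes_inv hτ
  by_cases hd : p.natDegree = 0
  · have h1 := eq_C_of_natDegree_eq_zero hd
    rw [coeff_zero_eq_eval_zero] at h1
    exact h1
  exfalso
  let _ : Invertible τ := invertibleOfNonzero hτ0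
  have h1 := eval₂_reverse_mul_pow (algebraMap k (Om k)) τ p
  rw [invOf_eq_inv] at h1
  have h2 : eval₂ (algebraMap k (Om k)) τ⁻¹ p.reverse = aeval τ p * τ⁻¹ ^ p.natDegree := by
    rw [aeval_def, ← h1, mul_assoc, ← mul_pow, mul_inv_cancel₀ hτ0, one_pow, mul_one]
  have h3 : v.At (eval₂ (algebraMap k (Om k)) τ⁻¹ p.reverse) (p.reverse.eval 0) := by
    have := (Place.at_zero_iff.2 hv).aeval p.reverse
    rwa [aeval_def] at this
  have h4 : v.At (eval₂ (algebraMap k (Om k)) τ⁻¹ p.reverse) 0 := by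
    rw [h2, Place.at_zero_iff]
    exact Place.Vanishes.mul' v (Place.Vanishes.pow v hv hd) hp
  have h5 := h3.unique h4
  rw [← coeff_zero_eq_eval_zero, coeff_zero_reverse, leadingCoeff_eq_zero] at h5
  apply hd
  rw [h5, natDegree_zero]

/-- the factors of a constant polynomial are constant -/
theorem const_of_mul {p q : k[X]} {c : k} (hc : c ≠ 0) (h : p * q = C c) :
    p = C (p.eval 0) ∧ q = C (q.eval 0) := by
  have hp0 : p ≠ 0 := by
    rintro rfl
    rw [zero_mul] at h
    exact hc (C_eq_zero.1 h.symm)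
  have hq0 : q ≠ 0 := by
    rintro rfl
    rw [mul_zero] at h
    exact hc (C_eq_zero.1 h.symm)
  have h1 := congrArg natDegree h
  rw [natDegree_mul hp0 hq0, natDegree_C] at h1
  have h2 := eq_C_of_natDegree_eq_zero (show p.natDegree = 0 by omega)
  have h3 := eq_C_of_natDegree_eq_zero (show q.natDegree = 0 by omega)
  rw [coeff_zero_eq_eval_zero] at h2 h3
  exact ⟨h2, h3⟩

end poles

section conic

variable {k : Type u} [Field k] [IsAlgClosed k] [CharZero k]

omit [IsAlgClosed k] [CharZero k] in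
private theorem fa_quad (q : k[X]) (hq : q.natDegree ≤ 2) (h0 : q.eval 0 = 1) :
    q = C (q.coeff 2) * X ^ 2 + C (q.coeff 1) * X + 1 := by
  have h1 := eq_quadratic_of_degree_le_two (natDegree_le_iff_degree_le.1 hq)
  have h2 : q.coeff 0 = 1 := by rw [coeff_zero_eq_eval_zero]; exact h0
  rw [h2] at h1
  simpa using h1

omit [IsAlgClosed k] [CharZero k] in
private theorem fa_one (v : Place k (Om k)) : v.At (1 : Om k) 1 := by
  simpa using Place.at_const (v := v) (1 : k)

omit [IsAlgClosed k] [CharZero k] in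
private theorem fa_two (v : Place k (Om k)) : v.At (2 : Om k) 2 := by
  have h := Place.at_const (v := v) (2 : k)
  rwa [map_ofNat] at h

omit [IsAlgClosed k] [CharZero k] in
private theorem fa_not_mem {v : Place k (Om k)} {x y : Om k} {c : k} (hx : v.At x c) (hc : c ≠ 0)
    (hy : v.At y 0) (hy0 : y ≠ 0) : x / y ∉ v.ring := by
  intro h
  have h1 := Place.Vanishes.mul v (Place.at_zero_iff.1 hy) h
  rw [mul_div_cancel₀ _ hy0] at h1
  exact hc (hx.unique (Place.at_zero_iff.2 h1))

/-- Parametrisation of the conic `r ² = q(τ)` with `τ = 0`, `r = 1` at `c₀` and `τ = ∞` at `c₁`. -/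
theorem conic_inf (q : k[X]) (hq : q.natDegree ≤ 2) (h0 : q.eval 0 = 1) :
    ∃ (τ r : Om k) (c₀ c₁ : k), r ^ 2 = aeval τ q ∧
      (∀ v : Place k (Om k), v.At (tt k) c₀ → v.At τ 0 ∧ v.At r 1) ∧
      ∀ v : Place k (Om k), v.At (tt k) c₁ → τ ∉ v.ring := by
  have hqq := fa_quad q hq h0
  obtain ⟨q₁, hq₁⟩ : ∃ c, c = q.coeff 1 := ⟨_, rfl⟩
  obtain ⟨q₂, hq₂⟩ : ∃ c, c = q.coeff 2 := ⟨_, rfl⟩
  rw [← hq₁, ← hq₂] at hqq
  have ht : Transcendental k (tt k) := Pool.Agent.VFP.tt_transc
  have ht0 : ∀ c : k, tt k - algebraMap k (Om k) c ≠ 0 := by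
    intro c h
    apply ht
    rw [sub_eq_zero.1 h]
    exact isAlgebraic_algebraMap c
  by_cases hsq : q₂ = (q₁ / 2) ^ 2
  · have htt : tt k ≠ 0 := by
      have := ht0 0
      rwa [map_zero, sub_zero] at this
    refine ⟨(1 - tt k) / tt k, 1 + algebraMap k (Om k) (q₁ / 2) * ((1 - tt k) / tt k), 1, 0,
      ?_, ?_, ?_⟩
    · rw [hqq, hsq]
      simp only [map_add, map_mul, map_pow, aeval_C, aeval_X, map_one, map_div₀]
      have : (algebraMap k (Om k)) 2 = 2 := map_ofNat _ 2
      rw [this]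
      ring
    · intro v hv
      have h1 : v.At ((1 - tt k) / tt k) 0 := by
        have := ((fa_one v).sub hv).div hv one_ne_zero
        rwa [sub_self, zero_div] at this
      refine ⟨h1, ?_⟩
      have := (fa_one v).add ((Place.at_const (v := v) (q₁ / 2)).mul h1)
      rwa [mul_zero, add_zero] at this
    · intro v hv
      refine fa_not_mem (c := 1) ?_ one_ne_zero hv htt
      have := (fa_one v).sub hv
      rwa [sub_zero] at this
  · obtain ⟨e, he⟩ := IsAlgClosed.exists_pow_nat_eq q₂ (n := 2) (by norm_num)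
    set ρ : Om k := tt k with hρ
    set Q₁ : Om k := algebraMap k (Om k) q₁ with hQ₁
    set Q₂ : Om k := algebraMap k (Om k) q₂ with hQ₂
    have hD0 : ρ ^ 2 - Q₂ ≠ 0 := by
      have h1 : ρ ^ 2 - Q₂ = (ρ - algebraMap k (Om k) e) * (ρ - algebraMap k (Om k) (-e)) := by
        rw [hQ₂, ← he, map_pow, map_neg]
        ring
      rw [h1]
      exact mul_ne_zero (ht0 e) (ht0 (-e))
    refine ⟨(Q₁ - 2 * ρ) / (ρ ^ 2 - Q₂), 1 + ρ * ((Q₁ - 2 * ρ) / (ρ ^ 2 - Q₂)), q₁ / 2, e,
      ?_, ?_, ?_⟩
    · have hq' : aeval ((Q₁ - 2 * ρ) / (ρ ^ 2 - Q₂)) q =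
          Q₂ * ((Q₁ - 2 * ρ) / (ρ ^ 2 - Q₂)) ^ 2 + Q₁ * ((Q₁ - 2 * ρ) / (ρ ^ 2 - Q₂)) + 1 := by
        conv_lhs => rw [hqq]
        simp only [map_add, map_mul, map_pow, aeval_C, aeval_X, map_one]
        rfl
      rw [hq']
      field_simp
      ring
    · intro v hv
      have h2 : v.At (Q₁ - 2 * ρ) 0 := by
        have := (Place.at_const (v := v) q₁).sub ((fa_two v).mul hv)
        have e : q₁ - 2 * (q₁ / 2) = 0 := by ring
        rwa [e] at this
      have h3 : v.At (ρ ^ 2 - Q₂) ((q₁ / 2) ^ 2 - q₂) := (hv.pow 2).sub (Place.at_const q₂)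
      have h4 : (q₁ / 2) ^ 2 - q₂ ≠ 0 := by
        intro h; exact hsq (sub_eq_zero.1 h).symm
      have h5 := h2.div h3 h4
      rw [zero_div] at h5
      refine ⟨h5, ?_⟩
      have := (fa_one v).add (hv.mul h5)
      simpa using this
    · intro v hv
      have h3 : v.At (ρ ^ 2 - Q₂) 0 := by
        have := (hv.pow 2).sub (Place.at_const (v := v) q₂)
        rwa [he, sub_self] at this
      have h2 : v.At (Q₁ - 2 * ρ) (q₁ - 2 * e) :=
        (Place.at_const (v := v) q₁).sub ((fa_two v).mul hv)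
      refine fa_not_mem h2 ?_ h3 hD0
      intro h
      apply hsq
      rw [← he, show e = q₁ / 2 by rw [sub_eq_zero.1 h]; ring]

/-- Parametrisation of the conic `r ² = q(τ)` with `τ = 0`, `r = 1` at `c₀` and `τ = τ₁` at
`c₁`. -/
theorem conic_fin (q : k[X]) (hq : q.natDegree ≤ 2) (h0 : q.eval 0 = 1) (τ₁ : k) (h1 : τ₁ ≠ 0) :
    ∃ (τ r : Om k) (c₀ c₁ : k), r ^ 2 = aeval τ q ∧
      (∀ v : Place k (Om k), v.At (tt k) c₀ → v.At τ 0 ∧ v.At r 1) ∧
      ∀ v : Place k (Om k), v.At (tt k) c₁ → v.At τ τ₁ := by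
  have hqq := fa_quad q hq h0
  obtain ⟨q₁, hq₁⟩ : ∃ c, c = q.coeff 1 := ⟨_, rfl⟩
  obtain ⟨q₂, hq₂⟩ : ∃ c, c = q.coeff 2 := ⟨_, rfl⟩
  rw [← hq₁, ← hq₂] at hqq
  by_cases hsq : q₂ = (q₁ / 2) ^ 2
  · refine ⟨tt k, 1 + algebraMap k (Om k) (q₁ / 2) * tt k, 0, τ₁, ?_, ?_, fun v hv => hv⟩
    · rw [hqq, hsq]
      simp only [map_add, map_mul, map_pow, aeval_C, aeval_X, map_one, map_div₀]
      have : (algebraMap k (Om k)) 2 = 2 := map_ofNat _ 2
      rw [this]
      ring
    · intro v hv
      refine ⟨hv, ?_⟩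
      have := (fa_one v).add ((Place.at_const (v := v) (q₁ / 2)).mul hv)
      simpa using this
  · set ρ : Om k := tt k with hρ
    set Q₁ : Om k := algebraMap k (Om k) q₁ with hQ₁
    set Q₂ : Om k := algebraMap k (Om k) q₂ with hQ₂
    obtain ⟨r₁, hr₁⟩ := IsAlgClosed.exists_pow_nat_eq (q.eval τ₁) (n := 2) (by norm_num)
    have hev : q.eval τ₁ = q₂ * τ₁ ^ 2 + q₁ * τ₁ + 1 := by rw [hqq]; simp
    rw [hev] at hr₁
    refine ⟨(Q₁ - 2 * ρ) / (ρ ^ 2 - Q₂), 1 + ρ * ((Q₁ - 2 * ρ) / (ρ ^ 2 - Q₂)), q₁ / 2,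
      (r₁ - 1) / τ₁, ?_, ?_, ?_⟩
    · have hq' : aeval ((Q₁ - 2 * ρ) / (ρ ^ 2 - Q₂)) q =
          Q₂ * ((Q₁ - 2 * ρ) / (ρ ^ 2 - Q₂)) ^ 2 + Q₁ * ((Q₁ - 2 * ρ) / (ρ ^ 2 - Q₂)) + 1 := by
        conv_lhs => rw [hqq]
        simp only [map_add, map_mul, map_pow, aeval_C, aeval_X, map_one]
        rfl
      rw [hq']
      by_cases hD : ρ ^ 2 - Q₂ = 0
      · rw [hD]; simp
      · field_simp
        ring
    · intro v hv
      have h2 : v.At (Q₁ - 2 * ρ) 0 := by
        have := (Place.at_const (v := v) q₁).sub ((fa_two v).mul hv)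
        have e : q₁ - 2 * (q₁ / 2) = 0 := by ring
        rwa [e] at this
      have h3 : v.At (ρ ^ 2 - Q₂) ((q₁ / 2) ^ 2 - q₂) := (hv.pow 2).sub (Place.at_const q₂)
      have h4 : (q₁ / 2) ^ 2 - q₂ ≠ 0 := by
        intro h; exact hsq (sub_eq_zero.1 h).symm
      have h5 := h2.div h3 h4
      rw [zero_div] at h5
      refine ⟨h5, ?_⟩
      have := (fa_one v).add (hv.mul h5)
      simpa using this
    · intro v hv
      obtain ⟨c₁, hc₁⟩ : ∃ c₁, c₁ = (r₁ - 1) / τ₁ := ⟨_, rfl⟩
      rw [← hc₁] at hv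
      have hr : r₁ = 1 + c₁ * τ₁ := by rw [hc₁]; field_simp; ring
      have key : τ₁ * (c₁ ^ 2 - q₂) = q₁ - 2 * c₁ := by
        rw [hr] at hr₁
        apply mul_left_cancel₀ h1
        linear_combination hr₁
      have h4 : c₁ ^ 2 - q₂ ≠ 0 := by
        intro h
        rw [h, mul_zero] at key
        apply hsq
        have : q₁ / 2 = c₁ := by
          have : q₁ = 2 * c₁ := (sub_eq_zero.1 key.symm)
          rw [this]; field_simp
        rw [this]
        exact (sub_eq_zero.1 h).symm
      have h2 : v.At (Q₁ - 2 * ρ) (q₁ - 2 * c₁) :=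
        (Place.at_const (v := v) q₁).sub ((fa_two v).mul hv)
      have h3 : v.At (ρ ^ 2 - Q₂) (c₁ ^ 2 - q₂) := (hv.pow 2).sub (Place.at_const q₂)
      have h5 := h2.div h3 h4
      have h6 : (q₁ - 2 * c₁) / (c₁ ^ 2 - q₂) = τ₁ := by
        rw [← key]; field_simp
      rwa [h6] at h5

end conic

section roots

variable {k : Type u} [Field k] [IsAlgClosed k] [CharZero k] {n : ℕ}

omit [IsAlgClosed k] [CharZero k] in
private theorem fa_natDegree {K : Type*} [Field K] (s : Fin n → K) :
    (∏ j, (X - C (s j))).natDegree = n := by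
  rw [natDegree_prod_of_monic _ _ fun j _ => monic_X_sub_C _]
  simp

omit [IsAlgClosed k] [CharZero k] in
/-- a monic polynomial over an algebraically closed field splits -/
theorem exists_rts {K : Type*} [Field K] [IsAlgClosed K] {p : K[X]} (hp : p.Monic)
    (hd : p.natDegree = n) : ∃ s : Fin n → K, p = ∏ j, (X - C (s j)) := by
  have h1 := IsAlgClosed.splits p
  have h2 := h1.eq_prod_roots
  rw [hp.leadingCoeff, C_1, one_mul] at h2
  have h3 : p.roots.card = n := by
    rw [← hd]
    exact (splits_iff_card_roots.1 h1)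
  obtain ⟨L, hL⟩ : ∃ L : List K, (L : Multiset K) = p.roots := Quotient.exists_rep _
  have hLn : L.length = n := by
    rw [← h3, ← hL]
    rfl
  refine ⟨fun j => L[j.val]'(by rw [hLn]; exact j.2), ?_⟩
  rw [h2, ← hL]
  simp only [Multiset.map_coe, Multiset.prod_coe]
  subst hLn
  rw [← List.prod_ofFn]
  congr 1
  refine List.ext_getElem (by simp) fun i h4 h5 => by simp

/-- two factorisations of a polynomial differ by a permutation -/
theorem rts_perm {K : Type*} [Field K] {s s' : Fin n → K}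
    (h : ∏ j, (X - C (s' j)) = ∏ j, (X - C (s j))) : ∃ π : Equiv.Perm (Fin n), s' = s ∘ π := by
  classical
  have h1 : ∀ u : Fin n → K, (∏ j, (X - C (u j))).roots = Finset.univ.val.map u := by
    intro u
    have h2 : ∏ j, (X - C (u j)) = ((Finset.univ.val.map u).map fun a => X - C a).prod := by
      rw [Multiset.map_map]
      rfl
    rw [h2, roots_multiset_prod_X_sub_C]
  have h2 : Finset.univ.val.map s' = Finset.univ.val.map s := by
    rw [← h1 s', h, h1 s]
  have h3 : ∀ x : K, Nonempty ({j // s' j = x} ≃ {j // s j = x}) := by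
    intro x
    refine ⟨Fintype.equivOfCardEq ?_⟩
    have h4 := congrArg (Multiset.count x) h2
    rw [Multiset.count_map, Multiset.count_map] at h4
    rw [Fintype.card_subtype, Fintype.card_subtype]
    have h5 : ∀ u : Fin n → K, (Finset.univ.filter fun j => u j = x).card =
        (Multiset.filter (fun a => x = u a) Finset.univ.val).card := by
      intro u
      rw [Finset.card_def, Finset.filter_val]
      congr 2
      funext a
      exact propext eq_comm
    rw [h5, h5, h4]
  refine ⟨(Equiv.sigmaFiberEquiv s').symm.trans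
    ((Equiv.sigmaCongrRight fun x => (h3 x).some).trans (Equiv.sigmaFiberEquiv s)), ?_⟩
  funext j
  exact (((h3 (s' j)).some ⟨j, rfl⟩).2).symm

omit [IsAlgClosed k] [CharZero k] in
/-- a root of a monic polynomial over the ring is in the ring -/
theorem rt_mem {v : Place k (Om k)} {p : (Om k)[X]} (hp : p.Monic) (h : ∀ i, p.coeff i ∈ v.ring)
    {x : Om k} (hx : p.eval x = 0) : x ∈ v.ring := by
  have h1 : ∃ P : v.ring[X], P.map (algebraMap v.ring (Om k)) = p ∧
      P.natDegree = p.natDegree ∧ P.Monic := by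
    have hl : p ∈ lifts (algebraMap v.ring (Om k)) := by
      rw [lifts_iff_coeff_lifts]
      intro i
      exact ⟨⟨p.coeff i, h i⟩, rfl⟩
    exact lifts_and_natDegree_eq_and_monic hl hp
  obtain ⟨P, h2, -, h3⟩ := h1
  have h4 : IsIntegral v.ring x := by
    refine ⟨P, h3, ?_⟩
    rw [← eval_map, h2, hx]
  obtain ⟨y, hy⟩ := IsIntegrallyClosed.isIntegral_iff.1 h4
  rw [← hy]
  exact y.2

omit [CharZero k] in
/-- the values of the roots of `l + τ h` at a place at which `τ` has the value `t₀` -/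
theorem rts_at {v : Place k (Om k)} {l h : k[X]} {S : Fin n → Om k} {τ : Om k}
    (hS : l.map (algebraMap k (Om k)) + C τ * h.map (algebraMap k (Om k)) =
      ∏ j, (X - C (S j))) {t₀ : k} (hτ : v.At τ t₀) :
    ∃ s : Fin n → k, (∀ j, v.At (S j) (s j)) ∧ l + C t₀ * h = ∏ j, (X - C (s j)) := by
  have hcoef : ∀ i, v.At ((∏ j, (X - C (S j))).coeff i) ((l + C t₀ * h).coeff i) := by
    intro i
    rw [← hS, coeff_add, coeff_C_mul, coeff_map, coeff_map, coeff_add, coeff_C_mul]
    exact (Place.at_const _).add (hτ.mul (Place.at_const _))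
  have hmem : ∀ j, S j ∈ v.ring := by
    intro j
    refine rt_mem (monic_prod_of_monic _ _ fun j _ => monic_X_sub_C (S j))
      (fun i => (hcoef i).mem) ?_
    rw [eval_prod]
    exact Finset.prod_eq_zero (Finset.mem_univ j) (by simp)
  have hat : ∀ j, ∃ c : k, v.At (S j) c := fun j => DCI57.exists_at v (hmem j)
  choose s hs using hat
  refine ⟨s, hs, ?_⟩
  have hpt : ∀ x : k, (l + C t₀ * h).eval x = (∏ j, (X - C (s j))).eval x := by
    intro x
    have h1 : v.At ((∏ j, (X - C (S j))).eval (algebraMap k (Om k) x))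
        ((l + C t₀ * h).eval x) := by
      rw [← hS, eval_add, eval_mul, eval_C, eval_map, eval_map, eval₂_hom, eval₂_hom, eval_add,
        eval_mul, eval_C]
      exact (Place.at_const _).add (hτ.mul (Place.at_const _))
    have h2 : v.At ((∏ j, (X - C (S j))).eval (algebraMap k (Om k) x))
        ((∏ j, (X - C (s j))).eval x) := by
      rw [eval_prod, eval_prod]
      refine Place.At.prod fun j _ => ?_
      rw [eval_sub, eval_sub, eval_X, eval_X, eval_C, eval_C]
      exact (Place.at_const _).sub (hs j)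
    exact h1.unique h2
  exact Polynomial.funext hpt

omit [CharZero k] in
/-- at a place at which `τ` has the value `t₀` with `(l + t₀ h)(δ) = 0` one root has the value
`δ` -/
theorem rts_at_root {v : Place k (Om k)} {l h : k[X]} {S : Fin n → Om k} {τ : Om k}
    (hS : l.map (algebraMap k (Om k)) + C τ * h.map (algebraMap k (Om k)) =
      ∏ j, (X - C (S j))) {t₀ δ : k} (hτ : v.At τ t₀) (hδ : l.eval δ + t₀ * h.eval δ = 0) :
    ∃ j, v.At (S j) δ := by
  obtain ⟨s, hs, h1⟩ := rts_at hS hτ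
  have h2 := congrArg (fun p => p.eval δ) h1
  simp only [eval_add, eval_mul, eval_C, hδ, eval_prod, eval_sub, eval_X] at h2
  obtain ⟨j, -, hj⟩ := Finset.prod_eq_zero_iff.1 h2.symm
  refine ⟨j, ?_⟩
  rw [sub_eq_zero.1 hj]
  exact hs j

/-- at a pole of `τ`: if `h ≠ 0`, `h(δ) = 0` and `l(δ) ≠ 0` then one root has the value `δ` -/
theorem rts_inf {v : Place k (Om k)} {l h : k[X]} {S : Fin n → Om k} {τ : Om k}
    (hS : l.map (algebraMap k (Om k)) + C τ * h.map (algebraMap k (Om k)) =
      ∏ j, (X - C (S j))) {δ : k} (hτ : τ ∉ v.ring) (hh : h ≠ 0) (hδ : h.eval δ = 0)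
    (hl : l.eval δ ≠ 0) : ∃ j, v.At (S j) δ := by
  by_contra hcon
  push Not at hcon
  -- a point `z` with `h(z) ≠ 0`
  obtain ⟨z, hz⟩ : ∃ z : k, h.eval z ≠ 0 := by
    by_contra hc
    push Not at hc
    exact hh (Polynomial.funext fun x => by rw [hc x, eval_zero])
  have hev : ∀ x : k, ∏ j, (algebraMap k (Om k) x - S j) =
      algebraMap k (Om k) (l.eval x) + τ * algebraMap k (Om k) (h.eval x) := by
    intro x
    have h1 := congrArg (fun p => p.eval (algebraMap k (Om k) x)) hS
    simp only [eval_add, eval_mul, eval_C, eval_map, eval₂_hom, eval_prod, eval_sub,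
      eval_X] at h1
    exact h1.symm
  have hδ' := hev δ
  rw [hδ, map_zero, mul_zero, add_zero] at hδ'
  have hne : ∀ j, algebraMap k (Om k) δ - S j ≠ 0 := by
    intro j hj
    apply hl
    have h1 : algebraMap k (Om k) (l.eval δ) = 0 := by
      rw [← hδ']
      exact Finset.prod_eq_zero (Finset.mem_univ j) hj
    exact (map_eq_zero _).1 h1
  -- the quotients are in the ring
  have hq : ∀ j, (algebraMap k (Om k) z - S j) / (algebraMap k (Om k) δ - S j) ∈ v.ring := by
    intro j
    have hinv : (algebraMap k (Om k) δ - S j)⁻¹ ∈ v.ring := by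
      by_contra h1
      have h2 : v.Vanishes (algebraMap k (Om k) δ - S j) := by
        rw [Place.vanishes_iff_or]
        exact Or.inr h1
      apply hcon j
      have h3 := Place.Vanishes.neg v h2
      rw [neg_sub] at h3
      exact h3
    have e : (algebraMap k (Om k) z - S j) / (algebraMap k (Om k) δ - S j) =
        1 + algebraMap k (Om k) (z - δ) * (algebraMap k (Om k) δ - S j)⁻¹ := by
      rw [map_sub]
      field_simp [hne j]
      ring
    rw [e]
    exact add_mem (one_mem _) (mul_mem (v.const_mem _) hinv)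
  have h1 : (∏ j, (algebraMap k (Om k) z - S j)) / ∏ j, (algebraMap k (Om k) δ - S j) ∈
      v.ring := by
    rw [← Finset.prod_div_distrib]
    exact prod_mem fun j _ => hq j
  rw [hev z, hδ'] at h1
  apply hτ
  have hl' : algebraMap k (Om k) (l.eval δ) ≠ 0 := by
    rwa [Ne, map_eq_zero]
  have hz' : algebraMap k (Om k) (h.eval z) ≠ 0 := by
    rwa [Ne, map_eq_zero]
  have e : τ = ((algebraMap k (Om k) (l.eval z) + τ * algebraMap k (Om k) (h.eval z)) /
      algebraMap k (Om k) (l.eval δ) * algebraMap k (Om k) (l.eval δ) -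
        algebraMap k (Om k) (l.eval z)) * algebraMap k (Om k) (h.eval z)⁻¹ := by
    rw [map_inv₀]
    field_simp
    ring
  rw [e]
  exact mul_mem (sub_mem (mul_mem h1 (v.const_mem _)) (v.const_mem _)) (v.const_mem _)

end roots

section state

variable {K : Type*} [Field K] {n : ℕ}

private theorem fs_nd {m : ℕ} {p : K[X]} (hp : p.degree < (m : WithBot ℕ)) (hm : 0 < m) :
    p.natDegree ≤ m - 1 := by
  by_cases h : p = 0
  · rw [h, natDegree_zero]
    exact Nat.zero_le _
  · rw [degree_eq_natDegree h] at hp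
    have : p.natDegree < m := by exact_mod_cast hp
    omega

private theorem fs_zero {p : K[X]} (hp : p.degree < ((0 : ℕ) : WithBot ℕ)) : p = 0 := by
  rw [Nat.cast_zero] at hp
  rw [← degree_eq_bot]
  simpa using hp

private theorem q_natDegree {M : Mq K} (hM : M.Deg n) : M.q.natDegree ≤ n := by
  unfold Mq.q
  have ha : (M.a ^ 2).natDegree ≤ n := by
    have h1 := fs_nd hM.a (Nat.succ_pos _)
    refine (natDegree_pow_le).trans ?_
    omega
  have hbc : (X * M.b * M.c).natDegree ≤ n := by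
    by_cases h0 : (n + 1) / 2 = 0
    · have h1 : M.b = 0 := fs_zero (h0 ▸ hM.b)
      rw [h1, mul_zero, zero_mul, natDegree_zero]
      exact Nat.zero_le _
    · have h1 := fs_nd hM.b (Nat.pos_of_ne_zero h0)
      have h2 := fs_nd hM.c (Nat.pos_of_ne_zero h0)
      have h3 : (X * M.b).natDegree ≤ 1 + M.b.natDegree :=
        natDegree_mul_le.trans (Nat.add_le_add_right natDegree_X_le _)
      refine natDegree_mul_le.trans ?_
      omega
  have ht : (X * (1 - X) * M.t ^ 2).natDegree ≤ n := by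
    by_cases h0 : n / 2 = 0
    · have h1 : M.t = 0 := fs_zero (h0 ▸ hM.t)
      rw [h1, zero_pow two_ne_zero, mul_zero, natDegree_zero]
      exact Nat.zero_le _
    · have h1 := fs_nd hM.t (Nat.pos_of_ne_zero h0)
      have h2 : (X * (1 - X) : K[X]).natDegree ≤ 2 := by
        refine natDegree_mul_le.trans ?_
        have h3 : (1 - X : K[X]).natDegree ≤ 1 := by
          refine (natDegree_sub_le _ _).trans ?_
          rw [natDegree_one]
          simp
        exact Nat.add_le_add natDegree_X_le h3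
      have h3 : (M.t ^ 2).natDegree ≤ 2 * M.t.natDegree := natDegree_pow_le
      refine natDegree_mul_le.trans ?_
      omega
  exact (natDegree_add_le_of_degree_le (natDegree_add_le_of_degree_le ha hbc) ht)

/-- the equation of the state from its values at `n` points and `0` -/
theorem state_q {M : Mq K} (hM : M.Deg n) {β D : Fin n → K} {θ : Fin n → K}
    (hθ : Function.Injective θ) (hθ0 : ∀ j, θ j ≠ 0) (h0 : M.a.eval 0 = ∏ j, β j)
    (h : ∀ i, M.a.eval (θ i) ^ 2 + θ i * (M.b.eval (θ i) * M.c.eval (θ i)) +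
      θ i * (1 - θ i) * M.t.eval (θ i) ^ 2 = ∏ j, (β j ^ 2 - θ i * D j)) :
    M.q = ∏ j, (C (β j ^ 2) - C (D j) * X) := by
  classical
  have hd : (∏ j, (C (β j ^ 2) - C (D j) * X) : K[X]).natDegree ≤ n := by
    refine (natDegree_prod_le _ _).trans ?_
    refine (Finset.sum_le_card_nsmul _ _ 1 fun j _ => ?_).trans (by simp)
    refine (natDegree_sub_le _ _).trans ?_
    rw [natDegree_C, max_eq_right (Nat.zero_le _)]
    exact (natDegree_C_mul_le _ _).trans natDegree_X_le
  have h1 : M.q - ∏ j, (C (β j ^ 2) - C (D j) * X) = 0 := by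
    refine eq_zero_of_natDegree_lt_card_of_eval_eq_zero' _
      (insert (0 : K) (Finset.univ.image θ)) ?_ ?_
    · intro x hx
      rw [Finset.mem_insert, Finset.mem_image] at hx
      rcases hx with rfl | ⟨i, -, rfl⟩
      · rw [eval_sub, sub_eq_zero, eval_prod]
        simp only [Mq.q, eval_add, eval_mul, eval_pow, eval_X, zero_mul, add_zero, h0, eval_sub,
          eval_C, mul_zero, sub_zero, Finset.prod_pow]
      · rw [eval_sub, sub_eq_zero, eval_prod]
        simp only [Mq.q, eval_add, eval_mul, eval_pow, eval_X, eval_sub, eval_C, eval_one]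
        rw [show (∏ j, (β j ^ 2 - D j * θ i)) = ∏ j, (β j ^ 2 - θ i * D j) from
          Finset.prod_congr rfl fun j _ => by rw [mul_comm (D j)], ← h i]
        ring
    · rw [Finset.card_insert_of_notMem, Finset.card_image_of_injective _ hθ, Finset.card_univ,
        Fintype.card_fin]
      · refine Nat.lt_succ_of_le ((natDegree_sub_le _ _).trans (max_le (q_natDegree hM) hd))
      · rw [Finset.mem_image]
        rintro ⟨j, -, hj⟩
        exact hθ0 j hj
  exact sub_eq_zero.1 h1

/-- distinct nonzero numbers -/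
theorem exists_theta (K : Type*) [Field K] [Infinite K] (n : ℕ) :
    ∃ θ : Fin n → K, Function.Injective θ ∧ ∀ j, θ j ≠ 0 := by
  classical
  obtain ⟨s, -, hs⟩ := (Set.infinite_univ (α := K)).exists_subset_card_eq (n + 1)
  have h1 : n ≤ (s.erase 0).card := by
    have := Finset.pred_card_le_card_erase (s := s) (a := 0)
    omega
  obtain ⟨t, ht, htn⟩ := Finset.exists_subset_card_eq h1
  refine ⟨fun j => (t.equivFin.symm (Fin.cast htn.symm j)).1, ?_, ?_⟩
  · intro i j h
    have h2 := t.equivFin.symm.injective (Subtype.ext h)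
    simpa using h2
  · intro j
    exact Finset.ne_of_mem_erase (ht (t.equivFin.symm (Fin.cast htn.symm j)).2)

end state

section const

variable {k : Type u} [Field k] [CharZero k] {n : ℕ}

/-- the value at `τ` of a polynomial with coefficients in `k[X]` -/
def pv (τ : Om k) (P : k[X][X]) : (Om k)[X] := P.map (aeval τ).toRingHom

omit [CharZero k] in
theorem pv_coeff (τ : Om k) (P : k[X][X]) (i : ℕ) : (pv τ P).coeff i = aeval τ (P.coeff i) := by
  unfold pv
  rw [coeff_map]
  rfl

omit [CharZero k] in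
theorem pv_eval (τ : Om k) (P : k[X][X]) (x : k) :
    (pv τ P).eval (algebraMap k (Om k) x) = aeval τ (P.eval (C x)) := by
  unfold pv
  have h1 : algebraMap k (Om k) x = (aeval τ).toRingHom (C x : k[X]) := by simp
  rw [h1, eval_map, eval₂_hom]
  rfl

omit [CharZero k] in
theorem pv_degree (τ : Om k) {P : k[X][X]} {m : ℕ} (h : P.degree < (m : WithBot ℕ)) :
    (pv τ P).degree < (m : WithBot ℕ) := degree_map_le.trans_lt h

omit [CharZero k] in
private theorem fc_coeff {P : k[X][X]} {A : k[X]} (hA : P.map (evalRingHom 0) = A) (i : ℕ) :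
    (P.coeff i).eval 0 = A.coeff i := by
  rw [← hA, coeff_map]
  rfl

omit [CharZero k] in
private theorem fc_const {v : Place k (Om k)} {τ : Om k} (hτ : τ ∉ v.ring) {P : k[X][X]}
    {A : k[X]} (hA : P.map (evalRingHom 0) = A) (h : PIn v (pv τ P)) : P = A.map C := by
  ext1 i
  rw [coeff_map, ← fc_coeff hA]
  refine const_of_pole hτ ?_
  rw [← pv_coeff]
  exact h i

/-- If the sides of a configuration with the state `(a, ρ b, c / ρ, t)` are units at a pole of `τ`,
where `a, b, c, t` are polynomials in `τ`, then these polynomials are constant. -/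
theorem const_state {v : Place k (Om k)} {τ : Om k} (hτ : τ ∉ v.ring) {l : List (Side (Om k))}
    (hl : ∀ s ∈ l, s.Unit v) {A' P' M' G' : k[X][X]} {A P M G : k[X]}
    (hA : A'.map (evalRingHom 0) = A) (hP : P'.map (evalRingHom 0) = P)
    (hM : M'.map (evalRingHom 0) = M) (hG : G'.map (evalRingHom 0) = G)
    (hP1 : P.eval 1 ≠ 0) (hM1 : M.eval 1 ≠ 0) {ρ : Om k} (hρ : ρ ≠ 0)
    (hst : st l = Mq.rot ρ ⟨pv τ A', pv τ P', pv τ M', pv τ G'⟩) :
    A' = A.map C ∧ P' = P.map C ∧ M' = M.map C ∧ G' = G.map C := by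
  obtain ⟨h1, h2, h3, h4⟩ := st_mem v hl
  rw [hst] at h1 h2 h3 h4
  simp only [Mq.rot] at h1 h2 h3 h4
  have hprod : ∀ p q : k[X], ρ * aeval τ p ∈ v.ring → ρ⁻¹ * aeval τ q ∈ v.ring →
      p * q = C ((p * q).eval 0) := by
    intro p q hp hq
    refine const_of_pole hτ ?_
    have e : aeval τ (p * q) = ρ * aeval τ p * (ρ⁻¹ * aeval τ q) := by
      rw [map_mul]
      field_simp
    rw [e]
    exact mul_mem hp hq
  have hPi : ∀ i, ρ * aeval τ (P'.coeff i) ∈ v.ring := by
    intro i
    have := h2 i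
    rwa [coeff_C_mul, pv_coeff] at this
  have hMi : ∀ i, ρ⁻¹ * aeval τ (M'.coeff i) ∈ v.ring := by
    intro i
    have := h3 i
    rwa [coeff_C_mul, pv_coeff] at this
  have hsum : ∀ (Q : k[X][X]) (c : Om k), (∀ i, c * aeval τ (Q.coeff i) ∈ v.ring) →
      c * aeval τ (Q.eval 1) ∈ v.ring := by
    intro Q c hQ
    rw [eval_eq_sum, Polynomial.sum_def, map_sum, Finset.mul_sum]
    refine sum_mem fun i _ => ?_
    rw [one_pow, mul_one]
    exact hQ i
  have hP1' := hsum P' ρ hPi
  have hM1' := hsum M' ρ⁻¹ hMi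
  have hev : ∀ (Q : k[X][X]) (q : k[X]), Q.map (evalRingHom 0) = q →
      (Q.eval 1).eval 0 = q.eval 1 := by
    intro Q q h
    rw [← h, eval_map, eval₂_at_one]
    rfl
  have hPM : P'.eval 1 * M'.eval 1 = C (P.eval 1 * M.eval 1) := by
    rw [hprod _ _ hP1' hM1', eval_mul, hev P' P hP, hev M' M hM]
  obtain ⟨hPc, hMc⟩ := const_of_mul (mul_ne_zero hP1 hM1) hPM
  rw [hev P' P hP] at hPc
  rw [hev M' M hM] at hMc
  refine ⟨fc_const hτ hA h1, ?_, ?_, fc_const hτ hG h4⟩
  · ext1 i
    rw [coeff_map, ← fc_coeff hP]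
    have h5 := hprod _ _ (hPi i) hM1'
    rw [hMc] at h5
    have h6 : P'.coeff i = C (((P'.coeff i * C (M.eval 1)).eval 0) * (M.eval 1)⁻¹) := by
      have h7 : P'.coeff i * C (M.eval 1) * C (M.eval 1)⁻¹ = P'.coeff i := by
        rw [mul_assoc, ← C_mul, mul_inv_cancel₀ hM1, C_1, mul_one]
      rw [C_mul, ← h5, h7]
    rw [h6]
    simp
  · ext1 i
    rw [coeff_map, ← fc_coeff hM]
    have h5 := hprod _ _ hP1' (hMi i)
    rw [hPc] at h5
    have h6 : M'.coeff i = C ((P.eval 1)⁻¹ * ((C (P.eval 1) * M'.coeff i).eval 0)) := by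
      have h7 : C (P.eval 1)⁻¹ * (C (P.eval 1) * M'.coeff i) = M'.coeff i := by
        rw [← mul_assoc, ← C_mul, inv_mul_cancel₀ hP1, C_1, one_mul]
      rw [C_mul, ← h5, h7]
    rw [h6]
    simp

end const

end Pool.Agent.TInf
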