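import Pool.Agent.TInf.FamDefs
import Pool.Agent.TInf.FamAux

/-!
# The equations of the states
-/

set_option autoImplicit false

noncomputable section

namespace Pool.Agent.TInf

open Pool.Agent.ZCyc Polynomial
open Pool.Agent.VFP (Om tt)

universe u

/-- the values of `θ` at which the equation is tested -/
def thv {k : Type u} [Field k] {n : ℕ} (j : Fin n) : k := (j.val : k) + 1

variable {k : Type u} [Field k] [IsAlgClosed k] [CharZero k] {n : ℕ}

omit [IsAlgClosed k] in
/-- the equation for the state, from its values at `0` and at the `thv j` (both sides have degree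
`≤ n` in `θ`) -/
theorem isSt_of_values {K : Type*} [Field K] [Algebra k K] {α B : Fin n → K} {M : Mq K}
    (hd : M.Deg n) (h0 : M.a.eval 0 = ∏ j, (-B j / 2))
    (h1 : ∀ j : Fin n, M.q.eval (algebraMap k K (thv j)) =
      ∏ i, ((B i / 2) ^ 2 - ((B i / 2) ^ 2 - α i ^ 3) * algebraMap k K (thv j))) :
    IsSt α B M := by
  have hinj : Function.Injective fun j : Fin n => algebraMap k K (thv j) := by
    intro i j h
    have h2 := (algebraMap k K).injective h
    unfold thv at h2
    have h3 := add_right_cancel h2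
    exact Fin.ext (Nat.cast_injective h3)
  have hne : ∀ j : Fin n, algebraMap k K (thv j) ≠ 0 := by
    intro j h
    rw [map_eq_zero] at h
    unfold thv at h
    exact Nat.cast_add_one_ne_zero (R := k) j.val h
  refine ⟨hd, ?_, h0⟩
  have h2 := state_q hd (D := fun i => (B i / 2) ^ 2 - α i ^ 3) hinj hne h0 fun i => ?_
  · rw [h2]
    refine Finset.prod_congr rfl fun j _ => ?_
    rw [show (-B j / 2) ^ 2 = (B j / 2) ^ 2 by ring]
  · have h3 := h1 i
    simp only [Mq.q, eval_add, eval_mul, eval_pow, eval_X, eval_sub, eval_one] at h3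
    rw [show (∏ j, ((-B j / 2) ^ 2 - algebraMap k K (thv i) * ((B j / 2) ^ 2 - α j ^ 3))) =
      ∏ j, ((B j / 2) ^ 2 - ((B j / 2) ^ 2 - α j ^ 3) * algebraMap k K (thv i)) from
      Finset.prod_congr rfl fun j _ => by ring, ← h3]
    ring

/-- the state of a good configuration -/
theorem isSt_of_cfg {K : Type*} [Field K] [CharZero K] {α B : Fin n → K} {c : Cfg K n}
    (h : c.Good α B) : IsSt α B (c.M B) := by
  have hperm : ∀ {M : Type _} [CommMonoid M] (f : Fin n → M),
      ((List.finRange n).map fun a => f (c.ord a)).prod = ∏ j, f j := by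
    intro M _ f
    rw [← Equiv.prod_comp c.ord f, ← List.prod_ofFn, List.ofFn_eq_map]
  refine ⟨?_, ?_, ?_⟩
  · have h1 := Deg_st (c.sides B)
    rw [Cfg.length_sides] at h1
    exact h1
  · rw [Cfg.M_eq, q_st (Cfg.sides_good h), Cfg.sides, List.map_map]
    have h1 := hperm fun j => C ((B j / 2) ^ 2) - C ((B j / 2) ^ 2 - α j ^ 3) * X
    rw [← h1]
    congr 1
    refine List.map_congr_left fun a _ => ?_
    simp only [Function.comp_apply, Side.r, Cfg.side_b, Cfg.side_D h]
    rw [show (-B (c.ord a) / 2) ^ 2 = (B (c.ord a) / 2) ^ 2 by ring,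
      show (B (c.ord a) ^ 2 - 4 * α (c.ord a) ^ 3) / 4 = (B (c.ord a) / 2) ^ 2 - α (c.ord a) ^ 3
        by ring]
  · rw [Cfg.M_eq, a_st, Cfg.sides, List.map_map]
    have h1 := hperm fun j => -B j / 2
    rw [← h1]
    congr 1
    refine List.map_congr_left fun a _ => ?_
    exact Cfg.side_b c _

/-- change of the frame -/
theorem IsSt.rot {K : Type*} [Field K] {α B : Fin n → K} {M : Mq K} (h : IsSt α B M) {ρ : K}
    (hρ : ρ ≠ 0) : IsSt α B (M.rot ρ) := by
  refine ⟨⟨h.deg.a, ?_, ?_, h.deg.t⟩, ?_, h.a0⟩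
  · have h1 := h.deg.b
    simp only [Mq.rot]
    rwa [degree_C_mul hρ]
  · have h1 := h.deg.c
    simp only [Mq.rot]
    rwa [degree_C_mul (inv_ne_zero hρ)]
  · rw [← h.q]
    simp only [Mq.q, Mq.rot]
    have h1 : (C ρ : K[X]) * C ρ⁻¹ = 1 := by rw [← C_mul, mul_inv_cancel₀ hρ, C_1]
    linear_combination (X * M.b * M.c) * h1

/-- the equation at `θ = 1` -/
theorem IsSt.bc {K : Type*} [Field K] {α B : Fin n → K} {M : Mq K} (h : IsSt α B M) :
    M.b.eval 1 * M.c.eval 1 = ∏ j, α j ^ 3 - M.a.eval 1 ^ 2 := by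
  have h1 := congrArg (fun p => p.eval 1) h.q
  simp only [Mq.q, eval_add, eval_mul, eval_pow, eval_X, eval_sub, eval_one, eval_prod,
    eval_C, sub_self, mul_one, sub_sub_cancel] at h1
  linear_combination h1

end Pool.Agent.TInf
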