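import Pool.Agent.TInf.FamIsSt
import Pool.Agent.TInf.Krull

/-!
# The states over `Om k`
-/

set_option autoImplicit false

noncomputable section

namespace Pool.Agent.TInf

open Pool.Agent.ZCyc Polynomial
open Pool.Agent.VFP (Om tt)

universe u

/-- the polynomial `b = -B / 2` -/
def halfB {k : Type u} [Field k] (B : k[X]) : k[X] := C (-1 / 2) * B

variable {k : Type u} [Field k] [IsAlgClosed k] [CharZero k] {n : ℕ}

omit [IsAlgClosed k] [CharZero k] in
private theorem aeval_halfB {K : Type*} [Field K] [Algebra k K] (B : k[X]) (x : K) :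
    aeval x (halfB B) = -(aeval x B) / 2 := by
  unfold halfB
  rw [map_mul, aeval_C, map_div₀, map_neg, map_one, map_ofNat]
  ring

omit [CharZero k] in
private theorem Nm_ev {K : Type*} [Field K] [Algebra k K] (B : k[X]) (S : Fin n → K) :
    Nm n (halfB B) (∏ j, (X - C (S j))) = ∏ j, (-(ev B S j) / 2) := by
  rw [Nm_eq_prod]
  exact Finset.prod_congr rfl fun j _ => aeval_halfB B (S j)

omit [CharZero k] in
private theorem Nm_ev1 {K : Type*} [Field K] [Algebra k K] (α B : k[X]) (S : Fin n → K) (θ : k) :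
    Nm n (halfB B ^ 2 - C θ * (halfB B ^ 2 - α ^ 3)) (∏ j, (X - C (S j))) =
      ∏ j, ((ev B S j / 2) ^ 2 - ((ev B S j / 2) ^ 2 - ev α S j ^ 3) * algebraMap k K θ) := by
  rw [Nm_eq_prod]
  refine Finset.prod_congr rfl fun j _ => ?_
  rw [map_sub, map_mul, map_sub, map_pow, map_pow, aeval_halfB, aeval_C]
  unfold ev
  ring

omit [IsAlgClosed k] [CharZero k] in
private theorem map_lin (τ : Om k) (l h : k[X]) :
    (l.map C + C X * h.map C).map (aeval τ : k[X] →ₐ[k] Om k).toRingHom =
      l.map (algebraMap k (Om k)) + C τ * h.map (algebraMap k (Om k)) := by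
  have e : (aeval τ : k[X] →ₐ[k] Om k).toRingHom.comp C = algebraMap k (Om k) := by
    ext x
    simp
  rw [Polynomial.map_add, Polynomial.map_mul, Polynomial.map_map, Polynomial.map_map, e,
    Polynomial.map_C]
  congr 2
  simp

omit [IsAlgClosed k] [CharZero k] in
private theorem eval_mo (τ : Om k) (A : k[X][X]) (θ : k) :
    (A.map (aeval τ : k[X] →ₐ[k] Om k).toRingHom).eval (algebraMap k (Om k) θ) =
      aeval τ (A.eval (C θ)) := by
  have e : algebraMap k (Om k) θ = (aeval τ : k[X] →ₐ[k] Om k).toRingHom (C θ) := by simp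
  rw [e, eval_map, eval₂_at_apply]
  rfl

/-- The output of `krull` gives states over `Om k`: `Nm_map` (for `aeval τ`), `Nm_eq_prod` and
`isSt_of_values`. -/
theorem isSt_mo {α B : k[X]} {l h : k[X]} {A P M G : k[X][X]} (τ : Om k) {S : Fin n → Om k}
    (hS : l.map (algebraMap k (Om k)) + C τ * h.map (algebraMap k (Om k)) = ∏ j, (X - C (S j)))
    (hA : A.degree < (n / 2 + 1 : ℕ)) (hP : P.degree < ((n + 1) / 2 : ℕ))
    (hM : M.degree < ((n + 1) / 2 : ℕ)) (hG : G.degree < (n / 2 : ℕ))
    (h0 : A.eval 0 = Nm n (halfB B) (l.map C + C X * h.map C))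
    (h1 : ∀ j : Fin n, A.eval (C (thv j)) ^ 2 +
        C (thv j) * (P.eval (C (thv j)) * M.eval (C (thv j))) +
        C (thv j * (1 - thv j)) * G.eval (C (thv j)) ^ 2 =
          Nm n (halfB B ^ 2 - C (thv j) * (halfB B ^ 2 - α ^ 3)) (l.map C + C X * h.map C)) :
    IsSt (ev α S) (ev B S) (mo τ A P M G) := by
  refine isSt_of_values (k := k) ?_ ?_ ?_
  · exact ⟨degree_map_le.trans_lt hA, degree_map_le.trans_lt hP, degree_map_le.trans_lt hM,
      degree_map_le.trans_lt hG⟩
  · have e := eval_mo τ A 0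
    rw [map_zero, map_zero, h0, Nm_map, map_lin, hS, Nm_ev] at e
    exact e
  · intro j
    have e := congrArg (aeval τ : k[X] →ₐ[k] Om k) (h1 j)
    rw [Nm_map, map_lin, hS, Nm_ev1] at e
    rw [← e]
    unfold Mq.q mo
    simp only [eval_add, eval_mul, eval_pow, eval_X, eval_sub, eval_one, eval_mo, map_add, map_mul,
      map_pow, aeval_C, map_sub, map_one]
    ring

/-- the value of the state at a place where `τ` is `0` -/
theorem mat_mo {v : Place k (Om k)} {τ : Om k} (hτ : v.At τ 0) (A P M G : k[X][X]) :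
    MAt v (mo τ A P M G) ⟨A.map (evalRingHom 0), P.map (evalRingHom 0), M.map (evalRingHom 0),
      G.map (evalRingHom 0)⟩ := by
  have key : ∀ A : k[X][X], PAt v (A.map (aeval τ : k[X] →ₐ[k] Om k).toRingHom)
      (A.map (evalRingHom 0)) := by
    intro A i
    rw [coeff_map, coeff_map]
    exact hτ.aeval (A.coeff i)
  exact ⟨key A, key P, key M, key G⟩

/-- the assumptions of `krull` for a state over `k` -/
theorem krull_start {α B : k[X]} {s : Fin n → k} {M : Mq k} (h : IsSt (ev α s) (ev B s) M) :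
    M.a.eval 0 = Nm n (halfB B) (∏ j, (X - C (s j))) ∧
    ∀ j : Fin n, M.a.eval (thv j) ^ 2 + thv j * (M.b.eval (thv j) * M.c.eval (thv j)) +
      thv j * (1 - thv j) * M.t.eval (thv j) ^ 2 =
        Nm n (halfB B ^ 2 - C (thv j) * (halfB B ^ 2 - α ^ 3)) (∏ j, (X - C (s j))) := by
  refine ⟨by rw [h.a0, Nm_ev], fun j => ?_⟩
  rw [Nm_ev1]
  have e := congrArg (eval (thv j : k)) h.q
  unfold Mq.q at e
  simp only [eval_add, eval_mul, eval_pow, eval_X, eval_sub, eval_one, eval_prod, eval_C] at e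
  simp only [Algebra.algebraMap_self, RingHom.id_apply]
  rw [← e]
  ring

end Pool.Agent.TInf
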