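import Pool.Agent.TInf.Defs

/-!
# The sum `Sl` depends only on the product of the `w j`
-/

set_option autoImplicit false

noncomputable section

namespace Pool.Agent.TInf

universe u

variable {k : Type u} [Field k] [CharZero k] {n : ℕ} {W : Type*} [AddCommGroup W] [Module ℚ W]

omit [CharZero k] in
private theorem zeta_pow {ζ : k} (hζ : IsPrimitiveRoot ζ 3) (a : ZMod 3) :
    ζ ^ a.val * ζ ^ 2 = ζ ^ (a + 2).val := by
  have h3 : ζ ^ 3 = 1 := hζ.pow_eq_one
  have h : (a.val + 2) % 3 = (a + 2).val := by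
    rw [ZMod.val_add]
    rfl
  rw [← pow_add, ← h]
  conv_lhs => rw [← Nat.mod_add_div (a.val + 2) 3, pow_add, pow_mul, h3, one_pow, mul_one]

/-- multiplication of one `w j` by `ζ` shifts `l` by `2`: `ζ ^ a (ζ w) ^ 2 = ζ ^ (a + 2) w ^ 2` -/
theorem Sl_shift {α B : Fin n → k} {f : (Fin n → EPt k) → W} (hf : ClassFn α B f) {ζ : k}
    (hζ : IsPrimitiveRoot ζ 3) (s : Fin n → Side k) (w : Fin n → k) (j : Fin n) (l : ZMod 3) :
    Sl f ζ α s (Function.update w j (ζ * w j)) l = Sl f ζ α s w (l + 2) := by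
  unfold Sl
  refine Fintype.sum_equiv (Equiv.addRight (Pi.single j (2 : ZMod 3))) _ _ fun a => ?_
  have h1 : ∑ i, (Equiv.addRight (Pi.single j (2 : ZMod 3)) a) i = ∑ i, a i + 2 := by
    simp only [Equiv.coe_addRight, Pi.add_apply, Finset.sum_add_distrib]
    rw [Finset.sum_pi_single']
    simp
  rw [h1]
  have h2 : (∑ i, a i + 2 = l + 2) ↔ ∑ i, a i = l := add_left_inj 2
  simp only [h2]
  congr 2
  funext i
  simp only [Equiv.coe_addRight, Pi.add_apply]
  rcases eq_or_ne i j with rfl | hij
  · rw [Function.update_self, Pi.single_eq_same]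
    unfold epoint
    have h3 : ζ ^ 3 = 1 := hζ.pow_eq_one
    have e1 : ζ ^ (a i).val * (ζ * w i) ^ 2 = ζ ^ (a i + 2).val * w i ^ 2 := by
      rw [← zeta_pow hζ]
      ring
    have e2 : (ζ * w i) ^ 3 = w i ^ 3 := by
      rw [mul_pow, h3, one_mul]
    rw [e1, e2]
  · rw [Function.update_of_ne hij, Pi.single_eq_of_ne hij, add_zero]

/-- multiplication of one `w j` by `-1` changes the sign -/
theorem Sl_neg {α B : Fin n → k} {f : (Fin n → EPt k) → W} (hf : ClassFn α B f) {ζ : k}
    (s : Fin n → Side k) (w : Fin n → k) (j : Fin n) (l : ZMod 3) :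
    Sl f ζ α s (Function.update w j (-w j)) l = -Sl f ζ α s w l := by
  unfold Sl
  rw [← Finset.sum_neg_distrib]
  refine Finset.sum_congr rfl fun a _ => ?_
  split_ifs with h
  · have h1 := hf.odd (fun i => epoint ζ (α i) (s i) (w i) (a i)) j
      (ζ ^ (a j).val * w j ^ 2 + α j / (ζ ^ (a j).val * w j ^ 2)) ((s j).Sg / w j ^ 3) rfl
    rw [← h1]
    congr 1
    funext i
    rcases eq_or_ne i j with rfl | hij
    · rw [Function.update_self, Function.update_self]
      unfold epoint
      have e1 : (-w i) ^ 2 = w i ^ 2 := by ring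
      have e2 : (s i).Sg / (-w i) ^ 3 = -((s i).Sg / w i ^ 3) := by
        have : (-w i) ^ 3 = -(w i ^ 3) := by ring
        rw [this, div_neg]
      rw [e1, e2]
    · rw [Function.update_of_ne hij, Function.update_of_ne hij]
  · rw [neg_zero]

private theorem Sl_shifts {α B : Fin n → k} {f : (Fin n → EPt k) → W} (hf : ClassFn α B f)
    {ζ : k} (hζ : IsPrimitiveRoot ζ 3) (s : Fin n → Side k) (w : Fin n → k) (j : Fin n)
    (c : ℕ) (l : ZMod 3) :
    Sl f ζ α s (Function.update w j (ζ ^ c * w j)) l = Sl f ζ α s w (l + 2 * c) := by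
  induction c generalizing l with
  | zero => simp
  | succ c ih =>
    have h1 : Function.update w j (ζ ^ (c + 1) * w j) =
        Function.update (Function.update w j (ζ ^ c * w j)) j
          (ζ * Function.update w j (ζ ^ c * w j) j) := by
      rw [Function.update_self, Function.update_idem]
      congr 1
      ring
    rw [h1, Sl_shift hf hζ, ih]
    congr 1
    push_cast
    ring

private theorem Sl_step {α B : Fin n → k} {f : (Fin n → EPt k) → W} (hf : ClassFn α B f)
    {ζ : k} (hζ : IsPrimitiveRoot ζ 3) (s : Fin n → Side k) (w : Fin n → k) (j : Fin n)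
    {e : ℤ} (he : e = 1 ∨ e = -1) (c : ℕ) (l : ZMod 3) :
    Sl f ζ α s (Function.update w j ((e : k) * ζ ^ c * w j)) l = e • Sl f ζ α s w (l + 2 * c) := by
  rcases he with rfl | rfl
  · rw [Int.cast_one, one_mul, Sl_shifts hf hζ, one_smul]
  · have h1 : Function.update w j (((-1 : ℤ) : k) * ζ ^ c * w j) =
        Function.update (Function.update w j (ζ ^ c * w j)) j
          (-Function.update w j (ζ ^ c * w j) j) := by
      rw [Function.update_self, Function.update_idem]
      congr 1
      push_cast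
      ring
    rw [h1, Sl_neg hf, Sl_shifts hf hζ, neg_smul, one_smul]

/-- Write `w' j = η j w j`, `η j ^ 6 = 1`, `η j = ε j ζ ^ c j` with `ε j = ± 1`; from `∏ η j = 1` we
get `∏ ε j = 1` and `∑ c j = 0` in `ZMod 3`. Then `ζ ^ a w' ^ 2 = ζ ^ (a + 2 c) w ^ 2` and
`Sg / w' ^ 3 = ε Sg / w ^ 3`; shift the summation variable by `2 c`, and use that `f` is odd. -/
theorem Sl_congr {α B : Fin n → k} {f : (Fin n → EPt k) → W} (hf : ClassFn α B f) {ζ : k}
    (hζ : IsPrimitiveRoot ζ 3) (s : Fin n → Side k) {w w' : Fin n → k} (hw0 : ∀ j, w j ≠ 0)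
    (h6 : ∀ j, w' j ^ 6 = w j ^ 6) (hp : ∏ j, w' j = ∏ j, w j) (l : ZMod 3) :
    Sl f ζ α s w' l = Sl f ζ α s w l := by
  have h3 : ζ ^ 3 = 1 := hζ.pow_eq_one
  have key : ∀ j, ∃ (e : ℤ) (c : ℕ), (e = 1 ∨ e = -1) ∧ w' j = (e : k) * ζ ^ c * w j := by
    intro j
    have h1 : ((w' j / w j) ^ 3 - 1) * ((w' j / w j) ^ 3 + 1) = 0 := by
      have h2 : (w' j / w j) ^ 6 = 1 := by
        rw [div_pow, h6, div_self (pow_ne_zero 6 (hw0 j))]
      linear_combination h2
    have hex : ∀ x : k, x ^ 3 = 1 → ∃ c : ℕ, ζ ^ c = x := by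
      intro x hx
      obtain ⟨i, -, hi⟩ := hζ.eq_pow_of_pow_eq_one hx
      exact ⟨i, hi⟩
    rcases mul_eq_zero.1 h1 with h2 | h2
    · obtain ⟨c, hc⟩ := hex (w' j / w j) (by linear_combination h2)
      refine ⟨1, c, Or.inl rfl, ?_⟩
      rw [hc, Int.cast_one, one_mul, div_mul_cancel₀ _ (hw0 j)]
    · obtain ⟨c, hc⟩ := hex (-(w' j / w j)) (by linear_combination -h2)
      refine ⟨-1, c, Or.inr rfl, ?_⟩
      rw [hc]
      push_cast
      rw [neg_mul_neg, one_mul, div_mul_cancel₀ _ (hw0 j)]
  choose e c he hw' using key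
  have hT : ∀ T : Finset (Fin n), Sl f ζ α s (fun j => if j ∈ T then w' j else w j) l =
      (∏ j ∈ T, e j) • Sl f ζ α s w (l + 2 * ((∑ j ∈ T, c j : ℕ) : ZMod 3)) := by
    intro T
    induction T using Finset.induction_on generalizing l with
    | empty => simp
    | insert i T hi ih =>
      have h1 : (fun j => if j ∈ insert i T then w' j else w j) =
          Function.update (fun j => if j ∈ T then w' j else w j) i
            ((e i : k) * ζ ^ c i * (fun j => if j ∈ T then w' j else w j) i) := by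
        funext j
        rcases eq_or_ne j i with rfl | hji
        · rw [Function.update_self]
          simp only [Finset.mem_insert_self, if_true, if_neg hi]
          exact hw' j
        · rw [Function.update_of_ne hji]
          simp only [Finset.mem_insert, hji, false_or]
      rw [h1, Sl_step hf hζ _ _ _ (he i), ih, Finset.prod_insert hi, Finset.sum_insert hi,
        mul_smul]
      congr 3
      push_cast
      ring
  have h1 := hT Finset.univ
  simp only [Finset.mem_univ, if_true] at h1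
  have h2 : ((∏ j, e j : ℤ) : k) * ζ ^ (∑ j, c j) = 1 := by
    have h4 : ∏ j, w' j = ((∏ j, e j : ℤ) : k) * ζ ^ (∑ j, c j) * ∏ j, w j := by
      rw [Int.cast_prod, ← Finset.prod_pow_eq_pow_sum, ← Finset.prod_mul_distrib,
        ← Finset.prod_mul_distrib]
      exact Finset.prod_congr rfl fun j _ => hw' j
    rw [hp] at h4
    have h5 : ∏ j, w j ≠ 0 := Finset.prod_ne_zero_iff.2 fun j _ => hw0 j
    have h6 : (((∏ j, e j : ℤ) : k) * ζ ^ (∑ j, c j) - 1) * ∏ j, w j = 0 := by
      linear_combination -h4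
    rcases mul_eq_zero.1 h6 with h7 | h7
    · linear_combination h7
    · exact absurd h7 h5
  have hpm : ∀ T : Finset (Fin n), ∏ j ∈ T, e j = 1 ∨ ∏ j ∈ T, e j = -1 := by
    intro T
    induction T using Finset.induction_on with
    | empty => exact Or.inl rfl
    | insert i T hi ih =>
      rw [Finset.prod_insert hi]
      rcases he i with h | h <;> rcases ih with h' | h' <;> rw [h, h'] <;> norm_num
  have hz3 : (ζ ^ (∑ j, c j)) ^ 3 = 1 := by
    rw [← pow_mul, mul_comm, pow_mul, h3, one_pow]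
  have h4 : ∏ j, e j = 1 := by
    rcases hpm Finset.univ with h | h
    · exact h
    · exfalso
      rw [h] at h2
      push_cast at h2
      have h5 : ζ ^ (∑ j, c j) = -1 := by linear_combination -h2
      rw [h5] at hz3
      have h7 : (2 : k) = 0 := by linear_combination -hz3
      exact two_ne_zero h7
  rw [h4, Int.cast_one, one_mul] at h2
  have h5 : (3 : ℕ) ∣ ∑ j, c j := (hζ.pow_eq_one_iff_dvd _).1 h2
  have h7 : ((∑ j, c j : ℕ) : ZMod 3) = 0 := (ZMod.natCast_eq_zero_iff _ _).2 h5
  rw [h1, h4, one_smul, h7, mul_zero, add_zero]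

end Pool.Agent.TInf
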