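import Pool.Agent.TInf.EVal
import Pool.Agent.TInf.SlCongr

/-!
# Backtracking
-/

set_option autoImplicit false

noncomputable section

namespace Pool.Agent.TInf

open Pool.Agent.ZCyc Polynomial
open Pool.Agent.VFP (Om tt)

universe u

variable {k : Type u} [Field k] [IsAlgClosed k] [CharZero k] {n : ℕ} {W : Type*} [AddCommGroup W]
  [Module ℚ W] {α B : Fin n → k} {f : (Fin n → EPt k) → W}

omit [IsAlgClosed k] [CharZero k] in
private lemma bk_tt_ne (c : k) : tt k ≠ algebraMap k (Om k) c := by
  intro h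
  rw [tt, IsScalarTower.algebraMap_apply k (RatFunc k) (Om k)] at h
  have h1 := (algebraMap (RatFunc k) (Om k)).injective h
  rw [RatFunc.algebraMap_eq_C, ← RatFunc.algebraMap_X, ← RatFunc.algebraMap_C] at h1
  exact Polynomial.X_ne_C c (RatFunc.algebraMap_injective k h1)

omit [IsAlgClosed k] [CharZero k] in
private lemma bk_tt_add_ne (c : k) : tt k + algebraMap k (Om k) c ≠ 0 := by
  intro h
  apply bk_tt_ne (-c)
  rw [map_neg]
  exact eq_neg_of_add_eq_zero_left h

/-- Family over `t = tt k`: `T_i = t`, `T_j = -p_j (t + m_i) / (t + p_i)`, the other sides constant.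
Since `p_i m_j = p_j m_i` we have `T_j + p_j = p_j (p_i - m_i) / (t + p_i)`,
`T_j + m_j = t (m_j - p_j) / (t + p_i)`, and `V_i V_j = (p_i - m_i) (p_j - m_j) / 4` is constant.
Choose `ω` in `Om k` with `ω ^ 6 = V_i(t)`, and take `w_i = ω`, `w_j = w_i w_j / ω`. At every place with
`t = T_i` the class is `Sl f ζ α s w l` (by `Sl_congr`), at every place with `t = 0` it is `0`, because
`ω` has a pole. -/
theorem back (hf : ClassFn α B f) {ζ : k} (hζ : IsPrimitiveRoot ζ 3)
    (s : Fin n → Side k) (hs : ∀ j, (s j).Good) (hB : ∀ j, (s j).p + (s j).m = -B j)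
    (hα : ∀ j, ((s j).p - (s j).m) ^ 2 = 4 * α j ^ 3) (hα0 : ∀ j, α j ≠ 0)
    (hpm : ∀ j, (s j).p * (s j).m ≠ 0) (w : Fin n → k)
    (hw : ∀ j, w j ^ 6 = (s j).V) {i j : Fin n} (hij : i ≠ j)
    (h1 : (s i).p * (s j).m = (s j).p * (s i).m)
    (h2 : ((s i).T + (s i).p) * (s j).T + (s j).p * ((s i).T + (s i).m) = 0) (l : ZMod 3) :
    Sl f ζ α s w l = 0 := by
  have hζ3 : ζ ^ 3 = 1 := hζ.pow_eq_one
  have hji : j ≠ i := hij.symm
  set φ := algebraMap k (Om k) with hφ
  set t := tt k with ht
  -- nonvanishing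
  have ht0 : t ≠ 0 := by
    have := bk_tt_ne (0 : k)
    rwa [map_zero] at this
  have htp : t + φ (s i).p ≠ 0 := bk_tt_add_ne _
  have htm : t + φ (s i).m ≠ 0 := bk_tt_add_ne _
  have hφ0 : ∀ x : k, x ≠ 0 → φ x ≠ 0 := fun x hx => (map_ne_zero φ).2 hx
  have hdiff : ∀ a, (s a).p - (s a).m ≠ 0 := by
    intro a h
    have h3 := hα a
    rw [h] at h3
    have h4 : α a ^ 3 = 0 := by
      have : (4 : k) * α a ^ 3 = 0 := by rw [← h3]; norm_num
      rcases mul_eq_zero.1 this with h5 | h5
      · norm_num at h5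
      · exact h5
    exact pow_ne_zero 3 (hα0 a) h4
  have hp0 : ∀ a, (s a).p ≠ 0 := fun a => left_ne_zero_of_mul (hpm a)
  have hm0 : ∀ a, (s a).m ≠ 0 := fun a => right_ne_zero_of_mul (hpm a)
  have hφd : ∀ a, φ (s a).p - φ (s a).m ≠ 0 := by
    intro a
    rw [← map_sub]
    exact hφ0 _ (hdiff a)
  have hV0 : ∀ a, (s a).V ≠ 0 := fun a =>
    div_ne_zero (mul_ne_zero (hs a).2.1 (hs a).2.2) (mul_ne_zero two_ne_zero (hs a).1)
  have hw0 : ∀ a, w a ≠ 0 := by
    intro a h
    apply hV0 a
    rw [← hw a, h]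
    norm_num
  have h1' : φ (s i).p * φ (s j).m = φ (s j).p * φ (s i).m := by
    rw [← map_mul, h1, map_mul]
  -- the family
  set Tj : Om k := -(φ (s j).p * (t + φ (s i).m)) / (t + φ (s i).p) with hTj
  have hTj0 : Tj ≠ 0 := div_ne_zero (neg_ne_zero.2 (mul_ne_zero (hφ0 _ (hp0 j)) htm)) htp
  have hTjp : Tj + φ (s j).p = φ (s j).p * (φ (s i).p - φ (s i).m) / (t + φ (s i).p) := by
    rw [hTj]
    field_simp
    ring
  have hTjm : Tj + φ (s j).m = t * (φ (s j).m - φ (s j).p) / (t + φ (s i).p) := by
    rw [hTj]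
    field_simp
    linear_combination h1'
  set S : Fin n → Side (Om k) := fun a => ⟨φ (s a).p, φ (s a).m,
    if a = i then t else if a = j then Tj else φ (s a).T⟩ with hS
  have hSi : S i = ⟨φ (s i).p, φ (s i).m, t⟩ := by simp [hS]
  have hSj : S j = ⟨φ (s j).p, φ (s j).m, Tj⟩ := by simp [hS, hji]
  have hSa : ∀ a, a ≠ i → a ≠ j → S a = ⟨φ (s a).p, φ (s a).m, φ (s a).T⟩ := by
    intro a hai haj
    simp [hS, hai, haj]
  have hSgood : ∀ a, (S a).Good := by
    intro a
    rcases eq_or_ne a i with rfl | hai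
    · rw [hSi]
      exact ⟨ht0, htp, htm⟩
    · rcases eq_or_ne a j with rfl | haj
      · rw [hSj]
        refine ⟨hTj0, ?_, ?_⟩
        · show Tj + φ (s a).p ≠ 0
          rw [hTjp]
          exact div_ne_zero (mul_ne_zero (hφ0 _ (hp0 a)) (hφd i)) htp
        · show Tj + φ (s a).m ≠ 0
          rw [hTjm, ← neg_sub (φ (s a).p)]
          exact div_ne_zero (mul_ne_zero ht0 (neg_ne_zero.2 (hφd a))) htp
      · rw [hSa a hai haj]
        obtain ⟨g1, g2, g3⟩ := hs a
        refine ⟨hφ0 _ g1, ?_, ?_⟩
        · show φ (s a).T + φ (s a).p ≠ 0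
          rw [← map_add]
          exact hφ0 _ g2
        · show φ (s a).T + φ (s a).m ≠ 0
          rw [← map_add]
          exact hφ0 _ g3
  have hVi : (S i).V = (t + φ (s i).p) * (t + φ (s i).m) / (2 * t) := by
    rw [hSi]
    rfl
  have hVij : (S i).V * (S j).V =
      (φ (s i).p - φ (s i).m) * (φ (s j).p - φ (s j).m) / 4 := by
    have e : (S j).V = (Tj + φ (s j).p) * (Tj + φ (s j).m) / (2 * Tj) := by
      rw [hSj]
      rfl
    have hpj := hφ0 _ (hp0 j)
    rw [hVi, e, hTjp, hTjm, hTj]
    field_simp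
    ring
  have hVk : (s i).V * (s j).V = ((s i).p - (s i).m) * ((s j).p - (s j).m) / 4 := by
    obtain ⟨g1, g2, g3⟩ := hs i
    have eT : (s j).T = -((s j).p * ((s i).T + (s i).m)) / ((s i).T + (s i).p) := by
      rw [eq_div_iff g2]
      linear_combination h2
    have e1 : (s j).T + (s j).p =
        (s j).p * ((s i).p - (s i).m) / ((s i).T + (s i).p) := by
      rw [eT]
      field_simp
      ring
    have e2 : (s j).T + (s j).m = (s i).T * ((s j).m - (s j).p) / ((s i).T + (s i).p) := by
      rw [eT]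
      field_simp
      linear_combination h1
    have hpj := hp0 j
    unfold Side.V
    rw [e1, e2, eT]
    field_simp
    ring
  obtain ⟨ω, hω⟩ := IsAlgClosed.exists_pow_nat_eq (S i).V (n := 6) (by norm_num)
  have hVi0 : (S i).V ≠ 0 := by
    rw [hVi]
    exact div_ne_zero (mul_ne_zero htp htm) (mul_ne_zero two_ne_zero ht0)
  have hω0 : ω ≠ 0 := by
    rintro rfl
    apply hVi0
    rw [← hω]
    norm_num
  set Wf : Fin n → Om k := fun a =>
    if a = i then ω else if a = j then φ (w i * w j) / ω else φ (w a) with hWf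
  have hWi : Wf i = ω := by simp [hWf]
  have hWj : Wf j = φ (w i * w j) / ω := by simp [hWf, hji]
  have hWa : ∀ a, a ≠ i → a ≠ j → Wf a = φ (w a) := by
    intro a hai haj
    simp [hWf, hai, haj]
  have hSW : ∀ a, Wf a ^ 6 = (S a).V := by
    intro a
    rcases eq_or_ne a i with rfl | hai
    · rw [hWi, hω]
    · rcases eq_or_ne a j with rfl | haj
      · rw [hWj, div_pow, hω, ← map_pow, mul_pow, hw, hw, hVk, div_eq_iff hVi0,
          mul_comm (S a).V, hVij]
        simp only [map_div₀, map_mul, map_sub]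
        rw [show φ 4 = 4 from map_ofNat φ 4]
      · rw [hWa a hai haj, ← map_pow, hw, hSa a hai haj]
        unfold Side.V
        simp only [map_div₀, map_mul, map_add]
        rw [show φ 2 = 2 from map_ofNat φ 2]
  have hφζ : φ ζ ^ 3 = 1 := by rw [← map_pow, hζ3, map_one]
  have hon : ∀ (a : Fin n → ZMod 3) b, EOn (φ (α b)) (φ (B b))
      (epoint (φ ζ) (φ (α b)) (S b) (Wf b) (a b)) := by
    intro a b
    refine epoint_on hφζ (hSgood b) ?_ ?_ (hSW b) (a b)
    · show φ (s b).p + φ (s b).m = -φ (B b)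
      rw [← map_add, hB, map_neg]
    · show (φ (s b).p - φ (s b).m) ^ 2 = 4 * φ (α b) ^ 3
      rw [← map_sub, ← map_pow, hα, map_mul, map_pow, show φ 4 = 4 from map_ofNat φ 4]
  have hT : ∀ v : Place k (Om k), v.At t (s i).T → ∀ a, v.At (S a).T (s a).T := by
    intro v hv a
    rcases eq_or_ne a i with rfl | hai
    · rw [hSi]
      exact hv
    · rcases eq_or_ne a j with rfl | haj
      · rw [hSj]
        show v.At Tj (s a).T
        have eT : (s a).T = -((s a).p * ((s i).T + (s i).m)) / ((s i).T + (s i).p) := by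
          rw [eq_div_iff (hs i).2.1]
          linear_combination h2
        rw [eT, hTj]
        exact (((Place.at_const _).mul (hv.add (Place.at_const _))).neg).div
          (hv.add (Place.at_const _)) (hs i).2.1
      · rw [hSa a hai haj]
        exact Place.at_const _
  have hbr := hf.bridge (I := Fin n → ZMod 3) (fun a => if ∑ b, a b = l then 1 else 0)
    (fun a b => epoint (φ ζ) (φ (α b)) (S b) (Wf b) (a b)) hon (s i).T 0
    (Sl f ζ α s w l) 0 ?_ ?_
  · exact hbr
  · -- the places with `t = T_i`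
    intro v hv
    have hTv := hT v hv
    have h2v : v.At (2 : Om k) (2 : k) := by
      have h := Place.at_const (v := v) (2 : k)
      rwa [map_ofNat] at h
    have hVv : v.At (S i).V (s i).V := by
      rw [hVi]
      exact ((hv.add (Place.at_const _)).mul (hv.add (Place.at_const _))).div
        (h2v.mul hv) (mul_ne_zero two_ne_zero (hs i).1)
    have hωm : ω ∈ v.ring := by
      have h6 : ω ^ 6 ∈ v.ring := by
        rw [hω]
        exact hVv.mem
      rcases v.ring.mem_or_inv_mem ω with h | h
      · exact h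
      · have e : ω = ω ^ 6 * (ω⁻¹) ^ 5 := by
          field_simp
        rw [e]
        exact mul_mem h6 (pow_mem h 5)
    obtain ⟨w₀, hw₀⟩ := DCI57.exists_at v hωm
    have hw6 : w₀ ^ 6 = (s i).V := by
      have h := hw₀.pow 6
      rw [hω] at h
      exact h.unique hVv
    have hw₀0 : w₀ ≠ 0 := by
      rintro rfl
      apply hV0 i
      rw [← hw6]
      norm_num
    set w' : Fin n → k := fun a =>
      if a = i then w₀ else if a = j then w i * w j / w₀ else w a with hw'
    have hw'i : w' i = w₀ := by simp [hw']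
    have hw'j : w' j = w i * w j / w₀ := by simp [hw', hji]
    have hw'a : ∀ a, a ≠ i → a ≠ j → w' a = w a := by
      intro a hai haj
      simp [hw', hai, haj]
    have hw'6 : ∀ a, w' a ^ 6 = (s a).V := by
      intro a
      rcases eq_or_ne a i with rfl | hai
      · rw [hw'i, hw6]
      · rcases eq_or_ne a j with rfl | haj
        · rw [hw'j, div_pow, hw6, mul_pow, hw, hw, mul_comm, mul_div_assoc, div_self (hV0 i),
            mul_one]
        · rw [hw'a a hai haj, hw]
    have hW' : ∀ a, v.At (Wf a) (w' a) := by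
      intro a
      rcases eq_or_ne a i with rfl | hai
      · rw [hw'i, hWi]
        exact hw₀
      · rcases eq_or_ne a j with rfl | haj
        · rw [hw'j, hWj]
          exact (Place.at_const _).div hw₀ hw₀0
        · rw [hw'a a hai haj, hWa a hai haj]
          exact Place.at_const _
    refine ⟨fun a b => epoint ζ (α b) (s b) (w' b) (a b), ?_, ?_⟩
    · intro a b
      exact epoint_val hζ3 (Place.at_const _) (Place.at_const _) (Place.at_const _) (hTv b)
        (hW' b) (hs b) (hw'6 b) (a b)
    · have hprod : ∏ a, w' a = ∏ a, w a := by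
        have e : ∀ g : Fin n → k, ∏ a, g a =
            g i * (g j * ∏ a ∈ (Finset.univ.erase i).erase j, g a) := by
          intro g
          rw [← Finset.mul_prod_erase _ _ (Finset.mem_univ i),
            ← Finset.mul_prod_erase _ _ (Finset.mem_erase.2 ⟨hji, Finset.mem_univ j⟩)]
        rw [e w', e w, hw'i, hw'j]
        rw [Finset.prod_congr rfl fun a ha => hw'a a
          (Finset.ne_of_mem_erase (Finset.mem_of_mem_erase ha)) (Finset.ne_of_mem_erase ha)]
        field_simp
      have h6 : ∀ a, w' a ^ 6 = w a ^ 6 := fun a => by rw [hw'6, hw]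
      rw [← Sl_congr hf hζ s hw0 h6 hprod l]
      unfold Sl
      refine Finset.sum_congr rfl fun a _ => ?_
      split_ifs with h
      · rw [one_smul]
      · rw [zero_smul]
  · -- the places with `t = 0`
    intro v hv
    have hωm : ω ∉ v.ring := by
      intro hm
      have hVm : (S i).V ∈ v.ring := by
        rw [← hω]
        exact pow_mem hm 6
      have hv0 : v.Vanishes t := Place.at_zero_iff.1 hv
      have h3 : v.At ((t + φ (s i).p) * (t + φ (s i).m)) ((0 + (s i).p) * (0 + (s i).m)) :=
        (hv.add (Place.at_const _)).mul (hv.add (Place.at_const _))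
      have h4 : (t + φ (s i).p) * (t + φ (s i).m) = t * (2 * (S i).V) := by
        rw [hVi]
        field_simp
      have h5 : v.Vanishes ((t + φ (s i).p) * (t + φ (s i).m)) := by
        rw [h4]
        refine Place.Vanishes.mul v hv0 (mul_mem ?_ hVm)
        have := v.const_mem (2 : k)
        rwa [map_ofNat] at this
      have h6 := h3.unique (Place.at_zero_iff.2 h5)
      rw [zero_add, zero_add] at h6
      exact hpm i h6
    have hex : ∀ (a : Fin n → ZMod 3) b, ∃ p, EVal v
        (epoint (φ ζ) (φ (α b)) (S b) (Wf b) (a b)) p := fun a b =>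
      evalue_exists v (v.const_mem _) (v.const_mem _) (hon a b)
    choose p hp using hex
    refine ⟨p, hp, ?_⟩
    refine Finset.sum_eq_zero fun a _ => ?_
    have h3 : EVal v (epoint (φ ζ) (φ (α i)) (S i) (Wf i) (a i)) none :=
      epoint_inf hζ3 (Place.at_const (α i)) (hα0 i) (by rw [hWi]; exact hω0)
        (Or.inr (by rw [hWi]; exact hωm)) (a i)
    have h4 : p a i = none := evalue_unique (hp a i) h3
    rw [hf.inf (p a) i h4, smul_zero]

end Pool.Agent.TInf
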