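import Pool.Agent.TInf.PeelInner

/-!
# Peeling with the second formula for T
-/

set_option autoImplicit false

noncomputable section

namespace Pool.Agent.TInf

open Polynomial

variable {K : Type*} [Field K]

/-- the numerator in the second formula for `T` -/
def den' (s : Side K) (M : Mq K) : K := M.a.eval s.th + s.b * s.g / s.D * M.t.eval s.th

variable [CharZero K] {s : Side K}

/-- the second formula for `T` -/
theorem peel_T' (hs : s.Good) (hn : s.Nd) (M : Mq K) :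
    s.T * (push s M).b.eval s.th * s.b = s.D * den' s (push s M) := by
  obtain ⟨h0, h1, h2⟩ := hs
  obtain ⟨h3, h4, h5⟩ := hn
  simp only [Side.b, Side.g, Side.D, ne_eq, div_eq_zero_iff, not_or] at h3 h4 h5
  have h6 : s.p ≠ 0 := left_ne_zero_of_mul h5
  have h7 : s.m ≠ 0 := right_ne_zero_of_mul h5
  simp only [den', push, Side.th, Side.b, Side.g, Side.D, eval_add, eval_sub, eval_mul, eval_C,
    eval_X, eval_one]
  field_simp
  ring

/-- the conditions for the divisibility of `pull s M` -/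
theorem pull_zero_of (hs : s.Good) (hn : s.Nd) {M : Mq K}
    (hT : den s M * s.T = -s.b * M.c.eval s.th)
    (hT' : s.T * M.b.eval s.th * s.b = s.D * den' s M) :
    (pull s M).a.eval s.th = 0 ∧ (pull s M).b.eval s.th = 0 ∧ (pull s M).c.eval s.th = 0 ∧
      (pull s M).t.eval s.th = 0 := by
  obtain ⟨h0, h1, h2⟩ := hs
  obtain ⟨h3, h4, h5⟩ := hn
  have h3' : s.p + s.m ≠ 0 := by
    intro h
    apply h3
    rw [Side.b, h, zero_div]
  have h6 : s.p ≠ 0 := by
    intro h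
    apply h5
    rw [Side.D, h, zero_mul]
  have h7 : s.m ≠ 0 := by
    intro h
    apply h5
    rw [Side.D, h, mul_zero]
  unfold den at hT
  unfold den' at hT'
  simp only [pull, eval_add, eval_sub, eval_mul, eval_C, eval_X, eval_neg, eval_one]
  have hth : s.th = s.b ^ 2 / s.D := rfl
  generalize hA : M.a.eval s.th = A at *
  generalize hB : M.b.eval s.th = B at *
  generalize hC : M.c.eval s.th = C' at *
  generalize ht : M.t.eval s.th = t at *
  rw [hth]
  have hCe : C' = -(A - s.b * s.g / s.D * t) * s.T / s.b := by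
    rw [eq_div_iff h3]
    linear_combination hT
  have hBe : B = s.D * (A + s.b * s.g / s.D * t) / (s.b * s.T) := by
    rw [eq_div_iff (mul_ne_zero h3 h0)]
    linear_combination hT'
  rw [hBe, hCe]
  simp only [Side.b, Side.g, Side.D] at h3 h4 h5 ⊢
  refine ⟨?_, ?_, ?_, ?_⟩ <;> field_simp <;> ring

/-- `b c ≠ 0` is not needed: each of the two formulas for `T` implies the other one if its
denominator is not zero -/
theorem other_T (hs : s.Good) (hn : s.Nd) {M : Mq K} (hq : M.q.eval s.th = 0)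
    (hb : M.b.eval s.th ≠ 0) (hT' : s.T * M.b.eval s.th * s.b = s.D * den' s M) :
    den s M * s.T = -s.b * M.c.eval s.th := by
  obtain ⟨h0, h1, h2⟩ := hs
  obtain ⟨h3, h4, h5⟩ := hn
  have hth : s.th = s.b ^ 2 / s.D := rfl
  simp only [Mq.q, eval_add, eval_sub, eval_mul, eval_X, eval_pow, eval_one] at hq
  unfold den' at hT'
  unfold den
  generalize hA : M.a.eval s.th = A at *
  generalize hB : M.b.eval s.th = B at *
  generalize hC : M.c.eval s.th = C' at *
  generalize ht : M.t.eval s.th = t at *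
  rw [hth] at hq
  have e1 : s.b ^ 2 - s.D = s.g ^ 2 := by
    simp only [Side.b, Side.D, Side.g]
    ring
  have h9 : s.D ^ 2 * (A ^ 2 + s.b ^ 2 / s.D * B * C' +
      s.b ^ 2 / s.D * (1 - s.b ^ 2 / s.D) * t ^ 2) = 0 := by
    rw [hq, mul_zero]
  have h10 : s.D ^ 2 * A ^ 2 + s.D * s.b ^ 2 * B * C' - s.b ^ 2 * s.g ^ 2 * t ^ 2 = 0 := by
    rw [← h9, ← e1]
    field_simp
    ring
  have h11 : s.T * B * s.b = s.D * A + s.b * s.g * t := by
    rw [hT']
    field_simp
  have h12 : (A - s.b * s.g / s.D * t) = (s.D * A - s.b * s.g * t) / s.D := by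
    field_simp
  rw [h12, div_mul_eq_mul_div, div_eq_iff h5]
  have h13 : B * ((s.D * A - s.b * s.g * t) * s.T - -s.b * C' * s.D) * s.b = 0 := by
    linear_combination h10 + (s.D * A - s.b * s.g * t) * h11
  rcases mul_eq_zero.1 h13 with h14 | h14
  · rcases mul_eq_zero.1 h14 with h15 | h15
    · exact absurd h15 hb
    · exact sub_eq_zero.1 h15
  · exact absurd h14 h3

/-- existence of the inner state, if both formulas for `T` are true -/
theorem exists_inner_of (hs : s.Good) (hn : s.Nd) {M : Mq K}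
    (hT : den s M * s.T = -s.b * M.c.eval s.th)
    (hT' : s.T * M.b.eval s.th * s.b = s.D * den' s M) :
    ∃ M₁ : Mq K, pull s M = Mq.mul s.r M₁ ∧ push s M₁ = M := by
  obtain ⟨ha, hb, hc', ht⟩ := pull_zero_of hs hn hT hT'
  have hr : s.r = C (-s.D) * (X - C s.th) := by
    have h1 : s.D * s.th = s.b ^ 2 := by
      rw [Side.th, mul_div_cancel₀ _ hn.D]
    rw [Side.r, ← h1]
    simp only [C_mul, C_neg]
    ring
  have hdiv : ∀ f : K[X], f.eval s.th = 0 → ∃ g, f = s.r * g := by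
    intro f hf
    obtain ⟨g, hg⟩ := dvd_iff_isRoot.2 hf
    refine ⟨C (-s.D)⁻¹ * g, ?_⟩
    rw [hr, hg]
    have h1 : C (-s.D) * C (-s.D)⁻¹ = (1 : K[X]) := by
      rw [← C_mul, mul_inv_cancel₀ (neg_ne_zero.2 hn.D), C_1]
    linear_combination -(X - C s.th) * g * h1
  obtain ⟨a, ha⟩ := hdiv _ ha
  obtain ⟨b, hb⟩ := hdiv _ hb
  obtain ⟨c, hc'⟩ := hdiv _ hc'
  obtain ⟨t, ht⟩ := hdiv _ ht
  have h1 : pull s M = Mq.mul s.r ⟨a, b, c, t⟩ := Mq.ext ha hb hc' ht
  refine ⟨⟨a, b, c, t⟩, h1, ?_⟩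
  have hr0 : s.r ≠ 0 := by
    rw [hr]
    exact mul_ne_zero (C_ne_zero.2 (neg_ne_zero.2 hn.D)) (X_sub_C_ne_zero _)
  have h2 := push_pull hs M
  rw [h1] at h2
  have h3 : push s (Mq.mul s.r ⟨a, b, c, t⟩) = Mq.mul s.r (push s ⟨a, b, c, t⟩) := by
    apply Mq.ext <;> simp only [push, Mq.mul] <;> ring
  rw [h3] at h2
  apply Mq.ext
  · exact mul_left_cancel₀ hr0 (congrArg Mq.a h2)
  · exact mul_left_cancel₀ hr0 (congrArg Mq.b h2)
  · exact mul_left_cancel₀ hr0 (congrArg Mq.c h2)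
  · exact mul_left_cancel₀ hr0 (congrArg Mq.t h2)

/-- the first formula for `T` implies the second one -/
theorem other_T' (hs : s.Good) (hn : s.Nd) {M : Mq K} (hq : M.q.eval s.th = 0)
    (hc : M.c.eval s.th ≠ 0) (hT : den s M * s.T = -s.b * M.c.eval s.th) :
    s.T * M.b.eval s.th * s.b = s.D * den' s M := by
  obtain ⟨M₁, -, h⟩ := exists_inner hs hn hq hc hT
  rw [← h]
  exact peel_T' hs hn M₁

/-- backtracking: `L(s) L(s₁) = 0` at the zero of the determinants, if `s.p s₁.m = s₁.p s.m` -/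
def bk (s s₁ : Side K) : K := (s.T + s.p) * s₁.T + s₁.p * (s.T + s.m)

omit [CharZero K] in
private theorem ratio {s s₁ : Side K} (hn : s.Nd) (hn₁ : s₁.Nd)
    (hz : s.p * s₁.m = s₁.p * s.m) : ∃ r : K, r ≠ 0 ∧ s₁.p = r * s.p ∧ s₁.m = r * s.m := by
  have hp : s.p ≠ 0 := left_ne_zero_of_mul hn.D
  have hp' : s₁.p ≠ 0 := left_ne_zero_of_mul hn₁.D
  refine ⟨s₁.p / s.p, div_ne_zero hp' hp, by field_simp, ?_⟩
  field_simp
  linear_combination hz

/-- the value of the next state at `θ = s.th` -/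
private theorem step_val {p m r T₁ A B C' t : K} (hp : p ≠ 0) (hm : m ≠ 0) (hr : r ≠ 0)
    (h0' : T₁ ≠ 0) (hb : p + m ≠ 0)
    (hg : p - m ≠ 0)
    (hT : (A - (p + m) / 2 * ((p - m) / 2) / (p * m) * t) * T₁ = -(r * (p + m) / 2) * C')
    (hT' : T₁ * B * (r * (p + m) / 2) =
      r ^ 2 * (p * m) * (A + (p + m) / 2 * ((p - m) / 2) / (p * m) * t)) :
    ∃ l n : K, A = (l + n) / 2 ∧ t = (n - l) / 2 * (4 * (p * m) / ((p + m) * (p - m))) ∧
      C' = -(l * T₁) * 2 / (r * (p + m)) ∧ B = r * (p * m) * n * 2 / (T₁ * (p + m)) := by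
  refine ⟨A - (p + m) / 2 * ((p - m) / 2) / (p * m) * t,
    A + (p + m) / 2 * ((p - m) / 2) / (p * m) * t, by ring, by field_simp; ring, ?_, ?_⟩
  · rw [eq_div_iff (mul_ne_zero hr hb)]
    linear_combination 2 * hT
  · rw [eq_div_iff (mul_ne_zero h0' hb)]
    apply mul_left_cancel₀ hr
    linear_combination 2 * hT'

/-- the first formula for the next state -/
theorem den_step {s₁ : Side K} (hs : s.Good) (hs₁ : s₁.Good) (hn : s.Nd) (hn₁ : s₁.Nd)
    (hz : s.p * s₁.m = s₁.p * s.m) {M : Mq K} (hT : den s M * s₁.T = -s₁.b * M.c.eval s.th)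
    (hT' : s₁.T * M.b.eval s.th * s₁.b = s₁.D * den' s M) :
    den s (push s M) * (2 * s₁.p * (s.T + s.m) * ((s.T + s.p) * s₁.T)) =
      s.p * bk s s₁ * (den s M * ((s.T + s.p) * s₁.T) + s₁.m * (s.T + s.m) * den' s M) := by
  obtain ⟨r, hr, hrp, hrm⟩ := ratio hn hn₁ hz
  obtain ⟨h0, h1, h2⟩ := hs
  obtain ⟨h0', h1', h2'⟩ := hs₁
  have hp : s.p ≠ 0 := left_ne_zero_of_mul hn.D
  have hm : s.m ≠ 0 := right_ne_zero_of_mul hn.D
  have hb : s.p + s.m ≠ 0 := fun h => hn.b (by rw [Side.b, h, zero_div])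
  have hg : s.p - s.m ≠ 0 := fun h => hn.g (by rw [Side.g, h, zero_div])
  have hb₁ : s₁.b = r * (s.p + s.m) / 2 := by rw [Side.b, hrp, hrm]; ring
  have hD₁ : s₁.D = r ^ 2 * (s.p * s.m) := by rw [Side.D, hrp, hrm]; ring
  rw [hb₁] at hT
  rw [hb₁, hD₁] at hT'
  simp only [den, den', Side.b, Side.g, Side.D] at hT hT'
  obtain ⟨l, n, hA, ht, hC, hB⟩ := step_val hp hm hr h0' hb hg hT hT'
  simp only [den, den', push, bk, eval_add, eval_sub, eval_mul, eval_C, eval_X, hA, ht, hC, hB,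
    hrp, hrm]
  simp only [Side.th, Side.b, Side.g, Side.D]
  generalize s.p = p at *
  generalize s.m = m at *
  generalize s.T = T at *
  generalize s₁.T = T₁ at *
  field_simp
  ring

/-- the second formula for the next state -/
theorem den_step' {s₁ : Side K} (hs : s.Good) (hs₁ : s₁.Good) (hn : s.Nd) (hn₁ : s₁.Nd)
    (hz : s.p * s₁.m = s₁.p * s.m) {M : Mq K} (hT : den s M * s₁.T = -s₁.b * M.c.eval s.th)
    (hT' : s₁.T * M.b.eval s.th * s₁.b = s₁.D * den' s M) :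
    den' s (push s M) * (2 * s.D * s₁.p * (s.T + s.m) * ((s.T + s.p) * s₁.T)) =
      s.p * bk s s₁ * (s.m ^ 2 * den s M * ((s.T + s.p) * s₁.T) +
        s.p ^ 2 * s₁.m * (s.T + s.m) * den' s M) := by
  obtain ⟨r, hr, hrp, hrm⟩ := ratio hn hn₁ hz
  obtain ⟨h0, h1, h2⟩ := hs
  obtain ⟨h0', h1', h2'⟩ := hs₁
  have hp : s.p ≠ 0 := left_ne_zero_of_mul hn.D
  have hm : s.m ≠ 0 := right_ne_zero_of_mul hn.D
  have hb : s.p + s.m ≠ 0 := fun h => hn.b (by rw [Side.b, h, zero_div])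
  have hg : s.p - s.m ≠ 0 := fun h => hn.g (by rw [Side.g, h, zero_div])
  have hb₁ : s₁.b = r * (s.p + s.m) / 2 := by rw [Side.b, hrp, hrm]; ring
  have hD₁ : s₁.D = r ^ 2 * (s.p * s.m) := by rw [Side.D, hrp, hrm]; ring
  rw [hb₁] at hT
  rw [hb₁, hD₁] at hT'
  simp only [den, den', Side.b, Side.g, Side.D] at hT hT'
  obtain ⟨l, n, hA, ht, hC, hB⟩ := step_val hp hm hr h0' hb hg hT hT'
  simp only [den, den', push, bk, eval_add, eval_sub, eval_mul, eval_C, eval_X, hA, ht, hC, hB,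
    hrp, hrm]
  simp only [Side.th, Side.b, Side.g, Side.D]
  generalize s.p = p at *
  generalize s.m = m at *
  generalize s.T = T at *
  generalize s₁.T = T₁ at *
  field_simp
  ring

/-- without backtracking the state does not vanish at `s.th` -/
theorem ne_step {s₁ : Side K} (hs : s.Good) (hs₁ : s₁.Good) (hn : s.Nd) (hn₁ : s₁.Nd)
    (hz : s.p * s₁.m = s₁.p * s.m) {M : Mq K} (hT : den s M * s₁.T = -s₁.b * M.c.eval s.th)
    (hT' : s₁.T * M.b.eval s.th * s₁.b = s₁.D * den' s M) (hbk : bk s s₁ ≠ 0)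
    (h : den s M ≠ 0 ∨ den' s M ≠ 0) : den s (push s M) ≠ 0 ∨ den' s (push s M) ≠ 0 := by
  by_contra hcon
  rw [not_or, not_ne_iff, not_ne_iff] at hcon
  have e₁ := den_step hs hs₁ hn hn₁ hz hT hT'
  have e₂ := den_step' hs hs₁ hn hn₁ hz hT hT'
  rw [hcon.1, zero_mul] at e₁
  rw [hcon.2, zero_mul] at e₂
  have hp : s.p ≠ 0 := left_ne_zero_of_mul hn.D
  have hm : s.m ≠ 0 := right_ne_zero_of_mul hn.D
  have hm' : s₁.m ≠ 0 := right_ne_zero_of_mul hn₁.D
  have hb : s.p + s.m ≠ 0 := fun h => hn.b (by rw [Side.b, h, zero_div])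
  have hg : s.p - s.m ≠ 0 := fun h => hn.g (by rw [Side.g, h, zero_div])
  have h0 : s.p * bk s s₁ ≠ 0 := mul_ne_zero hp hbk
  have f₁ := (mul_eq_zero.1 e₁.symm).resolve_left h0
  have f₂ := (mul_eq_zero.1 e₂.symm).resolve_left h0
  obtain ⟨g0, g1, g2⟩ := hs
  obtain ⟨g0', g1', g2'⟩ := hs₁
  have h3 : (s.p + s.m) * (s.p - s.m) * (s₁.m * (s.T + s.m)) * den' s M = 0 := by
    linear_combination f₂ - s.m ^ 2 * f₁
  have h4 : den' s M = 0 := (mul_eq_zero.1 h3).resolve_left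
    (mul_ne_zero (mul_ne_zero hb hg) (mul_ne_zero hm' g2))
  have h5 : den s M = 0 := by
    rw [h4, mul_zero, add_zero] at f₁
    exact (mul_eq_zero.1 f₁).resolve_right (mul_ne_zero g1 g0')
  rcases h with h | h
  · exact h h5
  · exact h h4

end Pool.Agent.TInf
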