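import Pool.Agent.TInf.PathUniq
import Pool.Agent.TInf.PeelP

/-!
# Lists of sides with equal ratios `p / m`
-/

set_option autoImplicit false

noncomputable section

namespace Pool.Agent.TInf

open Polynomial

variable {K : Type*} [Field K]

/-- the state does not vanish at `s.th` for all initial pieces -/
def GdP : List (Side K) → Prop
  | [] => True
  | s :: l => GdP l ∧ s.Good ∧ (den s (st (s :: l)) ≠ 0 ∨ den' s (st (s :: l)) ≠ 0)

/-- the ratios `p / m` are equal, and there is no backtracking -/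
def Nbk (l : List (Side K)) : Prop :=
  l.Pairwise fun s s' => s.p * s'.m = s'.p * s.m ∧ bk s s' ≠ 0

theorem GdP.good : ∀ {l : List (Side K)}, GdP l → ∀ s ∈ l, s.Good
  | [], _, s, hs => by simp at hs
  | t :: l, h, s, hs => by
      rcases List.mem_cons.1 hs with rfl | hs
      · exact h.2.1
      · exact GdP.good h.1 s hs

theorem th_eq {s s' : Side K} (hn : s.Nd) (hn' : s'.Nd) (hz : s.p * s'.m = s'.p * s.m) :
    s'.th = s.th ∧ s'.b * s'.g / s'.D = s.b * s.g / s.D := by
  have hp : s.p ≠ 0 := left_ne_zero_of_mul hn.D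
  have hm : s.m ≠ 0 := right_ne_zero_of_mul hn.D
  have hp' : s'.p ≠ 0 := left_ne_zero_of_mul hn'.D
  have hm' : s'.m ≠ 0 := right_ne_zero_of_mul hn'.D
  have hD := hn.D
  have hD' := hn'.D
  obtain ⟨r, hr⟩ : ∃ r, r = s'.p / s.p := ⟨_, rfl⟩
  have hr0 : r ≠ 0 := by rw [hr]; exact div_ne_zero hp' hp
  have hrp : s'.p = r * s.p := by rw [hr]; field_simp
  have hrm : s'.m = r * s.m := by
    rw [hr]
    field_simp
    linear_combination hz
  constructor
  · simp only [Side.th, Side.b, Side.D, hrp, hrm]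
    have e : (r * s.p + r * s.m) / 2 = r * ((s.p + s.m) / 2) := by ring
    rw [e, mul_pow]
    have e' : r * s.p * (r * s.m) = r ^ 2 * (s.p * s.m) := by ring
    rw [e', mul_div_mul_left _ _ (pow_ne_zero 2 hr0)]
  · simp only [Side.g, Side.b, Side.D, hrp, hrm]
    have e : (r * s.p + r * s.m) / 2 * ((r * s.p - r * s.m) / 2) =
      r ^ 2 * ((s.p + s.m) / 2 * ((s.p - s.m) / 2)) := by ring
    have e' : r * s.p * (r * s.m) = r ^ 2 * (s.p * s.m) := by ring
    rw [e, e', mul_div_mul_left _ _ (pow_ne_zero 2 hr0)]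

variable [CharZero K]

theorem GdP_of_nbk : ∀ {l : List (Side K)}, (∀ s ∈ l, s.Nd) → (∀ s ∈ l, s.Good) → Nbk l → GdP l
  | [], _, _, _ => trivial
  | [s], hn, hg, _ => by
    have hs := hg s List.mem_cons_self
    have hns := hn s List.mem_cons_self
    refine ⟨trivial, hs, Or.inl ?_⟩
    have h1 := peel_T hs hns Mq.one
    intro h0
    rw [st_cons, st_nil] at h0
    rw [h0, zero_mul] at h1
    rcases mul_eq_zero.1 h1.symm with h2 | h2
    · exact hns.b (neg_eq_zero.1 h2)
    · apply hs.1
      simpa [push, Mq.one] using h2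
  | s :: s₁ :: l, hn, hg, hb => by
    have ih := GdP_of_nbk (l := s₁ :: l) (fun t ht => hn t (List.mem_cons_of_mem _ ht))
      (fun t ht => hg t (List.mem_cons_of_mem _ ht)) (List.pairwise_cons.1 hb).2
    have hs := hg s List.mem_cons_self
    have hns := hn s List.mem_cons_self
    have hs₁ := hg s₁ (List.mem_cons_of_mem _ List.mem_cons_self)
    have hns₁ := hn s₁ (List.mem_cons_of_mem _ List.mem_cons_self)
    obtain ⟨hz, hbk⟩ := (List.pairwise_cons.1 hb).1 s₁ List.mem_cons_self
    obtain ⟨e1, e2⟩ := th_eq hns hns₁ hz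
    refine ⟨ih, hs, ?_⟩
    have h1 := peel_T hs₁ hns₁ (st l)
    have h2 := peel_T' hs₁ hns₁ (st l)
    have hd : den s₁ (st (s₁ :: l)) = den s (st (s₁ :: l)) := by rw [den, den, e1, e2]
    have hd' : den' s₁ (st (s₁ :: l)) = den' s (st (s₁ :: l)) := by rw [den', den', e1, e2]
    rw [← st_cons, hd, e1] at h1
    rw [← st_cons, hd', e1] at h2
    have h3 := ih.2.2
    rw [hd, hd'] at h3
    exact ne_step hs hs₁ hns hns₁ hz h1 h2 hbk h3

/-- the outermost side is determined by its pair and the state -/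
theorem side_eqP {s s' : Side K} (hs : s.Good) (hn : s.Nd) (hs' : s'.Good)
    (hpm : s'.pm = s.pm) {M M' : Mq K} (h : push s' M' = push s M)
    (hc : den s (push s M) ≠ 0 ∨ den' s (push s M) ≠ 0) : s' = s := by
  obtain ⟨hp, hm⟩ := Prod.ext_iff.1 hpm
  change s'.p = s.p at hp
  change s'.m = s.m at hm
  have hb : s'.b = s.b := by rw [Side.b, Side.b, hp, hm]
  have hg : s'.g = s.g := by rw [Side.g, Side.g, hp, hm]
  have hD : s'.D = s.D := by rw [Side.D, Side.D, hp, hm]
  have hth : s'.th = s.th := by rw [Side.th, Side.th, hb, hD]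
  have hn' : s'.Nd := ⟨hb ▸ hn.b, hg ▸ hn.g, hD ▸ hn.D⟩
  have h1 := peel_T hs hn M
  have h2 := peel_T hs' hn' M'
  have h3 := peel_T' hs hn M
  have h4 := peel_T' hs' hn' M'
  have hden : den s' (push s' M') = den s (push s M) := by
    rw [den, den, h, hb, hg, hD, hth]
  have hden' : den' s' (push s' M') = den' s (push s M) := by
    rw [den', den', h, hb, hg, hD, hth]
  rw [hden, h, hb, hth] at h2
  rw [hden', h, hb, hD, hth] at h4
  refine Side.ext hp hm ?_
  rcases hc with hc | hc
  · exact mul_left_cancel₀ hc (h2.trans h1.symm)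
  · have h5 : s.T * (push s M).b.eval s.th * s.b ≠ 0 := by
      rw [h3]
      exact mul_ne_zero hn.D hc
    have h6 : (push s M).b.eval s.th ≠ 0 := right_ne_zero_of_mul (left_ne_zero_of_mul h5)
    apply mul_right_cancel₀ h6
    apply mul_right_cancel₀ hn.b
    rw [h3, h4]

/-- uniqueness -/
theorem st_uniqueP {l l' : List (Side K)} (hn : ∀ s ∈ l, s.Nd) (hl : GdP l)
    (hl' : ∀ s ∈ l', s.Good) (hpm : l'.map Side.pm = l.map Side.pm) (h : st l' = st l) :
    l' = l := by
  induction l generalizing l' with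
  | nil => simpa using hpm
  | cons s l ih =>
    rcases l' with _ | ⟨s', l'⟩
    · simp at hpm
    · rw [List.map_cons, List.map_cons, List.cons.injEq] at hpm
      obtain ⟨h1, h2⟩ := hpm
      obtain ⟨hl1, hs, hc⟩ := hl
      have hnd : s.Nd := hn s List.mem_cons_self
      have e : s' = s := side_eqP hs hnd (hl' s' List.mem_cons_self) h1 h hc
      subst e
      have h3 : st l' = st l := push_inj hs hnd h
      rw [ih (fun t ht => hn t (List.mem_cons_of_mem _ ht)) hl1
        (fun t ht => hl' t (List.mem_cons_of_mem _ ht)) h2 h3]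

end Pool.Agent.TInf
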