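import Pool.Agent.TInf.Conf
import Pool.Agent.TInf.PathP

/-!
# Configurations, including the isotrivial case

The numbers `B j ² / α j ³` are distinct or they are equal; in the second case only square roots `β j`
with equal quotients `β j / B j` are admissible.
-/

set_option autoImplicit false

noncomputable section

namespace Pool.Agent.TInf

open Polynomial

variable {K : Type*} [Field K] {n : ℕ}

/-- the cubics are nondegenerate, and the numbers `B j ² / α j ³` are distinct or equal -/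
structure NdU (α B : Fin n → K) : Prop where
  hα : ∀ j, α j ≠ 0
  hB : ∀ j, B j ≠ 0
  disc : ∀ j, B j ^ 2 ≠ 4 * α j ^ 3
  dist : (∀ i j, i ≠ j → B i ^ 2 * α j ^ 3 ≠ B j ^ 2 * α i ^ 3) ∨
    ∀ i j, B i ^ 2 * α j ^ 3 = B j ^ 2 * α i ^ 3

/-- the admissible square roots -/
def Adm (α B β : Fin n → K) : Prop :=
  (∀ j, β j ^ 2 = α j ^ 3) ∧ ((∀ i j, i ≠ j → B i ^ 2 * α j ^ 3 ≠ B j ^ 2 * α i ^ 3) ∨
    ∀ i j, β i * B j = β j * B i)

/-- There is a good configuration with the state `M` for every ordering and all admissible square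
roots (and all denominators in the formulas for the `T` are not zero). -/
def FullU (α B : Fin n → K) (M : Mq K) : Prop :=
  ∀ (ord : Equiv.Perm (Fin n)) (β : Fin n → K), Adm α B β →
    ∃ T : Fin n → K, (⟨ord, β, T⟩ : Cfg K n).Good α B ∧ (⟨ord, β, T⟩ : Cfg K n).M B = M ∧
      GdP ((⟨ord, β, T⟩ : Cfg K n).sides B)

/-- a configuration is determined by its list of sides and the ordering -/
theorem Cfg.ext_sides {B : Fin n → K} {c c' : Cfg K n} (ho : c'.ord = c.ord) (hβ : c'.β = c.β)
    (hs : c'.sides B = c.sides B) : c' = c := by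
  refine Cfg.ext ho hβ ?_
  funext j
  have hj : (c.ord.symm j).val < (c.sides B).length := by
    rw [Cfg.length_sides]
    exact (c.ord.symm j).2
  have hj' : (c.ord.symm j).val < (c'.sides B).length := by
    rw [Cfg.length_sides]
    exact (c.ord.symm j).2
  have h1 : (c'.sides B)[(c.ord.symm j).val] = (c.sides B)[(c.ord.symm j).val] := by
    simp only [hs]
  rw [Cfg.getElem_sides, Cfg.getElem_sides] at h1
  simp only [ho, Fin.eta, Equiv.apply_symm_apply] at h1
  exact congrArg Side.T h1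

variable {α B : Fin n → K}

lemma NdU.nd (h : NdU α B) (hd : ∀ i j, i ≠ j → B i ^ 2 * α j ^ 3 ≠ B j ^ 2 * α i ^ 3) :
    Nd α B := ⟨h.hα, h.hB, h.disc, hd⟩

variable [CharZero K]

lemma Cfg.side_ndU (h : NdU α B) {c : Cfg K n} (hc : c.Good α B) (j : Fin n) :
    (c.side B j).Nd := by
  refine ⟨?_, ?_, ?_⟩
  · rw [Cfg.side_b]
    exact div_ne_zero (neg_ne_zero.mpr (h.hB j)) two_ne_zero
  · rw [Cfg.side_g]
    intro h0
    have := hc.1 j
    rw [h0, zero_pow two_ne_zero] at this
    exact pow_ne_zero 3 (h.hα j) this.symm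
  · rw [Cfg.side_D hc]
    exact div_ne_zero (sub_ne_zero.mpr (h.disc j)) (by norm_num)

lemma Cfg.sides_ndU (h : NdU α B) {c : Cfg K n} (hc : c.Good α B) :
    ∀ s ∈ c.sides B, s.Nd := by
  intro s hs
  obtain ⟨j, rfl⟩ := Cfg.mem_sides hs
  exact Cfg.side_ndU h hc j

/-- uniqueness, if the denominators are not zero for one configuration -/
theorem cfg_unique_of_gdP (h : NdU α B) {c c' : Cfg K n} (hc : c.Good α B)
    (hG : GdP (c.sides B)) (hc' : c'.Good α B) (ho : c'.ord = c.ord) (hβ : c'.β = c.β)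
    (hM : c'.M B = c.M B) : c' = c := by
  refine Cfg.ext_sides (B := B) ho hβ ?_
  refine st_uniqueP (Cfg.sides_ndU h hc) hG (Cfg.sides_good hc') ?_ ?_
  · simp only [Cfg.sides, List.map_map]
    refine List.map_congr_left fun a _ => ?_
    simp only [Function.comp_apply, Side.pm, Cfg.side, ho, hβ]
  · rw [← Cfg.M_eq, ← Cfg.M_eq, hM]

/-- uniqueness -/
theorem cfg_uniqueU (h : NdU α B) {M : Mq K} (hF : FullU α B M) {c c' : Cfg K n}
    (hc : c.Good α B) (hc' : c'.Good α B) (hA : Adm α B c.β) (ho : c'.ord = c.ord)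
    (hβ : c'.β = c.β) (hM : c.M B = M) (hM' : c'.M B = M) : c' = c := by
  obtain ⟨T, hg, hT, hG⟩ := hF c.ord c.β hA
  rw [cfg_unique_of_gdP h hg hG hc' ho hβ (by rw [hM', hT]),
    cfg_unique_of_gdP h hg hG hc rfl rfl (by rw [hM, hT])]

/-- the denominators are not zero -/
theorem Cfg.gdPU (h : NdU α B) {M : Mq K} (hF : FullU α B M) {c : Cfg K n}
    (hc : c.Good α B) (hA : Adm α B c.β) (hM : c.M B = M) : GdP (c.sides B) := by
  obtain ⟨T, hg, hT, hG⟩ := hF c.ord c.β hA
  rwa [cfg_unique_of_gdP h hg hG hc rfl rfl (by rw [hM, hT])]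

end Pool.Agent.TInf
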