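import Pool.Agent.TInf.Inv
import Pool.Agent.TInf.Back
import Pool.Agent.TInf.ConfU

/-!
# Invariance of the classes, including the isotrivial case
-/

set_option autoImplicit false

noncomputable section

namespace Pool.Agent.TInf

open Pool.Agent.ZCyc Polynomial
open Pool.Agent.VFP (Om tt)

universe u

variable {k : Type u} [Field k] [IsAlgClosed k] [CharZero k] {n : ℕ} {W : Type*} [AddCommGroup W]
  [Module ℚ W] {α B : Fin n → k} {f : (Fin n → EPt k) → W}

/-- `Gd` implies `GdP` -/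
theorem Gd.gdP {K : Type*} [Field K] [CharZero K] : ∀ {l : List (Side K)}, (∀ s ∈ l, s.Nd) →
    Gd l → GdP l
  | [], _, _ => trivial
  | s :: l, hn, h => by
    refine ⟨Gd.gdP (fun t ht => hn t (List.mem_cons_of_mem _ ht)) h.1, h.2.1, Or.inl ?_⟩
    intro h0
    have h1 := peel_T h.2.1 (hn s List.mem_cons_self) (st l)
    rw [← st_cons, h0, zero_mul] at h1
    rcases mul_eq_zero.1 h1.symm with h2 | h2
    · exact (hn s List.mem_cons_self).b (neg_eq_zero.1 h2)
    · exact h.2.2 h2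

omit [Module ℚ W] in
private theorem sign_smul_smul {m : ℕ} (o : Equiv.Perm (Fin m)) (x : W) :
    ((Equiv.Perm.sign o : ℤˣ) : ℤ) • (((Equiv.Perm.sign o : ℤˣ) : ℤ) • x) = x := by
  rw [smul_smul]
  have : ((Equiv.Perm.sign o : ℤˣ) : ℤ) * ((Equiv.Perm.sign o : ℤˣ) : ℤ) = 1 := by
    rcases Int.units_eq_one_or (Equiv.Perm.sign o) with h | h <;> rw [h] <;> norm_num
  rw [this, one_smul]

omit [IsAlgClosed k] in
private theorem V_ne' {s : Side k} (hs : s.Good) : s.V ≠ 0 := by
  obtain ⟨h1, h2, h3⟩ := hs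
  exact div_ne_zero (mul_ne_zero h2 h3) (mul_ne_zero two_ne_zero h1)

omit [CharZero k] in
private theorem exists_roots {v : Fin n → k} (hv : ∀ j, v j ≠ 0) {P : k} (hP : P ^ 6 = ∏ j, v j)
    (hn : 0 < n) : ∃ w : Fin n → k, (∀ j, w j ^ 6 = v j) ∧ ∏ j, w j = P := by
  obtain ⟨i⟩ : Nonempty (Fin n) := ⟨⟨0, hn⟩⟩
  have h1 : ∀ j, ∃ w, w ^ 6 = v j := fun j => IsAlgClosed.exists_pow_nat_eq (v j) (by norm_num)
  choose w hw using h1
  have hw0 : ∀ j, w j ≠ 0 := by
    intro j h
    apply hv j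
    rw [← hw j, h]
    norm_num
  have hp0 : ∏ j, w j ≠ 0 := Finset.prod_ne_zero_iff.2 fun j _ => hw0 j
  have hp6 : (∏ j, w j) ^ 6 = P ^ 6 := by
    rw [← Finset.prod_pow, hP]
    exact Finset.prod_congr rfl fun j _ => hw j
  refine ⟨Function.update w i (P / (∏ j, w j) * w i), ?_, ?_⟩
  · intro j
    rcases eq_or_ne j i with rfl | hj
    · rw [Function.update_self, mul_pow, div_pow, hp6, div_self, one_mul, hw]
      rw [← hp6]
      exact pow_ne_zero 6 hp0
    · rw [Function.update_of_ne hj, hw]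
  · rw [Finset.prod_update_of_mem (Finset.mem_univ i)]
    have h2 : w i * ∏ j ∈ Finset.univ \ {i}, w j = ∏ j, w j := by
      rw [← Finset.prod_update_of_mem (Finset.mem_univ i), Function.update_eq_self]
    rw [mul_assoc, h2, div_mul_cancel₀ _ hp0]

omit [IsAlgClosed k] in
theorem prod_VU {c : Cfg k n} (hc : c.Good α B) :
    ∏ j, (c.side B j).V = (c.M B).a.eval 1 + ((c.M B).b.eval 1 - (c.M B).c.eval 1) / 2 := by
  rw [Cfg.M_eq, V_st (Cfg.sides_good hc), Cfg.sides, List.map_map]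
  have h2 : ∏ a, (c.side B (c.ord a)).V = ∏ j, (c.side B j).V :=
    Equiv.prod_comp c.ord fun j => (c.side B j).V
  rw [← h2, Fin.prod_univ_def]
  rfl

/-- If the class of a configuration is not zero, then there are configurations with the same state
for all orderings and admissible square roots, and all denominators are not zero. -/
theorem full_of_neU (hf : ClassFn α B f) {ζ : k} (hζ : IsPrimitiveRoot ζ 3) (h : NdU α B)
    {c : Cfg k n} (hc : c.Good α B) {w : Fin n → k} (hw : ∀ j, w j ^ 6 = (c.side B j).V)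
    {l : ZMod 3} (h0 : Sl f ζ α (c.side B) w l ≠ 0) : FullU α B (c.M B) := by
  intro o β hA
  rcases h.dist with hd | hd
  · have hN := h.nd hd
    have hF := full_of_ne hf hζ hN hc hw h0
    obtain ⟨T, h1, h2⟩ := hF o β hA.1
    exact ⟨T, h1, h2, Gd.gdP (Cfg.sides_ndU h h1) (Cfg.gd hN hF h1 h2)⟩
  · obtain ⟨T, h1, h2, h3⟩ := InvP.all' hf hζ h.hα h.disc hc hw h0 o hA.1
    refine ⟨T, h1, h2, GdP_of_nbk (Cfg.sides_ndU h h1) (Cfg.sides_good h1) ?_⟩
    obtain ⟨d, hd'⟩ : ∃ d : Cfg k n, d = ⟨o, β, T⟩ := ⟨_, rfl⟩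
    rw [← hd'] at h1 h2 h3 ⊢
    -- the relation between `p` and `m`
    have hz : ∀ i j, i ≠ j → (d.side B i).p * (d.side B j).m = (d.side B j).p * (d.side B i).m := by
      intro i j hij
      rcases hA.2 with h4 | h4
      · exact absurd (hd i j) (h4 i j hij)
      · have h5 := h4 i j
        simp only [Cfg.side, hd']
        linear_combination -h5
    rw [Nbk, Cfg.sides, List.pairwise_map]
    refine (List.nodup_finRange n).imp fun {a b} hab => ?_
    have hij : d.ord a ≠ d.ord b := fun e => hab (d.ord.injective e)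
    refine ⟨hz _ _ hij, fun hbk => ?_⟩
    -- sixth roots
    have hP : (∏ j, w j) ^ 6 = ∏ j, (d.side B j).V := by
      have e1 : ∏ j, (d.side B j).V = ∏ j, (c.side B j).V := by
        rw [prod_VU h1, prod_VU hc, h2]
      rw [e1, ← Finset.prod_pow]
      exact Finset.prod_congr rfl fun j _ => hw j
    obtain ⟨w', hw', hwP⟩ := exists_roots (fun j => V_ne' (h1.2 j)) hP a.pos
    have h4 := h3 w' hw' hwP
    have h5 : Sl f ζ α (d.side B) w' l = 0 :=
      back hf hζ (d.side B) h1.2 (fun j => by simp only [Cfg.side]; ring)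
        (fun j => by
          have e1 : (d.side B j).p - (d.side B j).m = 2 * d.β j := by simp only [Cfg.side]; ring
          rw [e1, mul_pow, h1.1 j]
          ring) h.hα
        (fun j => by
          have e1 : (d.side B j).p * (d.side B j).m = (B j ^ 2 - 4 * d.β j ^ 2) / 4 := by
            simp only [Cfg.side]; ring
          rw [e1, h1.1 j]
          exact div_ne_zero (sub_ne_zero.2 (h.disc j)) (by norm_num)) w' hw' hij (hz _ _ hij)
        hbk l
    rw [h5] at h4
    apply h0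
    have h6 := congrArg (fun x => ((Equiv.Perm.sign c.ord : ℤˣ) : ℤ) •
      (((Equiv.Perm.sign o : ℤˣ) : ℤ) • x)) h4
    simp only [smul_zero, sign_smul_smul] at h6
    exact h6.symm

/-- The classes of configurations with admissible square roots and the same state are equal up to
the signs of the orderings. -/
theorem Sl_invU (hf : ClassFn α B f) {ζ : k} (hζ : IsPrimitiveRoot ζ 3) (h : NdU α B)
    {c c' : Cfg k n} (hc : c.Good α B) (hc' : c'.Good α B) (hA : Adm α B c.β)
    (hA' : Adm α B c'.β) (hM : c'.M B = c.M B) {w w' : Fin n → k}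
    (hw : ∀ j, w j ^ 6 = (c.side B j).V) (hw' : ∀ j, w' j ^ 6 = (c'.side B j).V)
    (hP : ∏ j, w' j = ∏ j, w j) (l : ZMod 3) :
    ((Equiv.Perm.sign c'.ord : ℤˣ) : ℤ) • Sl f ζ α (c'.side B) w' l =
      ((Equiv.Perm.sign c.ord : ℤˣ) : ℤ) • Sl f ζ α (c.side B) w l := by
  have key : ∀ {c c' : Cfg k n}, c.Good α B → c'.Good α B → Adm α B c'.β → c'.M B = c.M B →
      ∀ {w w' : Fin n → k}, (∀ j, w j ^ 6 = (c.side B j).V) → (∀ j, w' j ^ 6 = (c'.side B j).V) →
      ∏ j, w' j = ∏ j, w j → Sl f ζ α (c.side B) w l ≠ 0 →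
      ((Equiv.Perm.sign c'.ord : ℤˣ) : ℤ) • Sl f ζ α (c'.side B) w' l =
        ((Equiv.Perm.sign c.ord : ℤˣ) : ℤ) • Sl f ζ α (c.side B) w l := by
    intro c c' hc hc' hA' hM w w' hw hw' hP h0
    obtain ⟨T, h1, h2, h3⟩ := InvP.all' hf hζ h.hα h.disc hc hw h0 c'.ord hc'.1
    have hF := full_of_neU hf hζ h hc hw h0
    have h4 : c' = ⟨c'.ord, c'.β, T⟩ :=
      cfg_uniqueU h hF h1 hc' hA' rfl rfl h2 hM
    have h5 := h3 w' (fun j => by rw [← h4]; exact hw' j) hP
    rw [← h4] at h5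
    rw [h5, sign_smul_smul]
  by_cases h0 : Sl f ζ α (c.side B) w l = 0
  · by_cases h1 : Sl f ζ α (c'.side B) w' l = 0
    · rw [h0, h1, smul_zero, smul_zero]
    · exact (key hc' hc hA hM.symm hw' hw hP.symm h1).symm
  · exact key hc hc' hA' hM hw hw' hP h0

end Pool.Agent.TInf
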