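import Pool.Agent.TInf.RotC

/-!
# Places where the sides after the change of the frame degenerate
-/

set_option autoImplicit false

noncomputable section

namespace Pool.Agent.TInf

open Pool.Agent.ZCyc Polynomial
open Pool.Agent.VFP (Om tt)

universe u

variable {k : Type u} [Field k] [IsAlgClosed k] [CharZero k] {n : ℕ} {α B : Fin n → k}

/-- `ρ` has no value, or the value `0`, or the sides of the configuration after the change of the
frame by the value of `ρ` are not good. -/
def BadAt (v : Place k (Om k)) (α B : Fin n → k) (c : Cfg k n) (ρ : Om k) : Prop :=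
  ρ ∉ v.ring ∨ v.At ρ 0 ∨ ∃ ρ' : k, v.At ρ ρ' ∧ ρ' ≠ 0 ∧ ¬ (c.rotc B ρ').Good α B

private lemma at_two' {v : Place k (Om k)} : v.At (2 : Om k) 2 := by
  have := Place.at_const (v := v) (2 : k)
  rwa [map_ofNat] at this

private lemma up_ne {x : k} (hx : x ≠ 0) : algebraMap k (Om k) x ≠ 0 := by
  rwa [ne_eq, map_eq_zero]

/-- `x = (w + p) (w + m) / (2 w)` is not in the ring if `w` has the value `0` -/
private lemma V_zero {v : Place k (Om k)} {w : Om k} {p m : k} (hw : v.At w 0) (hw0 : w ≠ 0)
    (hp : p ≠ 0) (hm : m ≠ 0) :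
    (w + algebraMap k (Om k) p) * (w + algebraMap k (Om k) m) / (2 * w) ∉ v.ring := by
  intro h
  have h1 : v.Vanishes (w * ((w + algebraMap k (Om k) p) * (w + algebraMap k (Om k) m) /
      (2 * w))) := (Place.at_zero_iff.1 hw).mul v h
  have h2 : w * ((w + algebraMap k (Om k) p) * (w + algebraMap k (Om k) m) / (2 * w)) =
      (w + algebraMap k (Om k) p) * (w + algebraMap k (Om k) m) / 2 := by
    field_simp
  rw [h2] at h1
  have h3 := ((hw.add (Place.at_const p)).mul (hw.add (Place.at_const m))).div at_two'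
    two_ne_zero
  have h4 := h3.unique (Place.at_zero_iff.2 h1)
  rw [zero_add, zero_add, div_eq_zero_iff] at h4
  rcases h4 with h4 | h4
  · exact mul_ne_zero hp hm h4
  · exact two_ne_zero h4

/-- `x = (w + p) (w + m) / (2 w)` is not in the ring if `1 / w` has the value `0` -/
private lemma V_inf {v : Place k (Om k)} {w : Om k} {p m : k} (hw : v.At w⁻¹ 0) (hw0 : w ≠ 0) :
    (w + algebraMap k (Om k) p) * (w + algebraMap k (Om k) m) / (2 * w) ∉ v.ring := by
  intro h
  have h1 : v.Vanishes (w⁻¹ * ((w + algebraMap k (Om k) p) * (w + algebraMap k (Om k) m) /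
      (2 * w))) := (Place.at_zero_iff.1 hw).mul v h
  have h2 : w⁻¹ * ((w + algebraMap k (Om k) p) * (w + algebraMap k (Om k) m) / (2 * w)) =
      (1 + algebraMap k (Om k) p * w⁻¹) * (1 + algebraMap k (Om k) m * w⁻¹) / 2 := by
    field_simp
  rw [h2] at h1
  have hone : v.At (1 : Om k) 1 := by
    have := Place.at_const (v := v) (1 : k)
    rwa [map_one] at this
  have h3 := ((hone.add ((Place.at_const p).mul hw)).mul
    (hone.add ((Place.at_const m).mul hw))).div at_two' two_ne_zero
  have h4 := h3.unique (Place.at_zero_iff.2 h1)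
  simp at h4

/-- `s.next ρ` is not a constant -/
private lemma next_not_const {s : Side k} (hs : s.Good) (hn : s.Nd) {ρ : Om k}
    (hρ : ∀ x : k, ρ ≠ algebraMap k (Om k) x) (x : k) :
    s.up.next ρ ≠ algebraMap k (Om k) x := by
  intro h
  have hρ0 : ρ ≠ 0 := fun h0 => hρ 0 (by rw [h0, map_zero])
  obtain ⟨h0, h1, h2⟩ := hs
  have hT : s.up.T ≠ 0 := up_ne h0
  have hTp : s.up.T + s.up.p ≠ 0 := by
    change algebraMap k (Om k) s.T + algebraMap k (Om k) s.p ≠ 0
    rw [← map_add]
    exact up_ne h1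
  have hw : s.up.T / ρ ≠ 0 := div_ne_zero hT hρ0
  have hwm : s.up.T / ρ + s.up.m ≠ 0 := by
    intro h3
    apply hρ (-(s.T / s.m))
    have hm : s.m ≠ 0 := right_ne_zero_of_mul hn.D
    have hm' : algebraMap k (Om k) s.m ≠ 0 := up_ne hm
    change algebraMap k (Om k) s.T / ρ + algebraMap k (Om k) s.m = 0 at h3
    rw [map_neg, map_div₀]
    field_simp at h3 ⊢
    linear_combination h3
  rw [Side.next, div_eq_iff (mul_ne_zero hwm hTp)] at h
  change (algebraMap k (Om k) s.T / ρ + algebraMap k (Om k) s.p) *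
    (algebraMap k (Om k) s.T + algebraMap k (Om k) s.m) = algebraMap k (Om k) x *
    ((algebraMap k (Om k) s.T / ρ + algebraMap k (Om k) s.m) *
      (algebraMap k (Om k) s.T + algebraMap k (Om k) s.p)) at h
  have h5 : algebraMap k (Om k) (s.T * ((s.T + s.m) - x * (s.T + s.p))) =
      ρ * algebraMap k (Om k) (x * s.m * (s.T + s.p) - s.p * (s.T + s.m)) := by
    simp only [map_mul, map_sub, map_add]
    field_simp at h
    linear_combination h
  by_cases h6 : x * s.m * (s.T + s.p) - s.p * (s.T + s.m) = 0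
  · rw [h6, map_zero, mul_zero, map_eq_zero] at h5
    have h7 := (mul_eq_zero.1 h5).resolve_left h0
    have h8 : (s.m - s.p) * (s.T + s.m) = 0 := by
      linear_combination h6 + s.m * h7
    rcases mul_eq_zero.1 h8 with h9 | h9
    · apply hn.g
      rw [Side.g, ← neg_sub, h9, neg_zero, zero_div]
    · exact h2 h9
  · apply hρ (s.T * ((s.T + s.m) - x * (s.T + s.p)) /
      (x * s.m * (s.T + s.p) - s.p * (s.T + s.m)))
    rw [map_div₀, h5, mul_div_cancel_right₀ _ (up_ne h6)]

/-- list version of `bad_V` -/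
theorem bad_V_list {v : Place k (Om k)} : ∀ {l : List (Side k)}, l ≠ [] →
    (∀ s ∈ l, s.Good) → (∀ s ∈ l, s.Nd) → ∀ {ρ : Om k},
    (∀ x : k, ρ ≠ algebraMap k (Om k) x) →
    (ρ ∉ v.ring ∨ v.At ρ 0 ∨ ∃ ρ' : k, v.At ρ ρ' ∧ ρ' ≠ 0 ∧ ¬ ∀ s ∈ rotL ρ' l, s.Good) →
    ∃ s ∈ rotL ρ (l.map Side.up), s.V ∉ v.ring ∨ v.At s.V 0
  | [], h, _, _, _, _, _ => absurd rfl h
  | s :: l, _, hg, hn, ρ, hρ, hb => by
    have hs := hg s List.mem_cons_self
    have hns := hn s List.mem_cons_self
    have hp : s.p ≠ 0 := left_ne_zero_of_mul hns.D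
    have hm : s.m ≠ 0 := right_ne_zero_of_mul hns.D
    have hρ0 : ρ ≠ 0 := fun h0 => hρ 0 (by rw [h0, map_zero])
    have hT : s.up.T ≠ 0 := up_ne hs.1
    have hw : s.up.T / ρ ≠ 0 := div_ne_zero hT hρ0
    rw [List.map_cons, rotL_cons]
    rcases hb with hb | hb | ⟨ρ', h1, h2, h3⟩
    · refine ⟨_, List.mem_cons_self, Or.inl ?_⟩
      have h1 : v.At ρ⁻¹ 0 :=
        Place.at_zero_iff.2 ((v.vanishes_iff_or _).2 (Or.inr (by rwa [inv_inv])))
      have h2 : v.At (s.up.T / ρ) 0 := by
        have := (Place.at_const (v := v) s.T).mul h1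
        rwa [mul_zero, ← div_eq_mul_inv] at this
      exact V_zero h2 hw hp hm
    · refine ⟨_, List.mem_cons_self, Or.inl ?_⟩
      have h2 : v.At (s.up.T / ρ)⁻¹ 0 := by
        have := hb.div (Place.at_const (v := v) s.T) hs.1
        rwa [zero_div, ← inv_div] at this
      exact V_inf h2 hw
    · have hw' : v.At (s.up.T / ρ) (s.T / ρ') := (Place.at_const s.T).div h1 h2
      have hw0 : s.T / ρ' ≠ 0 := div_ne_zero hs.1 h2
      by_cases h4 : (s.T / ρ' + s.p) * (s.T / ρ' + s.m) = 0
      · refine ⟨_, List.mem_cons_self, Or.inr ?_⟩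
        have h5 := ((hw'.add (Place.at_const s.p)).mul (hw'.add (Place.at_const s.m))).div
          (at_two'.mul hw') (mul_ne_zero two_ne_zero hw0)
        rw [h4, zero_div] at h5
        exact h5
      · obtain ⟨h5, h6⟩ := not_or.1 (mul_eq_zero.not.1 h4)
        have h7 : ¬ ∀ t ∈ rotL (s.next ρ') l, t.Good := by
          intro h7
          apply h3
          rw [rotL_cons]
          intro t ht
          rcases List.mem_cons.1 ht with rfl | ht
          · exact ⟨hw0, h5, h6⟩
          · exact h7 t ht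
        have hl : l ≠ [] := by
          rintro rfl
          apply h7
          simp
        have h8 : v.At (s.up.next ρ) (s.next ρ') := by
          refine Place.At.div ?_ ?_ (mul_ne_zero h6 hs.2.1)
          · exact (hw'.add (Place.at_const s.p)).mul
              ((Place.at_const s.T).add (Place.at_const s.m))
          · exact (hw'.add (Place.at_const s.m)).mul
              ((Place.at_const s.T).add (Place.at_const s.p))
        have h9 : s.next ρ' ≠ 0 :=
          div_ne_zero (mul_ne_zero h5 hs.2.2) (mul_ne_zero h6 hs.2.1)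
        obtain ⟨t, ht, ht'⟩ := bad_V_list hl (fun t ht => hg t (List.mem_cons_of_mem _ ht))
          (fun t ht => hn t (List.mem_cons_of_mem _ ht)) (next_not_const hs hns hρ)
          (Or.inr (Or.inr ⟨_, h8, h9, h7⟩))
        exact ⟨t, List.mem_cons_of_mem _ ht, ht'⟩

/-- Go through the list of sides. If `ρ` is not in the ring then `T / ρ` has the value `0`, and `V` is not
in the ring; if `ρ` has the value `0` then `T / ρ` and `V` are not in the ring; if `ρ` has the value
`ρ' ≠ 0` and `T / ρ' + p = 0` or `T / ρ' + m = 0` then `V` has the value `0`; otherwise `s.next ρ` has the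
value `s.next ρ'`, go on. The list version: `l : List (Side k)` good and nondegenerate, `ρ` not
constant, not (`ρ` has a value `ρ' ≠ 0` with all sides in `rotL ρ' l` good): there is a side `s` in
`rotL ρ (l.map Side.up)` with `s.V ∉ v.ring` or `v.At s.V 0`, if `l ≠ []`. -/
theorem bad_V {v : Place k (Om k)} (h : NdU α B) (hn : 0 < n) {c : Cfg k n} (hc : c.Good α B)
    {ρ : Om k} (hρ : ∀ x : k, ρ ≠ algebraMap k (Om k) x) (hb : BadAt v α B c ρ) :
    ∃ j, ((c.up.rotc (TInf.up B) ρ).side (TInf.up B) j).V ∉ v.ring ∨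
      v.At ((c.up.rotc (TInf.up B) ρ).side (TInf.up B) j).V 0 := by
  have hl : c.sides B ≠ [] := by
    intro h0
    have := Cfg.length_sides B c
    rw [h0, List.length_nil] at this
    omega
  obtain ⟨s, hs, hs'⟩ := bad_V_list (v := v) hl (Cfg.sides_good hc) (Cfg.sides_ndU h hc) hρ (by
    rcases hb with hb | hb | ⟨ρ', h1, h2, h3⟩
    · exact Or.inl hb
    · exact Or.inr (Or.inl hb)
    · exact Or.inr (Or.inr ⟨ρ', h1, h2, fun h4 => h3 (Cfg.rotc_good hc h4)⟩))
  rw [← Cfg.sides_up, ← Cfg.sides_rotc] at hs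
  obtain ⟨j, rfl⟩ := Cfg.mem_sides hs
  exact ⟨j, hs'⟩

end Pool.Agent.TInf
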