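import Pool.Agent.TInf.RotC
import Pool.Agent.TInf.InvU

/-!
# The product of the `V` after the change of the frame; the values of the two frames with given product
-/

set_option autoImplicit false

noncomputable section

namespace Pool.Agent.TInf

open Pool.Agent.ZCyc Polynomial
open Pool.Agent.VFP (Om tt)

universe u

variable {k : Type u} [Field k] [IsAlgClosed k] [CharZero k] {n : ℕ} {α B : Fin n → k}

omit [IsAlgClosed k] in
/-- the state over `Om k` -/
private theorem st_up (l : List (Side k)) :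
    (st (l.map Side.up)).a = (st l).a.map (algebraMap k (Om k)) ∧
    (st (l.map Side.up)).b = (st l).b.map (algebraMap k (Om k)) ∧
    (st (l.map Side.up)).c = (st l).c.map (algebraMap k (Om k)) ∧
    (st (l.map Side.up)).t = (st l).t.map (algebraMap k (Om k)) := by
  induction l with
  | nil => simp [Mq.one]
  | cons s l ih =>
    obtain ⟨h1, h2, h3, h4⟩ := ih
    simp only [List.map_cons, st_cons, push, h1, h2, h3, h4, Side.up, Polynomial.map_add,
      Polynomial.map_sub, Polynomial.map_mul, Polynomial.map_neg, Polynomial.map_one,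
      Polynomial.map_C, Polynomial.map_X, map_div₀, map_mul, map_add, map_sub, map_pow,
      map_ofNat, and_self]

omit [IsAlgClosed k] in
private theorem up_good {c : Cfg k n} (hc : c.Good α B) : c.up.Good (TInf.up α) (TInf.up B) := by
  have hinj := (algebraMap k (Om k)).injective
  refine ⟨fun j => ?_, fun j => ?_⟩
  · change algebraMap k (Om k) (c.β j) ^ 2 = algebraMap k (Om k) (α j) ^ 3
    rw [← map_pow, hc.1 j, map_pow]
  · obtain ⟨h1, h2, h3⟩ := hc.2 j
    have e1 : (c.up.side (TInf.up B) j).T = algebraMap k (Om k) (c.side B j).T := rfl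
    have e2 : (c.up.side (TInf.up B) j).p = algebraMap k (Om k) (c.side B j).p := by
      simp only [Cfg.side, Cfg.up, TInf.up, map_add, map_div₀, map_neg, map_ofNat]
    have e3 : (c.up.side (TInf.up B) j).m = algebraMap k (Om k) (c.side B j).m := by
      simp only [Cfg.side, Cfg.up, TInf.up, map_sub, map_div₀, map_neg, map_ofNat]
    refine ⟨?_, ?_, ?_⟩
    · rw [e1]
      exact (map_ne_zero_iff _ hinj).2 h1
    · rw [e1, e2, ← map_add]
      exact (map_ne_zero_iff _ hinj).2 h2
    · rw [e1, e3, ← map_add]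
      exact (map_ne_zero_iff _ hinj).2 h3

/-- the product of the `V` after the change of the frame, from `prod_VU` -/
theorem prod_V_rotc (h : NdU α B) {c : Cfg k n} (hc : c.Good α B) {ρ : Om k}
    (hρ : ∀ x : k, ρ ≠ algebraMap k (Om k) x) :
    ∏ j, ((c.up.rotc (TInf.up B) ρ).side (TInf.up B) j).V =
      algebraMap k (Om k) ((c.M B).a.eval 1) + (ρ * algebraMap k (Om k) ((c.M B).b.eval 1) -
        ρ⁻¹ * algebraMap k (Om k) ((c.M B).c.eval 1)) / 2 := by
  have h0 : ρ ≠ 0 := by
    intro h1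
    apply hρ 0
    rw [h1, map_zero]
  have hg := Cfg.rotc_up_good h hc hρ
  have hM := Cfg.rotc_M (up_good hc) h0 hg
  rw [prod_VU hg, hM]
  obtain ⟨h1, h2, h3, -⟩ := st_up (c.sides B)
  rw [← Cfg.sides_up, ← Cfg.M_eq, ← Cfg.M_eq] at h1 h2 h3
  simp only [Mq.rot, h1, h2, h3, eval_mul, eval_C, Polynomial.eval_one_map]

/-- the values of the two roots -/
theorem rot_roots_at {v : Place k (Om k)} {A b c W₀ : k} (hb : b ≠ 0)
    (hW : W₀ ^ 6 = A + (b - c) / 2) {ρ₁ ρ₂ : Om k}
    (h₁ : algebraMap k (Om k) b * (ρ₁ + ρ₂) = 2 * (tt k ^ 6 - algebraMap k (Om k) A))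
    (h₂ : algebraMap k (Om k) b * (ρ₁ * ρ₂) = -algebraMap k (Om k) c) (hv : v.At (tt k) W₀) :
    (v.At ρ₁ 1 ∧ v.At ρ₂ (-(c / b))) ∨ (v.At ρ₁ (-(c / b)) ∧ v.At ρ₂ 1) := by
  have hinj := (algebraMap k (Om k)).injective
  have hb' : algebraMap k (Om k) b ≠ 0 := (map_ne_zero_iff _ hinj).2 hb
  set S : Om k := 2 * (tt k ^ 6 - algebraMap k (Om k) A) / algebraMap k (Om k) b with hS
  have h2 : v.At (2 : Om k) 2 := by
    have := Place.at_const (v := v) (2 : k)
    rwa [map_ofNat] at this
  have hSv : v.At S (1 - c / b) := by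
    have h3 : v.At S (2 * (W₀ ^ 6 - A) / b) :=
      (h2.mul ((hv.pow 6).sub (Place.at_const A))).div (Place.at_const b) hb
    have h4 : 2 * (W₀ ^ 6 - A) / b = 1 - c / b := by
      rw [hW]
      field_simp
      ring
    rwa [h4] at h3
  have hsum : ρ₁ + ρ₂ = S := by
    rw [hS, eq_div_iff hb', ← h₁]
    ring
  have hprod : ρ₁ * ρ₂ = algebraMap k (Om k) (-(c / b)) := by
    rw [map_neg, map_div₀]
    field_simp
    linear_combination h₂
  have hmem : ρ₁ ∈ v.ring := by
    by_contra hn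
    have h3 : v.Vanishes ρ₁⁻¹ := by
      rw [Place.vanishes_iff_or, inv_inv]
      exact Or.inr hn
    have h4 : ρ₁ ≠ 0 := by
      rintro rfl
      exact hn v.ring.zero_mem
    have h5 : v.Vanishes (S * ρ₁⁻¹ - algebraMap k (Om k) (-(c / b)) * (ρ₁⁻¹ * ρ₁⁻¹)) :=
      Place.Vanishes.sub v (Place.Vanishes.mul' v h3 hSv.mem)
        (Place.Vanishes.mul' v (Place.Vanishes.mul v h3 (h3.mem v)) (v.const_mem _))
    have h6 : S * ρ₁⁻¹ - algebraMap k (Om k) (-(c / b)) * (ρ₁⁻¹ * ρ₁⁻¹) = 1 := by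
      rw [← hsum, ← hprod]
      field_simp
      ring
    rw [h6, ← map_one (algebraMap k (Om k))] at h5
    exact Place.const_unit v one_ne_zero h5
  have hfac : v.Vanishes ((ρ₁ - algebraMap k (Om k) 1) * (ρ₁ - algebraMap k (Om k) (-(c / b)))) := by
    have h3 : (ρ₁ - algebraMap k (Om k) 1) * (ρ₁ - algebraMap k (Om k) (-(c / b))) =
        (S - algebraMap k (Om k) (1 - c / b)) * ρ₁ := by
      rw [← hsum, map_one, map_neg, map_sub, map_one]
      rw [map_neg] at hprod
      linear_combination -hprod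
    rw [h3]
    exact Place.Vanishes.mul v hSv hmem
  have hor : v.Vanishes (ρ₁ - algebraMap k (Om k) 1) ∨
      v.Vanishes (ρ₁ - algebraMap k (Om k) (-(c / b))) := by
    have h3 : v.Vanishes (∏ i : Fin 2, (![ρ₁ - algebraMap k (Om k) 1,
        ρ₁ - algebraMap k (Om k) (-(c / b))] : Fin 2 → Om k) i) := by
      rw [Fin.prod_univ_two]
      exact hfac
    obtain ⟨i, -, hi⟩ := v.vanishes_prod h3
    fin_cases i
    · exact Or.inl hi
    · exact Or.inr hi
  have h4 : ρ₂ = S - ρ₁ := by rw [← hsum]; ring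
  rcases hor with h3 | h3
  · refine Or.inl ⟨h3, ?_⟩
    have h5 : v.At ρ₁ 1 := h3
    have h6 := hSv.sub h5
    rw [← h4] at h6
    have h7 : 1 - c / b - 1 = -(c / b) := by ring
    rwa [h7] at h6
  · refine Or.inr ⟨h3, ?_⟩
    have h5 : v.At ρ₁ (-(c / b)) := h3
    have h6 := hSv.sub h5
    rw [← h4] at h6
    have h7 : 1 - c / b - -(c / b) = 1 := by ring
    rwa [h7] at h6

/-- `t ^ 6` is not a constant -/
theorem rho_ne {A b c : k} {ρ : Om k} (h : tt k ^ 6 = algebraMap k (Om k) A +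
    (ρ * algebraMap k (Om k) b - ρ⁻¹ * algebraMap k (Om k) c) / 2) (x : k) :
    ρ ≠ algebraMap k (Om k) x := by
  intro hx
  have h1 : tt k ^ 6 = algebraMap k (Om k) (A + (x * b - x⁻¹ * c) / 2) := by
    rw [h, hx]
    simp only [map_add, map_div₀, map_sub, map_mul, map_inv₀, map_ofNat]
  have htr : Transcendental k (tt k) := by
    unfold tt
    rw [transcendental_algebraMap_iff (algebraMap (RatFunc k) (Om k)).injective]
    exact RatFunc.transcendental_X
  refine htr ⟨X ^ 6 - C (A + (x * b - x⁻¹ * c) / 2), ?_, ?_⟩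
  · exact X_pow_sub_C_ne_zero (by norm_num) _
  · rw [map_sub, map_pow, aeval_X, aeval_C, h1, sub_self]

end Pool.Agent.TInf
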