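import Pool.Agent.TInf.FamDefs

/-!
# Square roots
-/

set_option autoImplicit false

noncomputable section

namespace Pool.Agent.TInf

open Pool.Agent.ZCyc Polynomial
open Pool.Agent.VFP (Om tt)

universe u

/-- square roots with a given product -/
theorem exists_sqrts {K : Type*} [Field K] [IsAlgClosed K] [CharZero K] {r : ℕ} (hr : 0 < r)
    {m : Fin r → K} {y : K} (h : y ^ 2 = ∏ i, m i) :
    ∃ Θ : Fin r → K, (∀ i, Θ i ^ 2 = m i) ∧ ∏ i, Θ i = y := by
  choose Θ hΘ using fun i => IsAlgClosed.exists_pow_nat_eq (m i) (n := 2) (by norm_num)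
  have h1 : (∏ i, Θ i) ^ 2 = y ^ 2 := by
    rw [h, ← Finset.prod_pow]
    exact Finset.prod_congr rfl fun i _ => hΘ i
  rcases sq_eq_sq_iff_eq_or_eq_neg.1 h1 with h2 | h2
  · exact ⟨Θ, hΘ, h2⟩
  · let i₀ : Fin r := ⟨0, hr⟩
    refine ⟨Function.update Θ i₀ (-Θ i₀), fun i => ?_, ?_⟩
    · by_cases hi : i = i₀
      · subst hi
        rw [Function.update_self, neg_sq]
        exact hΘ _
      · rw [Function.update_of_ne hi]
        exact hΘ i
    · rw [← Finset.mul_prod_erase Finset.univ _ (Finset.mem_univ i₀), Function.update_self]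
      rw [← Finset.mul_prod_erase Finset.univ _ (Finset.mem_univ i₀)] at h2
      have h3 : ∏ x ∈ Finset.univ.erase i₀, Function.update Θ i₀ (-Θ i₀) x =
          ∏ x ∈ Finset.univ.erase i₀, Θ x :=
        Finset.prod_congr rfl fun x hx => by
          rw [Function.update_of_ne (Finset.ne_of_mem_erase hx)]
      rw [h3, neg_mul, h2, neg_neg]

/-- square roots of the roots of `μ ² - Ξ μ + γ` -/
theorem exists_W {K : Type*} [Field K] [IsAlgClosed K] [CharZero K] (Ξ γ : K) :
    ∃ w : Bool → K, w false ^ 2 + w true ^ 2 = Ξ ∧ w false ^ 2 * w true ^ 2 = γ := by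
  obtain ⟨δ, hδ⟩ := IsAlgClosed.exists_pow_nat_eq (Ξ ^ 2 - 4 * γ) (n := 2) (by norm_num)
  obtain ⟨a, ha⟩ := IsAlgClosed.exists_pow_nat_eq ((Ξ + δ) / 2) (n := 2) (by norm_num)
  obtain ⟨b, hb⟩ := IsAlgClosed.exists_pow_nat_eq ((Ξ - δ) / 2) (n := 2) (by norm_num)
  refine ⟨fun t => if t = true then b else a, ?_, ?_⟩
  · simp only [Bool.false_eq_true, if_false, if_true, ha, hb]
    ring
  · simp only [Bool.false_eq_true, if_false, if_true, ha, hb]
    linear_combination -(1 / 4) * hδ

variable {k : Type u} [Field k] [IsAlgClosed k] [CharZero k]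

private theorem sqrt_mem_of_sq (v : Place k (Om k)) {y : Om k} (h : y ^ 2 ∈ v.ring) :
    y ∈ v.ring := by
  rcases v.ring.mem_or_inv_mem y with h1 | h1
  · exact h1
  · by_cases hy0 : y = 0
    · rw [hy0]
      exact zero_mem _
    · have h2 : y = y ^ 2 * y⁻¹ := by field_simp
      rw [h2]
      exact mul_mem h h1

private theorem sqrt_mem_of_quad (v : Place k (Om k)) {x a b : Om k} (ha : a ∈ v.ring)
    (hb : b ∈ v.ring) (h : x ^ 2 - a * x + b = 0) : x ∈ v.ring := by
  rcases v.ring.mem_or_inv_mem x with h1 | h1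
  · exact h1
  · by_cases hx0 : x = 0
    · rw [hx0]
      exact zero_mem _
    · have h2 : x = a - b * x⁻¹ := by
        field_simp
        linear_combination h
      rw [h2]
      exact sub_mem ha (mul_mem hb h1)

/-- the values at a place -/
theorem W_value {v : Place k (Om k)} {Ξ' γ' : Om k} {Ξ γ : k} (hΞ : v.At Ξ' Ξ) (hγ : v.At γ' γ)
    {w' : Bool → Om k} (h1 : w' false ^ 2 + w' true ^ 2 = Ξ') (h2 : w' false ^ 2 * w' true ^ 2 = γ')
    {w : Bool → k} (h3 : w false ^ 2 + w true ^ 2 = Ξ) (h4 : w false ^ 2 * w true ^ 2 = γ) :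
    ∃ (u : Bool → k) (σ : Equiv.Perm Bool), (∀ b, v.At (w' b) (u b)) ∧
      ∀ b, u b = w (σ b) ∨ u b = -w (σ b) := by
  have hm : ∀ b, w' b ∈ v.ring := by
    intro b
    apply sqrt_mem_of_sq v
    apply sqrt_mem_of_quad v hΞ.mem hγ.mem
    cases b
    · linear_combination (w' false ^ 2) * h1 - h2
    · linear_combination (w' true ^ 2) * h1 - h2
  choose u hu using fun b => DCI57.exists_at v (hm b)
  have e1 : u false ^ 2 + u true ^ 2 = Ξ := by
    have h5 := ((hu false).pow 2).add ((hu true).pow 2)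
    rw [h1] at h5
    exact h5.unique hΞ
  have e2 : u false ^ 2 * u true ^ 2 = γ := by
    have h5 := ((hu false).pow 2).mul ((hu true).pow 2)
    rw [h2] at h5
    exact h5.unique hγ
  have e3 : (u false ^ 2 - w false ^ 2) * (u false ^ 2 - w true ^ 2) = 0 := by
    linear_combination (u false ^ 2) * e1 - e2 - (u false ^ 2) * h3 + h4
  rcases mul_eq_zero.1 e3 with e4 | e4
  · refine ⟨u, 1, hu, fun b => ?_⟩
    apply sq_eq_sq_iff_eq_or_eq_neg.1
    cases b
    · exact sub_eq_zero.1 e4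
    · change u true ^ 2 = w true ^ 2
      linear_combination e1 - h3 - e4
  · refine ⟨u, Equiv.swap false true, hu, fun b => ?_⟩
    apply sq_eq_sq_iff_eq_or_eq_neg.1
    cases b
    · rw [Equiv.swap_apply_left]
      exact sub_eq_zero.1 e4
    · rw [Equiv.swap_apply_right]
      linear_combination e1 - h3 - e4

end Pool.Agent.TInf
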