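import Pool.Agent.TInf.GeoBridge
import Pool.Agent.VFP.Scale
import Pool.Agent.VFP.Value

/-!
# Basic properties of the classes `cN` and `TN`
-/

set_option autoImplicit false

noncomputable section

namespace Pool.Agent.TInf

open Pool.Agent.ZCyc Pool.Agent.VFP Polynomial

universe u

variable {k : Type u} [Field k] {N r n : ℕ} {D : Dat k N r}

private theorem nat_aux (A : MvPolynomial (Fin 2) k) {m : ℕ} (hA : A.IsHomogeneous m) :
    (MvPolynomial.aeval ![(1 : k[X]), X] A).natDegree ≤ m := by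
  have h := MvPolynomial.aeval_natDegree_le (m := m) (n := 1) A hA.totalDegree_le
    ![(1 : k[X]), X] (by
      intro i
      fin_cases i
      · simp
      · simp)
  simpa using h

theorem natDegree_al (h : Good D n) (i : Fin N) : (D.al i).natDegree ≤ 2 * D.deg i :=
  nat_aux _ (h.homA i)

theorem natDegree_be (h : Good D n) (i : Fin N) : (D.be i).natDegree ≤ 3 * D.deg i :=
  nat_aux _ (h.homB i)

private theorem aeval_scale {K : Type*} [Field K] [Algebra k K] {A : MvPolynomial (Fin 2) k}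
    {n : ℕ} (hA : A.IsHomogeneous n) (c : K) (s : Fin 2 → K) :
    MvPolynomial.aeval (fun j => c * s j) A = c ^ n * MvPolynomial.aeval s A := by
  rw [MvPolynomial.aeval_def, MvPolynomial.aeval_def, MvPolynomial.eval₂_eq',
    MvPolynomial.eval₂_eq', Finset.mul_sum]
  refine Finset.sum_congr rfl fun d hd => ?_
  have h1 : d.degree = n := by
    have := hA (MvPolynomial.mem_support_iff.1 hd)
    rw [Finsupp.degree_eq_weight_one]
    exact this
  have h2 : d 0 + d 1 = n := by
    rw [← h1, Finsupp.degree_eq_sum, Fin.sum_univ_two]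
  simp only [Fin.prod_univ_two, mul_pow]
  rw [← h2, pow_add]
  ring

private theorem fac_scale (h : Good D n) {K : Type*} [Field K] [Algebra k K] (c : K)
    (m : Fin N → K) (w : Crd N r K) (i : Fin N) :
    D.fac (D.scale c m w) i = (c ^ (3 * D.deg i) * m i ^ 4) * D.fac w i := by
  unfold Dat.fac Dat.scale
  simp only [aeval_scale (h.homA i), aeval_scale (h.homB i)]
  ring

private theorem two_wy (h : Good D n) (b : Fin r) :
    2 * D.wy b = ∑ i with D.blk i = b, 3 * D.deg i := by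
  obtain ⟨t, ht⟩ := h.even b
  unfold Dat.wy
  rw [← Finset.mul_sum, ht]
  omega

theorem onX_scale (h : Good D n) {K : Type*} [Field K] [Algebra k K] {c : K} (hc : c ≠ 0)
    {m : Fin N → K} (hm : ∀ i, m i ≠ 0) {w : Crd N r K} (hw : D.OnX w) :
    D.OnX (D.scale c m w) := by
  refine ⟨?_, ?_, ?_⟩
  · intro h0
    apply hw.1
    funext j
    have := congrFun h0 j
    simpa [Dat.scale, hc] using this
  · intro i
    rcases hw.2.1 i with h1 | h1
    · left
      exact mul_ne_zero (mul_ne_zero (pow_ne_zero _ hc) (hm i)) h1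
    · right
      exact mul_ne_zero (hm i) h1
  · intro b
    simp only [fac_scale h]
    rw [Finset.prod_mul_distrib, ← hw.2.2 b, Finset.prod_mul_distrib, Finset.prod_pow_eq_pow_sum,
      ← two_wy h b, Finset.prod_pow]
    unfold Dat.scale
    simp only
    ring

variable [IsAlgClosed k] [CharZero k]

/-- points with `w.s 0 ≠ 0` and `z_i ≠ 0` are affine points -/
theorem exists_aff (h : Good D n) {w : Crd N r k} (hw : D.OnX w) (h0 : w.s 0 ≠ 0)
    (hz : ∀ i, w.z i ≠ 0) : ∃ (c : k) (m : Fin N → k) (s : k) (x : Fin N → k) (y : Fin r → k),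
    c ≠ 0 ∧ (∀ i, m i ≠ 0) ∧ D.On s x y ∧ w = D.scale c m (aff s x y) := by
  have hmz : ∀ b, (∏ i with D.blk i = b, w.z i) ≠ 0 := fun b =>
    Finset.prod_ne_zero_iff.2 fun i _ => hz i
  refine ⟨w.s 0, w.z, w.s 1 / w.s 0, fun i => w.x i / (w.s 0 ^ D.deg i * w.z i),
    fun b => w.y b / (w.s 0 ^ D.wy b * (∏ i with D.blk i = b, w.z i) ^ 2), h0, hz, ?_, ?_⟩
  · rw [← onX_aff]
    have h1 := onX_scale h (inv_ne_zero h0) (m := fun i => (w.z i)⁻¹)
      (fun i => inv_ne_zero (hz i)) hw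
    have e : D.scale (w.s 0)⁻¹ (fun i => (w.z i)⁻¹) w = aff (w.s 1 / w.s 0)
        (fun i => w.x i / (w.s 0 ^ D.deg i * w.z i))
        (fun b => w.y b / (w.s 0 ^ D.wy b * (∏ i with D.blk i = b, w.z i) ^ 2)) := by
      ext j
      · fin_cases j
        · simp [Dat.scale, aff, h0]
        · simp only [Dat.scale, aff]
          simp
          ring
      · simp only [Dat.scale, aff]
        rw [inv_pow, div_eq_mul_inv, mul_inv]
        ring
      · simp only [Dat.scale, aff]
        exact inv_mul_cancel₀ (hz j)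
      · simp only [Dat.scale, aff]
        rw [Finset.prod_inv_distrib, inv_pow, inv_pow, div_eq_mul_inv, mul_inv]
        ring
    rw [e] at h1
    exact h1
  · ext j
    · fin_cases j
      · simp [Dat.scale, aff]
      · simp only [Dat.scale, aff]
        simp
        field_simp
    · simp only [Dat.scale, aff]
      have h1 := hz j
      have h2 := pow_ne_zero (D.deg j) h0
      field_simp
    · simp only [Dat.scale, aff]
      ring
    · simp only [Dat.scale, aff]
      have h1 := hmz j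
      have h2 := pow_ne_zero (D.wy j) h0
      field_simp

/-- Every affine point has a value. If some `x_i` has a pole, the value has a coordinate
`y_b = 0`; take `m i = 1 / x_i` for the `x_i` with a pole and `m i = 1` for the others. -/
theorem exists_value {v : Place k (Om k)} {s : Om k} {x : Fin N → Om k}
    {y : Fin r → Om k} (hP : D.On s x y) {s' : k} (hs : v.At s s') :
    ∃ p : Crd N r k, D.OnX p ∧ D.IsValue v (aff s x y) p ∧
      ((∃ i, x i ∉ v.ring) → ∃ b, p.y b = 0) ∧ ∀ x' : Fin N → k, (∀ i, v.At (x i) (x' i)) →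
        ∃ y' : Fin r → k, (∀ b, v.At (y b) (y' b)) ∧ p = aff s' x' y' := by
  classical
  -- the multipliers and the values of the coordinates
  have h1 : ∀ i, ∃ (m : Om k) (x₀ z₀ f₀ : k), v.At (m * x i) x₀ ∧ v.At m z₀ ∧
      (x₀ ≠ 0 ∨ z₀ ≠ 0) ∧ v.At (m ^ 4 * D.ff i s (x i)) f₀ ∧
      f₀ = z₀ * (x₀ ^ 3 + aeval s' (D.al i) * x₀ * z₀ ^ 2 + aeval s' (D.be i) * z₀ ^ 3) ∧
      (x i ∉ v.ring → z₀ = 0) ∧ (x i ∈ v.ring → m = 1 ∧ z₀ = 1) := by
    intro i
    by_cases hx : x i ∈ v.ring
    · obtain ⟨x₀, hx₀⟩ := DCI57.exists_at v hx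
      refine ⟨1, x₀, 1, _, by rwa [one_mul], at_one, Or.inr one_ne_zero,
        by rw [one_pow, one_mul]; exact ff_at i hs hx₀, ?_, fun h' => absurd hx h',
        fun _ => ⟨rfl, rfl⟩⟩
      unfold Dat.ff
      ring
    · have hx0 := ne_zero_of_not_mem hx
      have hm := inv_at_of_not_mem hx
      refine ⟨(x i)⁻¹, 1, 0, 0, by rw [inv_mul_cancel₀ hx0]; exact at_one, hm,
        Or.inl one_ne_zero, ?_, by ring, fun _ => rfl, fun h' => absurd h' hx⟩
      have e : (x i)⁻¹ ^ 4 * D.ff i s (x i) = (x i)⁻¹ *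
          (1 + aeval s (D.al i) * (x i)⁻¹ ^ 2 + aeval s (D.be i) * (x i)⁻¹ ^ 3) := by
        unfold Dat.ff
        field_simp
      rw [e]
      have h2 := hm.mul ((at_one.add ((at_evalc hs (D.al i)).mul (hm.pow 2))).add
        ((at_evalc hs (D.be i)).mul (hm.pow 3)))
      rwa [zero_mul] at h2
  choose m x₀ z₀ f₀ hmx hm hne hf hf₀ hz hz1 using h1
  have h2 : ∀ b, ∃ d : k, v.At ((∏ i with D.blk i = b, m i) ^ 2 * y b) d ∧
      d ^ 2 = ∏ i with D.blk i = b, f₀ i := by
    intro b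
    refine exists_sq_at ?_ (at_prod _ fun i _ => hf i)
    rw [mul_pow, hP b, Finset.prod_mul_distrib, Finset.prod_pow]
    ring
  choose y₀ hy hy₀ using h2
  let p : Crd N r k := ⟨![1, s'], x₀, z₀, y₀⟩
  have hfac : ∀ i, D.fac p i = f₀ i := by
    intro i
    have hA := eval_al (D := D) s' i
    have hB := eval_be (D := D) s' i
    rw [hf₀ i, ← hA, ← hB]
    rfl
  refine ⟨p, ⟨?_, ?_, ?_⟩, ⟨1, m, ?_, ?_, ?_, ?_⟩, ?_, ?_⟩
  · intro h0
    have := congrFun h0 0
    simp [p] at this
  · exact hne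
  · intro b
    rw [Finset.prod_congr rfl fun i _ => hfac i]
    exact hy₀ b
  · intro j
    have e : (D.scale 1 m (aff s x y)).s j = (![1, s] : Fin 2 → Om k) j := by
      simp [Dat.scale, aff]
    rw [e]
    fin_cases j
    · exact at_one
    · exact hs
  · intro i
    have e : (D.scale 1 m (aff s x y)).x i = m i * x i := by
      simp [Dat.scale, aff]
    rw [e]
    exact hmx i
  · intro i
    have e : (D.scale 1 m (aff s x y)).z i = m i := by
      simp [Dat.scale, aff]
    rw [e]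
    exact hm i
  · intro b
    have e : (D.scale 1 m (aff s x y)).y b = (∏ i with D.blk i = b, m i) ^ 2 * y b := by
      simp [Dat.scale, aff]
    rw [e]
    exact hy b
  · rintro ⟨i, hi⟩
    refine ⟨D.blk i, ?_⟩
    have h3 : y₀ (D.blk i) ^ 2 = 0 := by
      rw [hy₀]
      refine Finset.prod_eq_zero (i := i) (by simp) ?_
      rw [hf₀ i, hz i hi, zero_mul]
    exact pow_eq_zero_iff two_ne_zero |>.1 h3
  · intro x' hx'
    have hmem : ∀ i, m i = 1 ∧ z₀ i = 1 := fun i => hz1 i (hx' i).mem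
    have hxe : x₀ = x' := by
      funext i
      have h3 := hmx i
      rw [(hmem i).1, one_mul] at h3
      exact h3.unique (hx' i)
    refine ⟨y₀, ?_, ?_⟩
    · intro b
      have h3 := hy b
      rw [Finset.prod_congr rfl fun i _ => (hmem i).1, Finset.prod_const_one, one_pow,
        one_mul] at h3
      exact h3
    · refine Crd.ext rfl hxe ?_ rfl
      funext i
      exact (hmem i).2


/-- the class does not depend on the homogeneous coordinates (constant families) -/
theorem cN_scale (h : Good D n) {l : ℕ} {c : Fin l → k} (hc : ∀ j, c j ≠ 0) {m : Fin l → Fin N → k}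
    (hm : ∀ j i, m j i ≠ 0) {w : Fin l → Crd N r k} (hw : ∀ j, D.OnX (w j)) :
    cN D (fun j => D.scale (c j) (m j) (w j)) = cN D w := by
  refine bridgeN (I := Unit) (fun _ => 1) (fun _ j => cst (Om k) (w j))
    (fun _ j => onX_cst (hw j)) 0 0 _ _ ?_ ?_
  · intro v _
    refine ⟨fun _ j => D.scale (c j) (m j) (w j), fun _ j => onX_scale h (hc j) (hm j) (hw j),
      fun _ j => isValue_scale (hc j) (hm j) (isValue_cst v (w j)), ?_⟩
    simp
  · intro v _
    refine ⟨fun _ => w, fun _ j => hw j, fun _ j => isValue_cst v (w j), ?_⟩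
    simp

theorem snN_mul {l : ℕ} (ε ε' : Fin l → Fin r → ℤˣ) : snN (ε * ε') = snN ε * snN ε' := by
  unfold snN
  rw [← Finset.prod_mul_distrib]
  exact Finset.prod_congr rfl fun j _ => sn_mul (ε j) (ε' j)

theorem snN_sq {l : ℕ} (ε : Fin l → Fin r → ℤˣ) : snN ε * snN ε = 1 := by
  unfold snN
  rw [← Finset.prod_mul_distrib]
  exact Finset.prod_eq_one fun j _ => sn_sq (ε j)

theorem TN_sg {l : ℕ} (ε : Fin l → Fin r → ℤˣ) (w : Fin l → Crd N r k) :
    TN D (fun j => sg (ε j) (w j)) = snN ε • TN D w := by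
  unfold TN
  rw [Finset.smul_sum]
  refine Fintype.sum_equiv (Equiv.mulRight ε) _ _ fun a => ?_
  rw [Equiv.coe_mulRight, snN_mul, smul_smul, ← mul_assoc, mul_comm (snN ε) (snN a),
    mul_assoc, snN_sq, mul_one]
  congr 2
  funext j
  rw [sg_sg]
  rfl

private theorem eq_zero_of_neg {M : Type*} [AddCommGroup M] [Module ℚ M] {a : M}
    (h : a = (-1 : ℚ) • a) : a = 0 := by
  have h2 : (2 : ℚ) • a = 0 := by
    rw [two_smul]
    nth_rewrite 2 [h]
    rw [neg_one_smul, add_neg_cancel]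
  have h3 : (2⁻¹ : ℚ) • (2 : ℚ) • a = a := by
    rw [smul_smul]
    norm_num
  rw [← h3, h2, smul_zero]

theorem TN_y {l : ℕ} {w : Fin l → Crd N r k} {j : Fin l} {b : Fin r} (h : (w j).y b = 0) :
    TN D w = 0 := by
  classical
  let fl : Fin l → Fin r → ℤˣ := fun j' b' => if j' = j ∧ b' = b then -1 else 1
  have h1 : (fun j' => sg (fl j') (w j')) = w := by
    funext j'
    refine Crd.ext rfl rfl rfl ?_
    funext b'
    change ((((fl j' b' : ℤˣ) : ℤ) : k)) * (w j').y b' = (w j').y b'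
    simp only [fl]
    split_ifs with h2
    · rw [h2.1, h2.2, h, mul_zero]
    · simp
  have h2 : snN fl = -1 := by
    unfold snN sn
    rw [← Finset.prod_product', Finset.prod_eq_single (j, b)]
    · simp [fl]
    · rintro ⟨j', b'⟩ - h3
      have : ¬(j' = j ∧ b' = b) := fun h4 => h3 (Prod.ext h4.1 h4.2)
      simp [fl, this]
    · intro h3
      exact absurd (Finset.mem_product.2 ⟨Finset.mem_univ _, Finset.mem_univ _⟩) h3
  apply eq_zero_of_neg
  have h3 := TN_sg (D := D) fl w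
  rwa [h1, h2] at h3

theorem TN_scale (h : Good D n) {l : ℕ} {c : Fin l → k} (hc : ∀ j, c j ≠ 0)
    {m : Fin l → Fin N → k} (hm : ∀ j i, m j i ≠ 0) {w : Fin l → Crd N r k}
    (hw : ∀ j, D.OnX (w j)) : TN D (fun j => D.scale (c j) (m j) (w j)) = TN D w := by
  unfold TN
  refine Finset.sum_congr rfl fun ε _ => ?_
  have h1 := cN_scale h hc hm (w := fun j => sg (ε j) (w j)) fun j => onX_sg _ (hw j)
  rw [← h1]
  congr 2
  funext j
  refine Crd.ext rfl rfl rfl ?_
  funext b
  show (((ε j b : ℤˣ) : ℤ) : k) * (c j ^ D.wy b * (∏ i with D.blk i = b, m j i) ^ 2 * (w j).y b) =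
    c j ^ D.wy b * (∏ i with D.blk i = b, m j i) ^ 2 * ((((ε j b : ℤˣ) : ℤ) : k) * (w j).y b)
  ring

/-- the class `TN` of the values of the tuple `P` at `v` is `C` -/
def VTN (D : Dat k N r) {l : ℕ} (v : Place k (Om k)) (P : Fin l → Crd N r (Om k)) (C : VN D l) :
    Prop :=
  ∃ p : Fin l → Crd N r k, (∀ j, D.OnX (p j)) ∧ (∀ j, D.IsValue v (P j) (p j)) ∧ TN D p = C

/-- the bridge for the classes `TN` -/
theorem bridgeTN {I : Type} [Fintype I] {l : ℕ} (c : I → ℚ) (P : I → Fin l → Crd N r (Om k))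
    (hP : ∀ i j, D.OnX (P i j)) (c₀ c₁ : k) (C₀ C₁ : VN D l)
    (h₀ : ∀ v : Place k (Om k), v.At (tt k) c₀ → ∃ C : I → VN D l,
      (∀ i, VTN D v (P i) (C i)) ∧ ∑ i, c i • C i = C₀)
    (h₁ : ∀ v : Place k (Om k), v.At (tt k) c₁ → ∃ C : I → VN D l,
      (∀ i, VTN D v (P i) (C i)) ∧ ∑ i, c i • C i = C₁) :
    C₀ = C₁ := by
  have key : ∀ (v : Place k (Om k)) (C₀ : VN D l), (∃ C : I → VN D l,
      (∀ i, VTN D v (P i) (C i)) ∧ ∑ i, c i • C i = C₀) →
      ∃ p : I × (Fin l → Fin r → ℤˣ) → Fin l → Crd N r k, (∀ i j, D.OnX (p i j)) ∧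
        (∀ i j, D.IsValue v (sg (i.2 j) (P i.1 j)) (p i j)) ∧
        ∑ i : I × (Fin l → Fin r → ℤˣ), (c i.1 * snN i.2) • cN D (p i) = C₀ := by
    rintro v C₀ ⟨C, hC, hsum⟩
    choose p hp hv hT using hC
    refine ⟨fun i j => sg (i.2 j) (p i.1 j), fun i j => onX_sg _ (hp i.1 j),
      fun i j => isValue_sg _ (hv i.1 j), ?_⟩
    rw [Fintype.sum_prod_type, ← hsum]
    refine Finset.sum_congr rfl fun i _ => ?_
    rw [← hT i]
    unfold TN
    rw [Finset.smul_sum]
    exact Finset.sum_congr rfl fun ε _ => (smul_smul _ _ _).symm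
  exact bridgeN (fun i : I × (Fin l → Fin r → ℤˣ) => c i.1 * snN i.2)
    (fun i j => sg (i.2 j) (P i.1 j)) (fun i j => onX_sg _ (hP i.1 j)) c₀ c₁ C₀ C₁
    (fun v hv => key v C₀ (h₀ v hv)) (fun v hv => key v C₁ (h₁ v hv))

end Pool.Agent.TInf
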