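import Pool.Agent.VFP.Util

/-!
# Polynomials for the moving lemma
-/

set_option autoImplicit false

noncomputable section

namespace Pool.Agent.TInf

open Pool.Agent.ZCyc Polynomial
open Pool.Agent.VFP (Om tt)

universe u

variable {k : Type u} [Field k] [IsAlgClosed k] [CharZero k]

omit [IsAlgClosed k] [CharZero k] in
private theorem coeff_prod_bdd {ι : Type*} (s : Finset ι) (f : ι → k[X]) (e : ι → ℕ)
    (h : ∀ i ∈ s, (f i).natDegree ≤ e i) :
    (∏ i ∈ s, f i).natDegree ≤ ∑ i ∈ s, e i ∧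
      (∏ i ∈ s, f i).coeff (∑ i ∈ s, e i) = ∏ i ∈ s, (f i).coeff (e i) := by
  classical
  induction s using Finset.induction_on with
  | empty => simp
  | insert a s ha ih =>
    have ih' := ih fun i hi => h i (Finset.mem_insert_of_mem hi)
    rw [Finset.prod_insert ha, Finset.sum_insert ha, Finset.prod_insert ha]
    have ha' := h a (Finset.mem_insert_self a s)
    refine ⟨(natDegree_mul_le).trans (add_le_add ha' ih'.1), ?_⟩
    rw [coeff_mul_add_eq_of_natDegree_le ha' ih'.1, ih'.2]

omit [CharZero k] in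
private theorem exists_not_root {p : k[X]} (hp : p ≠ 0) : ∃ c, p.eval c ≠ 0 := by
  by_contra hcon
  push Not at hcon
  have := IsAlgClosed.instInfinite (K := k)
  exact hp (Polynomial.funext (by simpa using hcon))

/-- one factor -/
private theorem exists_factor {d : ℕ} {al be : k[X]} (hal : al.natDegree ≤ 2 * d)
    (hbe : be.natDegree ≤ 3 * d) {s x y : k} (hy : y ^ 2 = x ^ 3 - 3 * al.eval s * x + be.eval s)
    (hy0 : y ≠ 0) :
    ∃ H : k[X], H.eval s = x ∧ (H ^ 3 - 3 * al * H + be).natDegree ≤ 3 * d ∧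
      (H ^ 3 - 3 * al * H + be).coeff (3 * d) ≠ 0 := by
  rcases Nat.eq_zero_or_pos d with rfl | hd
  · obtain ⟨a, ha⟩ := natDegree_eq_zero.1 (Nat.le_zero.1 hal)
    obtain ⟨b, hb⟩ := natDegree_eq_zero.1 (Nat.le_zero.1 hbe)
    subst ha hb
    refine ⟨C x, by simp, ?_⟩
    have h1 : C x ^ 3 - 3 * C a * C x + C b = C (y ^ 2) := by
      rw [hy, eval_C, eval_C]
      simp only [map_add, map_sub, map_mul, map_pow, map_ofNat]
    rw [h1]
    refine ⟨(natDegree_C _).le, ?_⟩
    rw [mul_zero, coeff_C_zero]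
    exact pow_ne_zero 2 hy0
  · obtain ⟨h, hh⟩ : ∃ h : k, h ^ 3 - 3 * al.coeff (2 * d) * h + be.coeff (3 * d) ≠ 0 := by
      have h1 : (X ^ 3 - C (3 * al.coeff (2 * d)) * X + C (be.coeff (3 * d)) : k[X]) ≠ 0 := by
        intro h0
        have h2 := congrArg (fun p => Polynomial.coeff p 3) h0
        rw [coeff_add, coeff_sub, coeff_C_mul, coeff_X_pow, coeff_X, coeff_C, coeff_zero] at h2
        norm_num at h2
      obtain ⟨c, hc⟩ := exists_not_root h1
      exact ⟨c, by simpa using hc⟩
    have hH : (C x + C h * (X - C s) ^ d).natDegree ≤ d := by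
      compute_degree
    have hHc : (C x + C h * (X - C s) ^ d).coeff d = h := by
      have h1 : ((X - C s) ^ d).coeff d = 1 := by
        have h2 := (monic_X_sub_C s).pow d
        have h3 : ((X - C s) ^ d).natDegree = d := by
          rw [natDegree_pow, natDegree_X_sub_C, mul_one]
        have h4 := h2.coeff_natDegree
        rwa [h3] at h4
      rw [coeff_add, coeff_C_mul, h1, coeff_C_of_ne_zero hd.ne', mul_one, zero_add]
    generalize hHdef : C x + C h * (X - C s) ^ d = H at hH hHc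
    have h3 : (H ^ 3).natDegree ≤ 3 * d := natDegree_pow_le_of_le 3 hH
    have h3c : (H ^ 3).coeff (3 * d) = h ^ 3 := by
      rw [coeff_pow_of_natDegree_le hH, hHc]
    have h4 : (3 * al).natDegree ≤ 2 * d := by
      have h5 : (3 * al).natDegree ≤ 0 + 2 * d := by
        refine natDegree_mul_le_of_le ?_ hal
        exact (natDegree_ofNat 3).le
      omega
    have h4c : (3 * al).coeff (2 * d) = 3 * al.coeff (2 * d) := by
      rw [← C_ofNat, coeff_C_mul]
    have h6 : (3 * al * H).natDegree ≤ 2 * d + d := natDegree_mul_le_of_le h4 hH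
    have h6c : (3 * al * H).coeff (2 * d + d) = 3 * al.coeff (2 * d) * h := by
      rw [coeff_mul_add_eq_of_natDegree_le h4 hH, h4c, hHc]
    have h7 : 2 * d + d = 3 * d := by ring
    rw [h7] at h6 h6c
    refine ⟨H, ?_, ?_, ?_⟩
    · rw [← hHdef]
      simp [hd.ne']
    · exact (natDegree_add_le_of_degree_le (natDegree_sub_le_of_le h3 h6 |>.trans (by simp)) hbe)
    · rw [coeff_add, coeff_sub, h3c, h6c]
      exact hh

omit [CharZero k] in
/-- the choice of `G` -/
private theorem exists_G {n : ℕ} (hn : 0 < n) (P : k[X]) (Y s : k) (Z : Finset k) :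
    ∃ G : k[X], G.eval s = Y ∧ G.natDegree ≤ 3 * n ∧ (G ^ 2 - P).coeff (6 * n) ≠ 0 ∧
      ∀ z ∈ Z, z ≠ s → (G ^ 2 - P).eval z ≠ 0 := by
  classical
  have hq : ∀ w e : k, w ≠ 0 → ((C Y + C w * X) ^ 2 - C e : k[X]) ≠ 0 := by
    intro w e hw h0
    have h2 := congrArg (fun p => Polynomial.coeff p 2) h0
    have h3 : ((C Y + C w * X) ^ 2 - C e : k[X]) =
        C (w ^ 2) * X ^ 2 + C (2 * Y * w) * X + C (Y ^ 2 - e) := by
      simp only [map_pow, map_mul, map_sub, map_ofNat]
      ring
    rw [h3, coeff_add, coeff_add, coeff_C_mul, coeff_C_mul, coeff_X_pow, coeff_X, coeff_C,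
      coeff_zero] at h2
    norm_num at h2
    exact hw h2
  have hq0 : (X ^ 2 - C (P.coeff (6 * n)) : k[X]) ≠ 0 := by
    intro h0
    have h2 := congrArg (fun p => Polynomial.coeff p 2) h0
    rw [coeff_sub, coeff_X_pow, coeff_C, coeff_zero] at h2
    norm_num at h2
  have hprod : ((X ^ 2 - C (P.coeff (6 * n))) *
      ∏ z ∈ Z.erase s, ((C Y + C ((z - s) ^ (3 * n)) * X) ^ 2 - C (P.eval z)) : k[X]) ≠ 0 := by
    refine mul_ne_zero hq0 (Finset.prod_ne_zero_iff.2 fun z hz => hq _ _ ?_)
    exact pow_ne_zero _ (sub_ne_zero.2 (Finset.ne_of_mem_erase hz))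
  obtain ⟨c, hc⟩ := exists_not_root hprod
  rw [eval_mul, eval_prod] at hc
  have hc1 := left_ne_zero_of_mul hc
  have hc2 := Finset.prod_ne_zero_iff.1 (right_ne_zero_of_mul hc)
  have hG : (C Y + C c * (X - C s) ^ (3 * n)).natDegree ≤ 3 * n := by
    compute_degree
  have hGc : (C Y + C c * (X - C s) ^ (3 * n)).coeff (3 * n) = c := by
    have h1 : ((X - C s) ^ (3 * n)).coeff (3 * n) = 1 := by
      have h2 := (monic_X_sub_C s).pow (3 * n)
      have h3 : ((X - C s) ^ (3 * n)).natDegree = 3 * n := by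
        rw [natDegree_pow, natDegree_X_sub_C, mul_one]
      have h4 := h2.coeff_natDegree
      rwa [h3] at h4
    rw [coeff_add, coeff_C_mul, h1, coeff_C_of_ne_zero (by omega), mul_one, zero_add]
  have hG2 : ((C Y + C c * (X - C s) ^ (3 * n)) ^ 2).coeff (6 * n) = c ^ 2 := by
    have h1 : 6 * n = 2 * (3 * n) := by ring
    rw [h1, coeff_pow_of_natDegree_le hG, hGc]
  refine ⟨C Y + C c * (X - C s) ^ (3 * n), ?_, hG, ?_, ?_⟩
  · have h0 : 3 * n ≠ 0 := by omega
    simp [h0]
  · rw [coeff_sub, hG2]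
    simpa using hc1
  · intro z hz hzs
    have h1 := hc2 z (Finset.mem_erase.2 ⟨hzs, hz⟩)
    intro h2
    apply h1
    rw [← h2]
    simp only [eval_sub, eval_pow, eval_add, eval_mul, eval_C, eval_X]
    ring

/-- Take `H i = C (x i) + C (h i) * (X - C s) ^ d i` if `d i ≠ 0` and `H i = C (x i)` if `d i = 0`, where
`h i` is chosen such that the coefficient `h ^ 3 - 3 a h + b` (`a`, `b` the coefficients of `al i` of
degree `2 d i` and of `be i` of degree `3 d i`) of degree `3 d i` of the cubic is not zero (for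
`d i = 0` the cubic is the constant `y i ^ 2`), and
`G = C (∏ i, y i) + C c * (X - C s) ^ (3 n)`, where `c ^ 2` is not the coefficient of degree `6 n` of
the product of the cubics, and `G ^ 2` is not equal to this product at the `z ∈ Z`, `z ≠ s`. -/
theorem exists_move {n : ℕ} (hn : 0 < n) {r : ℕ} {d : Fin r → ℕ} (hd : ∑ i, d i = 2 * n)
    {al be : Fin r → k[X]} (hal : ∀ i, (al i).natDegree ≤ 2 * d i)
    (hbe : ∀ i, (be i).natDegree ≤ 3 * d i) (s : k) (x y : Fin r → k)
    (hy : ∀ i, y i ^ 2 = x i ^ 3 - 3 * (al i).eval s * x i + (be i).eval s)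
    (hy0 : ∀ i, y i ≠ 0) (Z : Finset k) :
    ∃ (H : Fin r → k[X]) (G : k[X]), (∀ i, (H i).eval s = x i) ∧ G.eval s = ∏ i, y i ∧
      G.natDegree ≤ 3 * n ∧
      (∏ i, (H i ^ 3 - 3 * al i * H i + be i)).natDegree ≤ 6 * n ∧
      (∏ i, (H i ^ 3 - 3 * al i * H i + be i)).coeff (6 * n) ≠ 0 ∧
      (G ^ 2 - ∏ i, (H i ^ 3 - 3 * al i * H i + be i)).coeff (6 * n) ≠ 0 ∧
      ∀ z ∈ Z, z ≠ s → (G ^ 2 - ∏ i, (H i ^ 3 - 3 * al i * H i + be i)).eval z ≠ 0 := by
  choose H hHs hHd hHc using fun i => exists_factor (hal i) (hbe i) (hy i) (hy0 i)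
  have hsum : ∑ i, 3 * d i = 6 * n := by
    rw [← Finset.mul_sum, hd]
    ring
  obtain ⟨hP1, hP2⟩ := coeff_prod_bdd Finset.univ
    (fun i => H i ^ 3 - 3 * al i * H i + be i) (fun i => 3 * d i) (fun i _ => hHd i)
  rw [hsum] at hP1 hP2
  have hP3 : (∏ i, (H i ^ 3 - 3 * al i * H i + be i)).coeff (6 * n) ≠ 0 := by
    rw [hP2]
    exact Finset.prod_ne_zero_iff.2 fun i _ => hHc i
  obtain ⟨G, h1, h2, h3, h4⟩ := exists_G hn (∏ i, (H i ^ 3 - 3 * al i * H i + be i)) (∏ i, y i) s Z
  exact ⟨H, G, hHs, h1, h2, hP1, hP3, h3, h4⟩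

omit [IsAlgClosed k] [CharZero k] in
private theorem at_coeff_mul {v : Place k (Om k)} {P' Q' : (Om k)[X]} {P Q : k[X]}
    (hP : ∀ i, v.At (P'.coeff i) (P.coeff i)) (hQ : ∀ i, v.At (Q'.coeff i) (Q.coeff i)) (i : ℕ) :
    v.At ((P' * Q').coeff i) ((P * Q).coeff i) := by
  classical
  rw [coeff_mul, coeff_mul]
  have : ∀ s : Finset (ℕ × ℕ), v.At (∑ x ∈ s, P'.coeff x.1 * Q'.coeff x.2)
      (∑ x ∈ s, P.coeff x.1 * Q.coeff x.2) := by
    intro s
    induction s using Finset.induction_on with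
    | empty => simpa using VFP.at_zero
    | insert a s ha ih =>
      rw [Finset.sum_insert ha, Finset.sum_insert ha]
      exact ((hP _).mul (hQ _)).add ih
  exact this _

omit [IsAlgClosed k] [CharZero k] in
private theorem at_coeff_C {v : Place k (Om k)} {a' : Om k} {a : k} (h : v.At a' a) (i : ℕ) :
    v.At ((C a').coeff i) ((C a).coeff i) := by
  rw [coeff_C, coeff_C]
  split_ifs
  · exact h
  · exact VFP.at_zero

omit [IsAlgClosed k] [CharZero k] in
private theorem at_coeff_lin {v : Place k (Om k)} {a' : Om k} {a : k} (h : v.At a' a) (i : ℕ) :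
    v.At ((X - C a').coeff i) ((X - C a).coeff i) := by
  rw [coeff_sub, coeff_sub]
  refine Place.At.sub ?_ (at_coeff_C h i)
  rw [coeff_X, coeff_X]
  split_ifs
  · exact VFP.at_one
  · exact VFP.at_zero

omit [IsAlgClosed k] [CharZero k] in
private theorem at_coeff_prod {v : Place k (Om k)} {m : ℕ} {r : Fin m → Om k} {r' : Fin m → k}
    (h : ∀ i, v.At (r i) (r' i)) (s : Finset (Fin m)) (j : ℕ) :
    v.At ((∏ i ∈ s, (X - C (r i))).coeff j) ((∏ i ∈ s, (X - C (r' i))).coeff j) := by
  classical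
  induction s using Finset.induction_on generalizing j with
  | empty =>
    rw [Finset.prod_empty, Finset.prod_empty]
    have := at_coeff_C (v := v) VFP.at_one j
    simpa using this
  | insert a s ha ih =>
    rw [Finset.prod_insert ha, Finset.prod_insert ha]
    exact at_coeff_mul (at_coeff_lin (h a)) ih j

/-- The roots of a polynomial over `Om k` have the roots of its value at a place `v` as values, if
the leading coefficient does not vanish at `v`. (They are integral over the ring of `v`, which is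
integrally closed; compare the coefficients.) -/
theorem move_roots_at (v : Place k (Om k)) {R' : (Om k)[X]} {R : k[X]} {m : ℕ}
    (h : ∀ i, v.At (R'.coeff i) (R.coeff i)) (h0 : R.coeff m ≠ 0) (c : Om k) (r : Fin m → Om k)
    (hr : R' = C c * ∏ i, (X - C (r i))) :
    ∃ r' : Fin m → k, (∀ i, v.At (r i) (r' i)) ∧
      R = C (R.coeff m) * ∏ i, (X - C (r' i)) := by
  classical
  have hmon : (∏ i, (X - C (r i))).Monic := monic_prod_of_monic _ _ fun i _ => monic_X_sub_C _
  have hdeg : (∏ i, (X - C (r i))).natDegree = m := by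
    rw [natDegree_prod_of_monic _ _ fun i _ => monic_X_sub_C _]
    simp
  have hcc : R'.coeff m = c := by
    rw [hr, coeff_C_mul]
    have h1 := hmon.coeff_natDegree
    rw [hdeg] at h1
    rw [h1, mul_one]
  have hc := h m
  rw [hcc] at hc
  have hinv : v.At c⁻¹ (R.coeff m)⁻¹ := by
    have := VFP.at_one.div hc h0
    simpa using this
  have hc0 : c ≠ 0 := by
    rintro rfl
    exact h0 (hc.unique VFP.at_zero)
  have hmem : ∀ j, (∏ i, (X - C (r i))).coeff j ∈ v.ring := by
    intro j
    have h1 := (h j).mem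
    have h2 := mul_mem hinv.mem h1
    rw [hr, coeff_C_mul, inv_mul_cancel_left₀ hc0] at h2
    exact h2
  have hint : ∀ i, r i ∈ v.ring := by
    intro i
    have h2 : IsIntegral v.ring (r i) := by
      have hl : (∏ i, (X - C (r i))) ∈ lifts (algebraMap v.ring (Om k)) := by
        rw [lifts_iff_coeff_lifts]
        intro j
        exact ⟨⟨_, hmem j⟩, rfl⟩
      obtain ⟨q, hq1, hq2, hq3⟩ := lifts_and_natDegree_eq_and_monic hl hmon
      refine ⟨q, hq3, ?_⟩
      rw [← eval_map, hq1, eval_prod]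
      exact Finset.prod_eq_zero (Finset.mem_univ i) (by simp)
    obtain ⟨y, hy⟩ := IsIntegrallyClosed.isIntegral_iff.1 h2
    rw [← hy]
    exact y.2
  choose r' hr' using fun i => DCI57.exists_at v (hint i)
  refine ⟨r', hr', ?_⟩
  ext j
  have h1 : v.At (R'.coeff j) ((C (R.coeff m) * ∏ i, (X - C (r' i))).coeff j) := by
    rw [hr]
    exact at_coeff_mul (at_coeff_C hc) (at_coeff_prod hr' Finset.univ) j
  exact (h j).unique h1

/-- the list of the roots -/
theorem move_exists_roots {K : Type*} [Field K] [IsAlgClosed K] {R : K[X]} {m : ℕ}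
    (h : R.natDegree ≤ m) (h0 : R.coeff m ≠ 0) :
    ∃ r : Fin m → K, R = C (R.coeff m) * ∏ i, (X - C (r i)) := by
  have hm : R.natDegree = m := le_antisymm h (le_natDegree_of_ne_zero h0)
  subst hm
  have hs := (IsAlgClosed.splits R)
  have h1 := hs.eq_prod_roots
  have h2 : R.roots.toList.length = R.natDegree := by
    rw [Multiset.length_toList]
    exact hs.natDegree_eq_card_roots.symm
  refine ⟨fun i => R.roots.toList.get (i.cast h2.symm), ?_⟩
  conv_lhs => rw [h1]
  rw [coeff_natDegree]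
  congr 1
  have h3 : (Multiset.map (fun a => X - C a) R.roots).prod =
      (List.map (fun a => X - C a) R.roots.toList).prod := by
    conv_lhs => rw [← Multiset.coe_toList R.roots]
    rw [Multiset.map_coe, Multiset.prod_coe]
  rw [h3]
  have h4 : ∀ l : List K, (List.map (fun a => X - C a) l).prod =
      ∏ i : Fin l.length, (X - C (l.get i)) := by
    intro l
    rw [← List.prod_ofFn]
    congr 1
    apply List.ext_get
    · simp
    · intro n h1 h2
      simp
  rw [h4]
  exact Fintype.prod_equiv (finCongr h2) _ _ fun i => rfl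

end Pool.Agent.TInf
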