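import Pool.Agent.TInf.LiftBasic

/-!
# Bounds
-/

set_option autoImplicit false

noncomputable section

namespace Pool.Agent.TInf

open Pool.Agent.ZCyc Polynomial
open Pool.Agent.VFP (Om tt)

universe u

variable {k : Type u} [Field k] [CharZero k] (v : Place k (Om k))

/-- all denominators are units at `v` -/
structure Side.Unit (s : Side (Om k)) : Prop where
  p : s.p ∈ v.ring
  m : s.m ∈ v.ring
  T : s.T ∈ v.ring
  T' : s.T⁻¹ ∈ v.ring
  Tp : (s.T + s.p)⁻¹ ∈ v.ring
  Tm : (s.T + s.m)⁻¹ ∈ v.ring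

private theorem two_inv_mem : ((2 : Om k))⁻¹ ∈ v.ring := by
  have h := v.const_mem (2 : k)⁻¹
  rwa [map_inv₀, map_ofNat] at h

private theorem two_mem : (2 : Om k) ∈ v.ring := by
  have h := v.const_mem (2 : k)
  rwa [map_ofNat] at h

/-- `T = V + Sg - b` with `Sg ² = V ² - 2 b V + g ²`, `T (V - Sg - b) = D`, and
`2 V T = (T + p) (T + m)` -/
theorem side_unit {s : Side (Om k)} (hs : s.Good) (hp : s.p ∈ v.ring) (hm : s.m ∈ v.ring)
    (hD0 : s.D ≠ 0) (hD : s.D⁻¹ ∈ v.ring) (hV : s.V ∈ v.ring) (hV' : s.V⁻¹ ∈ v.ring) :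
    s.Unit v := by
  obtain ⟨h0, h1, h2⟩ := hs
  have h20 : (2 : Om k) ≠ 0 := two_ne_zero
  have hV0 : s.V ≠ 0 := by
    rw [Side.V]
    exact div_ne_zero (mul_ne_zero h1 h2) (mul_ne_zero h20 h0)
  have key : 2 * s.V * s.T = (s.T + s.p) * (s.T + s.m) := by
    rw [Side.V]
    field_simp
  have hw : s.p + s.m - 2 * s.V ∈ v.ring :=
    sub_mem (add_mem hp hm) (mul_mem (two_mem v) hV)
  have hDm : s.D ∈ v.ring := mul_mem hp hm
  have hT : s.T ∈ v.ring := by
    rcases v.ring.mem_or_inv_mem s.T with h | h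
    · exact h
    · have e : s.T = -(s.p + s.m - 2 * s.V) - s.D * s.T⁻¹ := by
        apply mul_right_cancel₀ h0
        rw [sub_mul, mul_assoc, inv_mul_cancel₀ h0, mul_one, Side.D]
        linear_combination -key
      rw [e]
      exact sub_mem (neg_mem hw) (mul_mem hDm h)
  have hT' : s.T⁻¹ ∈ v.ring := by
    have e : s.T⁻¹ = s.D⁻¹ * (-(s.T + (s.p + s.m - 2 * s.V))) := by
      apply mul_left_cancel₀ hD0
      rw [← mul_assoc, mul_inv_cancel₀ hD0, one_mul]
      apply mul_right_cancel₀ h0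
      rw [mul_assoc, inv_mul_cancel₀ h0, mul_one, Side.D]
      linear_combination -key
    rw [e]
    exact mul_mem hD (neg_mem (add_mem hT hw))
  have h5 : (2 * s.V * s.T)⁻¹ ∈ v.ring := by
    rw [mul_inv, mul_inv]
    exact mul_mem (mul_mem (two_inv_mem v) hV') hT'
  refine ⟨hp, hm, hT, hT', ?_, ?_⟩
  · have e : (s.T + s.p)⁻¹ = (2 * s.V * s.T)⁻¹ * (s.T + s.m) := by
      rw [key]
      field_simp
    rw [e]
    exact mul_mem h5 (add_mem hT hm)
  · have e : (s.T + s.m)⁻¹ = (2 * s.V * s.T)⁻¹ * (s.T + s.p) := by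
      rw [key]
      field_simp
    rw [e]
    exact mul_mem h5 (add_mem hT hp)

/-- all coefficients are in the valuation ring -/
def PIn (P : (Om k)[X]) : Prop := ∀ i, P.coeff i ∈ v.ring

variable {v}

omit [CharZero k] in
private theorem PIn.add {P Q : (Om k)[X]} (hP : PIn v P) (hQ : PIn v Q) : PIn v (P + Q) := by
  intro i
  rw [coeff_add]
  exact add_mem (hP i) (hQ i)

omit [CharZero k] in
private theorem PIn.sub {P Q : (Om k)[X]} (hP : PIn v P) (hQ : PIn v Q) : PIn v (P - Q) := by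
  intro i
  rw [coeff_sub]
  exact sub_mem (hP i) (hQ i)

omit [CharZero k] in
private theorem PIn.neg {P : (Om k)[X]} (hP : PIn v P) : PIn v (-P) := by
  intro i
  rw [coeff_neg]
  exact neg_mem (hP i)

omit [CharZero k] in
private theorem PIn.mul {P Q : (Om k)[X]} (hP : PIn v P) (hQ : PIn v Q) : PIn v (P * Q) := by
  intro i
  rw [coeff_mul]
  exact sum_mem fun x _ => mul_mem (hP _) (hQ _)

omit [CharZero k] in
private theorem PIn.C {c : Om k} (hc : c ∈ v.ring) : PIn v (C c) := by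
  intro i
  rw [coeff_C]
  split_ifs
  · exact hc
  · exact zero_mem _

omit [CharZero k] in
private theorem PIn.one : PIn v (1 : (Om k)[X]) := by
  rw [← C_1]
  exact PIn.C (one_mem _)

omit [CharZero k] in
private theorem PIn.zero : PIn v (0 : (Om k)[X]) := by
  intro i
  rw [coeff_zero]
  exact zero_mem _

omit [CharZero k] in
private theorem PIn.X : PIn v (X : (Om k)[X]) := by
  intro i
  rw [coeff_X]
  split_ifs
  · exact one_mem _
  · exact zero_mem _

variable (v)

theorem st_mem {l : List (Side (Om k))} (h : ∀ s ∈ l, s.Unit v) :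
    PIn v (st l).a ∧ PIn v (st l).b ∧ PIn v (st l).c ∧ PIn v (st l).t := by
  induction l with
  | nil => exact ⟨PIn.one, PIn.zero, PIn.zero, PIn.zero⟩
  | cons s l ih =>
    obtain ⟨ha, hb, hc, ht⟩ := ih fun t ht => h t (List.mem_cons_of_mem _ ht)
    obtain ⟨hp, hm, hT, hT', hTp, hTm⟩ := h s List.mem_cons_self
    have h2 := two_inv_mem v
    have hX : PIn v (1 - X : (Om k)[X]) := PIn.one.sub PIn.X
    have e1 : (s.p + s.m) / 2 ∈ v.ring := by
      rw [div_eq_mul_inv]
      exact mul_mem (add_mem hp hm) h2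
    have e1' : (s.p - s.m) / 2 ∈ v.ring := by
      rw [div_eq_mul_inv]
      exact mul_mem (sub_mem hp hm) h2
    have e2 : s.p * (s.T + s.m) / (2 * (s.T + s.p)) ∈ v.ring := by
      rw [div_eq_mul_inv, mul_inv]
      exact mul_mem (mul_mem hp (add_mem hT hm)) (mul_mem h2 hTp)
    have e3 : s.m * (s.T + s.p) / (2 * (s.T + s.m)) ∈ v.ring := by
      rw [div_eq_mul_inv, mul_inv]
      exact mul_mem (mul_mem hm (add_mem hT hp)) (mul_mem h2 hTm)
    have e4 : s.p * s.m / s.T ∈ v.ring := by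
      rw [div_eq_mul_inv]
      exact mul_mem (mul_mem hp hm) hT'
    have e5 : s.p ^ 2 * (s.T + s.m) / (2 * s.T * (s.T + s.p)) ∈ v.ring := by
      rw [div_eq_mul_inv, mul_inv, mul_inv]
      exact mul_mem (mul_mem (pow_mem hp 2) (add_mem hT hm)) (mul_mem (mul_mem h2 hT') hTp)
    have e6 : s.m ^ 2 * (s.T + s.p) / (2 * s.T * (s.T + s.m)) ∈ v.ring := by
      rw [div_eq_mul_inv, mul_inv, mul_inv]
      exact mul_mem (mul_mem (pow_mem hm 2) (add_mem hT hp)) (mul_mem (mul_mem h2 hT') hTm)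
    have e7 : s.T * (s.T + s.m) / (2 * (s.T + s.p)) ∈ v.ring := by
      rw [div_eq_mul_inv, mul_inv]
      exact mul_mem (mul_mem hT (add_mem hT hm)) (mul_mem h2 hTp)
    have e8 : s.T * (s.T + s.p) / (2 * (s.T + s.m)) ∈ v.ring := by
      rw [div_eq_mul_inv, mul_inv]
      exact mul_mem (mul_mem hT (add_mem hT hp)) (mul_mem h2 hTm)
    rw [st_cons]
    refine ⟨?_, ?_, ?_, ?_⟩
    · exact ((PIn.C e1).mul ha).add (PIn.X.mul (((PIn.C e2).mul hb).sub ((PIn.C e3).mul hc)))
    · exact ((((PIn.C e4).mul ha).add ((PIn.C e5).mul hb)).sub ((PIn.C e6).mul hc)).sub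
        ((hX.mul (PIn.C e4)).mul ht)
    · exact (((((PIn.C hT).mul ha).neg).sub ((PIn.C e7).mul hb)).add ((PIn.C e8).mul hc)).sub
        ((hX.mul (PIn.C hT)).mul ht)
    · exact (((PIn.C e1').mul ht).add ((PIn.C e2).mul hb)).add ((PIn.C e3).mul hc)

end Pool.Agent.TInf
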