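import Pool.Agent.TInf.Lift
import Pool.Agent.TInf.PathP

/-!
# Lifting of lists of sides with equal ratios `p / m`
-/

set_option autoImplicit false

noncomputable section

namespace Pool.Agent.TInf

open Pool.Agent.ZCyc Polynomial
open Pool.Agent.VFP (Om tt)

universe u

variable {k : Type u} [Field k] [CharZero k] {v : Place k (Om k)}

omit [CharZero k] in
private lemma at_zero_zero : v.At (0 : Om k) 0 := by
  have h := Place.at_const (v := v) (0 : k)
  rwa [map_zero] at h

omit [CharZero k] in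
private lemma at_ne {f : Om k} {c : k} (h : v.At f c) (h0 : c ≠ 0) : f ≠ 0 := by
  intro hf
  rw [hf] at h
  exact h0 (h.unique at_zero_zero)

theorem den_at {s' : Side (Om k)} {s : Side k} (hS : SAt v s' s) (hn : s.Nd) {M' : Mq (Om k)}
    {M : Mq k} (hM : MAt v M' M) : v.At (den s' M') (den s M) := by
  have hth := hS.th hn.D
  unfold den
  have h1 := (hS.b.mul hS.g).mul (hS.D.inv hn.D)
  have h2 := (hM.a.eval hth).sub (h1.mul (hM.t.eval hth))
  rw [← div_eq_mul_inv, ← div_eq_mul_inv] at h2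
  exact h2

theorem den'_at {s' : Side (Om k)} {s : Side k} (hS : SAt v s' s) (hn : s.Nd) {M' : Mq (Om k)}
    {M : Mq k} (hM : MAt v M' M) : v.At (den' s' M') (den' s M) := by
  have hth := hS.th hn.D
  unfold den'
  have h1 := (hS.b.mul hS.g).mul (hS.D.inv hn.D)
  have h2 := (hM.a.eval hth).add (h1.mul (hM.t.eval hth))
  rw [← div_eq_mul_inv, ← div_eq_mul_inv] at h2
  exact h2

/-- `lift_step` with the second formula for `T` -/
theorem lift_step' {s : Side k} (hs : s.Good) (hn : s.Nd) {M : Mq k}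
    (hc : (push s M).b.eval s.th ≠ 0) {p' m' : Om k} (hp : v.At p' s.p) (hm : v.At m' s.m)
    {M' : Mq (Om k)} (hM : MAt v M' (push s M))
    (hq : M'.q.eval (((p' + m') / 2) ^ 2 / (p' * m')) = 0) :
    ∃ (T' : Om k) (M₁ : Mq (Om k)), SAt v ⟨p', m', T'⟩ s ∧ push ⟨p', m', T'⟩ M₁ = M' ∧
      MAt v M₁ M := by
  set s₀ : Side (Om k) := ⟨p', m', algebraMap k (Om k) s.T⟩ with hs₀
  have hS₀ : SAt v s₀ s := ⟨hp, hm, Place.at_const _⟩
  have hb := hS₀.b
  have hD := hS₀.D
  have hth := hS₀.th hn.D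
  have hpT := peel_T' hs hn M
  have hbv : v.At (M'.b.eval s₀.th) ((push s M).b.eval s.th) := hM.b.eval hth
  have hdv : v.At (den' s₀ M') (den' s (push s M)) := den'_at hS₀ hn hM
  have hb' : M'.b.eval s₀.th ≠ 0 := at_ne hbv hc
  have hb0 : s₀.b ≠ 0 := at_ne hb hn.b
  have h0 : M'.b.eval s₀.th * s₀.b ≠ 0 := mul_ne_zero hb' hb0
  have h0' : (push s M).b.eval s.th * s.b ≠ 0 := mul_ne_zero hc hn.b
  set T' : Om k := s₀.D * den' s₀ M' / (M'.b.eval s₀.th * s₀.b) with hT'
  have hT : v.At T' s.T := by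
    have h1 := (hD.mul hdv).mul ((hbv.mul hb).inv h0')
    rw [← div_eq_mul_inv, ← div_eq_mul_inv, ← hpT, mul_assoc, mul_div_cancel_right₀ _ h0'] at h1
    exact h1
  set s' : Side (Om k) := ⟨p', m', T'⟩ with hs'
  have hS : SAt v s' s := ⟨hp, hm, hT⟩
  have hTeq' : s'.T * M'.b.eval s'.th * s'.b = s'.D * den' s' M' := by
    change T' * M'.b.eval s₀.th * s₀.b = s₀.D * den' s₀ M'
    rw [mul_assoc, hT', div_mul_cancel₀ _ h0]
  have hTeq := other_T (hS.good hs) (hS.nd hn) (M := M') hq hb' hTeq'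
  obtain ⟨M₁, h1, h2⟩ := exists_inner_of (hS.good hs) (hS.nd hn) (M := M') hTeq hTeq'
  refine ⟨T', M₁, hS, h2, ?_⟩
  have h3 := MAt.pull hS hs hM
  rw [h1, pull_push hs M] at h3
  exact ⟨PAt.div hS.b hS.D hn.D h3.a, PAt.div hS.b hS.D hn.D h3.b,
    PAt.div hS.b hS.D hn.D h3.c, PAt.div hS.b hS.D hn.D h3.t⟩

/-- lifting of one side -/
theorem lift_stepP {s : Side k} (hs : s.Good) (hn : s.Nd) {M : Mq k}
    (hc : den s (push s M) ≠ 0 ∨ den' s (push s M) ≠ 0) {p' m' : Om k} (hp : v.At p' s.p)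
    (hm : v.At m' s.m) {M' : Mq (Om k)} (hM : MAt v M' (push s M))
    (hq : M'.q.eval (((p' + m') / 2) ^ 2 / (p' * m')) = 0) :
    ∃ (T' : Om k) (M₁ : Mq (Om k)), SAt v ⟨p', m', T'⟩ s ∧ push ⟨p', m', T'⟩ M₁ = M' ∧
      MAt v M₁ M := by
  rcases hc with hc | hc
  · refine lift_step hs hn ?_ hp hm hM hq
    intro h0
    have h1 := peel_T hs hn M
    rw [h0, mul_zero] at h1
    exact mul_ne_zero hc hs.1 h1
  · refine lift_step' hs hn ?_ hp hm hM hq
    intro h0
    have h1 := peel_T' hs hn M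
    rw [h0, mul_zero, zero_mul] at h1
    exact mul_ne_zero hn.D hc h1.symm

/-- the states over `Om k` do not vanish if their values do not vanish -/
theorem GdP.of_at {l' : List (Side (Om k))} {l : List (Side k)} (h : List.Forall₂ (SAt v) l' l)
    (hn : ∀ s ∈ l, s.Nd) (hl : GdP l) : GdP l' := by
  induction h with
  | nil => trivial
  | cons hs ht ih =>
      obtain ⟨h1, h2, h3⟩ := hl
      refine ⟨ih (fun s hs => hn s (List.mem_cons_of_mem _ hs)) h1, hs.good h2, ?_⟩
      have h4 := MAt.st (List.Forall₂.cons hs ht) (GdP.good ⟨h1, h2, h3⟩)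
      have hn' := hn _ List.mem_cons_self
      rcases h3 with h3 | h3
      · exact Or.inl (at_ne (den_at hs hn' h4) h3)
      · exact Or.inr (at_ne (den'_at hs hn' h4) h3)

/-- lifting of lists of sides -/
theorem liftP : ∀ (l : List (Side k)) (d : List (Om k × Om k)) (M' : Mq (Om k)),
    (∀ s ∈ l, s.Nd) → GdP l → List.Forall₂ (fun x s => v.At x.1 s.p ∧ v.At x.2 s.m) d l →
    MAt v M' (st l) → M'.Deg l.length →
    M'.q = (d.map fun x => C (((x.1 + x.2) / 2) ^ 2) - C (x.1 * x.2) * X).prod →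
    M'.a.eval 0 = (d.map fun x => (x.1 + x.2) / 2).prod →
    ∃ l' : List (Side (Om k)), l'.map Side.pm = d ∧ st l' = M' ∧ List.Forall₂ (SAt v) l' l := by
  intro l
  induction l with
  | nil =>
      intro d M' _ _ hd _ hdeg hq ha
      rw [List.forall₂_nil_right_iff] at hd
      subst hd
      simp only [List.map_nil, List.prod_nil] at hq ha
      exact ⟨[], rfl, (eq_one_of_Deg hdeg hq ha).symm, List.Forall₂.nil⟩
  | cons s l ih =>
      intro d M' hn hl hd hM hdeg hq ha
      obtain ⟨x, d, ⟨hp, hm⟩, hd', rfl⟩ := List.forall₂_cons_right_iff.1 hd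
      obtain ⟨hl1, hsg, hc⟩ := hl
      have hsn := hn s List.mem_cons_self
      have hD : x.1 * x.2 ≠ 0 := by
        intro h0
        have h1 := hp.mul hm
        rw [h0] at h1
        exact hsn.D (h1.unique at_zero_zero)
      simp only [List.map_cons, List.prod_cons] at hq ha
      obtain ⟨T', M₁, hs', hpush, hM₁⟩ := lift_stepP hsg hsn hc hp hm hM (by
        rw [hq, eval_mul, eval_sub, eval_mul, eval_C, eval_C, eval_X, mul_div_cancel₀ _ hD,
          sub_self, zero_mul])
      have hg' := hs'.good hsg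
      have hn' := hs'.nd hsn
      have hb : (⟨x.1, x.2, T'⟩ : Side (Om k)).b = (x.1 + x.2) / 2 := rfl
      have hr : (⟨x.1, x.2, T'⟩ : Side (Om k)).r =
          C (((x.1 + x.2) / 2) ^ 2) - C (x.1 * x.2) * X := rfl
      have hr0 : (⟨x.1, x.2, T'⟩ : Side (Om k)).r ≠ 0 := by
        intro h0
        rw [hr] at h0
        have h1 := congrArg (fun f => Polynomial.coeff f 1) h0
        simp only [coeff_sub, coeff_C_mul, coeff_X_one, coeff_zero, mul_one] at h1
        rw [coeff_C_of_ne_zero one_ne_zero, zero_sub, neg_eq_zero] at h1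
        exact hD h1
      obtain ⟨l', h1, h2, h3⟩ := ih d M₁ (fun t ht => hn t (List.mem_cons_of_mem _ ht)) hl1 hd' hM₁
        (by
          rw [← hpush] at hdeg
          exact Deg_inner hg' hn' hdeg)
        (by
          rw [← hpush, q_push hg', ← hr] at hq
          exact mul_left_cancel₀ hr0 hq)
        (by
          rw [← hpush, push_a_zero, hb] at ha
          exact mul_left_cancel₀ (hb ▸ hn'.b) ha)
      refine ⟨⟨x.1, x.2, T'⟩ :: l', ?_, ?_, List.Forall₂.cons hs' h3⟩
      · rw [List.map_cons, h1]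
        rfl
      · rw [st_cons, h2, hpush]

end Pool.Agent.TInf
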