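import Pool.Agent.TInf.ConfLift
import Pool.Agent.TInf.ConfU
import Pool.Agent.TInf.LiftP

/-!
# Lifting of configurations, including the isotrivial case
-/

set_option autoImplicit false

noncomputable section

namespace Pool.Agent.TInf

open Pool.Agent.ZCyc Polynomial
open Pool.Agent.VFP (Om tt)

universe u

variable {k : Type u} [Field k] [IsAlgClosed k] [CharZero k] {n : ℕ}

omit [IsAlgClosed k] in
private theorem at_half {v : Place k (Om k)} {x : Om k} {c : k} (h : v.At x c) :
    v.At (x / 2) (c / 2) := by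
  have h2 : v.At (2 : Om k) (2 : k) := by
    have := Place.at_const (v := v) (2 : k)
    rwa [map_ofNat] at this
  exact h.div h2 two_ne_zero

omit [IsAlgClosed k] [CharZero k] in
private theorem ne_of_at {v : Place k (Om k)} {x : Om k} {c : k} (h : v.At x c) (hc : c ≠ 0) :
    x ≠ 0 := by
  rintro rfl
  have h0 := Place.at_const (v := v) (0 : k)
  rw [map_zero] at h0
  exact hc (h.unique h0)

private theorem prod_finRange {M : Type*} [CommMonoid M] (ord : Equiv.Perm (Fin n))
    (f : Fin n → M) : ((List.finRange n).map fun a => f (ord a)).prod = ∏ j, f j := by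
  rw [← Equiv.prod_comp ord f, ← List.prod_ofFn, List.ofFn_eq_map]

/-- Let `M'` be a state over `Om k` with the correct equation, degrees and value of `a` at `0`, and
let `M` be its value at the place `v`. If the values `α`, `B` of the coefficients `α'`, `B'` of the cubics
are nondegenerate and all orderings and square roots occur in configurations with the state `M`,
then there is a configuration with the state `M'` for every ordering and all square roots, and its
value is the configuration over `k`. Use `lift`. -/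
theorem cfg_liftU (v : Place k (Om k)) {α B : Fin n → k} {α' B' : Fin n → Om k}
    (hα : ∀ j, v.At (α' j) (α j)) (hB : ∀ j, v.At (B' j) (B j)) (h : NdU α B) {M : Mq k}
    {M' : Mq (Om k)} (hM : MAt v M' M) (hdeg : M'.Deg n)
    (hq : M'.q = ∏ j, (C ((B' j / 2) ^ 2) - C ((B' j / 2) ^ 2 - α' j ^ 3) * X))
    (h0 : M'.a.eval 0 = ∏ j, (-B' j / 2)) (hF : FullU α B M) (ord : Equiv.Perm (Fin n))
    {β' : Fin n → Om k} (hβ : ∀ j, β' j ^ 2 = α' j ^ 3) {β : Fin n → k}
    (hβv : ∀ j, v.At (β' j) (β j)) (hA : Adm α B β) :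
    ∃ (T' : Fin n → Om k) (T : Fin n → k), (⟨ord, β', T'⟩ : Cfg (Om k) n).Good α' B' ∧
      (⟨ord, β', T'⟩ : Cfg (Om k) n).M B' = M' ∧
      GdP ((⟨ord, β', T'⟩ : Cfg (Om k) n).sides B') ∧ (⟨ord, β, T⟩ : Cfg k n).Good α B ∧
      (⟨ord, β, T⟩ : Cfg k n).M B = M ∧ ∀ j, v.At (T' j) (T j) := by
  classical
  obtain ⟨T, hT, hTM, hTG⟩ := hF ord β hA
  obtain ⟨c, hc⟩ : ∃ c : Cfg k n, c = ⟨ord, β, T⟩ := ⟨_, rfl⟩
  have hcG : c.Good α B := hc ▸ hT
  have hcM : c.M B = M := hc ▸ hTM
  have hmid : ∀ j, v.At (-B' j / 2) (-B j / 2) := fun j => at_half (hB j).neg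
  -- the list of the pairs
  obtain ⟨d, hd⟩ : ∃ d : List (Om k × Om k), d = (List.finRange n).map fun a =>
    (-B' (ord a) / 2 + β' (ord a), -B' (ord a) / 2 - β' (ord a)) := ⟨_, rfl⟩
  have hsides : c.sides B = (List.finRange n).map fun a =>
      (⟨-B (ord a) / 2 + β (ord a), -B (ord a) / 2 - β (ord a), T (ord a)⟩ : Side k) := by
    rw [hc]
    rfl
  have hnd : ∀ s ∈ c.sides B, s.Nd := by
    intro s hs
    obtain ⟨j, rfl⟩ := Cfg.mem_sides hs
    exact Cfg.side_ndU h hcG j
  have hfa : List.Forall₂ (fun (x : Om k × Om k) (s : Side k) => v.At x.1 s.p ∧ v.At x.2 s.m) d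
      (c.sides B) := by
    rw [hd, hsides, List.forall₂_map_left_iff, List.forall₂_map_right_iff, List.forall₂_same]
    intro a _
    exact ⟨(hmid _).add (hβv _), (hmid _).sub (hβv _)⟩
  have hMs : MAt v M' (st (c.sides B)) := by
    rw [← Cfg.M_eq, hcM]
    exact hM
  have hG : GdP (c.sides B) := by rw [hc]; exact hTG
  obtain ⟨l', h1, h2, h3⟩ := liftP (c.sides B) d M' hnd hG hfa hMs
    (by rw [Cfg.length_sides]; exact hdeg)
    (by
      rw [hd, List.map_map, hq, ← prod_finRange ord]
      congr 1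
      refine List.map_congr_left fun a _ => ?_
      simp only [Function.comp_apply]
      have e1 : (-B' (ord a) / 2 + β' (ord a) + (-B' (ord a) / 2 - β' (ord a))) / 2 =
          -(B' (ord a) / 2) := by ring
      have e2 : (-B' (ord a) / 2 + β' (ord a)) * (-B' (ord a) / 2 - β' (ord a)) =
          (B' (ord a) / 2) ^ 2 - α' (ord a) ^ 3 := by
        rw [← hβ (ord a)]
        ring
      rw [e1, e2, neg_sq])
    (by
      rw [hd, List.map_map, h0, ← prod_finRange ord]
      congr 1
      refine List.map_congr_left fun a _ => ?_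
      simp only [Function.comp_apply]
      ring)
  have hlen : l'.length = n := by
    have := congrArg List.length h1
    rw [List.length_map, hd, List.length_map, List.length_finRange] at this
    exact this
  have hget : ∀ a : Fin n, (l'[a.val]'(by omega)).p = -B' (ord a) / 2 + β' (ord a) ∧
      (l'[a.val]'(by omega)).m = -B' (ord a) / 2 - β' (ord a) ∧
      SAt v (l'[a.val]'(by omega))
        ⟨-B (ord a) / 2 + β (ord a), -B (ord a) / 2 - β (ord a), T (ord a)⟩ := by
    intro a
    have ha : a.val < l'.length := by omega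
    have e1 : (l'.map Side.pm)[a.val]'(by rw [List.length_map]; exact ha) =
        d[a.val]'(by rw [← h1, List.length_map]; exact ha) := by
      simp only [h1]
    have e2 := List.Forall₂.get h3 ha (by rw [Cfg.length_sides]; exact a.2)
    simp only [List.get_eq_getElem, hsides, List.getElem_map, List.getElem_finRange,
      Fin.cast_mk, Fin.eta] at e2
    simp only [List.getElem_map, hd, List.getElem_finRange, Fin.cast_mk, Fin.eta,
      Side.pm, Prod.mk.injEq] at e1
    exact ⟨e1.1, e1.2, e2⟩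
  obtain ⟨T', hT'⟩ : ∃ T' : Fin n → Om k, ∀ j, T' j =
      (l'[(ord.symm j).val]'(by have := (ord.symm j).2; omega)).T := ⟨_, fun _ => rfl⟩
  have hside : ∀ j, (⟨ord, β', T'⟩ : Cfg (Om k) n).side B' j =
      l'[(ord.symm j).val]'(by have := (ord.symm j).2; omega) := by
    intro j
    obtain ⟨g1, g2, -⟩ := hget (ord.symm j)
    rw [Equiv.apply_symm_apply] at g1 g2
    exact Side.ext g1.symm g2.symm (hT' j)
  have hl' : (⟨ord, β', T'⟩ : Cfg (Om k) n).sides B' = l' := by
    refine List.ext_getElem ?_ fun i i1 i2 => ?_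
    · rw [Cfg.length_sides, hlen]
    · rw [Cfg.getElem_sides, hside]
      simp only [Equiv.symm_apply_apply]
  refine ⟨T', T, ⟨hβ, fun j => ?_⟩, ?_, ?_, hT, hTM, fun j => ?_⟩
  · rw [hside]
    obtain ⟨-, -, g3⟩ := hget (ord.symm j)
    refine g3.good ?_
    rw [Equiv.apply_symm_apply]
    exact hT.2 j
  · rw [Cfg.M_eq, hl', h2]
  · rw [hl']
    exact GdP.of_at h3 hnd hG
  · rw [hT']
    obtain ⟨-, -, g3⟩ := hget (ord.symm j)
    have := g3.T
    rwa [Equiv.apply_symm_apply] at this


/-- Every good configuration over `Om k` with the state `M'`, whose square roots have admissible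
values `β`, has a value at `v`, which is a good configuration over `k` with the state `M`. -/
theorem cfg_valueU (v : Place k (Om k)) {α B : Fin n → k} {α' B' : Fin n → Om k}
    (hα : ∀ j, v.At (α' j) (α j)) (hB : ∀ j, v.At (B' j) (B j)) (h : NdU α B) {M : Mq k}
    {M' : Mq (Om k)} (hM : MAt v M' M) (hdeg : M'.Deg n)
    (hq : M'.q = ∏ j, (C ((B' j / 2) ^ 2) - C ((B' j / 2) ^ 2 - α' j ^ 3) * X))
    (h0 : M'.a.eval 0 = ∏ j, (-B' j / 2)) (hF : FullU α B M) {c' : Cfg (Om k) n}
    (hc' : c'.Good α' B') (hcM : c'.M B' = M') {β : Fin n → k}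
    (hβv : ∀ j, v.At (c'.β j) (β j)) (hA : Adm α B β) :
    ∃ c : Cfg k n, c.Good α B ∧ c.M B = M ∧ c.ord = c'.ord ∧ c.β = β ∧
      ∀ j, v.At (c'.T j) (c.T j) := by
  obtain ⟨T', T, h1, h2, h3, h4, h5, h6⟩ :=
    cfg_liftU v hα hB h hM hdeg hq h0 hF c'.ord hc'.1 hβv hA
  have h7 : c' = ⟨c'.ord, c'.β, T'⟩ := by
    refine Cfg.ext_sides (B := B') rfl rfl ?_
    refine st_uniqueP ?_ h3 (Cfg.sides_good hc') ?_ ?_
    · intro s hs
      obtain ⟨j, rfl⟩ := Cfg.mem_sides hs
      have h8 : SAt v ((⟨c'.ord, c'.β, T'⟩ : Cfg (Om k) n).side B' j)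
          ((⟨c'.ord, β, T⟩ : Cfg k n).side B j) :=
        ⟨(at_half (hB j).neg).add (hβv j), (at_half (hB j).neg).sub (hβv j), h6 j⟩
      exact h8.nd (Cfg.side_ndU h h4 j)
    · simp only [Cfg.sides, List.map_map]
      refine List.map_congr_left fun a _ => ?_
      simp only [Function.comp_apply, Side.pm, Cfg.side]
    · rw [← Cfg.M_eq, ← Cfg.M_eq, hcM, h2]
  refine ⟨⟨c'.ord, β, T⟩, h4, h5, rfl, rfl, fun j => ?_⟩
  rw [h7]
  exact h6 j

omit [IsAlgClosed k] [CharZero k] in
/-- the values of admissible square roots are admissible if they satisfy the second condition -/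
theorem Adm.of_at (v : Place k (Om k)) {α B β : Fin n → k} {α' B' β' : Fin n → Om k}
    (hα : ∀ j, v.At (α' j) (α j)) (hB : ∀ j, v.At (B' j) (B j)) (hβ : ∀ j, v.At (β' j) (β j))
    (hsq : ∀ j, β' j ^ 2 = α' j ^ 3)
    (h : (∀ i j, i ≠ j → B i ^ 2 * α j ^ 3 ≠ B j ^ 2 * α i ^ 3) ∨
      ∀ i j, β' i * B' j = β' j * B' i) : Adm α B β := by
  refine ⟨fun j => ?_, h.imp id fun h1 i j => ?_⟩
  · have h2 := (hβ j).pow 2
    rw [hsq j] at h2
    exact h2.unique ((hα j).pow 3)
  · have h2 := (hβ i).mul (hB j)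
    rw [h1 i j] at h2
    exact h2.unique ((hβ j).mul (hB i))

end Pool.Agent.TInf
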