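import Pool.Agent.TInf.FZero

/-!
# Several fibre indices
-/

set_option autoImplicit false

noncomputable section

namespace Pool.Agent.TInf

universe u

variable {k : Type u} [Field k] {r n : ℕ} {W : Type*} [AddCommGroup W] [Module ℚ W]

/-- For every fibre index `i`, all linear combinations of the functions of the points with index
`i` given by `G` and constant points with the other indices are class functions. -/
def MultiClass (α B : Fin r → Fin n → k) (G : (Fin r → Fin n → EPt k) → W) : Prop :=
  ∀ (i : Fin r) {A : Type} [Fintype A] (c : A → ℚ) (p : A → Fin r → Fin n → EPt k),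
    ClassFn (α i) (B i) fun q => ∑ a, c a • G (Function.update (p a) i q)

/-- `G` is a class function in the points with index `i` -/
theorem MultiClass.single {α B : Fin r → Fin n → k} {G : (Fin r → Fin n → EPt k) → W}
    (hG : MultiClass α B G) (i : Fin r) (p : Fin r → Fin n → EPt k) :
    ClassFn (α i) (B i) fun q => G (Function.update p i q) := by
  have h := hG i (A := Unit) (fun _ => 1) fun _ => p
  simpa using h

/-- the sum of the values of `G` at the points with the numbers `a i j`, `∑ j, a i j = l i` -/
def MSl (G : (Fin r → Fin n → EPt k) → W) (ζ : k) (α : Fin r → Fin n → k)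
    (s : Fin r → Fin n → Side k) (w : Fin r → Fin n → k) (l : Fin r → ZMod 3) : W :=
  ∑ a : Fin r → Fin n → ZMod 3, if ∀ i, ∑ j, a i j = l i then
    G fun i j => epoint ζ (α i j) (s i j) (w i j) (a i j) else 0

/-- the sum over the points with indices different from `i` -/
def MSo (i : Fin r) (G : (Fin r → Fin n → EPt k) → W) (ζ : k) (α : Fin r → Fin n → k)
    (s : Fin r → Fin n → Side k) (w : Fin r → Fin n → k) (l : Fin r → ZMod 3)
    (q : Fin n → EPt k) : W :=
  ∑ a : Fin r → Fin n → ZMod 3, if a i = 0 ∧ ∀ i', i' ≠ i → ∑ j, a i' j = l i' then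
    G (Function.update (fun i' j => epoint ζ (α i' j) (s i' j) (w i' j) (a i' j)) i q) else 0

omit [Module ℚ W] in
private theorem Multi_sum_update {X : Type*} [Fintype X] [Zero X] [DecidableEq X] (i : Fin r)
    (F : (Fin r → X) → W) :
    ∑ a : Fin r → X, F a = ∑ b : X, ∑ a : Fin r → X, if a i = 0 then F (Function.update a i b)
      else 0 := by
  have h1 : ∀ b : X, (∑ a : Fin r → X, if a i = 0 then F (Function.update a i b) else 0) =
      ∑ a : Fin r → X, if a i = b then F a else 0 := by
    intro b
    rw [← Finset.sum_filter, ← Finset.sum_filter]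
    refine Finset.sum_nbij' (fun a => Function.update a i b) (fun a => Function.update a i 0)
      ?_ ?_ ?_ ?_ ?_
    · intro a _
      simp
    · intro a _
      simp
    · intro a ha
      have ha' : a i = 0 := by simpa using ha
      simp [← ha']
    · intro a ha
      have ha' : a i = b := by simpa using ha
      simp [← ha']
    · intro a _
      rfl
  rw [Finset.sum_congr rfl fun b _ => h1 b, Finset.sum_comm]
  refine Finset.sum_congr rfl fun a _ => ?_
  rw [Finset.sum_ite_eq]
  simp

/-- `a` corresponds to `(update a i 0, a i)` -/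
theorem MSl_eq (i : Fin r) (G : (Fin r → Fin n → EPt k) → W) (ζ : k) (α : Fin r → Fin n → k)
    (s : Fin r → Fin n → Side k) (w : Fin r → Fin n → k) (l : Fin r → ZMod 3) :
    MSl G ζ α s w l = Sl (MSo i G ζ α s w l) ζ (α i) (s i) (w i) (l i) := by
  classical
  unfold MSl Sl
  rw [Multi_sum_update i]
  refine Finset.sum_congr rfl fun b _ => ?_
  by_cases hb : ∑ j, b j = l i
  · rw [if_pos hb]
    unfold MSo
    refine Finset.sum_congr rfl fun a _ => ?_
    by_cases ha : a i = 0
    · rw [if_pos ha]
      have hc : (∀ i', ∑ j, Function.update a i b i' j = l i') ↔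
          (a i = 0 ∧ ∀ i', i' ≠ i → ∑ j, a i' j = l i') := by
        constructor
        · intro h
          refine ⟨ha, fun i' hi' => ?_⟩
          have := h i'
          rwa [Function.update_of_ne hi'] at this
        · rintro ⟨-, h⟩ i'
          by_cases hi' : i' = i
          · subst hi'
            rw [Function.update_self]
            exact hb
          · rw [Function.update_of_ne hi']
            exact h i' hi'
      have hG : (fun i' j => epoint ζ (α i' j) (s i' j) (w i' j) (Function.update a i b i' j)) =
          Function.update (fun i' j => epoint ζ (α i' j) (s i' j) (w i' j) (a i' j)) i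
            (fun j => epoint ζ (α i j) (s i j) (w i j) (b j)) := by
        funext i'
        by_cases hi' : i' = i
        · subst hi'
          rw [Function.update_self, Function.update_self]
        · rw [Function.update_of_ne hi', Function.update_of_ne hi']
      rw [hG]
      exact if_congr hc rfl rfl
    · rw [if_neg ha, if_neg fun h => ha h.1]
  · rw [if_neg hb]
    refine Finset.sum_eq_zero fun a _ => ?_
    split_ifs with h1 h2
    · exfalso
      apply hb
      have := h2 i
      rwa [Function.update_self] at this
    · rfl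
    · rfl

omit [Module ℚ W] in
/-- `MSo i` does not depend on the sides, the roots and `l` for the index `i` -/
theorem MSo_update (i : Fin r) (G : (Fin r → Fin n → EPt k) → W) (ζ : k)
    (α : Fin r → Fin n → k) (s s' : Fin r → Fin n → Side k) (w w' : Fin r → Fin n → k)
    (l l' : Fin r → ZMod 3) (hs : ∀ i', i' ≠ i → s i' = s' i') (hw : ∀ i', i' ≠ i → w i' = w' i')
    (hl : ∀ i', i' ≠ i → l i' = l' i') :
    MSo i G ζ α s w l = MSo i G ζ α s' w' l' := by
  funext q
  unfold MSo
  refine Finset.sum_congr rfl fun a _ => ?_
  have hc : (a i = 0 ∧ ∀ i', i' ≠ i → ∑ j, a i' j = l i') ↔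
      (a i = 0 ∧ ∀ i', i' ≠ i → ∑ j, a i' j = l' i') := by
    refine and_congr_right fun _ => forall_congr' fun i' => ?_
    refine forall_congr' fun hi' => ?_
    rw [hl i' hi']
  have hG : Function.update (fun i' j => epoint ζ (α i' j) (s i' j) (w i' j) (a i' j)) i q =
      Function.update (fun i' j => epoint ζ (α i' j) (s' i' j) (w' i' j) (a i' j)) i q := by
    funext i'
    by_cases hi' : i' = i
    · subst hi'
      rw [Function.update_self, Function.update_self]
    · rw [Function.update_of_ne hi', Function.update_of_ne hi', hs i' hi', hw i' hi']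
  rw [hG]
  exact if_congr hc rfl rfl

/-- sums of class functions are class functions -/
theorem MSo_class {α B : Fin r → Fin n → k} {G : (Fin r → Fin n → EPt k) → W}
    (hG : MultiClass α B G) (i : Fin r) (ζ : k) (s : Fin r → Fin n → Side k)
    (w : Fin r → Fin n → k) (l : Fin r → ZMod 3) :
    ClassFn (α i) (B i) (MSo i G ζ α s w l) := by
  classical
  have h := hG i (A := Fin r → Fin n → ZMod 3)
    (fun a => if a i = 0 ∧ ∀ i', i' ≠ i → ∑ j, a i' j = l i' then 1 else 0)
    fun a i' j => epoint ζ (α i' j) (s i' j) (w i' j) (a i' j)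
  have e : MSo i G ζ α s w l = fun q => ∑ a : Fin r → Fin n → ZMod 3,
      (if a i = 0 ∧ ∀ i', i' ≠ i → ∑ j, a i' j = l i' then (1 : ℚ) else 0) •
        G (Function.update (fun i' j => epoint ζ (α i' j) (s i' j) (w i' j) (a i' j)) i q) := by
    funext q
    unfold MSo
    refine Finset.sum_congr rfl fun a _ => ?_
    by_cases hc : a i = 0 ∧ ∀ i', i' ≠ i → ∑ j, a i' j = l i'
    · rw [if_pos hc, if_pos hc, one_smul]
    · rw [if_neg hc, if_neg hc, zero_smul]
  rw [e]
  exact h

/-- the sums over one coordinate of `l` are zero: `sum_Sl` -/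
theorem sum_MSl [IsAlgClosed k] [CharZero k] {α B : Fin r → Fin n → k}
    {G : (Fin r → Fin n → EPt k) → W} (hG : MultiClass α B G) (hn : 0 < n) {ζ : k}
    (hζ : IsPrimitiveRoot ζ 3) {s : Fin r → Fin n → Side k} {w : Fin r → Fin n → k} (i : Fin r)
    (hs : ∀ j, (s i j).Good) (hB : ∀ j, (s i j).p + (s i j).m = -B i j)
    (hα : ∀ j, ((s i j).p - (s i j).m) ^ 2 = 4 * α i j ^ 3) (hα0 : ∀ j, α i j ≠ 0)
    (hw : ∀ j, w i j ^ 6 = (s i j).V) (l : Fin r → ZMod 3) :
    ∑ x : ZMod 3, MSl G ζ α s w (Function.update l i x) = 0 := by
  have h1 : ∀ x : ZMod 3, MSl G ζ α s w (Function.update l i x) =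
      Sl (MSo i G ζ α s w l) ζ (α i) (s i) (w i) x := by
    intro x
    rw [MSl_eq i, Function.update_self]
    rw [MSo_update i G ζ α s s w w (Function.update l i x) l (fun _ _ => rfl) (fun _ _ => rfl)
      (fun i' hi' => Function.update_of_ne hi' _ _)]
  rw [Finset.sum_congr rfl fun x _ => h1 x]
  exact sum_Sl (MSo_class hG i ζ s w l) hn hζ (s i) hs hB hα (w i) hw

end Pool.Agent.TInf
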