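import Pool.Agent.TInf.Sys
import Pool.Agent.TInf.Multi
import Pool.Agent.TInf.ConfLiftU
import Pool.Agent.TInf.InvU
import Pool.Agent.TInf.Bound

/-!
# The classes of states, and the families: definitions
-/

set_option autoImplicit false

noncomputable section

namespace Pool.Agent.TInf

open Pool.Agent.ZCyc Polynomial
open Pool.Agent.VFP (Om tt)

universe u

section alg

variable {K : Type*} [Field K] {n : ℕ}

/-- `c` is a good configuration with the state `M`, the `w j` are sixth roots of the `V j` with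
product `P`. -/
structure Rw (α B : Fin n → K) (M : Mq K) (P : K) (c : Cfg K n) (w : Fin n → K) : Prop where
  good : c.Good α B
  st : c.M B = M
  w6 : ∀ j, w j ^ 6 = (c.side B j).V
  prod : ∏ j, w j = P

/-- the same with admissible square roots -/
structure Rz (α B : Fin n → K) (M : Mq K) (P : K) (c : Cfg K n) (w : Fin n → K) : Prop
    extends Rw α B M P c w where
  adm : Adm α B c.β

/-- the conditions for states -/
structure IsSt (α B : Fin n → K) (M : Mq K) : Prop where
  deg : M.Deg n
  q : M.q = ∏ j, (C ((B j / 2) ^ 2) - C ((B j / 2) ^ 2 - α j ^ 3) * X)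
  a0 : M.a.eval 0 = ∏ j, (-B j / 2)

/-- the `V` of the closing side -/
def Mq.V0 (M : Mq K) : K := M.a.eval 1 + (M.b.eval 1 - M.c.eval 1) / 2

/-- change of the frame such that the closing side has the coordinate `T` -/
def Mq.fr (M : Mq K) (T : K) : Mq K := M.rot (-(M.c.eval 1) / T)

/-- the coordinate `T` of the closing side with `w = W`, `y = Θ` -/
def Mq.cT (M : Mq K) (Θ W : K) : K := W ^ 6 - M.a.eval 1 + Θ * W ^ 3

/-- `(Ξ, Θ)` is a point of the curve of the closing side, `Ξ = W ² + α / W ²`, where `α` is the product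
of the `α j`. -/
structure Clo (α : Fin n → K) (M : Mq K) (Ξ Θ W : K) : Prop where
  bc : M.b.eval 1 * M.c.eval 1 = ∏ j, α j ^ 3 - M.a.eval 1 ^ 2
  ne : M.b.eval 1 * M.c.eval 1 ≠ 0
  W0 : W ≠ 0
  xi : W ^ 4 - Ξ * W ^ 2 + ∏ j, α j = 0
  th : Θ ^ 2 = Ξ ^ 3 - 3 * (∏ j, α j) * Ξ - 2 * M.a.eval 1

end alg

variable {k : Type u} [Field k] {r n : ℕ} {α B : Fin r → k[X]} {W : Type*} [AddCommGroup W]
  [Module ℚ W]

/-- the sign of a permutation -/
def sgz (o : Equiv.Perm (Fin n)) : ℤ := ((Equiv.Perm.sign o : ℤˣ) : ℤ)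

open Classical in
/-- The class of the configurations with the states `M i` and the products `P i`; it is zero if there
are none. -/
def Psi (Y : Sys k r n α B W) (ζ : k) (s : Fin n → k) (M : Fin r → Mq k) (P : Fin r → k)
    (l : Fin r → ZMod 3) : W :=
  if h : ∃ cw : Fin r → Cfg k n × (Fin n → k),
      ∀ i, Rz (ev (α i) s) (ev (B i) s) (M i) (P i) (cw i).1 (cw i).2 then
    (∏ i, sgz (h.choose i).1.ord) • MSl (Y.F s) ζ (fun i => ev (α i) s)
      (fun i => (h.choose i).1.side (ev (B i) s)) (fun i => (h.choose i).2) l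
  else 0

/-- The class for the points `(_, Θ i)` of the curves of the closing sides, and the `W i`. -/
def GG (Y : Sys k r n α B W) (ζ : k) (s : Fin n → k) (M : Fin r → Mq k) (Θ w : Fin r → k)
    (l : Fin r → ZMod 3) : W :=
  Psi Y ζ s (fun i => (M i).fr ((M i).cT (Θ i) (w i))) w l

/-- The conditions for `s`: the cubics are nondegenerate, and for every `i` either the numbers
`B ² / α ³` are distinct, or the family is isotrivial. -/
structure Gen (α B : Fin r → k[X]) (s : Fin n → k) : Prop where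
  nd : ∀ i, NdU (ev (α i) s) (ev (B i) s)
  iso : ∀ i, (∀ j j', j ≠ j' → ev (B i) s j ^ 2 * ev (α i) s j' ^ 3 ≠
    ev (B i) s j' ^ 2 * ev (α i) s j ^ 3) ∨ ∃ c : k, c ≠ 0 ∧ B i ^ 2 = C c * α i ^ 3

/-- the state over `Om k` with the parameter `τ` -/
def mo (τ : Om k) (A P M G : k[X][X]) : Mq (Om k) :=
  ⟨A.map (aeval τ : k[X] →ₐ[k] Om k).toRingHom, P.map (aeval τ : k[X] →ₐ[k] Om k).toRingHom,
    M.map (aeval τ : k[X] →ₐ[k] Om k).toRingHom, G.map (aeval τ : k[X] →ₐ[k] Om k).toRingHom⟩

open Classical in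
/-- The points of the family with the states `M' i`, the square roots `β' i` and the products `P' i`
(all points are at infinity if there are no configurations). -/
def Pts (ζ : k) (α B : Fin r → k[X]) (S : Fin n → Om k) (M' : Fin r → Mq (Om k))
    (P' : Fin r → Om k) (β' : Fin r → Fin n → Om k) (a : Fin r → Fin n → ZMod 3) :
    Fin r → Fin n → EPt (Om k) :=
  if h : ∃ Tw : Fin r → (Fin n → Om k) × (Fin n → Om k), ∀ i,
      Rw (ev (α i) S) (ev (B i) S) (M' i) (P' i) ⟨1, β' i, (Tw i).1⟩ (Tw i).2 then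
    fun i j => epoint (algebraMap k (Om k) ζ) (ev (α i) S j)
      ((⟨1, β' i, (h.choose i).1⟩ : Cfg (Om k) n).side (ev (B i) S) j) ((h.choose i).2 j) (a i j)
  else fun _ _ => none

end Pool.Agent.TInf
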