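import Pool.Agent.TInf.RotFam
import Pool.Agent.TInf.RotProd

/-!
# The closing side
-/

set_option autoImplicit false

noncomputable section

namespace Pool.Agent.TInf

open Pool.Agent.ZCyc Polynomial
open Pool.Agent.VFP (Om tt)

universe u

variable {k : Type u} [Field k] [IsAlgClosed k] [CharZero k] {n : ℕ} {W : Type*} [AddCommGroup W]
  [Module ℚ W] {α B : Fin n → k} {f : (Fin n → EPt k) → W}

omit [IsAlgClosed k] [Module ℚ W] in
private theorem contr_one {ζ : k} {c : Cfg k n} (hc : c.Good α B) {w : Fin n → k}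
    (hw : ∀ j, w j ^ 6 = (c.side B j).V) (l : ZMod 3) {v : Place k (Om k)} {ρ P : Om k}
    (h1 : v.At ρ 1) (h2 : v.At P (∏ j, w j)) :
    Contr f ζ α B c l v ρ P (Sl f ζ α (c.side B) w l) := by
  have h3 := Contr.good (f := f) (ζ := ζ) (α := α) (B := B) (c := c) (l := l) (v := v) (ρ := ρ)
    (P := P) 1 w h1 one_ne_zero (by rw [Cfg.rotc_one B hc]; exact hc)
    (by rw [Cfg.rotc_one B hc]; exact hw) h2
  rwa [Cfg.rotc_one B hc] at h3

omit [IsAlgClosed k] in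
private theorem prod_w {c : Cfg k n} (hc : c.Good α B) {w : Fin n → k}
    (hw : ∀ j, w j ^ 6 = (c.side B j).V) :
    (∏ j, w j) ^ 6 = (c.M B).a.eval 1 + ((c.M B).b.eval 1 - (c.M B).c.eval 1) / 2 := by
  rw [← prod_VU hc, ← Finset.prod_pow]
  exact Finset.prod_congr rfl fun j _ => hw j

omit [IsAlgClosed k] in
private theorem w_ne {c : Cfg k n} (hc : c.Good α B) {w : Fin n → k}
    (hw : ∀ j, w j ^ 6 = (c.side B j).V) : ∏ j, w j ≠ 0 := by
  refine Finset.prod_ne_zero_iff.2 fun j _ h => ?_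
  obtain ⟨h1, h2, h3⟩ := hc.2 j
  have h4 : (c.side B j).V ≠ 0 := div_ne_zero (mul_ne_zero h2 h3) (mul_ne_zero two_ne_zero h1)
  apply h4
  rw [← hw j, h]
  norm_num

omit [IsAlgClosed k] in
private theorem tt6_ne [IsAlgClosed k] (A : k) : tt k ^ 6 ≠ algebraMap k (Om k) A := by
  intro h
  refine rho_ne (A := A) (b := 0) (c := 0) (ρ := 1) ?_ 1 (by rw [map_one])
  rw [h]
  simp

/-- If `b(1) = 0` or `c(1) = 0` then the class is `0`: `contr_family` with one member. If `b(1) = 0`,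
`c(1) ≠ 0`: `ρ = c(1) / (2 (a(1) - t ^ 6))`; if `b(1) ≠ 0`, `c(1) = 0`: `ρ = 2 (t ^ 6 - a(1)) / b(1)`, and
`P = t`, `c₀ = ∏ w j`, `c₁ = 0`; if `b(1) = c(1) = 0`: `ρ = t`, `P = ∏ w j`, `c₀ = 1`, `c₁ = 0`. -/
theorem Sl_zero_of (hf : ClassFn α B f) {ζ : k} (hζ : IsPrimitiveRoot ζ 3) (h : NdU α B)
    (hn : 0 < n) {c : Cfg k n} (hc : c.Good α B) {w : Fin n → k}
    (hw : ∀ j, w j ^ 6 = (c.side B j).V) (l : ZMod 3)
    (h0 : (c.M B).b.eval 1 = 0 ∨ (c.M B).c.eval 1 = 0) : Sl f ζ α (c.side B) w l = 0 := by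
  have hW := prod_w hc hw
  have hW0 := w_ne hc hw
  have hprod := fun (ρ : Om k) (hρ : ∀ x : k, ρ ≠ algebraMap k (Om k) x) =>
    prod_V_rotc h hc hρ
  have h2k : (2 : k) ≠ 0 := two_ne_zero
  obtain ⟨A, hA⟩ : ∃ A, A = (c.M B).a.eval 1 := ⟨_, rfl⟩
  obtain ⟨b, hb⟩ : ∃ b, b = (c.M B).b.eval 1 := ⟨_, rfl⟩
  obtain ⟨e, he⟩ : ∃ e, e = (c.M B).c.eval 1 := ⟨_, rfl⟩
  obtain ⟨W₀, hW₀⟩ : ∃ W₀, W₀ = ∏ j, w j := ⟨_, rfl⟩
  rw [← hA, ← hb, ← he] at hprod
  rw [← hA, ← hb, ← he, ← hW₀] at hW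
  rw [← hb, ← he] at h0
  rw [← hW₀] at hW0
  -- one member of the family
  have key : ∀ (ρ P : Om k) (c₀ : k), (∀ x : k, ρ ≠ algebraMap k (Om k) x) →
      P ^ 6 = algebraMap k (Om k) A + (ρ * algebraMap k (Om k) b -
        ρ⁻¹ * algebraMap k (Om k) e) / 2 →
      (∀ v : Place k (Om k), v.At (tt k) c₀ → v.At ρ 1 ∧ v.At P W₀) →
      (∀ v : Place k (Om k), v.At (tt k) 0 → v.At ρ 0 ∨ v.At P 0) →
      Sl f ζ α (c.side B) w l = 0 := by
    intro ρ P c₀ hρ hP h₀ h₁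
    refine contr_family hf hζ h hn hc l (R := Unit) (fun _ => ρ) (fun _ => P) (fun _ => hρ)
      (fun _ => ?_) c₀ 0 _ _ (fun v hv => ?_) fun v hv => ?_
    · rw [hprod ρ hρ, hP]
    · obtain ⟨h3, h4⟩ := h₀ v hv
      rw [hW₀] at h4
      exact ⟨fun _ => Sl f ζ α (c.side B) w l, fun _ => contr_one hc hw l h3 h4, by simp⟩
    · refine ⟨fun _ => 0, fun _ => Contr.bad ?_, by simp⟩
      rcases h₁ v hv with h3 | h3
      · exact Or.inl (Or.inr (Or.inl h3))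
      · exact Or.inr h3
  have hnc : ∀ {ρ : Om k}, tt k ^ 6 = algebraMap k (Om k) A + (ρ * algebraMap k (Om k) b -
      ρ⁻¹ * algebraMap k (Om k) e) / 2 → ∀ x : k, ρ ≠ algebraMap k (Om k) x :=
    fun hρ x => rho_ne hρ x
  by_cases hb0 : b = 0
  · by_cases he0 : e = 0
    · -- both are zero
      refine key (tt k) (algebraMap k (Om k) W₀) 1 VFP.tt_ne ?_
        (fun v hv => ⟨hv, Place.at_const W₀⟩) fun v hv => Or.inl hv
      rw [hb0, he0] at hW ⊢
      rw [← map_pow, hW]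
      simp
    · have hden : algebraMap k (Om k) (2 * A) - 2 * tt k ^ 6 ≠ 0 := by
        intro h1
        apply tt6_ne A
        rw [map_mul, map_ofNat] at h1
        linear_combination (-1 / 2 : Om k) * h1
      have hP : tt k ^ 6 = algebraMap k (Om k) A +
          (algebraMap k (Om k) e / (algebraMap k (Om k) (2 * A) - 2 * tt k ^ 6) *
            algebraMap k (Om k) b -
          (algebraMap k (Om k) e / (algebraMap k (Om k) (2 * A) - 2 * tt k ^ 6))⁻¹ *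
            algebraMap k (Om k) e) / 2 := by
        have he' : algebraMap k (Om k) e ≠ 0 := by
          rwa [Ne, map_eq_zero]
        rw [hb0, map_zero, mul_zero, zero_sub, inv_div, div_mul_cancel₀ _ he', map_mul, map_ofNat]
        ring
      refine key _ (tt k) W₀ (hnc hP) hP (fun v hv => ⟨?_, hv⟩) fun v hv => Or.inr hv
      have h3 := (Place.at_const (v := v) e).div ((Place.at_const (v := v) (2 * A)).sub
        ((Place.at_const (v := v) 2).mul (hv.pow 6))) (by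
          rw [hW, hb0]
          have : 2 * A - 2 * (A + (0 - e) / 2) = e := by ring
          rw [this]
          exact he0)
      rw [hW, hb0] at h3
      have h4 : 2 * A - 2 * (A + (0 - e) / 2) = e := by ring
      rw [h4, div_self he0, map_ofNat] at h3
      exact h3
  · have he0 : e = 0 := h0.resolve_left hb0
    have hP : tt k ^ 6 = algebraMap k (Om k) A +
        (algebraMap k (Om k) (2 / b) * (tt k ^ 6 - algebraMap k (Om k) A) *
          algebraMap k (Om k) b -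
        (algebraMap k (Om k) (2 / b) * (tt k ^ 6 - algebraMap k (Om k) A))⁻¹ *
          algebraMap k (Om k) e) / 2 := by
      have hb' : algebraMap k (Om k) (2 / b) * algebraMap k (Om k) b = 2 := by
        rw [← map_mul, div_mul_cancel₀ _ hb0, map_ofNat]
      rw [he0, map_zero, mul_zero, sub_zero, mul_right_comm, hb']
      ring
    refine key _ (tt k) W₀ (hnc hP) hP (fun v hv => ⟨?_, hv⟩) fun v hv => Or.inr hv
    have h3 := (Place.at_const (v := v) (2 / b)).mul ((hv.pow 6).sub (Place.at_const (v := v) A))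
    rw [hW, he0] at h3
    have h4 : 2 / b * (A + (b - 0) / 2 - A) = 1 := by
      field_simp
      ring
    rwa [h4] at h3

/-- The closing side: `ρ' = -c(1) / b(1)`. Let `ρ₁`, `ρ₂` be the roots of
`b(1) X ² + 2 (a(1) - t ^ 6) X - c(1)` over `Om k`, `P = t`; use `contr_family` with two members,
`c₀ = ∏ w j`, `c₁ = 0`, `rot_roots_at`. -/
theorem closing_side (hf : ClassFn α B f) {ζ : k} (hζ : IsPrimitiveRoot ζ 3) (h : NdU α B)
    (hn : 0 < n) {c : Cfg k n} (hc : c.Good α B) {w : Fin n → k}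
    (hw : ∀ j, w j ^ 6 = (c.side B j).V) {l : ZMod 3} (h0 : Sl f ζ α (c.side B) w l ≠ 0) :
    (c.M B).b.eval 1 ≠ 0 ∧ (c.M B).c.eval 1 ≠ 0 ∧ (c.M B).c.eval 1 ≠ -(c.M B).b.eval 1 ∧
      (c.rotc B (-((c.M B).c.eval 1 / (c.M B).b.eval 1))).Good α B ∧
      (c.rotc B (-((c.M B).c.eval 1 / (c.M B).b.eval 1))).M B =
        (c.M B).rot (-((c.M B).c.eval 1 / (c.M B).b.eval 1)) ∧
      ∀ w' : Fin n → k,
        (∀ j, w' j ^ 6 =
          ((c.rotc B (-((c.M B).c.eval 1 / (c.M B).b.eval 1))).side B j).V) →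
        ∏ j, w' j = ∏ j, w j →
        Sl f ζ α ((c.rotc B (-((c.M B).c.eval 1 / (c.M B).b.eval 1))).side B) w' l =
          -Sl f ζ α (c.side B) w l := by
  have hW := prod_w hc hw
  have hW0 := w_ne hc hw
  have hb0 : (c.M B).b.eval 1 ≠ 0 := fun h1 => h0 (Sl_zero_of hf hζ h hn hc hw l (Or.inl h1))
  have he0 : (c.M B).c.eval 1 ≠ 0 := fun h1 => h0 (Sl_zero_of hf hζ h hn hc hw l (Or.inr h1))
  have hM : ∀ κ : k, κ ≠ 0 → (c.rotc B κ).Good α B → (c.rotc B κ).M B = (c.M B).rot κ :=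
    fun κ hκ hg => Cfg.rotc_M hc hκ hg
  have hprod := fun (ρ : Om k) (hρ : ∀ x : k, ρ ≠ algebraMap k (Om k) x) =>
    prod_V_rotc h hc hρ
  obtain ⟨A, hA⟩ : ∃ A, A = (c.M B).a.eval 1 := ⟨_, rfl⟩
  obtain ⟨b, hb⟩ : ∃ b, b = (c.M B).b.eval 1 := ⟨_, rfl⟩
  obtain ⟨e, he⟩ : ∃ e, e = (c.M B).c.eval 1 := ⟨_, rfl⟩
  obtain ⟨W₀, hW₀⟩ : ∃ W₀, W₀ = ∏ j, w j := ⟨_, rfl⟩
  rw [← hA, ← hb, ← he] at hprod
  rw [← hA, ← hb, ← he, ← hW₀] at hW
  rw [← hb] at hb0 ⊢
  rw [← he] at he0 ⊢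
  rw [← hW₀] at hW0
  obtain ⟨κ, hκ⟩ : ∃ κ, κ = -(e / b) := ⟨_, rfl⟩
  have hκ0 : κ ≠ 0 := by
    rw [hκ]
    exact neg_ne_zero.2 (div_ne_zero he0 hb0)
  rw [← hκ]
  -- the roots
  have hb' : algebraMap k (Om k) b ≠ 0 := by rwa [Ne, map_eq_zero]
  have he' : algebraMap k (Om k) e ≠ 0 := by rwa [Ne, map_eq_zero]
  obtain ⟨s, hs⟩ : ∃ s : Om k, s ^ 2 = (tt k ^ 6 - algebraMap k (Om k) A) ^ 2 +
      algebraMap k (Om k) b * algebraMap k (Om k) e :=
    IsAlgClosed.exists_pow_nat_eq _ (by norm_num)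
  obtain ⟨ρ₁, hρ₁⟩ : ∃ ρ : Om k, ρ = (tt k ^ 6 - algebraMap k (Om k) A + s) /
    algebraMap k (Om k) b := ⟨_, rfl⟩
  obtain ⟨ρ₂, hρ₂⟩ : ∃ ρ : Om k, ρ = (tt k ^ 6 - algebraMap k (Om k) A - s) /
    algebraMap k (Om k) b := ⟨_, rfl⟩
  have hsum : algebraMap k (Om k) b * (ρ₁ + ρ₂) = 2 * (tt k ^ 6 - algebraMap k (Om k) A) := by
    rw [hρ₁, hρ₂]
    field_simp
    ring
  have hmul : algebraMap k (Om k) b * (ρ₁ * ρ₂) = -algebraMap k (Om k) e := by
    rw [hρ₁, hρ₂]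
    field_simp
    linear_combination -hs
  have hne : ρ₁ * ρ₂ ≠ 0 := by
    intro h1
    rw [h1, mul_zero] at hmul
    exact he' (neg_eq_zero.1 hmul.symm)
  have h1ne : ρ₁ ≠ 0 := left_ne_zero_of_mul hne
  have h2ne : ρ₂ ≠ 0 := right_ne_zero_of_mul hne
  have hP₁ : tt k ^ 6 = algebraMap k (Om k) A + (ρ₁ * algebraMap k (Om k) b -
      ρ₁⁻¹ * algebraMap k (Om k) e) / 2 := by
    have e1 : ρ₁⁻¹ * algebraMap k (Om k) e = -(algebraMap k (Om k) b * ρ₂) := by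
      rw [inv_mul_eq_iff_eq_mul₀ h1ne]
      linear_combination hmul
    rw [e1]
    linear_combination (-1 / 2 : Om k) * hsum
  have hP₂ : tt k ^ 6 = algebraMap k (Om k) A + (ρ₂ * algebraMap k (Om k) b -
      ρ₂⁻¹ * algebraMap k (Om k) e) / 2 := by
    have e1 : ρ₂⁻¹ * algebraMap k (Om k) e = -(algebraMap k (Om k) b * ρ₁) := by
      rw [inv_mul_eq_iff_eq_mul₀ h2ne]
      linear_combination hmul
    rw [e1]
    linear_combination (-1 / 2 : Om k) * hsum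
  have hc₁ := rho_ne hP₁
  have hc₂ := rho_ne hP₂
  -- the comparison
  have key : ∀ Y : W, (∀ (v : Place k (Om k)) (ρ : Om k), v.At ρ κ → v.At (tt k) W₀ →
      Contr f ζ α B c l v ρ (tt k) Y) → Sl f ζ α (c.side B) w l + Y = 0 := by
    intro Y hY
    refine contr_family hf hζ h hn hc l (R := Fin 2) ![ρ₁, ρ₂] (fun _ => tt k) (fun r => ?_)
      (fun r => ?_) W₀ 0 _ _ (fun v hv => ?_) fun v hv => ?_
    · fin_cases r
      · exact hc₁
      · exact hc₂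
    · fin_cases r
      · exact hP₁.trans (hprod ρ₁ hc₁).symm
      · exact hP₂.trans (hprod ρ₂ hc₂).symm
    · have hv' : v.At (tt k) (∏ j, w j) := hW₀ ▸ hv
      rcases rot_roots_at hb0 hW hsum hmul hv with ⟨h3, h4⟩ | ⟨h3, h4⟩
      · refine ⟨![Sl f ζ α (c.side B) w l, Y], fun r => ?_, by simp [Fin.sum_univ_two]⟩
        fin_cases r
        · exact contr_one hc hw l h3 hv'
        · exact hY v ρ₂ (hκ ▸ h4) hv
      · refine ⟨![Y, Sl f ζ α (c.side B) w l], fun r => ?_, by simp [Fin.sum_univ_two, add_comm]⟩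
        fin_cases r
        · exact hY v ρ₁ (hκ ▸ h3) hv
        · exact contr_one hc hw l h4 hv'
    · refine ⟨fun _ => 0, fun r => Contr.bad (Or.inr hv), by simp⟩
  have hg : (c.rotc B κ).Good α B := by
    by_contra hg
    apply h0
    have h1 := key 0 fun v ρ h3 _ => Contr.bad (Or.inl (Or.inr (Or.inr ⟨κ, h3, hκ0, hg⟩)))
    rwa [add_zero] at h1
  have hκM := hM κ hκ0 hg
  have hval : ∀ w' : Fin n → k, (∀ j, w' j ^ 6 = ((c.rotc B κ).side B j).V) →
      ∏ j, w' j = ∏ j, w j →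
      Sl f ζ α ((c.rotc B κ).side B) w' l = -Sl f ζ α (c.side B) w l := by
    intro w' hw' hp
    have h1 := key (Sl f ζ α ((c.rotc B κ).side B) w' l) fun v ρ h3 h4 =>
      Contr.good κ w' h3 hκ0 hg hw' (by rw [hp, ← hW₀]; exact h4)
    exact (neg_eq_of_add_eq_zero_right h1).symm
  refine ⟨hb0, he0, ?_, hg, hκM, hval⟩
  intro h1
  have hκ1 : κ = 1 := by
    rw [hκ, h1, neg_div, neg_neg, div_self hb0]
  subst hκ1
  have h2 := hval w (by rw [Cfg.rotc_one B hc]; exact hw) rfl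
  rw [Cfg.rotc_one B hc] at h2
  apply h0
  have h3 : (2 : ℚ) • Sl f ζ α (c.side B) w l = 0 := by
    rw [two_smul]
    nth_rewrite 1 [h2]
    exact neg_add_cancel _
  exact (smul_eq_zero.1 h3).resolve_left two_ne_zero

end Pool.Agent.TInf
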