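import Pool.Agent.TInf.FamDefs

/-!
# The algebra of the closing side
-/

set_option autoImplicit false

noncomputable section

namespace Pool.Agent.TInf

open Pool.Agent.ZCyc Polynomial
open Pool.Agent.VFP (Om tt)

universe u

variable {K : Type*} [Field K] [CharZero K] {n : ℕ} {α : Fin n → K} {M : Mq K} {Ξ Θ w : K}

omit [CharZero K] in
private theorem clo_mul_aux (h : Clo α M Ξ Θ w) :
    M.cT Θ w * M.cT Θ (-w) = -(M.b.eval 1 * M.c.eval 1) := by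
  have h1 := h.bc
  have h2 := h.xi
  have h3 := h.th
  have hA : ∏ j, α j ^ 3 = (∏ j, α j) ^ 3 := Finset.prod_pow _ _ _
  rw [hA] at h1
  unfold Mq.cT
  linear_combination (-w ^ 6) * h3 + (w ^ 8 + (Ξ * w ^ 2) ^ 2 + (∏ j, α j) ^ 2 +
    w ^ 4 * (Ξ * w ^ 2) + Ξ * w ^ 2 * (∏ j, α j) - w ^ 4 * (∏ j, α j)) * h2 + h1

omit [CharZero K] in
private theorem clo_ne_aux (h : Clo α M Ξ Θ w) : M.cT Θ w ≠ 0 := by
  intro h0
  have h1 := clo_mul_aux h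
  rw [h0, zero_mul] at h1
  exact h.ne (neg_eq_zero.1 h1.symm)

omit [CharZero K] in
private theorem clo_negW_aux (h : Clo α M Ξ Θ w) : Clo α M Ξ Θ (-w) := by
  refine ⟨h.bc, h.ne, neg_ne_zero.2 h.W0, ?_, h.th⟩
  have h1 := h.xi
  linear_combination h1

/-- `(W ⁶ - a(1)) ² - Θ ² W ⁶ = a(1) ² - α ³`, because `Ξ ³ - 3 α Ξ = W ⁶ + α ³ / W ⁶` -/
theorem Clo.mul (h : Clo α M Ξ Θ w) :
    M.cT Θ w * M.cT Θ (-w) = -(M.b.eval 1 * M.c.eval 1) :=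
  clo_mul_aux h

theorem Clo.cT_ne (h : Clo α M Ξ Θ w) : M.cT Θ w ≠ 0 :=
  clo_ne_aux h

theorem Clo.negW (h : Clo α M Ξ Θ w) : Clo α M Ξ Θ (-w) :=
  clo_negW_aux h

theorem Clo.negΘ (h : Clo α M Ξ Θ w) : Clo α M Ξ (-Θ) w := by
  refine ⟨h.bc, h.ne, h.W0, h.xi, ?_⟩
  have h1 := h.th
  linear_combination h1

theorem cT_neg (M : Mq K) (Θ w : K) : M.cT (-Θ) w = M.cT Θ (-w) := by
  unfold Mq.cT
  ring

omit [CharZero K] in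
private theorem clo_rot_rot (ρ ρ' : K) (M : Mq K) : (M.rot ρ').rot ρ = M.rot (ρ * ρ') := by
  unfold Mq.rot
  congr 1
  · rw [← mul_assoc, ← C_mul]
  · rw [← mul_assoc, ← C_mul, mul_inv]

omit [CharZero K] in
private theorem clo_frb (h : Clo α M Ξ Θ w) :
    (M.fr (M.cT Θ w)).b.eval 1 = M.cT Θ (-w) := by
  have h1 := clo_mul_aux h
  have h2 := clo_ne_aux h
  unfold Mq.fr Mq.rot
  simp only [eval_mul, eval_C]
  rw [div_mul_eq_mul_div, div_eq_iff h2]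
  linear_combination -h1

omit [CharZero K] in
private theorem clo_frc (h : Clo α M Ξ Θ w) :
    (M.fr (M.cT Θ w)).c.eval 1 = -M.cT Θ w := by
  have h2 := clo_ne_aux h
  have h3 : M.c.eval 1 ≠ 0 := right_ne_zero_of_mul h.ne
  unfold Mq.fr Mq.rot
  simp only [eval_mul, eval_C]
  field_simp

/-- `(M.fr T).c(1) = -T`, `(M.fr T).b(1) = T'` with `T T' = -b(1) c(1)`, and `rot ρ (rot ρ' M) =
rot (ρ ρ') M` -/
theorem Clo.fr_flip (h : Clo α M Ξ Θ w) :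
    (M.fr (M.cT Θ w)).b.eval 1 ≠ 0 ∧ (M.fr (M.cT Θ w)).c.eval 1 ≠ 0 ∧
    (M.fr (M.cT Θ w)).rot (-((M.fr (M.cT Θ w)).c.eval 1) / (M.fr (M.cT Θ w)).b.eval 1) =
      M.fr (M.cT Θ (-w)) := by
  have h2 := clo_ne_aux h
  have h3 : M.cT Θ (-w) ≠ 0 := clo_ne_aux (clo_negW_aux h)
  rw [clo_frb h, clo_frc h]
  refine ⟨h3, neg_ne_zero.2 h2, ?_⟩
  rw [neg_neg]
  unfold Mq.fr
  rw [clo_rot_rot]
  congr 1
  field_simp

/-- the closing side has `V = W ⁶` -/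
theorem Clo.V0 (h : Clo α M Ξ Θ w) : (M.fr (M.cT Θ w)).V0 = w ^ 6 := by
  unfold Mq.V0
  rw [clo_frb h, clo_frc h]
  have h1 : (M.fr (M.cT Θ w)).a = M.a := rfl
  rw [h1]
  unfold Mq.cT
  ring

/-- `Θ = Sg₀ / W ³` and `Ξ = W ² + α / W ²` for a state `M` with the closing side `V₀ = W ⁶`,
`Sg₀ = -(b(1) + c(1)) / 2`; `M.cT Θ W = -c(1)`, so `M.fr (M.cT Θ W) = M` -/
theorem clo_of_state (hbc : M.b.eval 1 * M.c.eval 1 = ∏ j, α j ^ 3 - M.a.eval 1 ^ 2)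
    (hne : M.b.eval 1 * M.c.eval 1 ≠ 0) (hw : w ≠ 0) (hV : M.V0 = w ^ 6) :
    Clo α M (w ^ 2 + (∏ j, α j) / w ^ 2) (-(M.b.eval 1 + M.c.eval 1) / 2 / w ^ 3) w ∧
    M.fr (M.cT (-(M.b.eval 1 + M.c.eval 1) / 2 / w ^ 3) w) = M := by
  have hA : ∏ j, α j ^ 3 = (∏ j, α j) ^ 3 := Finset.prod_pow _ _ _
  have hΞ : (w ^ 2 + (∏ j, α j) / w ^ 2) * w ^ 2 = w ^ 4 + ∏ j, α j := by
    rw [add_mul, div_mul_cancel₀ _ (pow_ne_zero 2 hw)]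
    ring
  have hΘ : (-(M.b.eval 1 + M.c.eval 1) / 2 / w ^ 3) * w ^ 3 =
      -(M.b.eval 1 + M.c.eval 1) / 2 := div_mul_cancel₀ _ (pow_ne_zero 3 hw)
  have hbc' := hbc
  rw [hA] at hbc'
  unfold Mq.V0 at hV
  have hc : M.c.eval 1 ≠ 0 := right_ne_zero_of_mul hne
  set Ξ' := w ^ 2 + (∏ j, α j) / w ^ 2
  set Θ' := -(M.b.eval 1 + M.c.eval 1) / 2 / w ^ 3
  set A := ∏ j, α j
  have hcT : M.cT Θ' w = -M.c.eval 1 := by
    unfold Mq.cT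
    rw [hΘ, ← hV]
    ring
  refine ⟨⟨hbc, hne, hw, ?_, ?_⟩, ?_⟩
  · linear_combination -hΞ
  · apply mul_right_cancel₀ (pow_ne_zero 6 hw)
    have e1 : Θ' ^ 2 * w ^ 6 = (M.b.eval 1 + M.c.eval 1) ^ 2 / 4 := by
      have : Θ' ^ 2 * w ^ 6 = (Θ' * w ^ 3) ^ 2 := by ring
      rw [this, hΘ]
      ring
    have e2 : (Ξ' ^ 3 - 3 * A * Ξ' - 2 * M.a.eval 1) * w ^ 6 =
        (Ξ' * w ^ 2) ^ 3 - 3 * A * (Ξ' * w ^ 2) * w ^ 4 - 2 * M.a.eval 1 * w ^ 6 := by ring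
    rw [e1, e2, hΞ]
    have e3 : w ^ 12 = (w ^ 6) ^ 2 := by ring
    have e4 : (w ^ 4 + A) ^ 3 - 3 * A * (w ^ 4 + A) * w ^ 4 - 2 * M.a.eval 1 * w ^ 6 =
        (w ^ 6) ^ 2 + A ^ 3 - 2 * M.a.eval 1 * w ^ 6 := by ring
    rw [e4, ← hV]
    linear_combination hbc'
  · rw [hcT]
    unfold Mq.fr
    rw [div_self (neg_ne_zero.2 hc)]
    unfold Mq.rot
    simp

end Pool.Agent.TInf
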