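import Pool.Agent.TInf.Clo
import Pool.Agent.TInf.FamIsSt

/-!
# The points of the curves of the closing sides over `Om k`
-/

set_option autoImplicit false
set_option linter.unusedSectionVars false

noncomputable section

namespace Pool.Agent.TInf

open Pool.Agent.ZCyc Polynomial
open Pool.Agent.VFP (Om tt)

universe u

variable {k : Type u} [Field k] [IsAlgClosed k] [CharZero k]

private lemma fc_one (v : Place k (Om k)) : v.At (1 : Om k) 1 := by
  have := Place.at_const (v := v) (1 : k)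
  rwa [map_one] at this

private lemma fc_zero (v : Place k (Om k)) : v.At (0 : Om k) 0 :=
  Place.at_zero_iff.2 v.vanishes_zero

private lemma fc_ne {v : Place k (Om k)} {x : Om k} {y : k} (h : v.At x y) (hy : y ≠ 0) :
    x ≠ 0 := by
  rintro rfl
  exact hy (h.unique (fc_zero v))

private lemma fc_cmul {v : Place k (Om k)} {P : (Om k)[X]} {p : k[X]} (h : PAt v P p) {x : Om k}
    {y : k} (hx : v.At x y) : PAt v (C x * P) (C y * p) := fun i => by
  rw [coeff_C_mul, coeff_C_mul]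
  exact hx.mul (h i)

/-- the value of the state with the closing side given by `Θ`, `w` -/
theorem fr_at {v : Place k (Om k)} {M' : Mq (Om k)} {M : Mq k} (hM : MAt v M' M) {Θ' w' : Om k}
    {Θ w : k} (hΘ : v.At Θ' Θ) (hw : v.At w' w) (hc : M.c.eval 1 ≠ 0) (hT : M.cT Θ w ≠ 0) :
    MAt v (M'.fr (M'.cT Θ' w')) (M.fr (M.cT Θ w)) := by
  have hcT : v.At (M'.cT Θ' w') (M.cT Θ w) :=
    ((hw.pow 6).sub (hM.a.eval (fc_one v))).add (hΘ.mul (hw.pow 3))
  have hc1 : v.At (M'.c.eval 1) (M.c.eval 1) := hM.c.eval (fc_one v)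
  have hρ : v.At (-(M'.c.eval 1) / M'.cT Θ' w') (-(M.c.eval 1) / M.cT Θ w) := hc1.neg.div hcT hT
  have hρ0 : -(M.c.eval 1) / M.cT Θ w ≠ 0 := div_ne_zero (neg_ne_zero.2 hc) hT
  exact ⟨hM.a, fc_cmul hM.b hρ, fc_cmul hM.c (hρ.inv hρ0), hM.t⟩

/-- `clo` over `Om k` from the value at one place -/
theorem clo_om {v : Place k (Om k)} {n : ℕ} {α' B' : Fin n → Om k} {M' : Mq (Om k)} {M : Mq k}
    (hst : IsSt α' B' M') (hM : MAt v M' M) (hne : M.b.eval 1 * M.c.eval 1 ≠ 0)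
    {w' : Bool → Om k} {Ξ' Θ' : Om k} (h1 : w' false ^ 2 + w' true ^ 2 = Ξ')
    (h2 : w' false ^ 2 * w' true ^ 2 = ∏ j, α' j) (hα : ∀ j, α' j ≠ 0)
    (hΘ : Θ' ^ 2 = Ξ' ^ 3 - 3 * (∏ j, α' j) * Ξ' - 2 * M'.a.eval 1) (b : Bool) :
    Clo α' M' Ξ' Θ' (w' b) := by
  have hP : ∏ j, α' j ≠ 0 := Finset.prod_ne_zero_iff.2 fun j _ => hα j
  have hw : ∀ b, w' b ≠ 0 := by
    intro b hb
    apply hP
    rw [← h2]
    cases b
    · rw [hb]
      ring
    · rw [hb]
      ring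
  refine ⟨hst.bc, ?_, hw b, ?_, hΘ⟩
  · exact fc_ne ((hM.b.eval (fc_one v)).mul (hM.c.eval (fc_one v))) hne
  · rw [← h1, ← h2]
    cases b <;> ring

end Pool.Agent.TInf
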