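import Pool.Agent.TInf.PsiEq

/-!
# Permutation of the points
-/

set_option autoImplicit false

noncomputable section

namespace Pool.Agent.TInf

open Pool.Agent.ZCyc Polynomial
open Pool.Agent.VFP (Om tt)

universe u

section alg

variable {K : Type*} [Field K] {n : ℕ}

/-- the configuration for the permuted points -/
private def pmc (π : Equiv.Perm (Fin n)) (c : Cfg K n) : Cfg K n :=
  ⟨π⁻¹ * c.ord, c.β ∘ π, c.T ∘ π⟩

private theorem pmc_side (π : Equiv.Perm (Fin n)) (c : Cfg K n) (B : Fin n → K) (j : Fin n) :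
    (pmc π c).side (B ∘ π) j = c.side B (π j) := rfl

private theorem pmc_M (π : Equiv.Perm (Fin n)) (c : Cfg K n) (B : Fin n → K) :
    (pmc π c).M (B ∘ π) = c.M B := by
  unfold Cfg.M
  congr 1
  refine List.map_congr_left fun a _ => ?_
  rw [pmc_side]
  have : π ((pmc π c).ord a) = c.ord a := by
    simp [pmc, Equiv.Perm.mul_apply]
  rw [this]

private theorem pmc_rz (π : Equiv.Perm (Fin n)) {α B : Fin n → K} {M : Mq K} {P : K}
    {c : Cfg K n} {w : Fin n → K} (h : Rz α B M P c w) :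
    Rz (α ∘ π) (B ∘ π) M P (pmc π c) (w ∘ π) where
  good := ⟨fun j => h.good.1 (π j), fun j => h.good.2 (π j)⟩
  st := by
    rw [pmc_M]
    exact h.st
  w6 := fun j => h.w6 (π j)
  prod := by
    rw [← h.prod]
    exact Equiv.prod_comp π w
  adm := by
    refine ⟨fun j => h.adm.1 (π j), h.adm.2.imp (fun h1 i j hij => ?_) fun h1 i j => ?_⟩
    · exact h1 (π i) (π j) fun e => hij (π.injective e)
    · exact h1 (π i) (π j)

private theorem NdU.perm (π : Equiv.Perm (Fin n)) {α B : Fin n → K} (h : NdU α B) :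
    NdU (α ∘ π) (B ∘ π) where
  hα := fun j => h.hα (π j)
  hB := fun j => h.hB (π j)
  disc := fun j => h.disc (π j)
  dist := h.dist.imp (fun h1 i j hij => h1 (π i) (π j) fun e => hij (π.injective e))
    fun h1 i j => h1 (π i) (π j)

end alg

variable {k : Type u} [Field k] [IsAlgClosed k] [CharZero k] {r n : ℕ} {α B : Fin r → k[X]}
  {W : Type*} [AddCommGroup W] [Module ℚ W]

private theorem sgz_mul (a b : Equiv.Perm (Fin n)) : sgz (a * b) = sgz a * sgz b := by
  simp [sgz, Equiv.Perm.sign_mul]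

private theorem sgz_inv_mul (a : Equiv.Perm (Fin n)) : sgz a⁻¹ * sgz a = 1 := by
  rw [← sgz_mul, inv_mul_cancel]
  simp [sgz]

omit [IsAlgClosed k] [CharZero k] in
private theorem MSl_perm (Y : Sys k r n α B W) (ζ : k) (s : Fin n → k) (π : Equiv.Perm (Fin n))
    (σ : Fin r → Fin n → Side k) (w : Fin r → Fin n → k) (l : Fin r → ZMod 3) :
    MSl (Y.F (s ∘ π)) ζ (fun i => ev (α i) (s ∘ π)) (fun i j => σ i (π j)) (fun i => w i ∘ π) l =
      (sgz π ^ r) • MSl (Y.F s) ζ (fun i => ev (α i) s) σ w l := by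
  unfold MSl
  rw [Finset.smul_sum]
  have key := Equiv.sum_comp (Equiv.piCongrRight fun _ : Fin r =>
    (Equiv.arrowCongr π.symm (Equiv.refl (ZMod 3))))
    (fun a : Fin r → Fin n → ZMod 3 => if ∀ i, ∑ j, a i j = l i then
    Y.F (s ∘ π) (fun i j => epoint ζ (ev (α i) (s ∘ π) j) (σ i (π j)) ((w i ∘ π) j) (a i j))
      else 0)
  rw [← key]
  refine Finset.sum_congr rfl fun a _ => ?_
  have e1 : ∀ i, (Equiv.piCongrRight fun _ : Fin r =>
    (Equiv.arrowCongr π.symm (Equiv.refl (ZMod 3)))) a i = a i ∘ π := by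
    intro i
    rfl
  simp only [e1]
  have e2 : (∀ i, ∑ j, (a i ∘ π) j = l i) ↔ ∀ i, ∑ j, a i j = l i := by
    refine forall_congr' fun i => ?_
    have : ∑ j, (a i ∘ π) j = ∑ j, a i j := Equiv.sum_comp π (a i)
    rw [this]
  by_cases h : ∀ i, ∑ j, a i j = l i
  · rw [if_pos (e2.2 h), if_pos h]
    exact Y.perm s (fun i j => epoint ζ (ev (α i) s j) (σ i j) (w i j) (a i j)) π
  · rw [if_neg fun h' => h (e2.1 h'), if_neg h, smul_zero]

/-- Permutation of the points `s j`. If `(c, w)` is a realisation for `s` then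
`⟨(Equiv c.ord, then π⁻¹), c.β ∘ π, c.T ∘ π⟩`, `w ∘ π` is one for `s ∘ π` (the side with label `j` is the
old side with label `π j`, the list of the sides is the same, so the state is the same). By `Y.perm`
the sum `MSl` is multiplied by `sgn(π) ^ r`, and so is the product of the signs. Use `Psi_eq`. -/
theorem Psi_perm (Y : Sys k r n α B W) {ζ : k} (hζ : IsPrimitiveRoot ζ 3) {s : Fin n → k}
    (hs : ∀ i, NdU (ev (α i) s) (ev (B i) s)) (π : Equiv.Perm (Fin n)) (M : Fin r → Mq k)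
    (P : Fin r → k) (l : Fin r → ZMod 3) : Psi Y ζ (s ∘ π) M P l = Psi Y ζ s M P l := by
  classical
  have hs' : ∀ i, NdU (ev (α i) (s ∘ π)) (ev (B i) (s ∘ π)) := fun i => NdU.perm π (hs i)
  by_cases h : ∃ cw : Fin r → Cfg k n × (Fin n → k),
      ∀ i, Rz (ev (α i) s) (ev (B i) s) (M i) (P i) (cw i).1 (cw i).2
  · obtain ⟨cw, hcw⟩ := h
    rw [Psi_eq Y hζ hs hcw l]
    have h2 : ∀ i, Rz (ev (α i) (s ∘ π)) (ev (B i) (s ∘ π)) (M i) (P i) (pmc π (cw i).1)
        ((cw i).2 ∘ π) := fun i => pmc_rz π (hcw i)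
    rw [Psi_eq Y hζ hs' h2 l]
    have h3 := MSl_perm Y ζ s π (fun i => (cw i).1.side (ev (B i) s)) (fun i => (cw i).2) l
    have h4 : (∏ i, sgz (pmc π (cw i).1).ord) = sgz π⁻¹ ^ r * ∏ i, sgz (cw i).1.ord := by
      have : ∀ i, sgz (pmc π (cw i).1).ord = sgz π⁻¹ * sgz (cw i).1.ord := fun i => by
        rw [← sgz_mul]
        rfl
      rw [Finset.prod_congr rfl fun i _ => this i, Finset.prod_mul_distrib, Finset.prod_const,
        Finset.card_univ, Fintype.card_fin]
    rw [h4]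
    refine Eq.trans (congrArg _ h3) ?_
    rw [smul_smul]
    congr 1
    calc sgz π⁻¹ ^ r * (∏ i, sgz (cw i).1.ord) * sgz π ^ r
        = (sgz π⁻¹ * sgz π) ^ r * ∏ i, sgz (cw i).1.ord := by
          rw [mul_pow]
          ring
      _ = _ := by rw [sgz_inv_mul, one_pow, one_mul]
  · have h' : ¬ ∃ cw : Fin r → Cfg k n × (Fin n → k),
      ∀ i, Rz (ev (α i) (s ∘ π)) (ev (B i) (s ∘ π)) (M i) (P i) (cw i).1 (cw i).2 := by
      rintro ⟨cw, hcw⟩
      apply h
      refine ⟨fun i => (pmc π⁻¹ (cw i).1, (cw i).2 ∘ (π⁻¹ : Equiv.Perm (Fin n))), fun i => ?_⟩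
      have h5 := pmc_rz π⁻¹ (hcw i)
      have e1 : ∀ p : k[X], ev p (s ∘ π) ∘ (π⁻¹ : Equiv.Perm (Fin n)) = ev p s := by
        intro p
        funext j
        simp [ev, Function.comp]
      rw [e1, e1] at h5
      exact h5
    rw [Psi, dif_neg h', Psi, dif_neg h]

end Pool.Agent.TInf
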