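import Pool.Agent.TInf.FamDefs

/-!
# The roots of `∏ (X - s j) + τ h` at a pole of `τ`
-/

set_option autoImplicit false

noncomputable section

namespace Pool.Agent.TInf

open Pool.Agent.ZCyc Polynomial
open Pool.Agent.VFP (Om tt)

universe u

variable {k : Type u} [Field k] [IsAlgClosed k] [CharZero k] {n : ℕ}

/-- If `τ` has a pole at `v`, `h ≠ 0`, and `δ` is a zero of `h` but not one of the `s j`, then one of
the roots has the value `δ`: one of the coefficients of the polynomial is not in `v.ring`, so one of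
the roots `S j` is not in `v.ring`, i.e. `(δ - S j)⁻¹` vanishes at `v`. The product of the `δ - S j` is
the value of the polynomial at `δ`, a constant `≠ 0`. If none of the `δ - S j` vanishes at `v`, then all
`(δ - S j)⁻¹` are in `v.ring`, and their product would vanish. -/
theorem S_inf {s : Fin n → k} {h : k[X]} {τ : Om k} {S : Fin n → Om k}
    (hS : (∏ j, (X - C (s j))).map (algebraMap k (Om k)) +
      C τ * h.map (algebraMap k (Om k)) = ∏ j, (X - C (S j))) {v : Place k (Om k)}
    (hτ : τ ∉ v.ring) (hh : h ≠ 0) {δ : k} (hδ : h.eval δ = 0) (hs : ∀ j, s j ≠ δ) :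
    ∃ j, v.At (S j) δ := by
  classical
  by_contra hcon
  push Not at hcon
  set am := algebraMap k (Om k) with ham
  have hev : ∏ j, (am δ - am (s j)) = ∏ j, (am δ - S j) := by
    have h1 := congrArg (Polynomial.eval (am δ)) hS
    rw [Polynomial.eval_add, Polynomial.eval_mul, Polynomial.eval_map, Polynomial.eval_map,
      Polynomial.eval₂_at_apply, Polynomial.eval₂_at_apply, hδ, map_zero, mul_zero, add_zero,
      Polynomial.eval_prod, Polynomial.eval_prod, map_prod] at h1
    simpa using h1
  have hc : ∏ j, (δ - s j) ≠ 0 := Finset.prod_ne_zero_iff.2 fun j _ => sub_ne_zero.2 (hs j).symm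
  have hprod : ∏ j, (am δ - S j) = am (∏ j, (δ - s j)) := by
    rw [← hev, map_prod]
    simp
  have hD : ∀ j, am δ - S j ≠ 0 ∧ (am δ - S j)⁻¹ ∈ v.ring := by
    intro j
    have h1 : ¬ v.Vanishes (am δ - S j) := by
      intro h2
      apply hcon j
      have h3 := h2.neg
      rw [neg_sub] at h3
      exact h3
    rw [Place.vanishes_iff_or] at h1
    push Not at h1
    exact h1
  have hDm : ∀ j, am δ - S j ∈ v.ring := by
    intro j
    have h1 : am δ - S j = am (∏ j, (δ - s j)) * ∏ i ∈ Finset.univ.erase j, (am δ - S i)⁻¹ := by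
      rw [← hprod, ← Finset.mul_prod_erase Finset.univ _ (Finset.mem_univ j), mul_assoc,
        ← Finset.prod_mul_distrib, Finset.prod_eq_one, mul_one]
      intro i _
      exact mul_inv_cancel₀ (hD i).1
    rw [h1]
    exact mul_mem (v.const_mem _) (prod_mem fun i _ => (hD i).2)
  have hSm : ∀ j, S j ∈ v.ring := by
    intro j
    have h1 := sub_mem (v.const_mem δ) (hDm j)
    rwa [sub_sub_cancel] at h1
  have hcoef : ∀ m, (∏ j, (X - C (S j))).coeff m ∈ v.ring := by
    intro m
    have h1 : ∏ j, (X - C (S j)) =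
        (∏ j, (X - C (⟨S j, hSm j⟩ : v.ring))).map v.ring.subtype := by
      rw [Polynomial.map_prod]
      refine Finset.prod_congr rfl fun j _ => ?_
      simp
    rw [h1, Polynomial.coeff_map]
    exact (((∏ j, (X - C (⟨S j, hSm j⟩ : v.ring))).coeff m) : v.ring).2
  apply hτ
  have h1 := congrArg (fun p => Polynomial.coeff p h.natDegree) hS
  simp only [Polynomial.coeff_add, Polynomial.coeff_C_mul, Polynomial.coeff_map] at h1
  have h2 : h.coeff h.natDegree ≠ 0 := by
    rw [Polynomial.coeff_natDegree]
    exact Polynomial.leadingCoeff_ne_zero.2 hh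
  have h3 : am (h.coeff h.natDegree) ≠ 0 := by
    rw [ham, Ne, map_eq_zero_iff _ (FaithfulSMul.algebraMap_injective k (Om k))]
    exact h2
  have h4 : τ = ((∏ j, (X - C (S j))).coeff h.natDegree -
      am ((∏ j, (X - C (s j))).coeff h.natDegree)) * am (h.coeff h.natDegree)⁻¹ := by
    rw [← h1, add_sub_cancel_left, map_inv₀, mul_assoc, mul_inv_cancel₀ h3, mul_one]
  rw [h4]
  exact mul_mem (sub_mem (hcoef _) (v.const_mem _)) (v.const_mem _)

end Pool.Agent.TInf
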