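import Pool.Agent.TInf.Defs

/-!
# The algebra of states

`pull s` is the inverse of `push s` up to the factor `b ² - D θ`, `b = (p + m) / 2`, `D = p m`.
-/

set_option autoImplicit false

noncomputable section

namespace Pool.Agent.TInf

open Polynomial

variable {K : Type*} [Field K]

/-- `(p + m) / 2` -/
def Side.b (s : Side K) : K := (s.p + s.m) / 2

/-- `(p - m) / 2` -/
def Side.g (s : Side K) : K := (s.p - s.m) / 2

/-- `p m` -/
def Side.D (s : Side K) : K := s.p * s.m

/-- the zero `b ² / D` of `b ² - D θ` -/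
def Side.th (s : Side K) : K := s.b ^ 2 / s.D

/-- `b ² - D θ` -/
def Side.r (s : Side K) : K[X] := C (s.b ^ 2) - C s.D * X

/-- multiplication of all entries by a polynomial -/
def Mq.mul (r : K[X]) (M : Mq K) : Mq K := ⟨r * M.a, r * M.b, r * M.c, r * M.t⟩

/-- `(b ² - D θ)` times the inverse of `push s` -/
def pull (s : Side K) (M : Mq K) : Mq K where
  a := C s.b * M.a - X * (C (s.T / 2) * M.b - C (s.D / (2 * s.T)) * M.c)
  b := C ((s.T + s.p) / (s.T + s.m)) * (-(C s.m * M.a) + C (s.T / 2) * M.b -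
    C (s.m ^ 2 / (2 * s.T)) * M.c + (1 - X) * C s.m * M.t)
  c := C ((s.T + s.m) / (s.T + s.p)) * (C s.p * M.a - C (s.T / 2) * M.b +
    C (s.p ^ 2 / (2 * s.T)) * M.c + (1 - X) * C s.p * M.t)
  t := -(C (s.T / 2) * M.b) - C (s.D / (2 * s.T)) * M.c + C s.g * M.t

lemma mapC_eq {x y : K} (h : x = y) : (C x : K[X]) = C y := by rw [h]

variable [CharZero K]

theorem pull_push {s : Side K} (hs : s.Good) (M : Mq K) : pull s (push s M) = Mq.mul s.r M := by
  obtain ⟨h0, h1, h2⟩ := hs
  apply Mq.ext <;> refine Polynomial.funext fun x => ?_ <;>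
    simp only [pull, push, Mq.mul, Side.r, Side.b, Side.g, Side.D, eval_add, eval_sub, eval_mul,
      eval_C, eval_X, eval_neg, eval_one] <;> field_simp <;> ring

theorem push_pull {s : Side K} (hs : s.Good) (M : Mq K) : push s (pull s M) = Mq.mul s.r M := by
  obtain ⟨h0, h1, h2⟩ := hs
  apply Mq.ext <;> refine Polynomial.funext fun x => ?_ <;>
    simp only [pull, push, Mq.mul, Side.r, Side.b, Side.g, Side.D, eval_add, eval_sub, eval_mul,
      eval_C, eval_X, eval_neg, eval_one] <;> field_simp <;> ring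

theorem q_push {s : Side K} (hs : s.Good) (M : Mq K) : (push s M).q = s.r * M.q := by
  obtain ⟨h0, h1, h2⟩ := hs
  refine Polynomial.funext fun x => ?_
  simp only [push, Mq.q, Side.r, Side.b, Side.D, eval_add, eval_sub, eval_mul,
      eval_C, eval_X, eval_neg, eval_one, eval_pow]
  field_simp
  ring

theorem q_pull {s : Side K} (hs : s.Good) (M : Mq K) : (pull s M).q = s.r * M.q := by
  obtain ⟨h0, h1, h2⟩ := hs
  refine Polynomial.funext fun x => ?_
  simp only [pull, Mq.q, Side.r, Side.b, Side.g, Side.D, eval_add, eval_sub, eval_mul,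
      eval_C, eval_X, eval_neg, eval_one, eval_pow]
  field_simp
  ring

end Pool.Agent.TInf
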