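import Pool.Agent.TInf.Defs

/-!
# Orderings and signs are generated by adjacent transpositions and one change of sign
-/

set_option autoImplicit false

noncomputable section

namespace Pool.Agent.TInf

/-- A property of the pairs (ordering, square roots) which is preserved when the labels at two
adjacent places are exchanged and when the sign of the square root with the label at the last place
is changed holds for all orderings and choices of signs if it holds for one. (Adjacent transpositions
generate `Equiv.Perm (Fin n)`: `Equiv.Perm.mclosure_swap_castSucc_succ`. To change the sign for the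
label `j` first use transpositions to get `j` to the last place.) -/
theorem arr_induction {K : Type*} [Field K] {n : ℕ} (P : Equiv.Perm (Fin n) → (Fin n → K) → Prop)
    (hswap : ∀ (o : Equiv.Perm (Fin n)) (β : Fin n → K) (a b : Fin n), a.val + 1 = b.val →
      P o β → P (o * Equiv.swap a b) β)
    (hflip : ∀ (o : Equiv.Perm (Fin n)) (β : Fin n → K) (a : Fin n), a.val + 1 = n →
      P o β → P o (Function.update β (o a) (-β (o a))))
    (o : Equiv.Perm (Fin n)) (β : Fin n → K) (h : P o β) (o' : Equiv.Perm (Fin n))
    (β' : Fin n → K) (hβ : ∀ j, β' j = β j ∨ β' j = -β j) : P o' β' := by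
  classical
  rcases n with _ | m
  · have h1 : o' = o := Subsingleton.elim _ _
    have h2 : β' = β := funext fun j => j.elim0
    rw [h1, h2]
    exact h
  -- all orderings
  have hall : ∀ g : Equiv.Perm (Fin (m + 1)), ∀ (o : Equiv.Perm (Fin (m + 1)))
      (β : Fin (m + 1) → K), P o β → P (o * g) β := by
    intro g
    have hg : g ∈ Submonoid.closure
        (Set.range fun i : Fin m => Equiv.swap i.castSucc i.succ) := by
      rw [Equiv.Perm.mclosure_swap_castSucc_succ]
      exact Submonoid.mem_top g
    refine Submonoid.closure_induction (motive := fun g _ => ∀ (o : Equiv.Perm (Fin (m + 1)))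
      (β : Fin (m + 1) → K), P o β → P (o * g) β) ?_ ?_ ?_ hg
    · rintro _ ⟨i, rfl⟩ o β h
      exact hswap o β _ _ (by simp) h
    · intro o β h
      rwa [mul_one]
    · intro x y _ _ hx hy o β h
      rw [← mul_assoc]
      exact hy _ _ (hx _ _ h)
  have hall' : ∀ (o o' : Equiv.Perm (Fin (m + 1))) (β : Fin (m + 1) → K), P o β → P o' β := by
    intro o o' β h
    have h1 := hall (o⁻¹ * o') o β h
    rwa [mul_inv_cancel_left] at h1
  -- one sign
  have hflip' : ∀ (o : Equiv.Perm (Fin (m + 1))) (β : Fin (m + 1) → K) (j : Fin (m + 1)),
      P o β → P o (Function.update β j (-β j)) := by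
    intro o β j h
    have h1 : (o * Equiv.swap (Fin.last m) (o⁻¹ j)) (Fin.last m) = j := by
      rw [Equiv.Perm.mul_apply, Equiv.swap_apply_left, ← Equiv.Perm.mul_apply, mul_inv_cancel,
        Equiv.Perm.one_apply]
    have h2 := hflip (o * Equiv.swap (Fin.last m) (o⁻¹ j)) β (Fin.last m) (by simp)
      (hall' _ _ _ h)
    rw [h1] at h2
    exact hall' _ _ _ h2
  -- all signs
  have hset : ∀ s : Finset (Fin (m + 1)), P o (fun j => if j ∈ s then β' j else β j) := by
    intro s
    induction s using Finset.induction_on with
    | empty => simpa using h
    | insert j s hj ih =>
        rcases hβ j with h1 | h1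
        · have e : (fun i => if i ∈ insert j s then β' i else β i) =
              fun i => if i ∈ s then β' i else β i := by
            funext i
            by_cases hi : i = j
            · subst hi
              simp [hj, h1]
            · simp [Finset.mem_insert, hi]
          rw [e]
          exact ih
        · have e : (fun i => if i ∈ insert j s then β' i else β i) =
              Function.update (fun i => if i ∈ s then β' i else β i) j
                (-(if j ∈ s then β' j else β j)) := by
            funext i
            by_cases hi : i = j
            · subst hi
              simp [hj, h1]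
            · simp [Finset.mem_insert, hi]
          rw [e]
          exact hflip' _ _ _ ih
  have hfin := hset Finset.univ
  simp only [Finset.mem_univ, if_true] at hfin
  exact hall' _ _ _ hfin

end Pool.Agent.TInf
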