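import Pool.Agent.TInf.Sys
import Pool.Agent.TInf.MoveAlg
import Pool.Agent.VFP.Value

/-!
# Moving one point
-/

set_option autoImplicit false

noncomputable section

namespace Pool.Agent.TInf

open Pool.Agent.ZCyc Polynomial
open Pool.Agent.VFP (Om tt)

universe u

variable {k : Type u} [Field k] [IsAlgClosed k] [CharZero k] {r n : ℕ} {α B : Fin r → k[X]}
  {W : Type*} [AddCommGroup W] [Module ℚ W]

omit [IsAlgClosed k] [CharZero k] in
/-- changing the signs of the points with index `j` -/
private theorem mv_sign (S : Sys k r n α B W) (s : Fin n → k) (p : Fin r → Fin n → EPt k)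
    (j : Fin n) (x y : Fin r → k) (hp : ∀ i, p i j = some (x i, y i)) (ε : Fin r → ℤˣ)
    (A : Finset (Fin r)) :
    S.F s (fun i => Function.update (p i) j
      (some (x i, if i ∈ A then ((ε i : ℤ) : k) * y i else y i))) =
      ((∏ i ∈ A, ε i : ℤˣ) : ℤ) • S.F s p := by
  classical
  induction A using Finset.induction_on with
  | empty =>
    have e : (fun i => Function.update (p i) j
        (some (x i, if i ∈ (∅ : Finset (Fin r)) then ((ε i : ℤ) : k) * y i else y i))) = p := by
      funext i
      rw [if_neg (Finset.notMem_empty i), ← hp i, Function.update_eq_self]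
    rw [e, Finset.prod_empty, Units.val_one, one_smul]
  | insert a A ha ih =>
    rw [Finset.prod_insert ha]
    have h1 := S.odd s (fun i => Function.update (p i) j
      (some (x i, if i ∈ A then ((ε i : ℤ) : k) * y i else y i))) a j (x a) (y a)
      (by rw [Function.update_self, if_neg ha])
    rcases Int.units_eq_one_or (ε a) with h | h
    · rw [h, one_mul, ← ih]
      congr 1
      funext i
      by_cases hi : i = a
      · subst hi
        rw [if_pos (Finset.mem_insert_self _ _), if_neg ha, h, Units.val_one, Int.cast_one,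
          one_mul]
      · have e : i ∈ insert a A ↔ i ∈ A := by
          rw [Finset.mem_insert]
          exact ⟨fun h => h.resolve_left hi, Or.inr⟩
        simp only [e]
    · rw [h, neg_mul, one_mul, Units.val_neg, neg_smul, ← ih, ← h1]
      congr 1
      funext i
      by_cases hi : i = a
      · subst hi
        rw [if_pos (Finset.mem_insert_self _ _), Function.update_self, Function.update_idem, h,
          Units.val_neg, Units.val_one, Int.cast_neg, Int.cast_one, neg_one_mul]
      · have e : i ∈ insert a A ↔ i ∈ A := by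
          rw [Finset.mem_insert]
          exact ⟨fun h => h.resolve_left hi, Or.inr⟩
        rw [Function.update_of_ne hi]
        simp only [e]

/-- constant points -/
private def mvc (P : EPt k) : EPt (Om k) :=
  Option.map (fun z : k × k => (algebraMap k (Om k) z.1, algebraMap k (Om k) z.2)) P

omit [IsAlgClosed k] [CharZero k] in
private theorem mv_on {s : Fin n → k} {p : Fin r → Fin n → EPt k} (hp : OnS α B s p) (j : Fin n)
    (ρ : Om k) (x y : Fin r → Om k)
    (h : ∀ i, y i ^ 2 = x i ^ 3 - 3 * aeval ρ (α i) * x i + aeval ρ (B i)) :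
    OnS α B (Function.update (fun j' => algebraMap k (Om k) (s j')) j ρ)
      (fun i => Function.update (fun j' => mvc (p i j')) j (some (x i, y i))) := by
  intro i j'
  by_cases hj : j' = j
  · subst hj
    simp only [ev, Function.update_self]
    exact h i
  · simp only [ev, Function.update_of_ne hj]
    have h1 := hp i j'
    unfold ev at h1
    rw [aeval_algebraMap_apply, aeval_algebraMap_apply]
    rcases hq : p i j' with _ | ⟨a, b⟩
    · trivial
    · rw [hq] at h1
      have h2 : b ^ 2 = a ^ 3 - 3 * aeval (s j') (α i) * a + aeval (s j') (B i) := h1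
      show (algebraMap k (Om k) b) ^ 2 = (algebraMap k (Om k) a) ^ 3 -
        3 * algebraMap k (Om k) (aeval (s j') (α i)) * algebraMap k (Om k) a +
        algebraMap k (Om k) (aeval (s j') (B i))
      rw [← map_pow, h2]
      simp only [map_add, map_sub, map_mul, map_pow, map_ofNat]

omit [IsAlgClosed k] [CharZero k] in
private theorem mv_at {v : Place k (Om k)} {ρ : Om k} {c : k} (h : v.At ρ c) (s : Fin n → k)
    (j j' : Fin n) : v.At (Function.update (fun j' => algebraMap k (Om k) (s j')) j ρ j')
      (Function.update s j c j') := by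
  by_cases hj : j' = j
  · subst hj
    rw [Function.update_self, Function.update_self]
    exact h
  · rw [Function.update_of_ne hj, Function.update_of_ne hj]
    exact Place.at_const _

/-- the values of a family -/
private theorem mv_val {v : Place k (Om k)} {S : Fin n → Om k} {P : Fin r → Fin n → EPt (Om k)}
    (hS : OnS α B S P) {s : Fin n → k} (hs : ∀ j, v.At (S j) (s j)) :
    ∃ q : Fin r → Fin n → EPt k, (∀ i j, EVal v (P i j) (q i j)) ∧ OnS α B s q := by
  have h1 : ∀ i j, ∃ q, EVal v (P i j) q := fun i j =>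
    evalue_exists v (VFP.at_evalc (hs j) (α i)).mem (VFP.at_evalc (hs j) (B i)).mem (hS i j)
  choose q hq using h1
  exact ⟨q, hq, fun i j =>
    evalue_on (VFP.at_evalc (hs j) (α i)) (VFP.at_evalc (hs j) (B i)) (hS i j) (hq i j)⟩

omit [IsAlgClosed k] [CharZero k] in
/-- a class with a point of order two -/
private theorem mv_two (S : Sys k r n α B W) (s : Fin n → k) (p : Fin r → Fin n → EPt k)
    (i : Fin r) (j : Fin n) (x : k) (hp : p i j = some (x, 0)) : S.F s p = 0 := by
  have h := S.odd s p i j x 0 hp
  rw [neg_zero, ← hp, Function.update_eq_self, Function.update_eq_self] at h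
  have h1 : (2 : ℚ) • S.F s p = 0 := by
    rw [two_smul]
    nth_rewrite 2 [h]
    exact add_neg_cancel _
  exact (smul_eq_zero.1 h1).resolve_left two_ne_zero

/-- the multiplicity of a root -/
private theorem mv_count {K : Type*} [Field K] [DecidableEq K] {m : ℕ} {R : K[X]} {c : K}
    (hc : c ≠ 0) {r : Fin m → K} (h : R = C c * ∏ i, (X - C (r i))) (z : K) :
    R.roots.count z = (Finset.univ.filter fun i => r i = z).card := by
  have e : R.roots = Multiset.map r Finset.univ.val := by
    rw [h, roots_C_mul _ hc]
    have : ∏ i, (X - C (r i)) =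
        (Multiset.map (fun a => X - C a) (Multiset.map r Finset.univ.val)).prod := by
      rw [Multiset.map_map]
      rfl
    rw [this, roots_multiset_prod_X_sub_C]
  rw [e, Multiset.count_map, Finset.card_def, Finset.filter_val]
  congr 1
  exact Multiset.filter_congr fun i _ => eq_comm

omit [CharZero k] in
/-- roots of a product of squares with given product -/
private theorem mv_sqrt {K : Type*} [Field K] [IsAlgClosed K] (hr : 0 < r) (c : Fin r → K) (g : K)
    (h : ∏ i, c i = g ^ 2) : ∃ y : Fin r → K, (∀ i, y i ^ 2 = c i) ∧ ∏ i, y i = g := by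
  classical
  have h1 : ∀ i, ∃ y, y ^ 2 = c i := fun i => IsAlgClosed.exists_pow_nat_eq (c i) two_pos
  choose y hy using h1
  have h2 : (∏ i, y i) ^ 2 = g ^ 2 := by
    rw [← Finset.prod_pow, ← h]
    exact Finset.prod_congr rfl fun i _ => hy i
  rcases sq_eq_sq_iff_eq_or_eq_neg.1 h2 with h3 | h3
  · exact ⟨y, hy, h3⟩
  · refine ⟨Function.update y ⟨0, hr⟩ (-y ⟨0, hr⟩), ?_, ?_⟩
    · intro i
      by_cases hi : i = ⟨0, hr⟩
      · subst hi
        rw [Function.update_self, neg_sq, hy]
      · rw [Function.update_of_ne hi, hy]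
    · rw [Finset.prod_update_of_mem (Finset.mem_univ _), neg_mul,
        Finset.prod_eq_mul_prod_sdiff_singleton_of_mem (Finset.mem_univ (⟨0, hr⟩ : Fin r)) y] at *
      rw [h3, neg_neg]

/-- If some `p i j = ∞` use `inf`; if some `y i = 0` then `F = -F` by `odd`. Otherwise take `H`, `G` of
`exists_move` for `s j`, `x i`, `y i`, and over `Om k` the roots `ρ e`, `e < 6 n`, of
`t ^ 2 G ^ 2 - ∏ cub i` (`t = tt k`), where `cub i = H i ^ 3 - 3 α i H i + B i`; the point over `ρ e`
has the coordinates `H i (ρ e)` and square roots `Y i` of `cub i (ρ e)` with `∏ Y i = t G (ρ e)`; the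
points with indices `j' ≠ j` are constant. At a place with `t = 1` the `ρ e` have as values the roots
of `G ^ 2 - ∏ cub i` (`move_roots_at`). For a root `≠ s j` the class is zero by `H`. For a root `= s j` the
values of the `Y i` are `± y i` with product `∏ y i`, so the class is `F s p`. The number `m` of these
roots is the multiplicity of the root `s j` and not zero. At a place with `t = 0` the values of the
`ρ e` are roots of `∏ cub i`, some `Y i` has the value `0`, and the class is zero. So
`m • F s p = 0`. -/
theorem Sys.move (S : Sys k r n α B W) {d : Fin r → ℕ} (hn : 0 < n) (hd : ∑ i, d i = 2 * n)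
    (hα : ∀ i, (α i).natDegree ≤ 2 * d i) (hB : ∀ i, (B i).natDegree ≤ 3 * d i) (j : Fin n)
    (Z : Finset k) (s : Fin n → k) (p : Fin r → Fin n → EPt k) (hp : OnS α B s p)
    (H : ∀ c, c ∉ Z → ∀ q, OnS α B (Function.update s j c) q → S.F (Function.update s j c) q = 0) :
    S.F s p = 0 := by
  classical
  by_cases hnone : ∃ i, p i j = none
  · obtain ⟨i, hi⟩ := hnone
    exact S.inf s p i j hi
  have hsome : ∀ i, ∃ z : k × k, p i j = some z := by
    intro i
    rcases hz : p i j with _ | z
    · exact absurd ⟨i, hz⟩ hnone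
    · exact ⟨z, rfl⟩
  choose z hz using hsome
  obtain ⟨x, hx⟩ : ∃ x : Fin r → k, ∀ i, x i = (z i).1 := ⟨_, fun _ => rfl⟩
  obtain ⟨y, hy⟩ : ∃ y : Fin r → k, ∀ i, y i = (z i).2 := ⟨_, fun _ => rfl⟩
  have hpj : ∀ i, p i j = some (x i, y i) := by
    intro i
    rw [hz i, hx, hy]
  by_cases hy0' : ∃ i, y i = 0
  · obtain ⟨i, hi⟩ := hy0'
    exact mv_two S s p i j (x i) (by rw [hpj, hi])
  have hy0 : ∀ i, y i ≠ 0 := fun i h => hy0' ⟨i, h⟩
  have hr : 0 < r := by
    rcases Nat.eq_zero_or_pos r with h | h
    · subst h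
      rw [Finset.univ_eq_empty, Finset.sum_empty] at hd
      omega
    · exact h
  have hcub : ∀ i, y i ^ 2 = x i ^ 3 - 3 * (α i).eval (s j) * x i + (B i).eval (s j) := by
    intro i
    have h := hp i j
    rw [hpj i] at h
    unfold ev at h
    simp only [coe_aeval_eq_eval] at h
    exact h
  obtain ⟨Hp, G, hH, hG, hGd, hPd, hPc, hRc, hZ⟩ :=
    exists_move hn hd hα hB (s j) x y hcub hy0 Z
  set Pc : k[X] := ∏ i, (Hp i ^ 3 - 3 * α i * Hp i + B i) with hPdef
  set t := tt k with ht
  set R' : (Om k)[X] := C (t ^ 2) * (G.map (algebraMap k (Om k))) ^ 2 -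
    Pc.map (algebraMap k (Om k)) with hR'
  have hco : ∀ e, R'.coeff e = t ^ 2 * algebraMap k (Om k) ((G ^ 2).coeff e) -
      algebraMap k (Om k) (Pc.coeff e) := by
    intro e
    rw [hR', coeff_sub, coeff_C_mul, ← Polynomial.map_pow, coeff_map, coeff_map]
  have hR'd : R'.natDegree ≤ 6 * n := by
    rw [hR', ← Polynomial.map_pow]
    refine (natDegree_sub_le _ _).trans (max_le ?_ ?_)
    · refine (natDegree_C_mul_le _ _).trans (natDegree_map_le.trans ?_)
      refine natDegree_pow_le.trans ?_
      omega
    · exact natDegree_map_le.trans hPd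
  have hR'c : R'.coeff (6 * n) ≠ 0 := by
    rw [hco]
    intro h0
    have htr := VFP.tt_transc (k := k)
    have h1 : IsAlgebraic k (t ^ 2 * algebraMap k (Om k) ((G ^ 2).coeff (6 * n))) := by
      rw [sub_eq_zero.1 h0]
      exact isAlgebraic_algebraMap _
    by_cases hg : (G ^ 2).coeff (6 * n) = 0
    · rw [hg, map_zero, mul_zero, zero_sub, neg_eq_zero, map_eq_zero] at h0
      exact hPc h0
    · have h2 : IsAlgebraic k (t ^ 2) := by
        have h3 := h1.mul (isAlgebraic_algebraMap (R := k) (A := Om k)
          ((G ^ 2).coeff (6 * n))⁻¹)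
        rw [mul_assoc, ← map_mul, mul_inv_cancel₀ hg, map_one, mul_one] at h3
        exact h3
      exact htr (IsAlgebraic.of_pow two_pos h2)
  obtain ⟨ρ, hρ⟩ := move_exists_roots hR'd hR'c
  have hroot : ∀ e, R'.eval (ρ e) = 0 := by
    intro e
    rw [hρ, eval_mul, eval_prod, Finset.prod_eq_zero (Finset.mem_univ e) (by simp), mul_zero]
  have hev : ∀ e, ∏ i, (aeval (ρ e) (Hp i) ^ 3 - 3 * aeval (ρ e) (α i) * aeval (ρ e) (Hp i) +
      aeval (ρ e) (B i)) = (t * aeval (ρ e) G) ^ 2 := by
    intro e
    have h := hroot e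
    rw [hR', eval_sub, eval_mul, eval_C, eval_pow, eval_map_algebraMap, eval_map_algebraMap,
      hPdef, map_prod, sub_eq_zero] at h
    rw [mul_pow, h]
    refine Finset.prod_congr rfl fun i _ => ?_
    simp only [map_add, map_sub, map_mul, map_pow, map_ofNat]
  have hY : ∀ e, ∃ Y : Fin r → Om k, (∀ i, Y i ^ 2 = aeval (ρ e) (Hp i) ^ 3 -
      3 * aeval (ρ e) (α i) * aeval (ρ e) (Hp i) + aeval (ρ e) (B i)) ∧
      ∏ i, Y i = t * aeval (ρ e) G := fun e => mv_sqrt hr _ _ (hev e)
  choose Y hY2 hYp using hY
  set SS : Fin (6 * n) → Fin n → Om k := fun e =>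
    Function.update (fun j' => algebraMap k (Om k) (s j')) j (ρ e) with hSS
  set PP : Fin (6 * n) → Fin r → Fin n → EPt (Om k) := fun e i =>
    Function.update (fun j' => mvc (p i j')) j (some (aeval (ρ e) (Hp i), Y e i)) with hPP
  have hon : ∀ e, OnS α B (SS e) (PP e) := fun e => mv_on hp j (ρ e) _ _ (hY2 e)
  -- values of the cubics
  have hcat : ∀ (v : Place k (Om k)) (e : Fin (6 * n)) (c : k), v.At (ρ e) c → ∀ i,
      ∃ y' : k, v.At (Y e i) y' ∧ y' ^ 2 = (Hp i ^ 3 - 3 * α i * Hp i + B i).eval c := by
    intro v e c hc i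
    refine VFP.exists_sq_at (f := aeval (ρ e) (Hp i ^ 3 - 3 * α i * Hp i + B i)) ?_ ?_
    · rw [hY2]
      simp only [map_add, map_sub, map_mul, map_pow, map_ofNat]
    · have h := VFP.at_evalc hc (Hp i ^ 3 - 3 * α i * Hp i + B i)
      rwa [coe_aeval_eq_eval] at h
  set m : ℕ := (G ^ 2 - Pc).roots.count (s j) with hm
  have hbr := S.bridge (fun _ : Fin (6 * n) => (1 : ℚ)) SS PP hon 1 0 ((m : ℚ) • S.F s p) 0 ?_ ?_
  · have hR0 : G ^ 2 - Pc ≠ 0 := by
      intro h
      rw [h, coeff_zero] at hRc
      exact hRc rfl
    have hm0 : m ≠ 0 := by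
      rw [hm, Multiset.count_ne_zero, mem_roots hR0, IsRoot.def, eval_sub, eval_pow, hG, hPdef,
        eval_prod, sub_eq_zero, ← Finset.prod_pow]
      refine Finset.prod_congr rfl fun i _ => ?_
      rw [hcub i]
      simp [hH i]
    exact (smul_eq_zero.1 hbr).resolve_left (Nat.cast_ne_zero.2 hm0)
  · -- the places with `t = 1`
    intro v hv
    have hat : ∀ i, v.At (R'.coeff i) ((G ^ 2 - Pc).coeff i) := by
      intro i
      rw [hco, coeff_sub]
      have h := ((hv.pow 2).mul (Place.at_const (v := v) ((G ^ 2).coeff i))).sub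
        (Place.at_const (v := v) (Pc.coeff i))
      rwa [one_pow, one_mul] at h
    obtain ⟨r', hr', hfac⟩ := move_roots_at v hat hRc _ ρ hρ
    have hrt : ∀ e, (G ^ 2 - Pc).eval (r' e) = 0 := by
      intro e
      rw [hfac, eval_mul, eval_prod, Finset.prod_eq_zero (Finset.mem_univ e) (by simp), mul_zero]
    refine ⟨fun e => if r' e = s j then S.F s p else 0, ?_, ?_⟩
    · intro e
      show S.Val v (SS e) (PP e) (if r' e = s j then S.F s p else 0)
      by_cases he : r' e = s j
      · rw [if_pos he]
        have h1 := hcat v e (r' e) (hr' e)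
        choose y' hy' hy2' using h1
        have h2 : ∀ i, ∃ ε : ℤˣ, y' i = ((ε : ℤ) : k) * y i := by
          intro i
          have h3 : y' i ^ 2 = y i ^ 2 := by
            rw [hy2', he, hcub i]
            simp [hH i]
          rcases sq_eq_sq_iff_eq_or_eq_neg.1 h3 with h4 | h4
          · exact ⟨1, by simp [h4]⟩
          · exact ⟨-1, by simp [h4]⟩
        choose ε hε using h2
        have h3 : v.At (∏ i, Y e i) (∏ i, y' i) := VFP.at_prod _ fun i _ => hy' i
        have h4 : ∏ i, y' i = ∏ i, y i := by
          have h5 : v.At (∏ i, Y e i) (1 * aeval (r' e) G) := by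
            rw [hYp]
            exact hv.mul (VFP.at_evalc (hr' e) G)
          rw [h3.unique h5, one_mul, he, coe_aeval_eq_eval, hG]
        have h5 : (((∏ i, ε i : ℤˣ) : ℤ) : k) = 1 := by
          have h6 : (((∏ i, ε i : ℤˣ) : ℤ) : k) * ∏ i, y i = 1 * ∏ i, y i := by
            have h7 : ∏ i, y' i = (∏ i, ((ε i : ℤ) : k)) * ∏ i, y i := by
              rw [Finset.prod_congr rfl fun i _ => hε i, Finset.prod_mul_distrib]
            rw [h4] at h7
            rw [one_mul]
            push_cast
            exact h7.symm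
          exact mul_right_cancel₀ (Finset.prod_ne_zero_iff.2 fun i _ => hy0 i) h6
        have h6 : ((∏ i, ε i : ℤˣ) : ℤ) = 1 := by exact_mod_cast h5
        have h7 := mv_sign S s p j x y hpj ε Finset.univ
        rw [h6, one_smul] at h7
        rw [← h7]
        refine S.fin v (SS e) (PP e) (hon e) s _ ?_ ?_
        · intro j'
          have h8 := mv_at (hr' e) s j j'
          rwa [he, Function.update_eq_self] at h8
        · intro i j'
          by_cases hj : j' = j
          · subst hj
            simp only [hPP, Function.update_self, if_pos (Finset.mem_univ _)]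
            refine ⟨?_, ?_⟩
            · have h8 := VFP.at_evalc (hr' e) (Hp i)
              rwa [coe_aeval_eq_eval, he, hH] at h8
            · rw [← hε]
              exact hy' i
          · simp only [hPP, Function.update_of_ne hj]
            exact evalue_const v _
      · rw [if_neg he]
        have hnZ : r' e ∉ Z := fun h => hZ _ h he (hrt e)
        obtain ⟨q, hq, hqon⟩ := mv_val (hon e) (fun j' => mv_at (hr' e) s j j')
        have h1 := S.fin v (SS e) (PP e) (hon e) _ q (fun j' => mv_at (hr' e) s j j') hq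
        rwa [H _ hnZ q hqon] at h1
    · simp only [one_smul]
      rw [← Finset.sum_filter, Finset.sum_const, ← Nat.cast_smul_eq_nsmul ℚ,
        ← mv_count hRc hfac (s j)]
  · -- the places with `t = 0`
    intro v hv
    have hat : ∀ i, v.At (R'.coeff i) ((-Pc).coeff i) := by
      intro i
      rw [hco, coeff_neg]
      have h := ((hv.pow 2).mul (Place.at_const (v := v) ((G ^ 2).coeff i))).sub
        (Place.at_const (v := v) (Pc.coeff i))
      rwa [zero_pow two_ne_zero, zero_mul, zero_sub] at h
    obtain ⟨r', hr', hfac⟩ := move_roots_at v hat (by rw [coeff_neg]; exact neg_ne_zero.2 hPc) _ ρ hρ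
    have hrt : ∀ e, Pc.eval (r' e) = 0 := by
      intro e
      have h : (-Pc).eval (r' e) = 0 := by
        rw [hfac, eval_mul, eval_prod, Finset.prod_eq_zero (Finset.mem_univ e) (by simp),
          mul_zero]
      rwa [eval_neg, neg_eq_zero] at h
    refine ⟨fun _ => 0, ?_, by simp⟩
    intro e
    obtain ⟨i, -, hi⟩ : ∃ i ∈ Finset.univ, (Hp i ^ 3 - 3 * α i * Hp i + B i).eval (r' e) = 0 := by
      have h := hrt e
      rw [hPdef, eval_prod] at h
      exact Finset.prod_eq_zero_iff.1 h
    obtain ⟨q, hq, hqon⟩ := mv_val (hon e) (fun j' => mv_at (hr' e) s j j')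
    have h1 := S.fin v (SS e) (PP e) (hon e) _ q (fun j' => mv_at (hr' e) s j j') hq
    obtain ⟨y', hy', hy2'⟩ := hcat v e (r' e) (hr' e) i
    rw [hi] at hy2'
    have hy0'' : y' = 0 := pow_eq_zero_iff two_ne_zero |>.1 hy2'
    have h2 : EVal v (PP e i j) (some (aeval (r' e) (Hp i), 0)) := by
      simp only [hPP, Function.update_self]
      refine ⟨VFP.at_evalc (hr' e) (Hp i), ?_⟩
      rw [← hy0'']
      exact hy'
    have h3 := evalue_unique (hq i j) h2
    rwa [mv_two S _ q i j _ h3] at h1

/-- If the class is zero for general tuples then it is zero. (Induction: for `m ≤ n` the class is zero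
if the conditions hold for the indices `< m`; from `m + 1` to `m` use `Sys.move` for the index `m` and
the finite set of the excluded values.) -/
theorem Sys.zero (S : Sys k r n α B W) {d : Fin r → ℕ} (hn : 0 < n) (hd : ∑ i, d i = 2 * n)
    (hα : ∀ i, (α i).natDegree ≤ 2 * d i) (hB : ∀ i, (B i).natDegree ≤ 3 * d i)
    (Z : Finset k) (Y : k → Finset k)
    (H : ∀ s : Fin n → k, (∀ j, s j ∉ Z) → (∀ j j', j < j' → s j' ∉ Y (s j)) →
      ∀ p, OnS α B s p → S.F s p = 0)
    (s : Fin n → k) (p : Fin r → Fin n → EPt k) (hp : OnS α B s p) : S.F s p = 0 := by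
  classical
  have key : ∀ e m : ℕ, m + e = n → ∀ s : Fin n → k, (∀ j : Fin n, j.val < m → s j ∉ Z) →
      (∀ j j' : Fin n, j < j' → j'.val < m → s j' ∉ Y (s j)) →
      ∀ p, OnS α B s p → S.F s p = 0 := by
    intro e
    induction e with
    | zero =>
      intro m hm s h1 h2 p hp
      exact H s (fun j => h1 j (by omega)) (fun j j' hj => h2 j j' hj (by omega)) p hp
    | succ e ih =>
      intro m hm s h1 h2 p hp
      have hmn : m < n := by omega
      refine S.move hn hd hα hB ⟨m, hmn⟩
        (Z ∪ Finset.univ.biUnion fun j : Fin n => Y (s j)) s p hp ?_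
      intro c hc q hq
      rw [Finset.mem_union, not_or] at hc
      have hcY : ∀ j, c ∉ Y (s j) := fun j h =>
        hc.2 (Finset.mem_biUnion.2 ⟨j, Finset.mem_univ _, h⟩)
      refine ih (m + 1) (by omega) _ ?_ ?_ q hq
      · intro j hj
        by_cases hjm : j = ⟨m, hmn⟩
        · rw [hjm, Function.update_self]
          exact hc.1
        · rw [Function.update_of_ne hjm]
          refine h1 j ?_
          have : j.val ≠ m := fun h => hjm (Fin.ext h)
          omega
      · intro j j' hjj hj
        have hjm : j ≠ ⟨m, hmn⟩ := by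
          rintro rfl
          have := Fin.lt_def.1 hjj
          simp only at this
          omega
        rw [Function.update_of_ne hjm]
        by_cases hjm' : j' = ⟨m, hmn⟩
        · rw [hjm', Function.update_self]
          exact hcY j
        · rw [Function.update_of_ne hjm']
          refine h2 j j' hjj ?_
          have : j'.val ≠ m := fun h => hjm' (Fin.ext h)
          omega
  exact key n 0 (by omega) s (fun j hj => absurd hj (Nat.not_lt_zero _))
    (fun j j' _ hj => absurd hj (Nat.not_lt_zero _)) p hp

end Pool.Agent.TInf
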