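import Pool.Agent.TInf.FamDefs

/-!
# The class of a system for fixed `s`
-/

set_option autoImplicit false

noncomputable section

namespace Pool.Agent.TInf

open Pool.Agent.ZCyc Polynomial
open Pool.Agent.VFP (Om tt)

universe u

variable {k : Type u} [Field k] [IsAlgClosed k] [CharZero k] {r n : ℕ} {α B : Fin r → k[X]}
  {W : Type*} [AddCommGroup W] [Module ℚ W]

/-- a constant point -/
private def cpt (p : EPt k) : EPt (Om k) :=
  Option.map (fun z : k × k => (algebraMap k (Om k) z.1, algebraMap k (Om k) z.2)) p

omit [IsAlgClosed k] [CharZero k] in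
private lemma cpt_on {a b : k} {p : EPt k} (h : EOn a b p) :
    EOn (algebraMap k (Om k) a) (algebraMap k (Om k) b) (cpt p) := by
  rcases p with _ | ⟨x, y⟩
  · trivial
  · have h' : y ^ 2 = x ^ 3 - 3 * a * x + b := h
    show algebraMap k (Om k) y ^ 2 = algebraMap k (Om k) x ^ 3 -
      3 * algebraMap k (Om k) a * algebraMap k (Om k) x + algebraMap k (Om k) b
    rw [← map_pow, h']
    simp only [map_add, map_sub, map_mul, map_pow, map_ofNat]

omit [IsAlgClosed k] [CharZero k] in
private lemma ev_const (p : k[X]) (s : Fin n → k) (j : Fin n) :
    ev p (fun j => algebraMap k (Om k) (s j)) j = algebraMap k (Om k) (ev p s j) := by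
  unfold ev
  rw [aeval_algebraMap_apply]

/-- For fixed `s` the class of a system is a class function in the points with index `i`, for every
`i`. (`odd` and `inf`: `Y.odd`, `Y.inf` for `Function.update p i q`. `bridge`: if all `p i' j` with
`i' ≠ i` are on the curves use `Y.bridge` with the constant `S j = algebraMap _ _ (s j)` and the constant
points `p i' j` (`evalue_const`), and `Y.fin`; otherwise all values of `F` are zero by `Y.off`, and
`C₀ = 0 = C₁`, because there are places with `tt k` at `c₀`, `c₁`: `Pool.Agent.ZCyc.exists_place`, see
the proof of `bridgeN` in `TInf/GeoBridge.lean`.) -/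
theorem Sys.multi (Y : Sys k r n α B W) (s : Fin n → k) :
    MultiClass (fun i => ev (α i) s) (fun i => ev (B i) s) (Y.F s) := by
  classical
  intro i A _ c p
  refine ⟨?_, ?_, ?_⟩
  · intro q j x y hq
    rw [← Finset.sum_neg_distrib]
    refine Finset.sum_congr rfl fun a _ => ?_
    have h := Y.odd s (Function.update (p a) i q) i j x y (by rw [Function.update_self]; exact hq)
    rw [Function.update_idem, Function.update_self] at h
    rw [h, smul_neg]
  · intro q j hq
    refine Finset.sum_eq_zero fun a _ => ?_
    rw [Y.inf s (Function.update (p a) i q) i j (by rw [Function.update_self]; exact hq), smul_zero]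
  · intro I _ w P hP c₀ c₁ C₀ C₁ h₀ h₁
    set pp : A → Fin r → Fin n → EPt k := fun a =>
      if ∀ i', i' ≠ i → ∀ j, EOn (ev (α i') s j) (ev (B i') s j) (p a i' j) then p a
      else fun _ _ => none with hpp
    have hF : ∀ (a : A) (q : Fin n → EPt k), Y.F s (Function.update (pp a) i q) =
        Y.F s (Function.update (p a) i q) := by
      intro a q
      by_cases ha : ∀ i', i' ≠ i → ∀ j, EOn (ev (α i') s j) (ev (B i') s j) (p a i' j)
      · simp only [hpp]
        rw [if_pos ha]
      · have e : pp a = fun _ _ => none := by
          simp only [hpp]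
          rw [if_neg ha]
        push Not at ha
        obtain ⟨i', hi', j, hj⟩ := ha
        rw [e, Y.inf s (Function.update (fun _ _ => none) i q) i' j
          (by rw [Function.update_of_ne hi']), Y.off]
        intro hcon
        apply hj
        have := hcon i' j
        rwa [Function.update_of_ne hi'] at this
    have hon : ∀ (a : A) (i' : Fin r), i' ≠ i → ∀ j, EOn (ev (α i') s j) (ev (B i') s j)
        (pp a i' j) := by
      intro a i' hi' j
      by_cases ha : ∀ i', i' ≠ i → ∀ j, EOn (ev (α i') s j) (ev (B i') s j) (p a i' j)
      · simp only [hpp]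
        rw [if_pos ha]
        exact ha i' hi' j
      · simp only [hpp]
        rw [if_neg ha]
        trivial
    have hon' : ∀ x : I × A, OnS α B (fun j => algebraMap k (Om k) (s j))
        (Function.update (fun i' j => cpt (pp x.2 i' j)) i (P x.1)) := by
      rintro ⟨x, a⟩ i' j
      rw [ev_const, ev_const]
      by_cases hi' : i' = i
      · subst hi'
        rw [Function.update_self]
        exact hP x j
      · rw [Function.update_of_ne hi']
        exact cpt_on (hon a i' hi' j)
    have key : ∀ (c' : k) (C : W), (∀ v : Place k (Om k), v.At (tt k) c' →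
        ∃ p' : I → Fin n → EPt k, (∀ x j, EVal v (P x j) (p' x j)) ∧
          ∑ x, w x • ∑ a, c a • Y.F s (Function.update (p a) i (p' x)) = C) →
        ∀ v : Place k (Om k), v.At (tt k) c' → ∃ D : I × A → W,
          (∀ x : I × A, Y.Val v (fun j => algebraMap k (Om k) (s j))
            (Function.update (fun i' j => cpt (pp x.2 i' j)) i (P x.1)) (D x)) ∧
          ∑ x : I × A, (w x.1 * c x.2) • D x = C := by
      intro c' C h v hv
      obtain ⟨p', hp', hC⟩ := h v hv
      refine ⟨fun x => Y.F s (Function.update (pp x.2) i (p' x.1)), ?_, ?_⟩
      · rintro ⟨x, a⟩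
        refine Y.fin v _ _ (hon' (x, a)) s _ (fun j => Place.at_const (s j)) ?_
        intro i' j
        by_cases hi' : i' = i
        · subst hi'
          rw [Function.update_self, Function.update_self]
          exact hp' x j
        · rw [Function.update_of_ne hi', Function.update_of_ne hi']
          exact evalue_const v _
      · rw [← hC, Fintype.sum_prod_type]
        refine Finset.sum_congr rfl fun x _ => ?_
        rw [Finset.smul_sum]
        refine Finset.sum_congr rfl fun a _ => ?_
        simp only
        rw [hF, mul_smul]
    exact Y.bridge (I := I × A) (fun x => w x.1 * c x.2)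
      (fun _ j => algebraMap k (Om k) (s j))
      (fun x => Function.update (fun i' j => cpt (pp x.2 i' j)) i (P x.1)) hon' c₀ c₁ C₀ C₁
      (key c₀ C₀ h₀) (key c₁ C₁ h₁)

end Pool.Agent.TInf
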