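import Pool.Agent.TInf.Generic
import Pool.Agent.TInf.MultiZero
import Pool.Agent.TInf.SysMulti
import Pool.Agent.TInf.Move
import Pool.Agent.TInf.FamDefs

/-!
# A class function is zero if the sums `MSl` are zero for general tuples
-/

set_option autoImplicit false

noncomputable section

namespace Pool.Agent.TInf

open Pool.Agent.ZCyc Polynomial
open Pool.Agent.VFP (Om tt)

universe u

variable {k : Type u} [Field k] {r n : ℕ} {α B : Fin r → k[X]}
  {W : Type*} [AddCommGroup W] [Module ℚ W]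

/-- the sums are zero for admissible configurations over general tuples of points of the line -/
def GenZero (S : Sys k r n α B W) (ζ : k) : Prop :=
  ∀ s : Fin n → k, Gen α B s → ∀ c : Fin r → Cfg k n,
    (∀ i, (c i).Good (ev (α i) s) (ev (B i) s)) →
    (∀ i, Adm (ev (α i) s) (ev (B i) s) (c i).β) → ∀ w : Fin r → Fin n → k,
    (∀ i j, w i j ^ 6 = ((c i).side (ev (B i) s) j).V) → ∀ l : Fin r → ZMod 3,
    MSl (S.F s) ζ (fun i => ev (α i) s) (fun i => (c i).side (ev (B i) s)) w l = 0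

theorem gen_of_general [IsAlgClosed k] [CharZero k] (hn : 0 < n) (hα : ∀ i, α i ≠ 0)
    (hB : ∀ i, B i ≠ 0) (hd : ∀ i, B i ^ 2 - 4 * α i ^ 3 ≠ 0) {s : Fin n → k}
    (h1 : ∀ j, s j ∉ excl α B) (h2 : ∀ j j', j < j' → s j' ∉ excl₂ α B (s j)) : Gen α B s where
  nd := fun i => (ndU_of_general hα hB hd h1 h2 i).1
  iso := fun i => by
    have h3 := ndU_of_general hα hB hd h1 h2 i
    rcases h3.2 with h4 | h4
    · right
      have hev : ∀ (p : k[X]) (j : Fin n), ev p s j = p.eval (s j) := by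
        intro p j
        unfold ev
        rw [coe_aeval_eq_eval]
      have ha := h3.1.hα ⟨0, hn⟩
      have hb := h3.1.hB ⟨0, hn⟩
      rw [hev] at ha hb
      refine ⟨(B i).eval (s ⟨0, hn⟩) ^ 2 / (α i).eval (s ⟨0, hn⟩) ^ 3,
        div_ne_zero (pow_ne_zero _ hb) (pow_ne_zero _ ha), ?_⟩
      refine Polynomial.funext fun y => ?_
      have h5 := h4 y (s ⟨0, hn⟩)
      rw [eval_pow, eval_mul, eval_C, eval_pow, div_mul_eq_mul_div, eq_div_iff (pow_ne_zero _ ha)]
      exact h5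
    · exact Or.inl h4

theorem Sys.zero_of_gen [IsAlgClosed k] [CharZero k] (S : Sys k r n α B W) {d : Fin r → ℕ}
    (hn : 0 < n) (hd : ∑ i, d i = 2 * n) (hα : ∀ i, (α i).natDegree ≤ 2 * d i)
    (hB : ∀ i, (B i).natDegree ≤ 3 * d i) (hα0 : ∀ i, α i ≠ 0) (hB0 : ∀ i, B i ≠ 0)
    (hdisc : ∀ i, B i ^ 2 - 4 * α i ^ 3 ≠ 0) {ζ : k} (hζ : IsPrimitiveRoot ζ 3)
    (hS : GenZero S ζ) (s : Fin n → k) (p : Fin r → Fin n → EPt k) (hp : OnS α B s p) :
    S.F s p = 0 := by
  refine S.zero hn hd hα hB (excl α B) (excl₂ α B) ?_ s p hp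
  intro s h1 h2 p hp
  have hG := gen_of_general hn hα0 hB0 hdisc h1 h2
  have hN : ∀ i, NdU (ev (α i) s) (ev (B i) s) := hG.nd
  have hadm := fun i => exists_adm (hN i) hn
  choose β hβ using hadm
  refine multi_zero (S.multi s) hn hζ (fun i j => -ev (B i) s j / 2 + β i j)
    (fun i j => -ev (B i) s j / 2 - β i j) (fun i j => by ring) (fun i j => ?_)
    (fun i j => (hN i).hα j) (fun i j => ?_) ?_ p hp
  · have h4 := (hβ i).1 j
    linear_combination 4 * h4
  · intro h0
    have h4 := (hβ i).1 j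
    apply (hN i).disc j
    linear_combination 4 * h0 + 4 * h4
  · intro T w hT hw l
    have hg : ∀ i, (⟨1, β i, T i⟩ : Cfg k n).Good (ev (α i) s) (ev (B i) s) := fun i =>
      ⟨(hβ i).1, fun j => hT i j⟩
    exact hS s hG (fun i => ⟨1, β i, T i⟩) hg hβ w hw l

end Pool.Agent.TInf
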