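import Pool.Agent.TInf.PathUniq

/-!
# Configurations
-/

set_option autoImplicit false

noncomputable section

namespace Pool.Agent.TInf

open Polynomial

variable {K : Type*} [Field K] {n : ℕ}

/-- the sides of a configuration in the order of the places; the side at the place `0` is the
outermost one -/
def Cfg.sides (B : Fin n → K) (c : Cfg K n) : List (Side K) :=
  (List.finRange n).map fun a => c.side B (c.ord a)

lemma Cfg.M_eq (B : Fin n → K) (c : Cfg K n) : c.M B = st (c.sides B) := rfl

/-- the cubics are nondegenerate and the numbers `B j ² / α j ³` are distinct -/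
structure Nd (α B : Fin n → K) : Prop where
  hα : ∀ j, α j ≠ 0
  hB : ∀ j, B j ≠ 0
  disc : ∀ j, B j ^ 2 ≠ 4 * α j ^ 3
  dist : ∀ i j, i ≠ j → B i ^ 2 * α j ^ 3 ≠ B j ^ 2 * α i ^ 3

/-- There is a good configuration with the state `M` for every ordering and all square roots. -/
def Full (α B : Fin n → K) (M : Mq K) : Prop :=
  ∀ (ord : Equiv.Perm (Fin n)) (β : Fin n → K), (∀ j, β j ^ 2 = α j ^ 3) →
    ∃ T : Fin n → K, (⟨ord, β, T⟩ : Cfg K n).Good α B ∧ (⟨ord, β, T⟩ : Cfg K n).M B = M

lemma Cfg.mem_sides {B : Fin n → K} {c : Cfg K n} {s : Side K} (h : s ∈ c.sides B) :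
    ∃ j, s = c.side B j := by
  simp only [Cfg.sides, List.mem_map] at h
  obtain ⟨a, -, rfl⟩ := h
  exact ⟨_, rfl⟩

lemma Cfg.sides_good {α B : Fin n → K} {c : Cfg K n} (hc : c.Good α B) :
    ∀ s ∈ c.sides B, s.Good := by
  intro s hs
  obtain ⟨j, rfl⟩ := Cfg.mem_sides hs
  exact hc.2 j

lemma Cfg.length_sides (B : Fin n → K) (c : Cfg K n) : (c.sides B).length = n := by
  simp [Cfg.sides]

lemma Cfg.getElem_sides (B : Fin n → K) (c : Cfg K n) (i : ℕ) (h : i < (c.sides B).length) :
    (c.sides B)[i] = c.side B (c.ord ⟨i, by simpa [Cfg.length_sides] using h⟩) := by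
  simp [Cfg.sides]

variable [CharZero K] {α B : Fin n → K}

lemma Cfg.side_b (c : Cfg K n) (j : Fin n) : (c.side B j).b = -B j / 2 := by
  simp only [Side.b, Cfg.side]
  ring

lemma Cfg.side_g (c : Cfg K n) (j : Fin n) : (c.side B j).g = c.β j := by
  simp only [Side.g, Cfg.side]
  ring

lemma Cfg.side_D {c : Cfg K n} (hc : c.Good α B) (j : Fin n) :
    (c.side B j).D = (B j ^ 2 - 4 * α j ^ 3) / 4 := by
  rw [← hc.1 j]
  simp only [Side.D, Cfg.side]
  ring

lemma Cfg.side_D_ne (h : Nd α B) {c : Cfg K n} (hc : c.Good α B) (j : Fin n) :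
    (c.side B j).D ≠ 0 := by
  rw [Cfg.side_D hc]
  exact div_ne_zero (sub_ne_zero.mpr (h.disc j)) (by norm_num)

lemma Cfg.side_nd (h : Nd α B) {c : Cfg K n} (hc : c.Good α B) (j : Fin n) :
    (c.side B j).Nd := by
  refine ⟨?_, ?_, Cfg.side_D_ne h hc j⟩
  · rw [Cfg.side_b]
    exact div_ne_zero (neg_ne_zero.mpr (h.hB j)) two_ne_zero
  · rw [Cfg.side_g]
    intro h0
    have := hc.1 j
    rw [h0, zero_pow two_ne_zero] at this
    exact pow_ne_zero 3 (h.hα j) this.symm

lemma Cfg.side_th_ne (h : Nd α B) {c : Cfg K n} (hc : c.Good α B) {i j : Fin n} (hij : i ≠ j) :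
    (c.side B i).th ≠ (c.side B j).th := by
  intro h0
  have hi := sub_ne_zero.mpr (h.disc i)
  have hj := sub_ne_zero.mpr (h.disc j)
  rw [Side.th, Side.th, Cfg.side_b, Cfg.side_b, Cfg.side_D hc, Cfg.side_D hc] at h0
  field_simp at h0
  apply h.dist i j hij
  have h4 : (4 : K) ≠ 0 := by norm_num
  refine mul_left_cancel₀ h4 ?_
  linear_combination -h0

theorem Cfg.ndl (h : Nd α B) {c : Cfg K n} (hc : c.Good α B) : Ndl (c.sides B) := by
  refine ⟨fun s hs => ?_, ?_⟩
  · obtain ⟨j, rfl⟩ := Cfg.mem_sides hs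
    exact Cfg.side_nd h hc j
  · rw [Cfg.sides, List.pairwise_map]
    refine (List.nodup_finRange n).imp fun {a b} hab => ?_
    exact Cfg.side_th_ne h hc (fun e => hab (c.ord.injective e))

/-- use `Gd_of_signs`; a list which is obtained from the list of the pairs `(p, m)` of `c` by
exchanging `p` and `m` for some sides is the list of the configurations with other signs of the
`β j` -/
theorem Cfg.gd (h : Nd α B) {M : Mq K} (hF : Full α B M) {c : Cfg K n} (hc : c.Good α B)
    (hM : c.M B = M) : Gd (c.sides B) := by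
  classical
  refine Gd_of_signs (Cfg.ndl h hc) (Cfg.sides_good hc) fun d hd => ?_
  have hlen : d.length = n := by
    have := hd.length_eq
    rw [List.length_map, Cfg.length_sides] at this
    exact this.symm
  have hget : ∀ a : Fin n, d[a.val]'(by omega) = (c.side B (c.ord a)).pm ∨
      d[a.val]'(by omega) = ((c.side B (c.ord a)).pm.2, (c.side B (c.ord a)).pm.1) := by
    intro a
    have h1 : a.val < ((c.sides B).map Side.pm).length := by
      rw [List.length_map, Cfg.length_sides]
      exact a.2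
    have h2 : a.val < d.length := by omega
    have := hd.get h1 h2
    simpa [Cfg.getElem_sides] using this
  let β' : Fin n → K := fun j =>
    if d[(c.ord.symm j).val]'(by have := (c.ord.symm j).2; omega) = (c.side B j).pm
    then c.β j else -c.β j
  have hβ' : ∀ j, β' j ^ 2 = α j ^ 3 := by
    intro j
    simp only [β']
    split_ifs
    · exact hc.1 j
    · rw [neg_pow_two]
      exact hc.1 j
  obtain ⟨T, hT, hTM⟩ := hF c.ord β' hβ'
  refine ⟨(⟨c.ord, β', T⟩ : Cfg K n).sides B, Cfg.sides_good hT, ?_, ?_⟩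
  · refine List.ext_getElem ?_ fun i h1 h2 => ?_
    · rw [List.length_map, Cfg.length_sides, hlen]
    · have hi : i < n := by omega
      rw [List.getElem_map, Cfg.getElem_sides]
      have hg := hget ⟨i, hi⟩
      simp only [Side.pm, Cfg.side, β', Equiv.symm_apply_apply] at hg ⊢
      split_ifs with h3
      · exact h3.symm
      · rcases hg with hg | hg
        · exact absurd hg h3
        · rw [hg]
          simp only [Prod.mk.injEq]
          constructor <;> ring
  · rw [← Cfg.M_eq, ← Cfg.M_eq, hTM, hM]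

/-- use `st_unique` -/
theorem cfg_unique (h : Nd α B) {M : Mq K} (hF : Full α B M) {c c' : Cfg K n} (hc : c.Good α B)
    (hc' : c'.Good α B) (ho : c'.ord = c.ord) (hβ : c'.β = c.β) (hM : c.M B = M)
    (hM' : c'.M B = M) : c' = c := by
  have hs : c'.sides B = c.sides B := by
    refine st_unique (Cfg.ndl h hc) (Cfg.gd h hF hc hM) (Cfg.sides_good hc') ?_ ?_
    · simp only [Cfg.sides, List.map_map]
      refine List.map_congr_left fun a _ => ?_
      simp only [Function.comp_apply, Side.pm, Cfg.side, ho, hβ]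
    · rw [← Cfg.M_eq, ← Cfg.M_eq, hM, hM']
  refine Cfg.ext ho hβ ?_
  funext j
  have hj : (c.ord.symm j).val < (c.sides B).length := by
    rw [Cfg.length_sides]
    exact (c.ord.symm j).2
  have hj' : (c.ord.symm j).val < (c'.sides B).length := by
    rw [Cfg.length_sides]
    exact (c.ord.symm j).2
  have h1 : (c'.sides B)[(c.ord.symm j).val] = (c.sides B)[(c.ord.symm j).val] := by
    simp only [hs]
  rw [Cfg.getElem_sides, Cfg.getElem_sides] at h1
  simp only [ho, Fin.eta, Equiv.apply_symm_apply] at h1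
  exact congrArg Side.T h1

end Pool.Agent.TInf
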