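import Pool.Agent.TInf.LiftStep

/-!
# Lifting of lists of sides
-/

set_option autoImplicit false

noncomputable section

namespace Pool.Agent.TInf

open Pool.Agent.ZCyc Polynomial
open Pool.Agent.VFP (Om tt)

universe u

variable {k : Type u} [Field k] [CharZero k] {v : Place k (Om k)}

/-- the sides of a list with `Gd` are good -/
private lemma Gd_good {K : Type*} [Field K] : ∀ {l : List (Side K)}, Gd l → ∀ s ∈ l, s.Good
  | [], _, s, hs => by simp at hs
  | t :: l, h, s, hs => by
      rcases List.mem_cons.1 hs with rfl | hs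
      · exact h.2.1
      · exact Gd_good h.1 s hs

omit [CharZero k] in
/-- every side of the first list has a partner -/
private lemma at_mem {l' : List (Side (Om k))} {l : List (Side k)}
    (h : List.Forall₂ (SAt v) l' l) : ∀ s' ∈ l', ∃ s ∈ l, SAt v s' s := by
  induction h with
  | nil => intro s' hs'; simp at hs'
  | cons hs _ ih =>
      intro s' hs'
      rcases List.mem_cons.1 hs' with rfl | hs'
      · exact ⟨_, List.mem_cons_self, hs⟩
      · obtain ⟨t, ht, h1⟩ := ih s' hs'
        exact ⟨t, List.mem_cons_of_mem _ ht, h1⟩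

omit [CharZero k] in
private lemma at_zero_zero : v.At (0 : Om k) 0 := by
  have h := Place.at_const (v := v) (0 : k)
  rwa [map_zero] at h

/-- the denominators are not zero over `Om k` if their values are not zero -/
theorem Gd.of_at {l' : List (Side (Om k))} {l : List (Side k)} (h : List.Forall₂ (SAt v) l' l)
    (hn : ∀ s ∈ l, s.Nd) (hl : Gd l) : Gd l' := by
  induction h with
  | nil => trivial
  | cons hs ht ih =>
      obtain ⟨h1, h2, h3⟩ := hl
      refine ⟨ih (fun s hs => hn s (List.mem_cons_of_mem _ hs)) h1, hs.good h2, ?_⟩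
      intro h0
      apply h3
      have h4 := (MAt.st (List.Forall₂.cons hs ht) (Gd_good ⟨h1, h2, h3⟩)).c.eval
        (hs.th (hn _ List.mem_cons_self).D)
      rw [h0] at h4
      exact h4.unique at_zero_zero

/-- the `b ² / D` are distinct over `Om k` if their values are distinct -/
theorem Ndl.of_at {l' : List (Side (Om k))} {l : List (Side k)} (h : List.Forall₂ (SAt v) l' l)
    (hl : Ndl l) : Ndl l' := by
  induction h with
  | nil => exact ⟨fun s hs => by simp at hs, List.Pairwise.nil⟩
  | cons hs ht ih =>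
      obtain ⟨h1, h2⟩ := hl
      rw [List.pairwise_cons] at h2
      obtain ⟨h3, h4⟩ := ih ⟨fun s hs => h1 s (List.mem_cons_of_mem _ hs), h2.2⟩
      refine ⟨fun s' hs' => ?_, List.pairwise_cons.2 ⟨fun t' ht' he => ?_, h4⟩⟩
      · rcases List.mem_cons.1 hs' with rfl | hs'
        · exact hs.nd (h1 _ List.mem_cons_self)
        · exact h3 s' hs'
      · obtain ⟨t, ht1, ht2⟩ := at_mem ht t' ht'
        refine h2.1 t ht1 ?_
        have h5 := hs.th (h1 _ List.mem_cons_self).D
        have h6 := ht2.th (h1 t (List.mem_cons_of_mem _ ht1)).D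
        rw [he] at h5
        exact h5.unique h6

/-- Induction on `l` with `lift_step`; `M₁.q` and `M₁.a(0)` by `q_push` and `push_a_zero`, `M₁.Deg` by
`Deg_inner`; for `l = []` by `eq_one_of_Deg`. -/
theorem lift : ∀ (l : List (Side k)) (d : List (Om k × Om k)) (M' : Mq (Om k)), (∀ s ∈ l, s.Nd) →
    Gd l → List.Forall₂ (fun x s => v.At x.1 s.p ∧ v.At x.2 s.m) d l → MAt v M' (st l) →
    M'.Deg l.length →
    M'.q = (d.map fun x => C (((x.1 + x.2) / 2) ^ 2) - C (x.1 * x.2) * X).prod →
    M'.a.eval 0 = (d.map fun x => (x.1 + x.2) / 2).prod →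
    ∃ l' : List (Side (Om k)), l'.map Side.pm = d ∧ st l' = M' ∧ List.Forall₂ (SAt v) l' l := by
  intro l
  induction l with
  | nil =>
      intro d M' _ _ hd _ hdeg hq ha
      rw [List.forall₂_nil_right_iff] at hd
      subst hd
      simp only [List.map_nil, List.prod_nil] at hq ha
      exact ⟨[], rfl, (eq_one_of_Deg hdeg hq ha).symm, List.Forall₂.nil⟩
  | cons s l ih =>
      intro d M' hn hl hd hM hdeg hq ha
      obtain ⟨x, d, ⟨hp, hm⟩, hd', rfl⟩ := List.forall₂_cons_right_iff.1 hd
      obtain ⟨hl1, hsg, hc⟩ := hl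
      have hsn := hn s List.mem_cons_self
      have hD : x.1 * x.2 ≠ 0 := by
        intro h0
        have h1 := hp.mul hm
        rw [h0] at h1
        exact hsn.D (h1.unique at_zero_zero)
      simp only [List.map_cons, List.prod_cons] at hq ha
      obtain ⟨T', M₁, hs', hpush, hM₁⟩ := lift_step hsg hsn hc hp hm hM (by
        rw [hq, eval_mul, eval_sub, eval_mul, eval_C, eval_C, eval_X, mul_div_cancel₀ _ hD,
          sub_self, zero_mul])
      have hg' := hs'.good hsg
      have hn' := hs'.nd hsn
      have hb : (⟨x.1, x.2, T'⟩ : Side (Om k)).b = (x.1 + x.2) / 2 := rfl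
      have hr : (⟨x.1, x.2, T'⟩ : Side (Om k)).r =
          C (((x.1 + x.2) / 2) ^ 2) - C (x.1 * x.2) * X := rfl
      have hr0 : (⟨x.1, x.2, T'⟩ : Side (Om k)).r ≠ 0 := by
        intro h0
        rw [hr] at h0
        have h1 := congrArg (fun f => Polynomial.coeff f 1) h0
        simp only [coeff_sub, coeff_C_mul, coeff_X_one, coeff_zero, mul_one] at h1
        rw [coeff_C_of_ne_zero one_ne_zero, zero_sub, neg_eq_zero] at h1
        exact hD h1
      obtain ⟨l', h1, h2, h3⟩ := ih d M₁ (fun t ht => hn t (List.mem_cons_of_mem _ ht)) hl1 hd' hM₁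
        (by
          rw [← hpush] at hdeg
          exact Deg_inner hg' hn' hdeg)
        (by
          rw [← hpush, q_push hg', ← hr] at hq
          exact mul_left_cancel₀ hr0 hq)
        (by
          rw [← hpush, push_a_zero, hb] at ha
          exact mul_left_cancel₀ (hb ▸ hn'.b) ha)
      refine ⟨⟨x.1, x.2, T'⟩ :: l', ?_, ?_, List.Forall₂.cons hs' h3⟩
      · rw [List.map_cons, h1]
        rfl
      · rw [st_cons, h2, hpush]

end Pool.Agent.TInf
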