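import Pool.Agent.TInf.GeoBasic
import Pool.Agent.VFP.Shear

/-!
# Linear changes of the coordinates of the line
-/

set_option autoImplicit false

noncomputable section

namespace Pool.Agent.TInf

open Pool.Agent.ZCyc Pool.Agent.VFP Polynomial

universe u

variable {k : Type u} [Field k] {N r n : ℕ}

private theorem shf_zero (c : k) : VK3.shf c (0 : MvPolynomial (Fin 2) k) = 0 := by
  unfold VK3.shf
  exact map_zero _

private theorem shf_ne_zero (c : k) {A : MvPolynomial (Fin 2) k} (hA : A ≠ 0) :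
    VK3.shf c A ≠ 0 := by
  intro h0
  have h1 := VK3.shf_shf c A
  rw [h0, shf_zero] at h1
  exact hA h1.symm

private theorem shf_disc (c : k) (A B : MvPolynomial (Fin 2) k) :
    4 * VK3.shf c A ^ 3 + 27 * VK3.shf c B ^ 2 = VK3.shf c (4 * A ^ 3 + 27 * B ^ 2) := by
  unfold VK3.shf
  rw [map_add, map_mul, map_mul, map_pow, map_pow, map_ofNat, map_ofNat]

/-- Adapt `VFP.valid_shr`. -/
theorem good_shr (c : k) {D : Dat k N r} (h : Good D n) : Good (D.shr c) n where
  npos := h.npos
  pos := h.pos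
  sum := h.sum
  even := h.even
  homA i := VK3.shf_hom (h.homA i)
  homB i := VK3.shf_hom (h.homB i)
  disc i := by
    change 4 * VK3.shf c (D.A i) ^ 3 + 27 * VK3.shf c (D.B i) ^ 2 ≠ 0
    rw [shf_disc]
    exact shf_ne_zero c (h.disc i)
  nzA i := shf_ne_zero c (h.nzA i)
  nzB i := shf_ne_zero c (h.nzB i)

private theorem isValue_aux {K : Type*} [Field K] [Algebra k K] {v : Place k K} (c : k) {d : K}
    {P : Fin 2 → K} {p : Fin 2 → k}
    (h : ∀ j, v.Vanishes (d * P j - algebraMap k K (p j))) (j : Fin 2) :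
    v.Vanishes (d * (![P 0 + algebraMap k K c * P 1, P 1] : Fin 2 → K) j -
      algebraMap k K ((![p 0 + c * p 1, p 1] : Fin 2 → k) j)) := by
  match j with
  | 0 =>
    have h1 := (h 0).add v ((h 1).mul' v (v.const_mem c))
    have h2 : d * (P 0 + algebraMap k K c * P 1) - algebraMap k K (p 0 + c * p 1) =
        d * P 0 - algebraMap k K (p 0) +
          algebraMap k K c * (d * P 1 - algebraMap k K (p 1)) := by
      rw [map_add, map_mul]
      ring
    change v.Vanishes (d * (P 0 + algebraMap k K c * P 1) - algebraMap k K (p 0 + c * p 1))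
    rw [h2]
    exact h1
  | 1 => exact h 1

private theorem isValue_shr {v : Place k (Om k)} (c : k) {D : Dat k N r} {P : Crd N r (Om k)}
    {p : Crd N r k} (h : D.IsValue v P p) :
    (D.shr c).IsValue v (shr (algebraMap k (Om k) c) P) (shr c p) := by
  obtain ⟨d, m, h1, h2, h3, h4⟩ := h
  exact ⟨d, m, isValue_aux c h1, h2, h3, h4⟩

private theorem map_shr {K : Type*} [Field K] (g : K → K) (hadd : ∀ x y, g (x + y) = g x + g y)
    (hmul : ∀ x y, g (x * y) = g x * g y) {c : K} (hc : g c = c) (P : Crd N r K) :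
    shr c (P.map g) = (shr c P).map g := by
  apply Crd.ext
  · funext i
    match i with
    | 0 =>
      change g (P.s 0) + c * g (P.s 1) = g (P.s 0 + c * P.s 1)
      rw [hadd, hmul, hc]
    | 1 => rfl
  · rfl
  · rfl
  · rfl

private theorem ratN_shr (c : k) (D : Dat k N r) (l : ℕ) :
    ratN D l ≤ (ratN (D.shr c) l).comap
      (Finsupp.lmapDomain ℚ ℚ (fun (w : Fin l → Crd N r k) j => shr c (w j))) := by
  unfold ratN
  rw [Submodule.span_le]
  rintro z ⟨m, P, a, b, v, w, p, q, hOn, hG, hv, hw, hp, hq, rfl⟩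
  refine Submodule.subset_span ⟨m, fun i j => shr (algebraMap k (Om k) c) (P i j), a, b, v, w,
    fun i j => shr c (p i j), fun i j => shr c (q i j), fun i j => onX_shr c (hOn i j),
    fun g => ?_, hv, hw,
    fun i j => ⟨onX_shr (K := k) c (hp i j).1, isValue_shr c (hp i j).2⟩,
    fun i j => ⟨onX_shr (K := k) c (hq i j).1, isValue_shr c (hq i j).2⟩, ?_⟩
  · obtain ⟨e, he⟩ := hG g
    have hc : g (algebraMap k (Om k) c) = algebraMap k (Om k) c := by
      rw [IsScalarTower.algebraMap_apply k (RatFunc k) (Om k), g.commutes]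
    refine ⟨e, fun i j => ?_⟩
    have h1 := map_shr g (map_add g) (map_mul g) hc (P i j)
    rw [← he i j] at h1
    exact h1
  · rw [map_sum]
    refine Finset.sum_congr rfl fun i _ => ?_
    rw [map_sub, Finsupp.lmapDomain_apply, Finsupp.lmapDomain_apply, Finsupp.mapDomain_single,
      Finsupp.mapDomain_single]

private def mp (c : k) (D : Dat k N r) (l : ℕ) : VN D l →ₗ[ℚ] VN (D.shr c) l :=
  Submodule.mapQ _ _ (Finsupp.lmapDomain ℚ ℚ (fun (w : Fin l → Crd N r k) j => shr c (w j)))
    (ratN_shr c D l)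

private theorem mp_cN (c : k) (D : Dat k N r) {l : ℕ} (w : Fin l → Crd N r k) :
    mp c D l (cN D w) = cN (D.shr c) (fun j => shr c (w j)) := by
  unfold mp cN
  rw [Submodule.mapQ_apply, Finsupp.lmapDomain_apply, Finsupp.mapDomain_single]

private theorem mp_TN (c : k) (D : Dat k N r) {l : ℕ} (w : Fin l → Crd N r k) :
    mp c D l (TN D w) = TN (D.shr c) (fun j => shr c (w j)) := by
  unfold TN
  rw [map_sum]
  refine Finset.sum_congr rfl fun ε _ => ?_
  rw [map_smul, mp_cN]
  rfl

private theorem mp_AN (c : k) (D : Dat k N r) {l : ℕ} (w : Fin l → Crd N r k) :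
    mp c D l (AN D w) = AN (D.shr c) (fun j => shr c (w j)) := by
  unfold AN
  rw [map_sum]
  refine Finset.sum_congr rfl fun τ _ => ?_
  rw [map_smul, mp_TN]
  rfl

private theorem dat_shr_neg (c : k) (D : Dat k N r) : (D.shr c).shr (-c) = D := by
  have h1 : (fun i => VK3.shf (-c) (VK3.shf c (D.A i))) = D.A := by
    funext i
    exact VK3.shf_shf c _
  have h2 : (fun i => VK3.shf (-c) (VK3.shf c (D.B i))) = D.B := by
    funext i
    exact VK3.shf_shf c _
  unfold Dat.shr
  simp only [h1, h2]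

/-- Adapt `VFP.CL_shr`. -/
theorem AN_shr (c : k) {D : Dat k N r} {l : ℕ} {w : Fin l → Crd N r k}
    (h : AN (D.shr c) (fun j => shr c (w j)) = 0) : AN D w = 0 := by
  have h1 := mp_AN (-c) (D.shr c) (fun j => shr c (w j))
  rw [h, map_zero] at h1
  have h3 : (fun j => shr (-c) (shr c (w j))) = w := by
    funext j
    exact shr_neg c (w j)
  rw [h3] at h1
  have h2 : AN ((D.shr c).shr (-c)) w = 0 := h1.symm
  rw [dat_shr_neg] at h2
  exact h2

end Pool.Agent.TInf
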