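import Pool.Agent.TInf.GeoSys
import Pool.Agent.TInf.GeoShear

/-!
# Binary forms
-/

set_option autoImplicit false

noncomputable section

namespace Pool.Agent.TInf

open Pool.Agent.ZCyc Pool.Agent.VFP Polynomial

universe u

variable {k : Type u} [Field k] {N r n : ℕ}

private theorem deh_eq (A : MvPolynomial (Fin 2) k) :
    MvPolynomial.aeval ![(1 : k[X]), X] A =
      ∑ d ∈ A.support, C (A.coeff d) * X ^ d 1 := by
  rw [MvPolynomial.aeval_def, MvPolynomial.eval₂_eq']
  refine Finset.sum_congr rfl fun d _ => ?_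
  simp [Fin.prod_univ_two, Polynomial.algebraMap_eq]

/-- a binary form which is not zero is not zero on the affine line -/
theorem deh_ne {A : MvPolynomial (Fin 2) k} {m : ℕ} (hA : A.IsHomogeneous m) (h : A ≠ 0) :
    MvPolynomial.aeval ![(1 : k[X]), X] A ≠ 0 := by
  obtain ⟨d, hd⟩ := MvPolynomial.support_nonempty.2 h
  have hdeg : ∀ e ∈ A.support, e 0 + e 1 = m := by
    intro e he
    have h1 : e.degree = m := by
      have := hA (MvPolynomial.mem_support_iff.1 he)
      rw [Finsupp.degree_eq_weight_one]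
      exact this
    rw [← h1, Finsupp.degree_eq_sum, Fin.sum_univ_two]
  intro h0
  have h1 := congrArg (fun p => p.coeff (d 1)) h0
  rw [deh_eq] at h1
  simp only [finsetSum_coeff, coeff_C_mul, coeff_X_pow, coeff_zero] at h1
  rw [Finset.sum_eq_single d] at h1
  · rw [if_pos rfl, mul_one] at h1
    exact MvPolynomial.mem_support_iff.1 hd h1
  · intro e he hne
    rw [if_neg, mul_zero]
    intro h2
    apply hne
    ext i
    have h3 := hdeg e he
    have h4 := hdeg d hd
    fin_cases i
    · show e 0 = d 0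
      omega
    · exact h2.symm
  · intro h2
    exact absurd hd h2

/-- a binary form of positive degree has a zero -/
theorem form_zero [IsAlgClosed k] {A : MvPolynomial (Fin 2) k} {m : ℕ} (hA : A.IsHomogeneous m)
    (hm : 0 < m) : ∃ σ : Fin 2 → k, σ ≠ 0 ∧ MvPolynomial.aeval σ A = 0 := by
  by_cases h : ∃ δ : k, (MvPolynomial.aeval ![(1 : k[X]), X] A).IsRoot δ
  · obtain ⟨δ, hδ⟩ := h
    refine ⟨![1, δ], ?_, ?_⟩
    · intro h0
      have := congrFun h0 0
      simp at this
    · have h1 : MvPolynomial.aeval ![(1 : k), δ] A =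
          (MvPolynomial.aeval ![(1 : k[X]), X] A).eval δ := by
        rw [deh_eq, eval_finsetSum, MvPolynomial.aeval_def, MvPolynomial.eval₂_eq']
        refine Finset.sum_congr rfl fun d _ => ?_
        simp [Fin.prod_univ_two]
      rw [h1]
      exact hδ
  · push Not at h
    have h1 : (MvPolynomial.aeval ![(1 : k[X]), X] A).degree = 0 := by
      by_contra h2
      obtain ⟨δ, hδ⟩ := IsAlgClosed.exists_root _ h2
      exact h δ hδ
    refine ⟨![0, 1], ?_, ?_⟩
    · intro h0
      have := congrFun h0 1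
      simp at this
    · have h2 : (MvPolynomial.aeval ![(1 : k[X]), X] A).coeff m = 0 := by
        apply coeff_eq_zero_of_degree_lt
        rw [h1]
        exact_mod_cast hm
      rw [deh_eq] at h2
      simp only [finsetSum_coeff, coeff_C_mul, coeff_X_pow] at h2
      rw [MvPolynomial.aeval_def, MvPolynomial.eval₂_eq']
      refine Eq.trans (Finset.sum_congr rfl fun d hd => ?_) h2
      have h3 : d.degree = m := by
        have := hA (MvPolynomial.mem_support_iff.1 hd)
        rw [Finsupp.degree_eq_weight_one]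
        exact this
      rw [Finsupp.degree_eq_sum, Fin.sum_univ_two] at h3
      rw [Fin.prod_univ_two]
      simp only [Matrix.cons_val_zero, Matrix.cons_val_one, one_pow, mul_one,
        Algebra.algebraMap_self, RingHom.id_apply]
      congr 1
      by_cases h4 : d 0 = 0
      · have h5 : m = d 1 := by omega
        rw [h4, pow_zero, if_pos h5]
      · have h5 : m ≠ d 1 := by omega
        rw [zero_pow h4, if_neg h5]

private theorem aeval_scale' {A : MvPolynomial (Fin 2) k} {m : ℕ} (hA : A.IsHomogeneous m)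
    (c : k) (s : Fin 2 → k) :
    MvPolynomial.aeval (fun j => c * s j) A = c ^ m * MvPolynomial.aeval s A := by
  rw [MvPolynomial.aeval_def, MvPolynomial.aeval_def, MvPolynomial.eval₂_eq',
    MvPolynomial.eval₂_eq', Finset.mul_sum]
  refine Finset.sum_congr rfl fun d hd => ?_
  have h1 : d.degree = m := by
    have := hA (MvPolynomial.mem_support_iff.1 hd)
    rw [Finsupp.degree_eq_weight_one]
    exact this
  have h2 : d 0 + d 1 = m := by
    rw [← h1, Finsupp.degree_eq_sum, Fin.sum_univ_two]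
  simp only [Fin.prod_univ_two, mul_pow]
  rw [← h2, pow_add]
  ring

theorem be_ne {D : Dat k N r} (h : Good D n) (i : Fin N) : D.be i ≠ 0 :=
  deh_ne (h.homB i) (h.nzB i)

variable {D : Dat k N r}

theorem alG_ne [CharZero k] (h : Good D n) (i : Fin N) : alG D i ≠ 0 := by
  unfold alG
  refine mul_ne_zero (C_ne_zero.2 ?_) (deh_ne (h.homA i) (h.nzA i))
  exact neg_ne_zero.2 (inv_ne_zero three_ne_zero)

private theorem disc_hom (h : Good D n) (i : Fin N) :
    (4 * D.A i ^ 3 + 27 * D.B i ^ 2).IsHomogeneous (6 * D.deg i) := by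
  have h4 : (4 : MvPolynomial (Fin 2) k) = MvPolynomial.C 4 := (map_ofNat _ 4).symm
  have h27 : (27 : MvPolynomial (Fin 2) k) = MvPolynomial.C 27 := (map_ofNat _ 27).symm
  rw [h4, h27]
  refine MvPolynomial.IsHomogeneous.add ?_ ?_
  · have h1 := ((h.homA i).pow 3).C_mul (4 : k)
    have e : 2 * D.deg i * 3 = 6 * D.deg i := by ring
    rwa [e] at h1
  · have h1 := ((h.homB i).pow 2).C_mul (27 : k)
    have e : 3 * D.deg i * 2 = 6 * D.deg i := by ring
    rwa [e] at h1

theorem disc_ne [CharZero k] (h : Good D n) (i : Fin N) : D.be i ^ 2 - 4 * alG D i ^ 3 ≠ 0 := by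
  have h1 := deh_ne (disc_hom h i) (h.disc i)
  intro h0
  apply h1
  have h2 : MvPolynomial.aeval ![(1 : k[X]), X] (4 * D.A i ^ 3 + 27 * D.B i ^ 2) =
      4 * D.al i ^ 3 + 27 * D.be i ^ 2 := by
    simp only [map_add, map_mul, map_pow, map_ofNat]
    rfl
  have h3 : alG D i = C (-3⁻¹) * D.al i := rfl
  have h4 : (C (-3⁻¹ : k) : k[X]) ^ 3 * 108 = -4 := by
    have e : (108 : k[X]) = C 108 := (map_ofNat _ 108).symm
    have e' : (4 : k[X]) = C 4 := (map_ofNat _ 4).symm
    rw [e, e', ← C_pow, ← C_mul, ← C_neg]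
    congr 1
    norm_num
  rw [h2]
  rw [h3] at h0
  linear_combination 27 * h0 + D.al i ^ 3 * h4

private theorem disc_shr (D : Dat k N r) (c : k) (i : Fin N) (σ : Fin 2 → k) :
    MvPolynomial.aeval ![σ 0 + c * σ 1, σ 1]
      (4 * (D.shr c).A i ^ 3 + 27 * (D.shr c).B i ^ 2) =
      MvPolynomial.aeval σ (4 * D.A i ^ 3 + 27 * D.B i ^ 2) := by
  have h2 : (![σ 0, σ 1] : Fin 2 → k) = σ := by
    funext i
    fin_cases i <;> rfl
  have hA := VK3.shf_aeval c (D.A i) (σ 0) (σ 1)
  have hB := VK3.shf_aeval c (D.B i) (σ 0) (σ 1)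
  rw [h2] at hA hB
  simp only [Algebra.algebraMap_self, RingHom.id_apply] at hA hB
  have eA : (D.shr c).A i = VK3.shf c (D.A i) := rfl
  have eB : (D.shr c).B i = VK3.shf c (D.B i) := rfl
  simp only [map_add, map_mul, map_pow, map_ofNat, eA, eB, hA, hB]

/-- A change of the coordinates of the line such that finitely many given points are finite and
one of the discriminants has a finite zero. -/
theorem exists_shr [IsAlgClosed k] (h : Good D n) {m : ℕ} (σ : Fin m → Fin 2 → k)
    (hσ : ∀ j, σ j ≠ 0) : ∃ c : k, (∀ j, σ j 0 + c * σ j 1 ≠ 0) ∧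
      ∃ (i : Fin N) (δ : k), (D.shr c).dsc i δ = 0 := by
  classical
  obtain ⟨i, hi⟩ : ∃ i, 0 < D.deg i := by
    by_contra h0
    push Not at h0
    have h1 := h.sum
    rw [Finset.sum_eq_zero fun i _ => Nat.le_zero.1 (h0 i)] at h1
    have := h.npos
    omega
  obtain ⟨τ, hτ, h1⟩ := form_zero (disc_hom h i) (by omega : 0 < 6 * D.deg i)
  -- the excluded values
  let Z : Finset k := insert (-τ 0 / τ 1) (Finset.univ.image fun j => -σ j 0 / σ j 1)
  obtain ⟨c, hc⟩ := Infinite.exists_notMem_finset Z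
  have key : ∀ ρ : Fin 2 → k, ρ ≠ 0 → c ≠ -ρ 0 / ρ 1 → ρ 0 + c * ρ 1 ≠ 0 := by
    intro ρ hρ hcρ h0
    by_cases h2 : ρ 1 = 0
    · rw [h2, mul_zero, add_zero] at h0
      apply hρ
      funext a
      fin_cases a
      · exact h0
      · exact h2
    · apply hcρ
      rw [eq_div_iff h2]
      linear_combination h0
  refine ⟨c, fun j => key _ (hσ j) fun h2 => hc ?_, i, τ 1 / (τ 0 + c * τ 1), ?_⟩
  · rw [h2]
    exact Finset.mem_insert_of_mem (Finset.mem_image_of_mem _ (Finset.mem_univ j))
  · have h2 : τ 0 + c * τ 1 ≠ 0 := key _ hτ fun h3 => hc (by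
      rw [h3]
      exact Finset.mem_insert_self _ _)
    have h3 := disc_shr D c i τ
    rw [h1] at h3
    have h4 := aeval_scale' (disc_hom (good_shr c h) i) (τ 0 + c * τ 1)⁻¹ ![τ 0 + c * τ 1, τ 1]
    rw [h3, mul_zero] at h4
    have h5 : (fun j => (τ 0 + c * τ 1)⁻¹ * (![τ 0 + c * τ 1, τ 1] : Fin 2 → k) j) =
        ![1, τ 1 / (τ 0 + c * τ 1)] := by
      funext a
      fin_cases a
      · simp [h2]
      · simp
        ring
    rw [h5] at h4
    have h6 := eval_al (D := D.shr c) (K := k) (τ 1 / (τ 0 + c * τ 1)) i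
    have h7 := eval_be (D := D.shr c) (K := k) (τ 1 / (τ 0 + c * τ 1)) i
    unfold Dat.dsc
    rw [← h6, ← h7, ← h4]
    simp only [map_add, map_mul, map_pow, map_ofNat]

end Pool.Agent.TInf
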