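import Pool.Agent.TInf.Assemble
import Pool.Agent.TInf.CoreAlg

/-!
# The core theorem from the vanishing of the sums `MSl`
-/

set_option autoImplicit false

noncomputable section

namespace Pool.Agent.TInf

open Pool.Agent.ZCyc Pool.Agent.VFP Polynomial

universe u

/-- the sums `MSl` are zero -/
def GenT (k : Type u) [Field k] : Prop :=
  ∀ {r n : ℕ} {α B : Fin r → k[X]} {W : Type u} [AddCommGroup W] [Module ℚ W]
    (S : Sys k r n α B W) {d : Fin r → ℕ}, DegOk n d α B → (∀ i, α i ≠ 0) → (∀ i, B i ≠ 0) →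
    (∀ i, B i ^ 2 - 4 * α i ^ 3 ≠ 0) → ∀ {ζ : k}, IsPrimitiveRoot ζ 3 → GenZero S ζ

variable {k : Type u} [Field k] [IsAlgClosed k] [CharZero k] {N r n : ℕ}

theorem core_of_gen (hgen : GenT k) (D : Dat k N r) (h : Good D n) (w : Fin n → Crd N r k)
    (hw : ∀ j, D.OnX (w j)) : AN D w = 0 := by
  obtain ⟨c, hc, hz⟩ := exists_shr h (fun j => (w j).s) fun j => (hw j).1
  have h' := good_shr c h
  obtain ⟨ζ, hζ⟩ := HasEnoughRootsOfUnity.exists_primitiveRoot k 3
  refine AN_shr c (AN_zero_of_F h' ?_ _ (fun j => onX_shr (K := k) c (hw j)) hc)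
  have hd := good_deg h' hz
  intro s p hp
  exact (sysG h').zero_of_gen h'.npos h'.sum hd.dα hd.dB (alG_ne h') (be_ne h') (disc_ne h') hζ
    (hgen (sysG h') hd (alG_ne h') (be_ne h') (disc_ne h') hζ) s p hp

end Pool.Agent.TInf
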