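import Pool.Agent.VFP.Defs
import Pool.Agent.ZCyc.Basic

/-!
# Elliptic fibrations over the line with arbitrary geometric genus: auxiliary definitions

Algebra (over a field `K`). The elliptic curve `E : y ² = x ³ - 3 α x + B` is covered by the curve
`C` with the coordinates `w`, `Sg`, where `x = w ² + α / w ²`, `y = Sg / w ³`, `V = w ^ 6` and
`Sg ² = V ² + B V + α ³`. This conic has the coordinate `T = V + Sg + B / 2`: for
`p = -B / 2 + β`, `m = -B / 2 - β`, `β ² = α ³` we have `2 V = (T + p) (T + m) / T` and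
`2 Sg = T - p m / T`. A side is a triple `(p, m, T)`.

The quadruple `M = (a, b, c, t)` of polynomials in `θ` stands for the matrix
`((a + S t, κ b), (κ c, -a + S t))`, `κ = (ζ + ζ⁻¹) / 2`, `S = (ζ² - ζ⁻²) / 4`, `θ = κ²`, and
`push s M` stands for `L(ζ) M (adj L)(ζ⁻¹) / (4 V)`, where
`L(ζ) = ((ζ φ', -ψ'), (-ψ, ζ φ))`, `φ = V + β + Sg = T + p`, `φ' = V + β - Sg = p (T + m) / T`,
`ψ = V - β + Sg = T + m`, `ψ' = V - β - Sg = m (T + p) / T`. The determinant of `M` is `-M.q`.
-/

set_option autoImplicit false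

noncomputable section

namespace Pool.Agent.TInf

open Pool.Agent.ZCyc Polynomial
open Pool.Agent.VFP (Om tt)

universe u

section alg

/-- A side. -/
@[ext]
structure Side (K : Type*) where
  /-- `-B / 2 + β` -/
  p : K
  /-- `-B / 2 - β` -/
  m : K
  /-- the coordinate on the conic -/
  T : K

/-- The matrix `M`; the entries are polynomials in `θ`. -/
@[ext]
structure Mq (K : Type*) [Field K] where
  /-- the coefficient `a` -/
  a : K[X]
  /-- the coefficient `b` -/
  b : K[X]
  /-- the coefficient `c` -/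
  c : K[X]
  /-- the coefficient `t` -/
  t : K[X]

variable {K : Type*} [Field K]

/-- the point is not a zero or pole of `V` -/
def Side.Good (s : Side K) : Prop := s.T ≠ 0 ∧ s.T + s.p ≠ 0 ∧ s.T + s.m ≠ 0

/-- the coordinate `V` -/
def Side.V (s : Side K) : K := (s.T + s.p) * (s.T + s.m) / (2 * s.T)

/-- the coordinate `Sg` -/
def Side.Sg (s : Side K) : K := (s.T ^ 2 - s.p * s.m) / (2 * s.T)

/-- the matrix `((1, 0), (0, -1))` -/
def Mq.one : Mq K := ⟨1, 0, 0, 0⟩

/-- `L M (adj L)(ζ⁻¹) / (4 V)` -/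
def push (s : Side K) (M : Mq K) : Mq K where
  a := C ((s.p + s.m) / 2) * M.a + X * (C (s.p * (s.T + s.m) / (2 * (s.T + s.p))) * M.b -
    C (s.m * (s.T + s.p) / (2 * (s.T + s.m))) * M.c)
  b := C (s.p * s.m / s.T) * M.a + C (s.p ^ 2 * (s.T + s.m) / (2 * s.T * (s.T + s.p))) * M.b -
    C (s.m ^ 2 * (s.T + s.p) / (2 * s.T * (s.T + s.m))) * M.c -
    (1 - X) * C (s.p * s.m / s.T) * M.t
  c := -(C s.T * M.a) - C (s.T * (s.T + s.m) / (2 * (s.T + s.p))) * M.b +
    C (s.T * (s.T + s.p) / (2 * (s.T + s.m))) * M.c - (1 - X) * C s.T * M.t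
  t := C ((s.p - s.m) / 2) * M.t + C (s.p * (s.T + s.m) / (2 * (s.T + s.p))) * M.b +
    C (s.m * (s.T + s.p) / (2 * (s.T + s.m))) * M.c

/-- minus the determinant of `M` -/
def Mq.q (M : Mq K) : K[X] := M.a ^ 2 + X * M.b * M.c + X * (1 - X) * M.t ^ 2

/-- conjugation by a diagonal matrix -/
def Mq.rot (ρ : K) (M : Mq K) : Mq K := ⟨M.a, C ρ * M.b, C ρ⁻¹ * M.c, M.t⟩

/-- A configuration: an ordering of the labels `j < n` (the side at the place `a` has the label
`ord a`), square roots `β j` of `α j ³`, and the coordinates `T j`. -/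
@[ext]
structure Cfg (K : Type*) (n : ℕ) where
  /-- the ordering -/
  ord : Equiv.Perm (Fin n)
  /-- the square roots -/
  β : Fin n → K
  /-- the coordinates -/
  T : Fin n → K

variable {n : ℕ}

/-- the side with label `j` -/
def Cfg.side (B : Fin n → K) (c : Cfg K n) (j : Fin n) : Side K :=
  ⟨-B j / 2 + c.β j, -B j / 2 - c.β j, c.T j⟩

/-- the `β j` are square roots of `α j ³`, and the sides are good -/
def Cfg.Good (α B : Fin n → K) (c : Cfg K n) : Prop :=
  (∀ j, c.β j ^ 2 = α j ^ 3) ∧ ∀ j, (c.side B j).Good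

/-- the matrix of a configuration -/
def Cfg.M (B : Fin n → K) (c : Cfg K n) : Mq K :=
  ((List.finRange n).map fun a => c.side B (c.ord a)).foldr push Mq.one

end alg

/-- The points of the elliptic curves `y ² = x ³ - 3 α x + B`: affine points and `∞`. -/
abbrev EPt (K : Type*) := Option (K × K)

/-- the point is on the curve -/
def EOn {K : Type*} [Field K] (α B : K) : EPt K → Prop
  | none => True
  | some (x, y) => y ^ 2 = x ^ 3 - 3 * α * x + B

/-- the value of the point `P` at the place `v` is `p` -/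
def EVal {k : Type u} [Field k] (v : Place k (Om k)) : EPt (Om k) → EPt k → Prop
  | none, none => True
  | none, some _ => False
  | some (x, _), none => x ∉ v.ring
  | some (x, y), some (x', y') => v.At x x' ∧ v.At y y'

variable {k : Type u} [Field k] {n : ℕ} {W : Type*} [AddCommGroup W] [Module ℚ W]

/-- `f` is an odd function on the product of the `n` curves with `f = 0` if one point is `∞`, with
values in a space in which members of families over the line can be compared. -/
structure ClassFn (α B : Fin n → k) (f : (Fin n → EPt k) → W) : Prop where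
  odd : ∀ (p : Fin n → EPt k) (j : Fin n) (x y : k), p j = some (x, y) →
    f (Function.update p j (some (x, -y))) = -f p
  inf : ∀ (p : Fin n → EPt k) (j : Fin n), p j = none → f p = 0
  bridge : ∀ {I : Type} [Fintype I] (w : I → ℚ) (P : I → Fin n → EPt (Om k)),
    (∀ i j, EOn (algebraMap k (Om k) (α j)) (algebraMap k (Om k) (B j)) (P i j)) →
    ∀ (c₀ c₁ : k) (C₀ C₁ : W),
    (∀ v : Place k (Om k), v.At (tt k) c₀ → ∃ p : I → Fin n → EPt k,
      (∀ i j, EVal v (P i j) (p i j)) ∧ ∑ i, w i • f (p i) = C₀) →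
    (∀ v : Place k (Om k), v.At (tt k) c₁ → ∃ p : I → Fin n → EPt k,
      (∀ i j, EVal v (P i j) (p i j)) ∧ ∑ i, w i • f (p i) = C₁) → C₀ = C₁

/-- the point of `y ² = x ³ - 3 α x + B` with `x = μ + α / μ`, `μ = ζ ^ a w ²`, and
`y = Sg / w ³`, where `ζ` is a cube root of `1` -/
def epoint {K : Type*} [Field K] (ζ α : K) (s : Side K) (w : K) (a : ZMod 3) : EPt K :=
  some (ζ ^ a.val * w ^ 2 + α / (ζ ^ a.val * w ^ 2), s.Sg / w ^ 3)

/-- the sum of the values of `f` at the points with numbers `a j`, `∑ j, a j = l` -/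
def Sl (f : (Fin n → EPt k) → W) (ζ : k) (α : Fin n → k) (s : Fin n → Side k) (w : Fin n → k)
    (l : ZMod 3) : W :=
  ∑ a : Fin n → ZMod 3, if ∑ j, a j = l then f (fun j => epoint ζ (α j) (s j) (w j) (a j)) else 0

end Pool.Agent.TInf
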