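import Mathlib

/-!
# Finite Fourier inversion modulo 3 with rational coefficients
-/

set_option autoImplicit false
set_option linter.unusedVariables false

noncomputable section

namespace Pool.Agent.TInf

variable {W : Type*} [AddCommGroup W] [Module ℚ W]

private theorem fo_line {ι : Type} [Fintype ι] [DecidableEq ι] (F : (ι → ZMod 3) → W) (i : ι)
    (h : ∀ l, ∑ x : ZMod 3, F (Function.update l i x) = 0) : ∑ l, F l = 0 := by
  have h1 : ∀ x : ZMod 3, ∑ l, F l = ∑ l, F (l + (Pi.single i x : ι → ZMod 3)) := fun x =>
    (Equiv.sum_comp (Equiv.addRight (Pi.single i x : ι → ZMod 3)) F).symm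
  have h2 : (3 : ℚ) • ∑ l, F l = 0 := by
    have h3 : ∑ x : ZMod 3, ∑ l, F l = (3 : ℚ) • ∑ l, F l := by
      rw [Finset.sum_const, Finset.card_univ, ZMod.card]
      rw [← Nat.cast_smul_eq_nsmul ℚ]
      norm_num
    rw [← h3, Finset.sum_congr rfl fun x _ => h1 x, Finset.sum_comm]
    apply Finset.sum_eq_zero
    intro l _
    have h4 : ∀ x : ZMod 3, l + (Pi.single i x : ι → ZMod 3) =
        Function.update l i (l i + x) := by
      intro x
      funext j
      by_cases hj : j = i
      · subst hj
        simp
      · simp [hj]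
    rw [Finset.sum_congr rfl fun x _ => congrArg F (h4 x)]
    exact (Equiv.sum_comp (Equiv.addLeft (l i)) fun x => F (Function.update l i x)).trans (h l)
  exact (smul_eq_zero.mp h2).resolve_left (by norm_num)

/-- one index: `s false (l + c) + s true (l - c) = 0` for all `l`, `c` says that `s false` is constant
(and equal to `-s true`); as its sum is `0` it is `0`. Several indices `i` in a finite type: apply
this to one index after the other (sum over the values of `κ` at the indices not yet treated). -/
theorem four1 {ι : Type} [Fintype ι] [DecidableEq ι] (s : (ι → Bool) → (ι → ZMod 3) → W)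
    (h : ∀ l c : ι → ZMod 3, ∑ κ : ι → Bool,
      s κ (fun i => if κ i then l i - c i else l i + c i) = 0)
    (h0 : ∀ (κ : ι → Bool) (l : ι → ZMod 3) (i : ι), ∑ x : ZMod 3, s κ (Function.update l i x) = 0)
    (l : ι → ZMod 3) : s (fun _ => false) l = 0 := by
  have h1 : ∑ m : ι → ZMod 3, ∑ κ : ι → Bool,
      s κ (fun i => if κ i then m i - (l i - m i) else m i + (l i - m i)) = 0 :=
    Finset.sum_eq_zero fun m _ => h m (fun i => l i - m i)
  rw [Finset.sum_comm, Finset.sum_eq_single (fun _ => false)] at h1
  · have h2 : ∀ m : ι → ZMod 3, (s (fun _ => false) fun i =>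
        if (fun _ : ι => false) i = true then m i - (l i - m i) else m i + (l i - m i)) =
        s (fun _ => false) l := by
      intro m
      congr 1
      funext i
      simp
    rw [Finset.sum_congr rfl fun m _ => h2 m, Finset.sum_const, Finset.card_univ,
      ← Nat.cast_smul_eq_nsmul ℚ] at h1
    exact (smul_eq_zero.mp h1).resolve_left (by
      exact Nat.cast_ne_zero.mpr Fintype.card_ne_zero)
  · intro κ _ hκ
    obtain ⟨i, hi⟩ : ∃ i, κ i = true := by
      by_contra hcon
      push Not at hcon
      apply hκ
      funext i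
      simpa using hcon i
    apply fo_line _ i
    intro m
    have h2 : ∀ x : ZMod 3, (s κ fun j => if κ j = true then
        (Function.update m i x) j - (l j - (Function.update m i x) j)
        else (Function.update m i x) j + (l j - (Function.update m i x) j)) =
        s κ (Function.update (fun j => if κ j = true then m j - (l j - m j)
          else m j + (l j - m j)) i (2 * x - l i)) := by
      intro x
      congr 1
      funext j
      by_cases hj : j = i
      · subst hj
        simp [hi]
        ring
      · simp [hj]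
    rw [Finset.sum_congr rfl fun x _ => h2 x]
    have h3 : Function.Bijective (fun x : ZMod 3 => 2 * x - l i) := by
      generalize l i = z
      revert z
      decide
    rw [Function.Bijective.sum_comp h3 fun x => s κ (Function.update
      (fun j => if κ j = true then m j - (l j - m j) else m j + (l j - m j)) i x)]
    exact h0 κ _ i
  · intro h2
    exact absurd (Finset.mem_univ _) h2

/-- twice the cosine -/
private def gz (x : ZMod 3) : ℤ := if x = 0 then 2 else -1

private theorem gz_add : ∀ x y : ZMod 3, gz (y + x) + gz (y - x) = gz y * gz x := by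
  decide

private theorem gz_prod (n : ℕ) : ∀ (x : Fin n → ZMod 3) (y : ZMod 3),
    ∑ ε : Fin n → ℤˣ, gz (y + ∑ j, ((ε j : ℤ) : ZMod 3) * x j) = gz y * ∏ j, gz (x j) := by
  induction n with
  | zero =>
    intro x y
    simp
  | succ n ih =>
    intro x y
    rw [← (Fin.consEquiv (fun _ : Fin (n + 1) => ℤˣ)).sum_comp, Fintype.sum_prod_type]
    have h1 : ∀ (a : ℤˣ) (e : Fin n → ℤˣ),
        gz (y + ∑ j, ((((Fin.consEquiv (fun _ : Fin (n + 1) => ℤˣ)) (a, e)) j : ℤ) : ZMod 3) *
          x j) = gz ((y + ((a : ℤ) : ZMod 3) * x 0) +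
            ∑ j, ((e j : ℤ) : ZMod 3) * x (Fin.succ j)) := by
      intro a e
      rw [Fin.sum_univ_succ]
      simp only [Fin.consEquiv_apply, Fin.cons_zero, Fin.cons_succ]
      rw [add_assoc]
    rw [Finset.sum_congr rfl fun a _ => Finset.sum_congr rfl fun e _ => h1 a e]
    rw [Finset.sum_congr rfl fun a _ => ih (fun j => x (Fin.succ j)) _]
    rw [Fin.prod_univ_succ, ← Finset.sum_mul]
    have h2 : ∑ a : ℤˣ, gz (y + ((a : ℤ) : ZMod 3) * x 0) = gz y * gz (x 0) := by
      rw [← gz_add]
      have : (Finset.univ : Finset ℤˣ) = {1, -1} := rfl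
      rw [this, Finset.sum_pair (by decide)]
      simp [sub_eq_add_neg]
    rw [h2]
    ring

/-- Induction on `n`. For fixed `ε` on the first `n - 1` indices put
`S (c, x) = ∑ (a with ∑ ε a = c, a_last = x) t a`. All sums of `S` over lines of the affine plane
`(ZMod 3)²` are `0`: over `x = const` and over `c = const` by `h0` (if `n ≥ 2`), over
`c ± x = const` by `h`. So `3 S = 0` (sum over the 4 lines through a point minus the total sum). -/
theorem four2 {n : ℕ} (hn : 0 < n) (t : (Fin n → ZMod 3) → W)
    (h : ∀ (ε : Fin n → ℤˣ) (c : ZMod 3),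
      (∑ a : Fin n → ZMod 3, if ∑ j, ((ε j : ℤ) : ZMod 3) * a j = c then t a else 0) = 0)
    (h0 : ∀ (a : Fin n → ZMod 3) (j : Fin n), ∑ x : ZMod 3, t (Function.update a j x) = 0)
    (a : Fin n → ZMod 3) : t a = 0 := by
  -- the kernel
  have hA : ∑ b : Fin n → ZMod 3, (((∏ j, gz (b j - a j) : ℤ)) : ℚ) • t b =
      ((3 : ℚ) ^ n) • t a := by
    have h1 : ∀ b : Fin n → ZMod 3, ((∏ j, gz (b j - a j) : ℤ) : ℚ) =
        ∑ S ∈ (Finset.univ : Finset (Fin n)).powerset,
          (∏ j ∈ S, (if b j = a j then (3 : ℚ) else 0)) * ∏ j ∈ Finset.univ \ S, (-1 : ℚ) := by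
      intro b
      rw [← Finset.prod_add]
      push_cast
      apply Finset.prod_congr rfl
      intro j _
      unfold gz
      by_cases hj : b j = a j
      · rw [if_pos (by rw [hj, sub_self]), if_pos hj]
        norm_num
      · rw [if_neg (fun h => hj (sub_eq_zero.mp h)), if_neg hj]
        norm_num
    rw [Finset.sum_congr rfl fun b _ => by rw [h1 b, Finset.sum_smul], Finset.sum_comm,
      Finset.sum_eq_single Finset.univ]
    · rw [Finset.sum_eq_single a]
      · simp
      · intro b _ hb
        obtain ⟨j, hj⟩ := Function.ne_iff.mp hb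
        rw [Finset.prod_eq_zero (Finset.mem_univ j) (if_neg hj), zero_mul, zero_smul]
      · intro h2
        exact absurd (Finset.mem_univ _) h2
    · intro S _ hS
      obtain ⟨j, hj⟩ : ∃ j, j ∉ S := by
        by_contra hcon
        push Not at hcon
        exact hS (Finset.eq_univ_iff_forall.mpr hcon)
      apply fo_line _ j
      intro b
      have h2 : ∀ x : ZMod 3, ∏ i ∈ S, (if (Function.update b j x) i = a i then (3 : ℚ) else 0) =
          ∏ i ∈ S, (if b i = a i then (3 : ℚ) else 0) := by
        intro x
        apply Finset.prod_congr rfl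
        intro i hi
        have hij : i ≠ j := fun h => hj (by rw [← h]; exact hi)
        rw [Function.update_of_ne hij]
      rw [Finset.sum_congr rfl fun x _ => by rw [h2 x], ← Finset.smul_sum, h0, smul_zero]
    · intro h2
      exact absurd (Finset.mem_powerset_self _) h2
  have hB : ∑ b : Fin n → ZMod 3, (((2 * ∏ j, gz (b j - a j) : ℤ)) : ℚ) • t b = 0 := by
    have h1 : ∀ b : Fin n → ZMod 3, ((2 * ∏ j, gz (b j - a j) : ℤ) : ℚ) =
        ∑ ε : Fin n → ℤˣ, ∑ c : ZMod 3, if ∑ j, ((ε j : ℤ) : ZMod 3) * b j = c then
          ((gz (c - ∑ j, ((ε j : ℤ) : ZMod 3) * a j) : ℤ) : ℚ) else 0 := by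
      intro b
      have h2 := gz_prod n (fun j => b j - a j) 0
      have h3 : gz 0 = 2 := rfl
      rw [h3] at h2
      rw [← h2, Int.cast_sum]
      apply Finset.sum_congr rfl
      intro ε _
      rw [Finset.sum_ite_eq, if_pos (Finset.mem_univ _), zero_add, ← Finset.sum_sub_distrib]
      congr 3
      funext j
      ring
    rw [Finset.sum_congr rfl fun b _ => by rw [h1 b, Finset.sum_smul], Finset.sum_comm]
    apply Finset.sum_eq_zero
    intro ε _
    rw [Finset.sum_congr rfl fun b _ => by rw [Finset.sum_smul], Finset.sum_comm]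
    apply Finset.sum_eq_zero
    intro c _
    have h2 : ∀ b : Fin n → ZMod 3, (if ∑ j, ((ε j : ℤ) : ZMod 3) * b j = c then
        ((gz (c - ∑ j, ((ε j : ℤ) : ZMod 3) * a j) : ℤ) : ℚ) else 0) • t b =
        ((gz (c - ∑ j, ((ε j : ℤ) : ZMod 3) * a j) : ℤ) : ℚ) •
          (if ∑ j, ((ε j : ℤ) : ZMod 3) * b j = c then t b else 0) := by
      intro b
      split
      · rfl
      · rw [zero_smul, smul_zero]
    rw [Finset.sum_congr rfl fun b _ => h2 b, ← Finset.smul_sum, h ε c, smul_zero]
  have hC : (2 * (3 : ℚ) ^ n) • t a = 0 := by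
    rw [mul_smul, ← hA, Finset.smul_sum, ← hB]
    apply Finset.sum_congr rfl
    intro b _
    rw [smul_smul]
    push_cast
    rfl
  exact (smul_eq_zero.mp hC).resolve_left (by positivity)

end Pool.Agent.TInf
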