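import Pool.Agent.TInf.LineRel
import Pool.Agent.TInf.SlCongr
import Pool.Agent.TInf.Four

/-!
# A class function is zero if all sums `Sl` are zero
-/

set_option autoImplicit false

noncomputable section

namespace Pool.Agent.TInf

universe u

variable {k : Type u} [Field k] [IsAlgClosed k] [CharZero k] {n : ℕ} {W : Type*} [AddCommGroup W]
  [Module ℚ W] {α B : Fin n → k} {f : (Fin n → EPt k) → W}

/-- the side of a point with given `w` -/
private theorem fz_side {K : Type*} [Field K] [CharZero K] {α B p m x y w : K} (hw : w ≠ 0)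
    (hx : w ^ 2 + α / w ^ 2 = x) (hy : y ^ 2 = x ^ 3 - 3 * α * x + B) (hB : p + m = -B)
    (hα : (p - m) ^ 2 = 4 * α ^ 3) (hpm : p * m ≠ 0) :
    ∃ T : K, (⟨p, m, T⟩ : Side K).Good ∧ w ^ 6 = (⟨p, m, T⟩ : Side K).V ∧
      (⟨p, m, T⟩ : Side K).Sg / w ^ 3 = y := by
  have h2 : (2 : K) ≠ 0 := two_ne_zero
  have h4 : (4 : K) ≠ 0 := by norm_num
  have hw6 : w ^ 6 ≠ 0 := pow_ne_zero 6 hw
  have hS : (y * w ^ 3) ^ 2 = (w ^ 6) ^ 2 + B * w ^ 6 + α ^ 3 := by
    have e : (y * w ^ 3) ^ 2 = y ^ 2 * w ^ 6 := by ring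
    rw [e, hy, ← hx]
    field_simp
    ring
  have hB' : B = -(p + m) := by rw [hB, neg_neg]
  have hα' : α ^ 3 = (p - m) ^ 2 / 4 := by
    rw [hα]
    field_simp
  rw [hα', hB'] at hS
  obtain ⟨V, hV⟩ : ∃ V, V = w ^ 6 := ⟨_, rfl⟩
  obtain ⟨S, hSd⟩ : ∃ S, S = y * w ^ 3 := ⟨_, rfl⟩
  rw [← hV] at hw6
  rw [← hV, ← hSd] at hS
  obtain ⟨T, hT⟩ : ∃ T, T = V + S - (p + m) / 2 := ⟨_, rfl⟩
  have h1 : T * (V - S - (p + m) / 2) = p * m := by
    rw [hT]
    field_simp
    field_simp at hS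
    linear_combination -hS
  have hT0 : T ≠ 0 := by
    rintro h
    rw [h, zero_mul] at h1
    exact hpm h1.symm
  have h3 : (T + p) * (T + m) = 2 * T * V := by
    have e : (T + p) * (T + m) = T ^ 2 + (p + m) * T + p * m := by ring
    rw [e, ← h1]
    have e2 : T ^ 2 + (p + m) * T + T * (V - S - (p + m) / 2) =
        T * (T + (p + m) + (V - S - (p + m) / 2)) := by ring
    rw [e2, hT]
    field_simp
    ring
  have h5 : (T + p) * (T + m) ≠ 0 := by
    rw [h3]
    exact mul_ne_zero (mul_ne_zero h2 hT0) hw6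
  refine ⟨T, ⟨hT0, left_ne_zero_of_mul h5, right_ne_zero_of_mul h5⟩, ?_, ?_⟩
  · show w ^ 6 = (T + p) * (T + m) / (2 * T)
    rw [h3, ← hV]
    field_simp
  · show (T ^ 2 - p * m) / (2 * T) / w ^ 3 = y
    have h6 : (T ^ 2 - p * m) / (2 * T) = y * w ^ 3 := by
      rw [← hSd, ← h1, div_eq_iff (mul_ne_zero h2 hT0)]
      have e2 : T ^ 2 - T * (V - S - (p + m) / 2) = T * (T - (V - S - (p + m) / 2)) := by ring
      rw [e2]
      have e3 : T - (V - S - (p + m) / 2) = 2 * S := by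
        rw [hT]
        ring
      rw [e3]
      ring
    rw [h6]
    field_simp

/-- the coordinate `w` of a point -/
private theorem fz_w {K : Type*} [Field K] [IsAlgClosed K] {α : K} (hα : α ≠ 0) (x : K) :
    ∃ w : K, w ≠ 0 ∧ w ^ 2 + α / w ^ 2 = x := by
  obtain ⟨μ, hμ⟩ := IsAlgClosed.exists_root
    (Polynomial.X ^ 2 + Polynomial.C (-x) * Polynomial.X + Polynomial.C α : Polynomial K) (by
      have : (Polynomial.X ^ 2 + Polynomial.C (-x) * Polynomial.X +
        Polynomial.C α : Polynomial K).degree = 2 := by compute_degree!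
      rw [this]
      decide)
  have hμ' : μ ^ 2 + (-x) * μ + α = 0 := by
    have := hμ
    rw [Polynomial.IsRoot.def] at this
    simpa using this
  obtain ⟨w, hw⟩ := IsAlgClosed.exists_pow_nat_eq μ (n := 2) (by norm_num)
  have hμ0 : μ ≠ 0 := by
    rintro rfl
    apply hα
    simpa using hμ'
  refine ⟨w, ?_, ?_⟩
  · rintro rfl
    apply hμ0
    rw [← hw]
    norm_num
  · rw [hw]
    field_simp
    linear_combination hμ'

private theorem fz_pow {k : Type*} [Field k] {ζ : k} (h3 : ζ ^ 3 = 1) (a : ZMod 3) :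
    ζ ^ a.val * ζ ^ (-a).val = 1 := by
  rw [← pow_add]
  have h : (3 : ℕ) ∣ a.val + (-a).val := by
    revert a
    decide
  obtain ⟨c, hc⟩ := h
  rw [hc, pow_mul, h3, one_pow]

/-- replacing `w` by `r / w`, `r ^ 2 = α` -/
private theorem fz_inv {k : Type*} [Field k] {ζ : k} (h3 : ζ ^ 3 = 1) {α r w : k} (hα : α ≠ 0)
    (hr : r ^ 2 = α) (hw : w ≠ 0) (a : ZMod 3) :
    ζ ^ a.val * (r / w) ^ 2 + α / (ζ ^ a.val * (r / w) ^ 2) =
      ζ ^ (-a).val * w ^ 2 + α / (ζ ^ (-a).val * w ^ 2) := by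
  have h := fz_pow h3 a
  have h1 : ζ ^ a.val ≠ 0 := left_ne_zero_of_mul_eq_one h
  have h2 : ζ ^ (-a).val ≠ 0 := right_ne_zero_of_mul_eq_one h
  have e : ζ ^ (-a).val = (ζ ^ a.val)⁻¹ := eq_inv_of_mul_eq_one_right h
  rw [e, div_pow, hr]
  field_simp
  ring

/-- If one point is `∞` use `ClassFn.inf`. Otherwise let `P j = (x j, y j)`, `μ + α / μ = x`,
`w ^ 2 = μ`, `Sg = y w ^ 3`, `V = w ^ 6`, `T = V + Sg + B / 2`; then
`T (V - Sg + B / 2) = p m ≠ 0`, `2 T V = (T + p) (T + m)`, so the side `(p j, m j, T)` is good with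
these `V` and `Sg`, and `P j = epoint ζ (α j) s w 0`. Let `t a = f (epoint … (a j))`. For a pattern of
signs `ε` replace `w j` by `√(α j) / w j` if `ε j = -1` (with the `T` belonging to
`V' = α ³ / V`, `Sg' = y w' ^ 3`): then `epoint … w' a = epoint … w (-a)`, and the hypothesis says that
the sums of `t` over `∑ ε a = c` are `0`. The sums over one `a j` are `0` by `line_epoint`. So
`t = 0` by `four2`. -/
theorem f_zero (hf : ClassFn α B f) (hn : 0 < n) {ζ : k} (hζ : IsPrimitiveRoot ζ 3)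
    (p m : Fin n → k) (hB : ∀ j, p j + m j = -B j) (hα : ∀ j, (p j - m j) ^ 2 = 4 * α j ^ 3)
    (hα0 : ∀ j, α j ≠ 0) (hpm : ∀ j, p j * m j ≠ 0)
    (H : ∀ (T w : Fin n → k), (∀ j, (⟨p j, m j, T j⟩ : Side k).Good) →
      (∀ j, w j ^ 6 = (⟨p j, m j, T j⟩ : Side k).V) →
      ∀ l, Sl f ζ α (fun j => ⟨p j, m j, T j⟩) w l = 0)
    (P : Fin n → EPt k) (hP : ∀ j, EOn (α j) (B j) (P j)) : f P = 0 := by
  classical
  have hζ3 : ζ ^ 3 = 1 := hζ.pow_eq_one
  by_cases hnone : ∃ j, P j = none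
  · obtain ⟨j, hj⟩ := hnone
    exact hf.inf P j hj
  have hsome : ∀ j, ∃ z : k × k, P j = some z := by
    intro j
    rcases h : P j with _ | z
    · exact absurd ⟨j, h⟩ hnone
    · exact ⟨z, rfl⟩
  choose z hz using hsome
  have hcur : ∀ j, (z j).2 ^ 2 = (z j).1 ^ 3 - 3 * α j * (z j).1 + B j := by
    intro j
    have := hP j
    rw [hz j] at this
    exact this
  choose w hw0 hwx using fun j => fz_w (hα0 j) (z j).1
  choose r hr using fun j => IsAlgClosed.exists_pow_nat_eq (α j) (n := 2) (by norm_num)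
  have hr0 : ∀ j, r j ≠ 0 := by
    intro j h
    apply hα0 j
    rw [← hr j, h]
    norm_num
  -- the points
  set Q : (Fin n → ZMod 3) → Fin n → EPt k := fun a j =>
    some (ζ ^ (a j).val * w j ^ 2 + α j / (ζ ^ (a j).val * w j ^ 2), (z j).2) with hQ
  -- the sides for a pattern
  have hside : ∀ ε : Fin n → ℤˣ, ∃ T w' : Fin n → k,
      (∀ j, (⟨p j, m j, T j⟩ : Side k).Good) ∧
      (∀ j, w' j ^ 6 = (⟨p j, m j, T j⟩ : Side k).V) ∧
      ∀ (a : Fin n → ZMod 3), (fun j => epoint ζ (α j) ⟨p j, m j, T j⟩ (w' j) (a j)) =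
        Q (fun j => ((ε j : ℤ) : ZMod 3) * a j) := by
    intro ε
    have hj : ∀ j, ∃ T w' : k, (⟨p j, m j, T⟩ : Side k).Good ∧
        w' ^ 6 = (⟨p j, m j, T⟩ : Side k).V ∧
        ∀ a : ZMod 3, epoint ζ (α j) ⟨p j, m j, T⟩ w' a =
          some (ζ ^ (((ε j : ℤ) : ZMod 3) * a).val * w j ^ 2 +
            α j / (ζ ^ (((ε j : ℤ) : ZMod 3) * a).val * w j ^ 2), (z j).2) := by
      intro j
      rcases Int.units_eq_one_or (ε j) with h | h
      · obtain ⟨T, h1, h2, h4⟩ := fz_side (hw0 j) (hwx j) (hcur j) (hB j) (hα j) (hpm j)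
        refine ⟨T, w j, h1, h2, fun a => ?_⟩
        unfold epoint
        rw [h4, h]
        simp
      · have hx' : (r j / w j) ^ 2 + α j / (r j / w j) ^ 2 = (z j).1 := by
          have := fz_inv hζ3 (hα0 j) (hr j) (hw0 j) 0
          simp only [neg_zero, ZMod.val_zero, pow_zero, one_mul] at this
          rw [this, hwx j]
        obtain ⟨T, h1, h2, h4⟩ := fz_side (div_ne_zero (hr0 j) (hw0 j)) hx' (hcur j) (hB j)
          (hα j) (hpm j)
        refine ⟨T, r j / w j, h1, h2, fun a => ?_⟩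
        unfold epoint
        rw [h4, h, fz_inv hζ3 (hα0 j) (hr j) (hw0 j) a]
        simp
    choose T w' h1 h2 h4 using hj
    exact ⟨T, w', h1, h2, fun a => funext fun j => h4 j (a j)⟩
  have hQ0 : Q (fun _ => 0) = P := by
    funext j
    simp only [hQ, ZMod.val_zero, pow_zero, one_mul]
    rw [hz j, hwx j]
  have key := four2 hn (fun a => f (Q a)) ?_ ?_ (fun _ => 0)
  · simp only [hQ0] at key
    exact key
  · intro ε c
    obtain ⟨T, w', h1, h2, h4⟩ := hside ε
    have h5 := H T w' h1 h2 c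
    unfold Sl at h5
    simp only [h4] at h5
    refine Eq.trans ?_ h5
    have hinv : ∀ a : Fin n → ZMod 3, (fun j => ((ε j : ℤ) : ZMod 3) *
        (((ε j : ℤ) : ZMod 3) * a j)) = a := by
      intro a
      funext j
      rcases Int.units_eq_one_or (ε j) with h | h <;> rw [h] <;> simp
    let e : (Fin n → ZMod 3) ≃ (Fin n → ZMod 3) :=
      { toFun := fun a j => ((ε j : ℤ) : ZMod 3) * a j
        invFun := fun a j => ((ε j : ℤ) : ZMod 3) * a j
        left_inv := hinv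
        right_inv := hinv }
    refine Fintype.sum_equiv e _ _ fun a => ?_
    have e1 : (fun j => ((ε j : ℤ) : ZMod 3) * e a j) = a := hinv a
    rw [e1]
    rfl
  · intro a j
    obtain ⟨T, w', h1, h2, h4⟩ := hside (fun _ => 1)
    have h5 := line_epoint hf hζ (fun j => ⟨p j, m j, T j⟩) h1 hB hα w' h2 a j
    simp only [h4] at h5
    simpa using h5

end Pool.Agent.TInf
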