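import Pool.Agent.TInf.FamDefs

/-!
# The square roots over `Om k`
-/

set_option autoImplicit false

noncomputable section

namespace Pool.Agent.TInf

open Pool.Agent.ZCyc Polynomial
open Pool.Agent.VFP (Om tt)

universe u

variable {k : Type u} [Field k] [IsAlgClosed k] [CharZero k] {n : ℕ}

omit [IsAlgClosed k] [CharZero k] in
private theorem ev_at (p : k[X]) {v : Place k (Om k)} {S : Fin n → Om k} {s : Fin n → k}
    {π : Equiv.Perm (Fin n)} (h : ∀ j, v.At (S j) (s (π j))) (j : Fin n) :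
    v.At (ev p S j) (ev p (s ∘ π) j) := by
  have h1 := (h j).aeval p
  unfold ev
  rwa [Polynomial.coe_aeval_eq_eval]

/-- The square roots over `Om k`: in the isotrivial case `B ² = c α ³` take `γ B`, `γ ² c = 1`. -/
theorem exists_beta {α B : k[X]} {s : Fin n → k}
    (h : (∀ j j', j ≠ j' → ev B s j ^ 2 * ev α s j' ^ 3 ≠ ev B s j' ^ 2 * ev α s j ^ 3) ∨
      ∃ c : k, c ≠ 0 ∧ B ^ 2 = C c * α ^ 3) (S : Fin n → Om k) :
    ∃ β' : Fin n → Om k, (∀ j, β' j ^ 2 = ev α S j ^ 3) ∧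
      ∀ (v : Place k (Om k)) (π : Equiv.Perm (Fin n)), (∀ j, v.At (S j) (s (π j))) →
        ∀ β : Fin n → k, (∀ j, v.At (β' j) (β j)) → Adm (ev α (s ∘ π)) (ev B (s ∘ π)) β := by
  have key : ∀ (β' : Fin n → Om k), (∀ j, β' j ^ 2 = ev α S j ^ 3) →
      ∀ (v : Place k (Om k)) (π : Equiv.Perm (Fin n)), (∀ j, v.At (S j) (s (π j))) →
        ∀ β : Fin n → k, (∀ j, v.At (β' j) (β j)) → ∀ j, β j ^ 2 = ev α (s ∘ π) j ^ 3 := by
    intro β' h1 v π hS β hβ j
    have h2 : v.At (β' j ^ 2) (β j ^ 2) := (hβ j).pow 2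
    rw [h1 j] at h2
    exact h2.unique ((ev_at α hS j).pow 3)
  rcases h with h | ⟨c, hc, h⟩
  · have hsq : ∀ j, ∃ b : Om k, b ^ 2 = ev α S j ^ 3 := fun j =>
      IsAlgClosed.exists_pow_nat_eq _ (by norm_num)
    choose β' hβ' using hsq
    refine ⟨β', hβ', fun v π hS β hβ => ⟨key β' hβ' v π hS β hβ, Or.inl ?_⟩⟩
    intro i j hij
    exact h (π i) (π j) fun h0 => hij (π.injective h0)
  · obtain ⟨γ, hγ⟩ : ∃ γ : k, γ ^ 2 = c⁻¹ := IsAlgClosed.exists_pow_nat_eq _ (by norm_num)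
    have hβ' : ∀ j, (algebraMap k (Om k) γ * ev B S j) ^ 2 = ev α S j ^ 3 := by
      intro j
      have h1 : ev B S j ^ 2 = algebraMap k (Om k) c * ev α S j ^ 3 := by
        unfold ev
        rw [← map_pow, h, map_mul, aeval_C, map_pow]
      rw [mul_pow, h1, ← map_pow, hγ, ← mul_assoc, ← map_mul, inv_mul_cancel₀ hc, map_one, one_mul]
    refine ⟨fun j => algebraMap k (Om k) γ * ev B S j, hβ', fun v π hS β hβ =>
      ⟨key _ hβ' v π hS β hβ, Or.inr ?_⟩⟩
    have hβ2 : ∀ j, β j = γ * ev B (s ∘ π) j := fun j =>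
      (hβ j).unique ((Place.at_const γ).mul (ev_at B hS j))
    intro i j
    rw [hβ2 i, hβ2 j]
    ring

end Pool.Agent.TInf
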