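import Pool.Agent.TInf.GGStart
import Pool.Agent.TInf.GGEnd
import Pool.Agent.TInf.FamRoots
import Pool.Agent.TInf.FamInf
import Pool.Agent.TInf.FamState
import Pool.Agent.TInf.FamBeta
import Pool.Agent.VFP.Conic

/-!
# The sum over the points with the same closing data
-/

set_option autoImplicit false

noncomputable section

namespace Pool.Agent.TInf

open Pool.Agent.ZCyc Polynomial
open Pool.Agent.VFP (Om tt)

universe u

variable {k : Type u} [Field k] [IsAlgClosed k] [CharZero k] {r n : ℕ} {α B : Fin r → k[X]}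
  {W : Type*} [AddCommGroup W] [Module ℚ W]

omit [IsAlgClosed k] [CharZero k] in
private theorem mo_eval_one (τ : Om k) (A : k[X][X]) :
    (A.map (aeval τ : k[X] →ₐ[k] Om k).toRingHom).eval 1 = aeval τ (A.eval 1) := by
  rw [eval_map]
  have h := eval₂_hom (p := A) (aeval τ : k[X] →ₐ[k] Om k).toRingHom 1
  rw [map_one] at h
  exact h

omit [CharZero k] in
private theorem nm_ev {α l h : k[X]} {τ : Om k} {S : Fin n → Om k}
    (hS : l.map (algebraMap k (Om k)) + C τ * h.map (algebraMap k (Om k)) =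
      ∏ j, (X - C (S j))) :
    aeval τ (Nm n α (l.map C + C X * h.map C)) = ∏ j, ev α S j := by
  rw [Nm_map, Polynomial.map_add, Polynomial.map_mul, Polynomial.map_map, Polynomial.map_map,
    map_C]
  have h1 : (aeval τ : k[X] →ₐ[k] Om k).toRingHom.comp C = algebraMap k (Om k) := by
    ext x
    simp
  have h2 : (aeval τ : k[X] →ₐ[k] Om k).toRingHom X = τ := by simp
  rw [h1, h2, hS, Nm_eq_prod]
  rfl

omit [IsAlgClosed k] [CharZero k] in
private theorem at_aeval {v : Place k (Om k)} {τ : Om k} (hτ : v.At τ 0) (p : k[X]) :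
    v.At (aeval τ p) (p.eval 0) := by
  induction p using Polynomial.induction_on' with
  | add p q hp hq =>
    rw [map_add, eval_add]
    exact hp.add hq
  | monomial m a =>
    rw [aeval_monomial, eval_monomial]
    exact (Place.at_const a).mul (hτ.pow m)

/-- Let `l₀ = ∏ (X - s j)`, `θ j = thv j`, `Y₀ = ∏ Θ i`. Apply `krull` to `α`, `halfB B`, `l₀`, the
entries of the `M i` (`krull_start`), `x = Ξ`, `y = Y₀`. Let `δ` be a zero of a discriminant
(`hd.zero`); it is not one of the `s j`. If `h(δ) ≠ 0` use `conic` with `τ₁ = -l₀(δ) / h(δ)`, otherwise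
`conic_inf`. Let `S` be as in `exists_S`, `Mo i = mo τ ..` (`isSt_mo`), `Ξ' i = aeval τ (x' i)`, `Θ'` as in
`exists_sqrts` (`y = ρ * aeval τ y'`), `w'` as in `exists_W`, `β'` as in `exists_beta`. Apply
`Y.bridge` to the family `Pts` with the index `(κ, a)` and the weight `1` if `∑ j, a i j = l i` for
all `i` and `0` otherwise: at `c₀` use `S_at`, `perm_of_prod`, `mat_mo`, `GG_start`; at `c₁` all values are
zero, by `Y.sing` and `S_at` or `S_inf` (if `h ≠ 0`) or by `GG_end` (if `h = 0`). -/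
theorem GG_sum (Y : Sys k r n α B W) {d : Fin r → ℕ} (hd : DegOk n d α B) {ζ : k}
    (hζ : IsPrimitiveRoot ζ 3) {s : Fin n → k} (hs : Gen α B s) {M : Fin r → Mq k}
    (hSt : ∀ i, IsSt (ev (α i) s) (ev (B i) s) (M i)) {Ξ Θ : Fin r → k}
    {w : Bool → Fin r → k} (hC : ∀ b i, Clo (ev (α i) s) (M i) (Ξ i) (Θ i) (w b i))
    (hw1 : ∀ i, w false i ^ 2 + w true i ^ 2 = Ξ i)
    (hw2 : ∀ i, w false i ^ 2 * w true i ^ 2 = ∏ j, ev (α i) s j) (hΘ : ∀ i, Θ i ≠ 0)
    (l : Fin r → ZMod 3) :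
    ∑ κ : Fin r → Bool, GG Y ζ s M Θ (fun i => w (κ i) i) l = 0 := by
  classical
  obtain ⟨i₀, δ, hδ⟩ := hd.zero
  have hr : 0 < r := i₀.pos
  have hn := hd.npos
  have hsδ : ∀ j, s j ≠ δ := by
    intro j hj
    apply (hs.nd i₀).disc j
    simp only [ev, hj, coe_aeval_eq_eval]
    exact hδ
  obtain ⟨l₀, hl₀⟩ : ∃ l₀ : k[X], l₀ = ∏ j, (X - C (s j)) := ⟨_, rfl⟩
  have hl₀δ : l₀.eval δ ≠ 0 := by
    rw [hl₀, eval_prod, Finset.prod_ne_zero_iff]
    intro j _
    rw [eval_sub, eval_X, eval_C]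
    exact sub_ne_zero.2 (hsδ j).symm
  have hnm : ∀ i, Nm n (α i) l₀ = ∏ j, ev (α i) s j := by
    intro i
    rw [hl₀, Nm_eq_prod]
    rfl
  obtain ⟨h, A', P', M', G', x', y', q, hh, dA, dP, dM, dG, eA, eP, eM, eG, ex, ey, q0, dq, z0,
      z1, z2, z3⟩ :=
    krull (α := α) (b := fun i => halfB (B i)) (A := fun i => (M i).a) (P := fun i => (M i).b)
      (M := fun i => (M i).c) (G := fun i => (M i).t) (x := Ξ) (y := ∏ i, Θ i) hd.sum hn le_rfl
      hd.dα (fun i => (natDegree_C_mul_le _ _).trans (hd.dB i)) l₀ (fun i => (hSt i).deg.a)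
      (fun i => (hSt i).deg.b) (fun i => (hSt i).deg.c) (fun i => (hSt i).deg.t)
      (Finset.prod_ne_zero_iff.2 fun i _ => hΘ i) thv
      (fun i => by rw [hl₀]; exact (krull_start (hSt i)).1)
      (fun i j => by rw [hl₀]; exact (krull_start (hSt i)).2 j)
      (by
        rw [← Finset.prod_pow]
        refine Finset.prod_congr rfl fun i _ => ?_
        rw [(hC false i).th, hnm])
  obtain ⟨τ, ρ, c₀, c₁, hρ, hc₀, hc₁⟩ : ∃ (τ ρ : Om k) (c₀ c₁ : k), ρ ^ 2 = aeval τ q ∧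
      (∀ v : Place k (Om k), v.At (tt k) c₀ → v.At τ 0 ∧ v.At ρ 1) ∧
      ∀ v : Place k (Om k), v.At (tt k) c₁ →
        (∃ τ₁ : k, v.At τ τ₁ ∧ (l₀ + C τ₁ * h).eval δ = 0) ∨ (τ ∉ v.ring ∧ h.eval δ = 0) := by
    by_cases hhδ : h.eval δ = 0
    · obtain ⟨τ, ρ, c₀, c₁, h1, h2, h3⟩ := VFP.conic_inf q dq q0
      exact ⟨τ, ρ, c₀, c₁, h1, h2, fun v hv => Or.inr ⟨h3 v hv, hhδ⟩⟩
    · obtain ⟨τ, ρ, c₀, c₁, h1, h2, h3⟩ := VFP.conic q dq q0 (-(l₀.eval δ) / h.eval δ)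
        (div_ne_zero (neg_ne_zero.2 hl₀δ) hhδ)
      refine ⟨τ, ρ, c₀, c₁, h1, h2, fun v hv => Or.inl ⟨_, h3 v hv, ?_⟩⟩
      rw [eval_add, eval_mul, eval_C, div_mul_cancel₀ _ hhδ, add_neg_cancel]
  obtain ⟨S, hS, hS0⟩ := exists_S s hh τ
  rw [← hl₀] at hS
  obtain ⟨Mo, hMo⟩ : ∃ Mo : Fin r → Mq (Om k), Mo = fun i => mo τ (A' i) (P' i) (M' i) (G' i) :=
    ⟨_, rfl⟩
  have hSt' : ∀ i, IsSt (ev (α i) S) (ev (B i) S) (Mo i) := by
    intro i
    rw [hMo]
    exact isSt_mo τ hS (dA i) (dP i) (dM i) (dG i) (z0 i) (z1 i)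
  obtain ⟨Θ', hΘ'2, hΘ'p⟩ := exists_sqrts hr (y := ρ * aeval τ y')
    (m := fun i => (aeval τ (x' i)) ^ 3 - 3 * (∏ j, ev (α i) S j) * aeval τ (x' i) -
      2 * (Mo i).a.eval 1) (by
      have h1 := congrArg (aeval τ : k[X] →ₐ[k] Om k) z2
      rw [map_mul, map_pow, map_prod, ← hρ, ← mul_pow] at h1
      rw [h1]
      refine Finset.prod_congr rfl fun i _ => ?_
      simp only [map_sub, map_mul, map_pow, map_ofNat, nm_ev hS]
      rw [hMo]
      simp only [mo, mo_eval_one])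
  choose w₀ hw₀1 hw₀2 using fun i => exists_W (aeval τ (x' i)) (∏ j, ev (α i) S j)
  obtain ⟨w', hw'⟩ : ∃ w' : Bool → Fin r → Om k, w' = fun b i => w₀ i b := ⟨_, rfl⟩
  choose β' hβ' hβA using fun i => exists_beta (hs.iso i) S
  -- the state at a place above `c₀`
  have hmat : ∀ v : Place k (Om k), v.At (tt k) c₀ → ∀ i, MAt v (Mo i) (M i) := by
    intro v hv i
    rw [hMo]
    have h1 := mat_mo (hc₀ v hv).1 (A' i) (P' i) (M' i) (G' i)
    rw [eA, eP, eM, eG] at h1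
    exact h1
  -- the family
  refine Y.bridge (I := (Fin r → Bool) × (Fin r → Fin n → ZMod 3))
    (fun x => if ∀ i, ∑ j, x.2 i j = l i then (1 : ℚ) else 0) (fun _ => S)
    (fun x => Pts ζ α B S (famM Mo Θ' w' x.1) (fun i => w' (x.1 i) i) β' x.2)
    (fun x => Pts_on hζ _ _ _ _ _) c₀ c₁ _ 0 ?_ ?_
  · intro v hv
    obtain ⟨hτ0, hρ1⟩ := hc₀ v hv
    obtain ⟨s', hs', he⟩ := S_at (by rw [← hl₀]; exact hS) hτ0
    rw [C_0, zero_mul, add_zero] at he
    obtain ⟨π, rfl⟩ := perm_of_prod he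
    refine GG_start Y hζ hn hs hC hw1 hw2 hΘ (π := π) hs' hSt' (hmat v hv)
      (Ξ' := fun i => aeval τ (x' i)) (fun i => ?_) hΘ'2 ?_ (fun i => ?_) (fun i => ?_) hβ'
      (fun i β hβ => hβA i v π hs' β hβ) l
    · rw [← ex i]
      exact at_aeval hτ0 _
    · rw [hΘ'p, ← ey, ← one_mul (y'.eval 0)]
      exact hρ1.mul (at_aeval hτ0 _)
    · rw [hw']
      exact hw₀1 i
    · rw [hw']
      exact hw₀2 i
  · intro v hv
    refine ⟨fun _ => 0, fun x => ?_, by simp⟩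
    rcases hc₁ v hv with ⟨τ₁, hτ₁, h0⟩ | ⟨hτ, h0⟩
    · obtain ⟨s', hs', he⟩ := S_at (by rw [← hl₀]; exact hS) hτ₁
      rw [← hl₀] at he
      rw [he, eval_prod, Finset.prod_eq_zero_iff] at h0
      obtain ⟨j, -, hj⟩ := h0
      rw [eval_sub, eval_X, eval_C, sub_eq_zero] at hj
      refine Y.sing v S _ (Pts_on hζ _ _ _ _ _) i₀ j δ ?_ hδ
      rw [hj]
      exact hs' j
    · by_cases hh0 : h = 0
      · obtain ⟨v₀, hv₀⟩ := exists_place (VFP.tt_transc (k := k)) c₀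
        have hmo : ∀ i, Mo i = mo τ (A' i) (P' i) (M' i) (G' i) := fun i => by rw [hMo]
        have hcl : ∀ b i, Clo (ev (α i) S) (mo τ (A' i) (P' i) (M' i) (G' i)) (aeval τ (x' i))
            (Θ' i) (w' b i) := by
          intro b i
          rw [← hmo]
          rw [hw']
          refine clo_om (w' := w₀ i) (hSt' i) (hmat v₀ hv₀ i) (hC false i).ne (hw₀1 i) (hw₀2 i)
            (fun j => ?_) (hΘ'2 i) b
          rw [hS0 hh0]
          have h2 := (hs.nd i).hα j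
          simp only [ev] at h2 ⊢
          rw [aeval_algebraMap_apply]
          exact (_root_.map_ne_zero _).2 h2
        rw [hMo]
        refine GG_end Y hζ hn hs (Ξ := Ξ) (Θ := Θ) (fun i => (hC false i).ne) hτ eA eP eM eG ex
          (fun hcon => z3 ⟨hh0, hcon⟩) (hS0 hh0) (fun i => ?_) hcl hβ' x
        rw [← hmo]
        exact hSt' i
      · obtain ⟨j, hj⟩ := S_inf (by rw [← hl₀]; exact hS) hτ hh0 h0 hsδ
        exact Y.sing v S _ (Pts_on hζ _ _ _ _ _) i₀ j δ hj hδ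

end Pool.Agent.TInf
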