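import Pool.Agent.VFP.Bridge

/-!
# Zero-cycles on the powers of a fibre product of elliptic fibrations: definitions

`D : Dat k N r` (see `Pool.Agent.VFP.Defs`) are the data of a variety `X` of dimension `N + 1`.
-/

set_option autoImplicit false

noncomputable section

namespace Pool.Agent.TInf

open Pool.Agent.ZCyc Pool.Agent.VFP

universe u

variable {k : Type u} [Field k] {N r : ℕ}

/-- The assumptions of the core theorem: the sum of the degrees is `2 n`, where `n - 1` is the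
geometric genus, and the coefficients `A_i` and `B_i` and the discriminants are not zero. -/
structure Good (D : Dat k N r) (n : ℕ) : Prop where
  npos : 0 < n
  pos : ∀ b, 0 < ∑ i with D.blk i = b, D.deg i
  sum : ∑ i, D.deg i = 2 * n
  even : ∀ b, Even (∑ i with D.blk i = b, D.deg i)
  homA : ∀ i, (D.A i).IsHomogeneous (2 * D.deg i)
  homB : ∀ i, (D.B i).IsHomogeneous (3 * D.deg i)
  disc : ∀ i, 4 * D.A i ^ 3 + 27 * D.B i ^ 2 ≠ 0
  nzA : ∀ i, D.A i ≠ 0
  nzB : ∀ i, D.B i ≠ 0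

/-- The zero-cycles on `X ^ n` which are rationally equivalent to zero, see
`Pool.Agent.VFP.Dat.ratEq` for `n = 2`. -/
def ratN (D : Dat k N r) (n : ℕ) : Submodule ℚ ((Fin n → Crd N r k) →₀ ℚ) :=
  Submodule.span ℚ {z | ∃ (l : ℕ) (P : Fin l → Fin n → Crd N r (Om k)) (a b : k)
    (v w : Place k (Om k)) (p q : Fin l → Fin n → Crd N r k),
    (∀ i j, D.OnX (P i j)) ∧
    (∀ g : Om k ≃ₐ[RatFunc k] Om k, ∃ e : Equiv.Perm (Fin l), ∀ i j,
      P (e i) j = (P i j).map g) ∧
    v.Vanishes (tt k - algebraMap k (Om k) a) ∧ w.Vanishes (tt k - algebraMap k (Om k) b) ∧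
    (∀ i j, D.OnX (p i j) ∧ D.IsValue v (P i j) (p i j)) ∧
    (∀ i j, D.OnX (q i j) ∧ D.IsValue w (P i j) (q i j)) ∧
    z = ∑ i, (Finsupp.single (p i) 1 - Finsupp.single (q i) 1)}

/-- zero-cycles on `X ^ n` modulo rational equivalence -/
abbrev VN (D : Dat k N r) (n : ℕ) : Type u := ((Fin n → Crd N r k) →₀ ℚ) ⧸ ratN D n

/-- the class of an `n`-tuple of points -/
def cN (D : Dat k N r) {n : ℕ} (w : Fin n → Crd N r k) : VN D n :=
  Submodule.Quotient.mk (Finsupp.single w 1)

/-- the product of the signs -/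
def snN {n : ℕ} (ε : Fin n → Fin r → ℤˣ) : ℚ := ∏ j, sn (ε j)

/-- `{w 0} × ⋯ × {w (n - 1)}`, where `{w}` is the alternating sum over all changes of signs -/
def TN (D : Dat k N r) {n : ℕ} (w : Fin n → Crd N r k) : VN D n :=
  ∑ ε : Fin n → Fin r → ℤˣ, snN ε • cN D fun j => sg (ε j) (w j)

/-- the alternating (`N` odd) or symmetric (`N` even) sum over all permutations -/
def AN (D : Dat k N r) {n : ℕ} (w : Fin n → Crd N r k) : VN D n :=
  ∑ τ : Equiv.Perm (Fin n), ((Equiv.Perm.sign τ : ℤ) : ℚ) ^ N • TN D (w ∘ τ)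

end Pool.Agent.TInf
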