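import Pool.Agent.TInf.GeoSing

/-!
# The classes `AN`
-/

set_option autoImplicit false

noncomputable section

namespace Pool.Agent.TInf

open Pool.Agent.ZCyc Pool.Agent.VFP Polynomial

universe u

variable {k : Type u} [Field k] {N r n : ℕ} {D : Dat k N r} {l : ℕ}

theorem AN_perm (w : Fin l → Crd N r k) (π : Equiv.Perm (Fin l)) :
    AN D (w ∘ π) = ((Equiv.Perm.sign π : ℤ) : ℚ) ^ N • AN D w := by
  unfold AN
  rw [Finset.smul_sum]
  refine Fintype.sum_equiv (Equiv.mulLeft π) _ _ fun τ => ?_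
  rw [Equiv.coe_mulLeft, smul_smul, Equiv.Perm.sign_mul, Units.val_mul, Int.cast_mul, mul_pow,
    ← mul_assoc, ← mul_pow]
  have h1 : ((Equiv.Perm.sign π : ℤ) : ℚ) * ((Equiv.Perm.sign π : ℤ) : ℚ) = 1 := by
    rw [← Int.cast_mul, ← Units.val_mul, Int.units_mul_self]
    simp
  rw [h1, one_pow, one_mul]
  rfl

/-- the class `AN` of the values of the tuple `P` at `v` is `C` -/
def VAN (D : Dat k N r) {l : ℕ} (v : Place k (Om k)) (P : Fin l → Crd N r (Om k)) (C : VN D l) :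
    Prop :=
  ∃ p : Fin l → Crd N r k, (∀ j, D.OnX (p j)) ∧ (∀ j, D.IsValue v (P j) (p j)) ∧ AN D p = C

variable [IsAlgClosed k] [CharZero k]

theorem AN_sg (w : Fin l → Crd N r k) (j : Fin l) (ε : Fin r → ℤˣ) :
    AN D (Function.update w j (sg ε (w j))) = sn ε • AN D w := by
  unfold AN
  rw [Finset.smul_sum]
  refine Finset.sum_congr rfl fun τ _ => ?_
  have h1 : Function.update w j (sg ε (w j)) ∘ τ =
      fun i => sg (Function.update (1 : Fin l → Fin r → ℤˣ) j ε (τ i)) ((w ∘ τ) i) := by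
    funext i
    rw [Function.comp_apply, Function.comp_apply]
    by_cases h : τ i = j
    · rw [h, Function.update_self, Function.update_self]
    · rw [Function.update_of_ne h, Function.update_of_ne h]
      refine Crd.ext rfl rfl rfl ?_
      funext b
      simp [sg]
  have h2 : snN (fun i => Function.update (1 : Fin l → Fin r → ℤˣ) j ε (τ i)) = sn ε := by
    unfold snN
    rw [Equiv.prod_comp τ (fun i => sn (Function.update (1 : Fin l → Fin r → ℤˣ) j ε i)),
      Finset.prod_eq_single j]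
    · rw [Function.update_self]
    · intro i _ hi
      rw [Function.update_of_ne hi]
      simp [sn]
    · intro hj
      exact absurd (Finset.mem_univ j) hj
  rw [h1, TN_sg (D := D) (fun i => Function.update (1 : Fin l → Fin r → ℤˣ) j ε (τ i)) (w ∘ τ), h2,
    smul_comm]

theorem AN_y {w : Fin l → Crd N r k} {j : Fin l} {b : Fin r} (h : (w j).y b = 0) :
    AN D w = 0 := by
  unfold AN
  refine Finset.sum_eq_zero fun τ _ => ?_
  rw [TN_y (j := τ.symm j) (b := b) (by rw [Function.comp_apply, Equiv.apply_symm_apply, h]),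
    smul_zero]

theorem AN_scale (h : Good D n) {c : Fin l → k} (hc : ∀ j, c j ≠ 0) {m : Fin l → Fin N → k}
    (hm : ∀ j i, m j i ≠ 0) {w : Fin l → Crd N r k} (hw : ∀ j, D.OnX (w j)) :
    AN D (fun j => D.scale (c j) (m j) (w j)) = AN D w := by
  unfold AN
  refine Finset.sum_congr rfl fun τ _ => ?_
  rw [← TN_scale h (c := c ∘ τ) (fun j => hc _) (m := m ∘ τ) (fun j => hm _) (w := w ∘ τ)
    fun j => hw _]
  rfl

theorem AN_sing (h : Good D n) {w : Fin l → Crd N r k} (hw : ∀ j, D.OnX (w j))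
    {j : Fin l} {i : Fin N} (h0 : (w j).s 0 ≠ 0) (hs : D.dsc i ((w j).s 1 / (w j).s 0) = 0) :
    AN D w = 0 := by
  unfold AN
  refine Finset.sum_eq_zero fun τ _ => ?_
  have e : (w ∘ τ) (τ.symm j) = w j := by rw [Function.comp_apply, Equiv.apply_symm_apply]
  rw [TN_sing h (w := w ∘ τ) (fun j' => hw _) (j := τ.symm j) (i := i) (by rw [e]; exact h0)
    (by rw [e]; exact hs), smul_zero]

/-- the bridge for the classes `AN` -/
theorem bridgeAN {I : Type} [Fintype I] (c : I → ℚ) (P : I → Fin l → Crd N r (Om k))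
    (hP : ∀ i j, D.OnX (P i j)) (c₀ c₁ : k) (C₀ C₁ : VN D l)
    (h₀ : ∀ v : Place k (Om k), v.At (tt k) c₀ → ∃ C : I → VN D l,
      (∀ i, VAN D v (P i) (C i)) ∧ ∑ i, c i • C i = C₀)
    (h₁ : ∀ v : Place k (Om k), v.At (tt k) c₁ → ∃ C : I → VN D l,
      (∀ i, VAN D v (P i) (C i)) ∧ ∑ i, c i • C i = C₁) :
    C₀ = C₁ := by
  have key : ∀ (v : Place k (Om k)) (C₀ : VN D l), (∃ C : I → VN D l,
      (∀ i, VAN D v (P i) (C i)) ∧ ∑ i, c i • C i = C₀) →
      ∃ C : I × Equiv.Perm (Fin l) → VN D l,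
        (∀ i, VTN D v (P i.1 ∘ i.2) (C i)) ∧
        ∑ i : I × Equiv.Perm (Fin l), (c i.1 * ((Equiv.Perm.sign i.2 : ℤ) : ℚ) ^ N) • C i = C₀ := by
    rintro v C₀ ⟨C, hC, hsum⟩
    choose p hp hv hT using hC
    refine ⟨fun i => TN D (p i.1 ∘ i.2), fun i => ⟨p i.1 ∘ i.2, fun j => hp i.1 _,
      fun j => hv i.1 _, rfl⟩, ?_⟩
    rw [Fintype.sum_prod_type, ← hsum]
    refine Finset.sum_congr rfl fun i _ => ?_
    rw [← hT i]
    unfold AN
    rw [Finset.smul_sum]
    exact Finset.sum_congr rfl fun τ _ => (smul_smul _ _ _).symm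
  exact bridgeTN (fun i : I × Equiv.Perm (Fin l) => c i.1 * ((Equiv.Perm.sign i.2 : ℤ) : ℚ) ^ N)
    (fun i => P i.1 ∘ i.2) (fun i j => hP i.1 _) c₀ c₁ C₀ C₁
    (fun v hv => key v C₀ (h₀ v hv)) (fun v hv => key v C₁ (h₁ v hv))

end Pool.Agent.TInf
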