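import Pool.Agent.TInf.GeoBasic
import Pool.Agent.TInf.EVal

/-!
# Points of the variety given by points of the elliptic curves
-/

set_option autoImplicit false

noncomputable section

namespace Pool.Agent.TInf

open Pool.Agent.ZCyc Pool.Agent.VFP Polynomial

universe u

variable {k : Type u} [Field k] {N r n : ℕ}

/-- `α_i(s) = -A_i(1, s) / 3` -/
def alG (D : Dat k N r) (i : Fin N) : k[X] := C (-3⁻¹) * D.al i

/-- The point over `s` given by the points `p i` of the elliptic curves; `y_b` is the product of the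
`y`-coordinates of the `p i` with indices in the block `b`. -/
def pt {K : Type*} [Field K] (D : Dat k N r) (s : K) (p : Fin N → EPt K) : Crd N r K where
  s := ![1, s]
  x i := (p i).elim 1 Prod.fst
  z i := (p i).elim 0 fun _ => 1
  y b := ∏ i with D.blk i = b, (p i).elim 0 Prod.snd

section

variable [CharZero k] {D : Dat k N r}

private theorem three_alG {K : Type*} [Field K] [Algebra k K] (s : K) (i : Fin N) :
    -(3 * aeval s (alG D i)) = aeval s (D.al i) := by
  have h3 : (3 : K) ≠ 0 := by
    have h := (map_ne_zero (algebraMap k K)).2 (by norm_num : (3 : k) ≠ 0)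
    rwa [map_ofNat] at h
  unfold alG
  rw [map_mul, aeval_C, map_neg, map_inv₀, map_ofNat]
  field_simp

omit [CharZero k] in
private theorem fac_pt_none {K : Type*} [Field K] [Algebra k K] {s : K} {p : Fin N → EPt K}
    {i : Fin N} (h : p i = none) : D.fac (pt D s p) i = 0 := by
  have hz : (pt D s p).z i = 0 := by
    show (p i).elim (0 : K) (fun _ => 1) = 0
    rw [h]
    rfl
  unfold Dat.fac
  rw [hz, zero_mul]

omit [CharZero k] in
private theorem fac_pt_some {K : Type*} [Field K] [Algebra k K] {s : K} {p : Fin N → EPt K}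
    {i : Fin N} {x y : K} (h : p i = some (x, y)) :
    D.fac (pt D s p) i = x ^ 3 + aeval s (D.al i) * x + aeval s (D.be i) := by
  have hz : (pt D s p).z i = 1 := by
    show (p i).elim (0 : K) (fun _ => 1) = 1
    rw [h]
    rfl
  have hx : (pt D s p).x i = x := by
    show (p i).elim (1 : K) Prod.fst = x
    rw [h]
    rfl
  have hA := eval_al (D := D) s i
  have hB := eval_be (D := D) s i
  have hs : (pt D s p).s = ![1, s] := rfl
  unfold Dat.fac
  rw [hz, hx, hs, hA, hB]
  ring

private theorem fac_pt {K : Type*} [Field K] [Algebra k K] {s : K} {p : Fin N → EPt K}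
    {i : Fin N} (h : EOn (aeval s (alG D i)) (aeval s (D.be i)) (p i)) :
    D.fac (pt D s p) i = ((p i).elim 0 Prod.snd) ^ 2 := by
  rcases hp : p i with _ | ⟨x, y⟩
  · rw [fac_pt_none hp]
    show (0 : K) = 0 ^ 2
    rw [zero_pow two_ne_zero]
  · rw [hp] at h
    have h' : y ^ 2 = x ^ 3 - 3 * aeval s (alG D i) * x + aeval s (D.be i) := h
    rw [fac_pt_some hp, ← three_alG s i]
    show _ = y ^ 2
    rw [h']
    ring

/-- `fac = z (x ³ + A x z ² + B z ³)` is `0` for `∞` and `y ²` otherwise. -/
theorem onX_pt {K : Type*} [Field K] [Algebra k K] {s : K} {p : Fin N → EPt K}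
    (h : ∀ i, EOn (aeval s (alG D i)) (aeval s (D.be i)) (p i)) : D.OnX (pt D s p) := by
  refine ⟨?_, ?_, ?_⟩
  · intro h0
    have := congrFun h0 0
    simp [pt] at this
  · intro i
    rcases hp : p i with _ | ⟨x, y⟩
    · left
      show (p i).elim (1 : K) Prod.fst ≠ 0
      rw [hp]
      exact one_ne_zero
    · right
      show (p i).elim (0 : K) (fun _ => 1) ≠ 0
      rw [hp]
      exact one_ne_zero
  · intro b
    rw [Finset.prod_congr rfl fun i _ => fac_pt (h i)]
    show (∏ i with D.blk i = b, (p i).elim 0 Prod.snd) ^ 2 = _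
    rw [Finset.prod_pow]

/-- Take `m i = 1` if `p i` is finite and `m i = 1 / X` if `P i = (X, Y)` and `p i = ∞` (then the
value of `Y / X ^ 2` is `0`, because `(Y / X ^ 2) ^ 2 = (1 / X) (1 - 3 α / X ^ 2 + B / X ^ 3)`). -/
theorem isValue_pt {v : Place k (Om k)} {S : Om k} {s : k} (hs : v.At S s)
    {P : Fin N → EPt (Om k)} {p : Fin N → EPt k}
    (hP : ∀ i, EOn (aeval S (alG D i)) (aeval S (D.be i)) (P i))
    (h : ∀ i, EVal v (P i) (p i)) : D.IsValue v (pt D S P) (pt D s p) := by
  have h1 : ∀ i, ∃ m : Om k, v.At (m * (P i).elim 1 Prod.fst) ((p i).elim 1 Prod.fst) ∧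
      v.At (m * (P i).elim 0 fun _ => 1) ((p i).elim 0 fun _ => 1) ∧
      v.At (m ^ 2 * (P i).elim 0 Prod.snd) ((p i).elim 0 Prod.snd) := by
    intro i
    have hi := h i
    have hPi := hP i
    rcases hq : P i with _ | ⟨X, Y⟩
    · rw [hq] at hi
      rcases hq' : p i with _ | ⟨x, y⟩
      · refine ⟨1, ?_, ?_, ?_⟩
        · show v.At (1 * 1) 1
          rw [one_mul]
          exact at_one
        · show v.At (1 * 0) 0
          rw [one_mul]
          exact at_zero
        · show v.At (1 ^ 2 * 0) 0
          rw [mul_zero]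
          exact at_zero
      · rw [hq'] at hi
        exact hi.elim
    · rw [hq] at hi hPi
      rcases hq' : p i with _ | ⟨x, y⟩
      · rw [hq'] at hi
        have hX : X ∉ v.ring := hi
        have hX0 := ne_zero_of_not_mem hX
        have hinv := inv_at_of_not_mem hX
        have hE : Y ^ 2 = X ^ 3 - 3 * aeval S (alG D i) * X + aeval S (D.be i) := hPi
        refine ⟨X⁻¹, ?_, ?_, ?_⟩
        · show v.At (X⁻¹ * X) 1
          rw [inv_mul_cancel₀ hX0]
          exact at_one
        · show v.At (X⁻¹ * 1) 0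
          rw [mul_one]
          exact hinv
        · show v.At (X⁻¹ ^ 2 * Y) 0
          rw [Place.at_zero_iff]
          apply Place.vanishes_of_pow v (n := 2)
          have e : (X⁻¹ ^ 2 * Y) ^ 2 = X⁻¹ * (1 + aeval S (D.al i) * X⁻¹ ^ 2 +
              aeval S (D.be i) * X⁻¹ ^ 3) := by
            rw [mul_pow, hE, ← three_alG S i]
            field_simp
            ring
          rw [e, ← Place.at_zero_iff]
          have h2 := hinv.mul ((at_one.add ((at_evalc hs (D.al i)).mul (hinv.pow 2))).add
            ((at_evalc hs (D.be i)).mul (hinv.pow 3)))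
          rwa [zero_mul] at h2
      · rw [hq'] at hi
        obtain ⟨hx, hy⟩ := hi
        refine ⟨1, ?_, ?_, ?_⟩
        · show v.At (1 * X) x
          rw [one_mul]
          exact hx
        · show v.At (1 * 1) 1
          rw [one_mul]
          exact at_one
        · show v.At (1 ^ 2 * Y) y
          rw [one_pow, one_mul]
          exact hy
  choose m hmx hmz hmy using h1
  refine ⟨1, m, ?_, ?_, ?_, ?_⟩
  · intro j
    have e : (D.scale 1 m (pt D S P)).s j = (![1, S] : Fin 2 → Om k) j := by
      simp [Dat.scale, pt]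
    rw [e]
    fin_cases j
    · exact at_one
    · exact hs
  · intro i
    have e : (D.scale 1 m (pt D S P)).x i = m i * (P i).elim 1 Prod.fst := by
      simp [Dat.scale, pt]
    rw [e]
    exact hmx i
  · intro i
    exact hmz i
  · intro b
    have e : (D.scale 1 m (pt D S P)).y b =
        ∏ i with D.blk i = b, (m i ^ 2 * (P i).elim 0 Prod.snd) := by
      show 1 ^ D.wy b * (∏ i with D.blk i = b, m i) ^ 2 *
        ∏ i with D.blk i = b, (P i).elim 0 Prod.snd = _
      rw [one_pow, one_mul, Finset.prod_mul_distrib, Finset.prod_pow]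
    rw [e]
    exact at_prod _ fun i _ => hmy i

omit [CharZero k] in
/-- change of the sign of one `y`-coordinate -/
theorem pt_neg {K : Type*} [Field K] {s : K} {p : Fin N → EPt K} {i : Fin N} {x y : K}
    (h : p i = some (x, y)) : pt D s (Function.update p i (some (x, -y))) =
      sg (Function.update 1 (D.blk i) (-1)) (pt D s p) := by
  refine Crd.ext rfl ?_ ?_ ?_
  · funext j
    show (Function.update p i (some (x, -y)) j).elim 1 Prod.fst = (p j).elim 1 Prod.fst
    by_cases hj : j = i
    · subst hj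
      rw [Function.update_self, h]
      rfl
    · rw [Function.update_of_ne hj]
  · funext j
    show (Function.update p i (some (x, -y)) j).elim 0 (fun _ => 1) = (p j).elim 0 (fun _ => 1)
    by_cases hj : j = i
    · subst hj
      rw [Function.update_self, h]
      rfl
    · rw [Function.update_of_ne hj]
  · funext b
    show (∏ j with D.blk j = b, (Function.update p i (some (x, -y)) j).elim 0 Prod.snd) =
      (((Function.update (1 : Fin r → ℤˣ) (D.blk i) (-1) b : ℤˣ) : ℤ) : K) *
        ∏ j with D.blk j = b, (p j).elim 0 Prod.snd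
    by_cases hb : b = D.blk i
    · subst hb
      have hi : i ∈ Finset.univ.filter fun j => D.blk j = D.blk i := by
        rw [Finset.mem_filter]
        exact ⟨Finset.mem_univ i, rfl⟩
      rw [Function.update_self, ← Finset.mul_prod_erase _ _ hi, ← Finset.mul_prod_erase _ _ hi,
        Function.update_self, h]
      have e : ∏ j ∈ (Finset.univ.filter fun j => D.blk j = D.blk i).erase i,
          (Function.update p i (some (x, -y)) j).elim 0 Prod.snd =
          ∏ j ∈ (Finset.univ.filter fun j => D.blk j = D.blk i).erase i,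
            (p j).elim 0 Prod.snd := by
        refine Finset.prod_congr rfl fun j hj => ?_
        rw [Function.update_of_ne (Finset.ne_of_mem_erase hj)]
      rw [e]
      show -y * _ = _ * (y * _)
      push_cast
      ring
    · rw [Function.update_of_ne hb]
      have e : ∏ j with D.blk j = b, (Function.update p i (some (x, -y)) j).elim 0 Prod.snd =
          ∏ j with D.blk j = b, (p j).elim 0 Prod.snd := by
        refine Finset.prod_congr rfl fun j hj => ?_
        have hne : j ≠ i := by
          rintro rfl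
          exact hb (Finset.mem_filter.1 hj).2.symm
        rw [Function.update_of_ne hne]
      rw [e]
      simp

omit [CharZero k] in
theorem pt_inf {K : Type*} [Field K] {s : K} {p : Fin N → EPt K} {i : Fin N}
    (h : p i = none) : (pt D s p).y (D.blk i) = 0 := by
  show (∏ j with D.blk j = D.blk i, (p j).elim 0 Prod.snd) = 0
  refine Finset.prod_eq_zero (i := i) (by simp) ?_
  rw [h]
  rfl

/-- every affine point with all `z_i ≠ 0` is, up to change of homogeneous coordinates, a point `pt`:
use `exists_aff`, square roots `y i` of the cubics and `exists_sg` to correct the signs (the block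
of an index `i` is not empty if and only if the product is not the empty product; if the product is
empty then `y_b ^ 2 = 1`, which is excluded by `h.pos`). -/
theorem exists_pt [IsAlgClosed k] (h : Good D n) {w : Crd N r k} (hw : D.OnX w)
    (h0 : w.s 0 ≠ 0) (hz : ∀ i, w.z i ≠ 0) :
    ∃ (c : k) (m : Fin N → k) (s : k) (p : Fin N → EPt k), c ≠ 0 ∧ (∀ i, m i ≠ 0) ∧
      (∀ i, EOn ((alG D i).eval s) ((D.be i).eval s) (p i)) ∧ w = D.scale c m (pt D s p) := by
  classical
  obtain ⟨c, m, s, x, y, hc, hm, hon, hw'⟩ := exists_aff h hw h0 hz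
  have h1 : ∀ i, ∃ Y : k, Y ^ 2 = D.ff i s (x i) := fun i => ⟨sq _, sq_sq _⟩
  choose Y hY using h1
  obtain ⟨ε, hε⟩ := exists_sg (y := fun b => ∏ i with D.blk i = b, Y i) (y' := y) fun b => by
    rw [hon b, ← Finset.prod_pow]
    exact Finset.prod_congr rfl fun i _ => hY i
  have h2 : ∀ b, ∃ i, D.blk i = b := by
    intro b
    by_contra hcon
    push Not at hcon
    have h3 := h.pos b
    rw [Finset.filter_false_of_mem (fun i _ => hcon i), Finset.sum_empty] at h3
    exact lt_irrefl 0 h3
  choose ib hib using h2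
  let Z : Fin N → k := fun i =>
    (if i = ib (D.blk i) then (((ε (D.blk i) : ℤˣ) : ℤ) : k) else 1) * Y i
  have hZ : ∀ i, Z i ^ 2 = D.ff i s (x i) := by
    intro i
    rw [← hY i]
    simp only [Z]
    split_ifs
    · rcases Int.units_eq_one_or (ε (D.blk i)) with h3 | h3
      · rw [h3]
        simp
      · rw [h3]
        simp
    · rw [one_mul]
  have hZy : ∀ b, ∏ i with D.blk i = b, Z i = y b := by
    intro b
    rw [hε b]
    simp only [Z]
    rw [Finset.prod_mul_distrib]
    congr 1
    have h3 : ∏ i with D.blk i = b,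
        (if i = ib (D.blk i) then (((ε (D.blk i) : ℤˣ) : ℤ) : k) else 1) =
        ∏ i with D.blk i = b, (if i = ib b then (((ε b : ℤˣ) : ℤ) : k) else 1) := by
      refine Finset.prod_congr rfl fun i hi => ?_
      rw [(Finset.mem_filter.1 hi).2]
    rw [h3, Finset.prod_ite_eq' _ (ib b) (fun _ => (((ε b : ℤˣ) : ℤ) : k)), if_pos]
    rw [Finset.mem_filter]
    exact ⟨Finset.mem_univ _, hib b⟩
  refine ⟨c, m, s, fun i => some (x i, Z i), hc, hm, ?_, ?_⟩
  · intro i
    show Z i ^ 2 = x i ^ 3 - 3 * (alG D i).eval s * x i + (D.be i).eval s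
    have h3 := three_alG (D := D) s i
    rw [hZ i]
    unfold Dat.ff
    rw [← h3, coe_aeval_eq_eval]
    ring
  · rw [hw']
    congr 1
    refine Crd.ext rfl rfl rfl ?_
    funext b
    exact (hZy b).symm

end

private theorem at_mv {v : Place k (Om k)} {S : Fin 2 → Om k} {s : Fin 2 → k}
    (hs : ∀ j, v.At (S j) (s j)) (A : MvPolynomial (Fin 2) k) :
    v.At (MvPolynomial.aeval S A) (MvPolynomial.aeval s A) := by
  induction A using MvPolynomial.induction_on with
  | C a =>
    rw [MvPolynomial.aeval_C, MvPolynomial.aeval_C]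
    exact Place.at_const a
  | add p q hp hq =>
    rw [map_add, map_add]
    exact hp.add hq
  | mul_X p i hp =>
    rw [map_mul, map_mul, MvPolynomial.aeval_X, MvPolynomial.aeval_X]
    exact hp.mul (hs i)

private theorem exists_mult (v : Place k (Om k)) {a b : Om k} (h : a ≠ 0 ∨ b ≠ 0) :
    ∃ c : Om k, c ≠ 0 ∧ c * a ∈ v.ring ∧ c * b ∈ v.ring ∧ (c * a = 1 ∨ c * b = 1) := by
  by_cases ha : a ≠ 0 ∧ b / a ∈ v.ring
  · refine ⟨a⁻¹, inv_ne_zero ha.1, ?_, ?_, Or.inl (inv_mul_cancel₀ ha.1)⟩
    · rw [inv_mul_cancel₀ ha.1]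
      exact one_mem _
    · rw [mul_comm, ← div_eq_mul_inv]
      exact ha.2
  · have hb : b ≠ 0 ∧ a / b ∈ v.ring := by
      by_cases ha0 : a = 0
      · have hb0 : b ≠ 0 := h.resolve_left fun h' => h' ha0
        refine ⟨hb0, ?_⟩
        rw [ha0, zero_div]
        exact zero_mem _
      · have h1 : b / a ∉ v.ring := fun h' => ha ⟨ha0, h'⟩
        have hb0 : b ≠ 0 := by
          rintro rfl
          apply h1
          rw [zero_div]
          exact zero_mem _
        refine ⟨hb0, ?_⟩
        rcases v.ring.mem_or_inv_mem (b / a) with h2 | h2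
        · exact absurd h2 h1
        · rwa [inv_div] at h2
    refine ⟨b⁻¹, inv_ne_zero hb.1, ?_, ?_, Or.inr (inv_mul_cancel₀ hb.1)⟩
    · rw [mul_comm, ← div_eq_mul_inv]
      exact hb.2
    · rw [inv_mul_cancel₀ hb.1]
      exact one_mem _

/-- The variety is complete: scale with `c = 1` or `c = 1 / s_j`, then with `m i = 1 / x_i` or
`m i = 1 / z_i` (the element which has the larger pole); then the `y_b` are integral because their
squares are. See `exists_value`. -/
theorem exists_isValue [IsAlgClosed k] [CharZero k] {D : Dat k N r} (h : Good D n)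
    (v : Place k (Om k)) {w : Crd N r (Om k)} (hw : D.OnX w) :
    ∃ p : Crd N r k, D.OnX p ∧ D.IsValue v w p := by
  have hs0 : w.s 0 ≠ 0 ∨ w.s 1 ≠ 0 := by
    by_contra hcon
    push Not at hcon
    apply hw.1
    funext j
    fin_cases j
    · exact hcon.1
    · exact hcon.2
  obtain ⟨c, hc, hc0, hc1, hc2⟩ := exists_mult v hs0
  have h1 : ∀ i, ∃ m : Om k, m ≠ 0 ∧ m * (c ^ D.deg i * w.x i) ∈ v.ring ∧ m * w.z i ∈ v.ring ∧
      (m * (c ^ D.deg i * w.x i) = 1 ∨ m * w.z i = 1) := by
    intro i
    refine exists_mult v ?_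
    rcases hw.2.1 i with h2 | h2
    · exact Or.inl (mul_ne_zero (pow_ne_zero _ hc) h2)
    · exact Or.inr h2
  choose m hm hmx hmz hm1 using h1
  have hW := onX_scale h hc hm hw
  have hs : ∀ j, ∃ a : k, v.At ((D.scale c m w).s j) a := by
    intro j
    apply DCI57.exists_at v
    fin_cases j
    · exact hc0
    · exact hc1
  have hex : ∀ i, (D.scale c m w).x i = m i * (c ^ D.deg i * w.x i) := by
    intro i
    show c ^ D.deg i * m i * w.x i = _
    ring
  have hx : ∀ i, ∃ a : k, v.At ((D.scale c m w).x i) a := by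
    intro i
    apply DCI57.exists_at v
    rw [hex]
    exact hmx i
  have hz : ∀ i, ∃ a : k, v.At ((D.scale c m w).z i) a := fun i => DCI57.exists_at v (hmz i)
  choose s₀ hs₀ using hs
  choose x₀ hx₀ using hx
  choose z₀ hz₀ using hz
  have hf : ∀ i, v.At (D.fac (D.scale c m w) i) (z₀ i * (x₀ i ^ 3 +
      MvPolynomial.aeval s₀ (D.A i) * x₀ i * z₀ i ^ 2 +
      MvPolynomial.aeval s₀ (D.B i) * z₀ i ^ 3)) := fun i =>
    (hz₀ i).mul ((((hx₀ i).pow 3).add (((at_mv hs₀ (D.A i)).mul (hx₀ i)).mul
      ((hz₀ i).pow 2))).add ((at_mv hs₀ (D.B i)).mul ((hz₀ i).pow 3)))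
  have h2 : ∀ b, ∃ d : k, v.At ((D.scale c m w).y b) d ∧ d ^ 2 =
      ∏ i with D.blk i = b, z₀ i * (x₀ i ^ 3 +
      MvPolynomial.aeval s₀ (D.A i) * x₀ i * z₀ i ^ 2 +
      MvPolynomial.aeval s₀ (D.B i) * z₀ i ^ 3) := fun b =>
    exists_sq_at (hW.2.2 b) (at_prod _ fun i _ => hf i)
  choose y₀ hy₀ hy₁ using h2
  refine ⟨⟨s₀, x₀, z₀, y₀⟩, ⟨?_, ?_, ?_⟩, ⟨c, m, hs₀, hx₀, hz₀, hy₀⟩⟩
  · intro h3
    have h3' : s₀ = 0 := h3
    rcases hc2 with h4 | h4
    · have h5 : v.At (1 : Om k) (s₀ 0) := by
        have := hs₀ 0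
        rw [← h4]
        exact this
      have h6 := h5.unique at_one
      rw [h3'] at h6
      exact zero_ne_one h6
    · have h5 : v.At (1 : Om k) (s₀ 1) := by
        have := hs₀ 1
        rw [← h4]
        exact this
      have h6 := h5.unique at_one
      rw [h3'] at h6
      exact zero_ne_one h6
  · intro i
    rcases hm1 i with h4 | h4
    · left
      have h5 := hx₀ i
      rw [hex, h4] at h5
      have h6 := h5.unique at_one
      show x₀ i ≠ 0
      rw [h6]
      exact one_ne_zero
    · right
      have h5 : v.At (1 : Om k) (z₀ i) := by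
        have := hz₀ i
        rw [← h4]
        exact this
      have h6 := h5.unique at_one
      show z₀ i ≠ 0
      rw [h6]
      exact one_ne_zero
  · intro b
    exact hy₁ b

/-- values of points over a finite point of the line -/
theorem isValue_s {D : Dat k N r} {v : Place k (Om k)} {w : Crd N r (Om k)} {p : Crd N r k}
    (h : D.IsValue v w p) (hp : p.s ≠ 0) {s : k} (h0 : w.s 0 ≠ 0)
    (hs : v.At (w.s 1 / w.s 0) s) : p.s 0 ≠ 0 ∧ p.s 1 = s * p.s 0 := by
  obtain ⟨c, m, h1, -, -, -⟩ := h
  have h2 : v.At (c * w.s 0) (p.s 0) := h1 0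
  have h3 : v.At (c * w.s 1) (p.s 1) := h1 1
  have h4 : p.s 1 = s * p.s 0 := by
    have h5 := hs.mul h2
    have e : w.s 1 / w.s 0 * (c * w.s 0) = c * w.s 1 := by
      field_simp
    rw [e] at h5
    exact h3.unique h5
  refine ⟨fun h5 => hp ?_, h4⟩
  funext j
  fin_cases j
  · exact h5
  · show p.s 1 = 0
    rw [h4, h5, mul_zero]

/-- if a coordinate `x_i / (s_0 ^ d_i z_i)` has a pole then the value has `z_i = 0` -/
theorem isValue_z {D : Dat k N r} {v : Place k (Om k)} {S : Om k} {P : Fin N → EPt (Om k)}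
    {p : Crd N r k} (h : D.IsValue v (pt D S P) p) (hp : D.OnX p) {s : k} (hs : v.At S s)
    {i : Fin N} (hi : ∀ x y, P i = some (x, y) → x ∉ v.ring) : p.y (D.blk i) = 0 := by
  have hz : p.z i = 0 := by
    have hps := isValue_s h hp.1 (s := s) (by
      show (![1, S] : Fin 2 → Om k) 0 ≠ 0
      simp) (by
      show v.At ((![1, S] : Fin 2 → Om k) 1 / (![1, S] : Fin 2 → Om k) 0) s
      simpa using hs)
    obtain ⟨c, m, h1, h2, h3, -⟩ := h
    rcases hq : P i with _ | ⟨X, Y⟩
    · have h4 : v.At (m i * (P i).elim 0 fun _ => 1) (p.z i) := h3 i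
      rw [hq] at h4
      have h5 : v.At (m i * 0) (p.z i) := h4
      rw [mul_zero] at h5
      exact h5.unique at_zero
    · by_contra hne
      have hX := hi X Y hq
      have h4 : v.At (m i * (P i).elim 0 fun _ => 1) (p.z i) := h3 i
      rw [hq] at h4
      have h5 : v.At (m i * 1) (p.z i) := h4
      rw [mul_one] at h5
      have h6 : v.At (c ^ D.deg i * m i * (P i).elim 1 Prod.fst) (p.x i) := h2 i
      rw [hq] at h6
      have h7 : v.At (c ^ D.deg i * m i * X) (p.x i) := h6
      have h8 : v.At (c * (![1, S] : Fin 2 → Om k) 0) (p.s 0) := h1 0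
      have h9 : v.At c (p.s 0) := by simpa using h8
      have h10 := (h9.pow (D.deg i)).mul h5
      have h11 : p.s 0 ^ D.deg i * p.z i ≠ 0 := mul_ne_zero (pow_ne_zero _ hps.1) hne
      have h12 := h7.div h10 h11
      apply hX
      have h13 : c ^ D.deg i * m i ≠ 0 := by
        intro h14
        rw [h14] at h10
        exact h11 (h10.unique at_zero)
      rw [mul_div_cancel_left₀ _ h13] at h12
      exact h12.mem
  have h1 := hp.2.2 (D.blk i)
  have h2 : ∏ j with D.blk j = D.blk i, D.fac p j = 0 := by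
    refine Finset.prod_eq_zero (i := i) (by simp) ?_
    unfold Dat.fac
    rw [hz]
    ring
  rw [h2] at h1
  exact pow_eq_zero_iff (two_ne_zero) |>.1 h1

end Pool.Agent.TInf
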