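import Pool.Agent.TInf.GeoBasic

/-!
# Singular fibres
-/

set_option autoImplicit false

noncomputable section

namespace Pool.Agent.TInf

open Pool.Agent.ZCyc Pool.Agent.VFP Polynomial

universe u

section aux

variable {k : Type u} [Field k] {N r : ℕ}

/-- the double root -/
private theorem exists_double [CharZero k] {p q : k} (hs : 4 * p ^ 3 + 27 * q ^ 2 = 0) :
    ∃ α : k, p = -3 * α ^ 2 ∧ q = 2 * α ^ 3 := by
  by_cases hp : p = 0
  · refine ⟨0, by simp [hp], ?_⟩
    rw [hp] at hs
    have hq : q ^ 2 = 0 := by
      have h27 : (27 : k) ≠ 0 := by norm_num
      have : (27 : k) * q ^ 2 = 0 := by linear_combination hs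
      exact (mul_eq_zero.1 this).resolve_left h27
    rw [pow_eq_zero_iff (by norm_num)] at hq
    rw [hq]
    ring
  · refine ⟨-3 * q / (2 * p), ?_, ?_⟩
    · have h2 : (2 : k) ≠ 0 := by norm_num
      field_simp
      linear_combination hs
    · have h2 : (2 : k) ≠ 0 := by norm_num
      field_simp
      linear_combination q * hs

/-- change of one coordinate `x_i` -/
private theorem on_update {D : Dat k N r} {K : Type*} [Field K] [Algebra k K] {s : K}
    {x : Fin N → K} {y : Fin r → K} (hP : D.On s x y) {i : Fin N} {z c : K}
    (hc : c ^ 2 * D.ff i s (x i) = D.ff i s z) :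
    D.On s (Function.update x i z)
      (Function.update y (D.blk i) (c * y (D.blk i))) := by
  intro b
  by_cases hb : b = D.blk i
  · subst hb
    have hi : i ∈ Finset.univ.filter fun j => D.blk j = D.blk i := by
      rw [Finset.mem_filter]
      exact ⟨Finset.mem_univ i, rfl⟩
    rw [Function.update_self, mul_pow, hP (D.blk i), ← Finset.mul_prod_erase _ _ hi,
      ← Finset.mul_prod_erase (Finset.univ.filter fun j => D.blk j = D.blk i)
        (fun j => D.ff j s (Function.update x i z j)) hi, Function.update_self, ← hc, mul_assoc]
    congr 2
    refine Finset.prod_congr rfl fun j hj => ?_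
    rw [Function.update_of_ne (Finset.ne_of_mem_erase hj)]
  · rw [Function.update_of_ne hb, hP b]
    refine Finset.prod_congr rfl fun j hj => ?_
    have hji : j ≠ i := by
      rintro rfl
      exact hb (Finset.mem_filter.1 hj).2.symm
    rw [Function.update_of_ne hji]

private theorem on_const {D : Dat k N r} {s : k} {x : Fin N → k} {y : Fin r → k}
    (hP : D.On s x y) :
    D.On (algebraMap k (Om k) s) (fun j => algebraMap k (Om k) (x j))
      (fun b => algebraMap k (Om k) (y b)) := by
  intro b
  rw [← map_pow, hP b, map_prod]
  exact Finset.prod_congr rfl fun j _ => (ff_const j s (x j)).symm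

private theorem isValue_update {D : Dat k N r} {v : Place k (Om k)} {s : k} {x : Fin N → k}
    {y : Fin r → k}
    {i : Fin N} {z : k} {Z : Om k} {c : k} {C : Om k} (hz : v.At Z z) (hc : v.At C c) :
    D.IsValue v (aff (algebraMap k (Om k) s)
      (Function.update (fun j => algebraMap k (Om k) (x j)) i Z)
      (Function.update (fun b => algebraMap k (Om k) (y b)) (D.blk i)
        (C * algebraMap k (Om k) (y (D.blk i)))))
      (aff s (Function.update x i z) (Function.update y (D.blk i) (c * y (D.blk i)))) := by
  refine isValue_aff (Place.at_const s) (fun j => ?_) fun b => ?_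
  · by_cases hj : j = i
    · subst hj
      rw [Function.update_self, Function.update_self]
      exact hz
    · rw [Function.update_of_ne hj, Function.update_of_ne hj]
      exact Place.at_const _
  · by_cases hb : b = D.blk i
    · subst hb
      rw [Function.update_self, Function.update_self]
      exact hc.mul (Place.at_const _)
    · rw [Function.update_of_ne hb, Function.update_of_ne hb]
      exact Place.at_const _

private theorem scale_one (D : Dat k N r) (w : Crd N r k) : D.scale 1 1 w = w := by
  refine Crd.ext ?_ ?_ ?_ ?_
  · funext j
    simp [Dat.scale]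
  · funext j
    simp [Dat.scale]
  · funext j
    simp [Dat.scale]
  · funext j
    simp [Dat.scale]

end aux

variable {k : Type u} [Field k] [IsAlgClosed k] [CharZero k] {N r n : ℕ} {D : Dat k N r}

/-- the moving component -/
private theorem sing_aff {l : ℕ} {w : Fin l → Crd N r k} (hw : ∀ j, D.OnX (w j))
    {j : Fin l} {i : Fin N} {s : k} {x : Fin N → k} {y : Fin r → k} (hwj : w j = aff s x y)
    (hs : D.dsc i s = 0) : TN D w = 0 := by
  classical
  have hP : D.On s x y := (onX_aff _ _ _).1 (hwj ▸ hw j)
  obtain ⟨α, ha, hb⟩ := exists_double hs
  have hff : ∀ X : k, D.ff i s X = (X - α) ^ 2 * (X + 2 * α) := by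
    intro X
    unfold Dat.ff
    rw [ha, hb]
    ring
  have hffK : ∀ X : Om k, D.ff i (algebraMap k (Om k) s) X =
      (X - algebraMap k (Om k) α) ^ 2 * (X + 2 * algebraMap k (Om k) α) := by
    intro X
    unfold Dat.ff
    rw [aeval_algebraMap_apply, aeval_algebraMap_apply, ha, hb]
    simp only [map_mul, map_pow, map_neg, map_ofNat]
    ring
  by_cases h0 : D.ff i s (x i) = 0
  · have hy : y (D.blk i) = 0 := by
      have h1 := hP (D.blk i)
      rw [Finset.prod_eq_zero (i := i) (by simp) h0] at h1
      exact (pow_eq_zero_iff two_ne_zero).1 h1
    refine TN_y (j := j) (b := D.blk i) ?_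
    rw [hwj]
    exact hy
  · obtain ⟨l', hl⟩ := IsAlgClosed.exists_pow_nat_eq (x i + 2 * α) (n := 2) (by norm_num)
    have h1 : x i - α ≠ 0 := by
      intro h2
      apply h0
      rw [hff, h2]
      ring
    have h2 : l' ≠ 0 := by
      rintro rfl
      apply h0
      rw [hff, ← hl]
      ring
    -- the family
    let τ : Om k := algebraMap k (Om k) l' * (1 - tt k)
    let Z : Om k := τ ^ 2 - algebraMap k (Om k) (2 * α)
    let C : Om k := τ * (Z - algebraMap k (Om k) α) *
      algebraMap k (Om k) (l' * (x i - α))⁻¹
    have hC : C ^ 2 * D.ff i (algebraMap k (Om k) s) (algebraMap k (Om k) (x i)) =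
        D.ff i (algebraMap k (Om k) s) Z := by
      have e1 : D.ff i s (x i) = (l' * (x i - α)) ^ 2 := by
        rw [hff, ← hl]
        ring
      rw [ff_const, e1, hffK]
      have e2 : Z + 2 * algebraMap k (Om k) α = τ ^ 2 := by
        simp only [Z, map_mul, map_ofNat]
        ring
      rw [e2]
      have e3 : algebraMap k (Om k) (l' * (x i - α))⁻¹ *
          algebraMap k (Om k) (l' * (x i - α)) = 1 := by
        rw [← map_mul, inv_mul_cancel₀ (mul_ne_zero h2 h1), map_one]
      have e4 : C ^ 2 * algebraMap k (Om k) ((l' * (x i - α)) ^ 2) =
          (Z - algebraMap k (Om k) α) ^ 2 * τ ^ 2 *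
            (algebraMap k (Om k) (l' * (x i - α))⁻¹ *
              algebraMap k (Om k) (l' * (x i - α))) ^ 2 := by
        simp only [C, map_pow]
        ring
      rw [e4, e3, one_pow, mul_one]
    have hOn := on_update (on_const hP) hC
    refine bridgeTN (I := Unit) (fun _ => 1) (fun _ => Function.update
        (fun j' => cst (Om k) (w j')) j (aff (algebraMap k (Om k) s)
          (Function.update (fun j => algebraMap k (Om k) (x j)) i Z)
          (Function.update (fun b => algebraMap k (Om k) (y b)) (D.blk i)
            (C * algebraMap k (Om k) (y (D.blk i)))))) ?_ 0 1 _ _ ?_ ?_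
    · intro _ j'
      by_cases hj : j' = j
      · subst hj
        rw [Function.update_self]
        exact (onX_aff _ _ _).2 hOn
      · rw [Function.update_of_ne hj]
        exact onX_cst (hw j')
    · intro v hv
      have hτ : v.At τ l' := by
        have := (Place.at_const (v := v) l').mul (at_one.sub hv)
        simpa using this
      have hZ : v.At Z (x i) := by
        have := (hτ.pow 2).sub (Place.at_const (v := v) (2 * α))
        rwa [hl, add_sub_cancel_right] at this
      have hCv : v.At C 1 := by
        have := (hτ.mul (hZ.sub (Place.at_const (v := v) α))).mul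
          (Place.at_const (v := v) (l' * (x i - α))⁻¹)
        rwa [mul_inv_cancel₀ (mul_ne_zero h2 h1)] at this
      have hval := isValue_update (D := D) (s := s) (x := x) (y := y) (i := i) hZ hCv
      rw [one_mul, Function.update_eq_self, Function.update_eq_self, ← hwj] at hval
      refine ⟨fun _ => TN D w, fun _ => ⟨w, hw, fun j' => ?_, rfl⟩, by simp⟩
      by_cases hj : j' = j
      · subst hj
        rw [Function.update_self]
        exact hval
      · rw [Function.update_of_ne hj]
        exact isValue_cst v (w j')
    · intro v hv
      have hτ : v.At τ 0 := by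
        have := (Place.at_const (v := v) l').mul (at_one.sub hv)
        simpa using this
      have hZ : v.At Z (-(2 * α)) := by
        have := (hτ.pow 2).sub (Place.at_const (v := v) (2 * α))
        rwa [zero_pow two_ne_zero, zero_sub] at this
      have hCv : v.At C 0 := by
        have := (hτ.mul (hZ.sub (Place.at_const (v := v) α))).mul
          (Place.at_const (v := v) (l' * (x i - α))⁻¹)
        rwa [zero_mul, zero_mul] at this
      have hval := isValue_update (D := D) (s := s) (x := x) (y := y) (i := i) hZ hCv
      have hOn0 : D.On s (Function.update x i (-(2 * α)))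
          (Function.update y (D.blk i) (0 * y (D.blk i))) := by
        refine on_update hP ?_
        rw [hff (-(2 * α))]
        ring
      refine ⟨fun _ => 0, fun _ => ⟨Function.update w j (aff s (Function.update x i (-(2 * α)))
          (Function.update y (D.blk i) (0 * y (D.blk i)))), fun j' => ?_, fun j' => ?_, ?_⟩,
        by simp⟩
      · by_cases hj : j' = j
        · subst hj
          rw [Function.update_self]
          exact (onX_aff _ _ _).2 hOn0
        · rw [Function.update_of_ne hj]
          exact hw j'
      · by_cases hj : j' = j
        · subst hj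
          rw [Function.update_self, Function.update_self]
          exact hval
        · rw [Function.update_of_ne hj, Function.update_of_ne hj]
          exact isValue_cst v (w j')
      · refine TN_y (j := j) (b := D.blk i) ?_
        rw [Function.update_self]
        change Function.update y (D.blk i) (0 * y (D.blk i)) (D.blk i) = 0
        rw [Function.update_self, zero_mul]

/-- Adapt `Pool.Agent.VFP.CL_sing` (with `bridgeTN` and one moving component `j`); if some `z_i = 0`
then some `y_b = 0` and `TN_y` applies, otherwise use `exists_aff` for `w j` and `TN_scale`. -/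
theorem TN_sing (h : Good D n) {l : ℕ} {w : Fin l → Crd N r k} (hw : ∀ j, D.OnX (w j))
    {j : Fin l} {i : Fin N} (h0 : (w j).s 0 ≠ 0) (hs : D.dsc i ((w j).s 1 / (w j).s 0) = 0) :
    TN D w = 0 := by
  classical
  by_cases hz : ∃ i', (w j).z i' = 0
  · obtain ⟨i', hi'⟩ := hz
    exact TN_y (j := j) (y_eq_zero (hw j) hi')
  · push Not at hz
    obtain ⟨c, m, s, x, y, hc, hm, hP, he⟩ := exists_aff h (hw j) h0 hz
    have hse : (w j).s 1 / (w j).s 0 = s := by
      rw [he]
      simp [Dat.scale, aff, hc]
    rw [hse] at hs
    have hw' : ∀ j', D.OnX (Function.update w j (aff s x y) j') := by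
      intro j'
      by_cases hj : j' = j
      · subst hj
        rw [Function.update_self]
        exact (onX_aff _ _ _).2 hP
      · rw [Function.update_of_ne hj]
        exact hw j'
    have e : (fun j' => D.scale (Function.update (fun _ => (1 : k)) j c j')
        (Function.update (fun _ => (1 : Fin N → k)) j m j')
        (Function.update w j (aff s x y) j')) = w := by
      funext j'
      by_cases hj : j' = j
      · subst hj
        simp only [Function.update_self]
        exact he.symm
      · simp only [Function.update_of_ne hj]
        exact scale_one D (w j')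
    have h3 := TN_scale h (l := l) (c := Function.update (fun _ => (1 : k)) j c)
      (m := Function.update (fun _ => (1 : Fin N → k)) j m)
      (w := Function.update w j (aff s x y)) (fun j' => by
        by_cases hj : j' = j
        · subst hj
          rw [Function.update_self]
          exact hc
        · rw [Function.update_of_ne hj]
          exact one_ne_zero) (fun j' i' => by
        by_cases hj : j' = j
        · subst hj
          rw [Function.update_self]
          exact hm i'
        · rw [Function.update_of_ne hj]
          exact one_ne_zero) hw'
    rw [e] at h3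
    rw [h3]
    exact sing_aff (j := j) hw' (Function.update_self _ _ _) hs

end Pool.Agent.TInf
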