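import Pool.Agent.TInf.Sys
import Pool.Agent.TInf.GeoPt
import Pool.Agent.TInf.GeoAN

/-!
# The system of classes of a fibre product
-/

set_option autoImplicit false

noncomputable section

namespace Pool.Agent.TInf

open Pool.Agent.ZCyc Pool.Agent.VFP Polynomial

universe u

variable {k : Type u} [Field k] {N r n : ℕ}

/-- the tuple of points of the fibre product -/
def ptN {K : Type*} [Field K] (D : Dat k N r) {n : ℕ} (s : Fin n → K)
    (p : Fin N → Fin n → EPt K) (j : Fin n) : Crd N r K := pt D (s j) fun i => p i j

open Classical in
/-- the class function; it is zero if not all points are on the curves -/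
def FG (D : Dat k N r) {n : ℕ} (s : Fin n → k) (p : Fin N → Fin n → EPt k) : VN D n :=
  if OnS (alG D) D.be s p then AN D (ptN D s p) else 0

theorem FG_on {D : Dat k N r} {s : Fin n → k} {p : Fin N → Fin n → EPt k}
    (h : OnS (alG D) D.be s p) : FG D s p = AN D (ptN D s p) := if_pos h

/-- the classes of values -/
def ValG (D : Dat k N r) {n : ℕ} (v : Place k (Om k)) (S : Fin n → Om k)
    (P : Fin N → Fin n → EPt (Om k)) (C : VN D n) : Prop := VAN D v (ptN D S P) C

private theorem ev_dsc [CharZero k] (D : Dat k N r) (i : Fin N) (c : k) :
    D.dsc i c = 27 * ((D.be i).eval c ^ 2 - 4 * (alG D i).eval c ^ 3) := by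
  have h3 : (3 : k) ≠ 0 := by norm_num
  unfold Dat.dsc alG
  rw [eval_mul, eval_C, coe_aeval_eq_eval]
  field_simp
  ring

private theorem onX_ptN [CharZero k] {D : Dat k N r} {K : Type*} [Field K] [Algebra k K]
    {s : Fin n → K} {p : Fin N → Fin n → EPt K} (h : OnS (alG D) D.be s p) (j : Fin n) :
    D.OnX (ptN D s p j) := onX_pt fun i => h i j

variable [IsAlgClosed k] [CharZero k]

private theorem onS_val {D : Dat k N r} {v : Place k (Om k)} {S : Fin n → Om k}
    {P : Fin N → Fin n → EPt (Om k)} (hP : OnS (alG D) D.be S P) {s : Fin n → k}
    {p : Fin N → Fin n → EPt k} (hs : ∀ j, v.At (S j) (s j)) (h : ∀ i j, EVal v (P i j) (p i j)) :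
    OnS (alG D) D.be s p := fun i j =>
  evalue_on (at_evalc (hs j) (alG D i)) (at_evalc (hs j) (D.be i)) (hP i j) (h i j)

/-- The system of classes of the fibre product `X`. -/
def sysG {D : Dat k N r} (h : Good D n) : Sys k N n (alG D) D.be (VN D n) where
  F := FG D
  Val := ValG D
  perm := by
    intro s p π
    by_cases hon : OnS (alG D) D.be s p
    · have hon' : OnS (alG D) D.be (s ∘ π) (fun i => p i ∘ π) := fun i j => hon i (π j)
      have h1 := AN_perm (D := D) (ptN D s p) π
      have h2 : FG D (s ∘ π) (fun i => p i ∘ π) = AN D (ptN D s p ∘ π) := FG_on hon'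
      rw [h2, h1, FG_on hon, ← Int.cast_smul_eq_zsmul ℚ]
      push_cast
      rfl
    · have hon' : ¬ OnS (alG D) D.be (s ∘ π) (fun i => p i ∘ π) := by
        intro h3
        apply hon
        intro i j
        have h4 := h3 i (π.symm j)
        unfold ev at h4 ⊢
        simpa using h4
      unfold FG
      rw [if_neg hon', if_neg hon, smul_zero]
  odd := by
    intro s p i j x y hp
    have hiff : OnS (alG D) D.be s (Function.update p i (Function.update (p i) j
        (some (x, -y)))) ↔ OnS (alG D) D.be s p := by
      constructor
      · intro h i' j'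
        have h2 := h i' j'
        by_cases hi : i' = i
        · subst hi
          rw [Function.update_self] at h2
          by_cases hj : j' = j
          · subst hj
            rw [Function.update_self] at h2
            rw [hp]
            have h3 : (-y) ^ 2 = x ^ 3 - 3 * ev (alG D i') s j' * x + ev (D.be i') s j' := h2
            show y ^ 2 = x ^ 3 - 3 * ev (alG D i') s j' * x + ev (D.be i') s j'
            rw [← h3]
            ring
          · rwa [Function.update_of_ne hj] at h2
        · rwa [Function.update_of_ne hi] at h2
      · intro h i' j'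
        have h2 := h i' j'
        by_cases hi : i' = i
        · subst hi
          rw [Function.update_self]
          by_cases hj : j' = j
          · subst hj
            rw [Function.update_self]
            rw [hp] at h2
            have h3 : y ^ 2 = x ^ 3 - 3 * ev (alG D i') s j' * x + ev (D.be i') s j' := h2
            show (-y) ^ 2 = x ^ 3 - 3 * ev (alG D i') s j' * x + ev (D.be i') s j'
            rw [← h3]
            ring
          · rwa [Function.update_of_ne hj]
        · rwa [Function.update_of_ne hi]
    by_cases hon : OnS (alG D) D.be s p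
    swap
    · unfold FG
      rw [if_neg hon, if_neg (fun h => hon (hiff.1 h)), neg_zero]
    rw [FG_on hon, FG_on (hiff.2 hon)]
    have h1 : ptN D s (Function.update p i (Function.update (p i) j (some (x, -y)))) =
        Function.update (ptN D s p) j
          (sg (Function.update 1 (D.blk i) (-1)) (ptN D s p j)) := by
      funext j'
      by_cases hj : j' = j
      · subst hj
        rw [Function.update_self]
        have h2 := pt_neg (D := D) (s := s j') (p := fun i => p i j') (i := i) (x := x) (y := y) hp
        show pt D (s j') (fun i' => Function.update p i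
          (Function.update (p i) j' (some (x, -y))) i' j') = _
        rw [show (ptN D s p j') = pt D (s j') (fun i => p i j') from rfl, ← h2]
        congr 1
        funext i'
        by_cases hi : i' = i
        · subst hi
          rw [Function.update_self, Function.update_self, Function.update_self]
        · rw [Function.update_of_ne hi, Function.update_of_ne hi]
      · rw [Function.update_of_ne hj]
        show pt D (s j') (fun i' => Function.update p i
          (Function.update (p i) j (some (x, -y))) i' j') = pt D (s j') (fun i => p i j')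
        congr 1
        funext i'
        by_cases hi : i' = i
        · subst hi
          rw [Function.update_self, Function.update_of_ne hj]
        · rw [Function.update_of_ne hi]
    show AN D _ = -AN D _
    rw [h1, AN_sg]
    have h3 : sn (Function.update (1 : Fin r → ℤˣ) (D.blk i) (-1)) = -1 := by
      unfold sn
      rw [Finset.prod_eq_single (D.blk i)]
      · rw [Function.update_self]
        simp
      · intro b _ hb
        rw [Function.update_of_ne hb]
        simp
      · intro hb
        exact absurd (Finset.mem_univ _) hb
    rw [h3, neg_one_smul]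
  inf := by
    intro s p i j hp
    by_cases hon : OnS (alG D) D.be s p
    · rw [FG_on hon]
      exact AN_y (j := j) (b := D.blk i) (pt_inf hp)
    · exact if_neg hon
  off := fun s p hon => if_neg hon
  fin := by
    intro v S P hP s p hs hv
    exact ⟨ptN D s p, onX_ptN (onS_val hP hs hv),
      fun j => isValue_pt (hs j) (fun i => hP i j) fun i => hv i j,
      (FG_on (onS_val hP hs hv)).symm⟩
  pole := by
    intro v S P hP i j c hc hi
    have h1 : ∀ j, ∃ q : Crd N r k, D.OnX q ∧ D.IsValue v (ptN D S P j) q := fun j =>
      exists_isValue h v (onX_ptN hP j)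
    choose q hq hv using h1
    refine ⟨q, hq, hv, AN_y (j := j) (b := D.blk i) ?_⟩
    refine isValue_z (hv j) (hq j) hc (i := i) ?_
    intro x y hxy
    rw [hxy] at hi
    exact hi
  sing := by
    intro v S P hP i j c hc hi
    have h1 : ∀ j, ∃ q : Crd N r k, D.OnX q ∧ D.IsValue v (ptN D S P j) q := fun j =>
      exists_isValue h v (onX_ptN hP j)
    choose q hq hv using h1
    have h2 := isValue_s (hv j) (hq j).1 (s := c) (by
      show (![1, S j] : Fin 2 → Om k) 0 ≠ 0
      simp) (by
      show v.At ((![1, S j] : Fin 2 → Om k) 1 / (![1, S j] : Fin 2 → Om k) 0) c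
      simpa using hc)
    refine ⟨q, hq, hv, AN_sing h hq (j := j) (i := i) h2.1 ?_⟩
    rw [h2.2, mul_div_cancel_right₀ _ h2.1, ev_dsc, hi, sub_self, mul_zero]
  bridge := by
    intro I _ w S P hP c₀ c₁ C₀ C₁ h₀ h₁
    exact bridgeAN w (fun x => ptN D (S x) (P x)) (fun x => onX_ptN (hP x)) c₀ c₁ C₀ C₁ h₀ h₁

omit [IsAlgClosed k] in
/-- the assumptions about the degrees -/
theorem good_deg {D : Dat k N r} (h : Good D n) (hz : ∃ i δ, D.dsc i (δ : k) = 0) :
    DegOk n D.deg (alG D) D.be where
  npos := h.npos
  sum := h.sum
  dα := fun i => (natDegree_C_mul_le _ _).trans (natDegree_al h i)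
  dB := natDegree_be h
  zero := by
    obtain ⟨i, δ, hδ⟩ := hz
    rw [ev_dsc] at hδ
    rcases mul_eq_zero.1 hδ with h1 | h1
    · norm_num at h1
    · exact ⟨i, δ, sub_eq_zero.1 h1⟩

/-- Enough for the core theorem: the class function is zero for points over affine points of the
line. Use `exists_pt` for all points; if some `z_i = 0` then `y_b = 0` and `AN_y` applies. -/
theorem AN_zero_of_F {D : Dat k N r} (h : Good D n)
    (H : ∀ (s : Fin n → k) (p : Fin N → Fin n → EPt k), OnS (alG D) D.be s p → FG D s p = 0)
    (w : Fin n → Crd N r k) (hw : ∀ j, D.OnX (w j)) (h0 : ∀ j, (w j).s 0 ≠ 0) : AN D w = 0 := by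
  by_cases hz : ∃ j i, (w j).z i = 0
  · obtain ⟨j, i, hi⟩ := hz
    refine AN_y (j := j) (b := D.blk i) ?_
    have h1 := (hw j).2.2 (D.blk i)
    have h2 : ∏ i' with D.blk i' = D.blk i, D.fac (w j) i' = 0 := by
      refine Finset.prod_eq_zero (i := i) (by simp) ?_
      unfold Dat.fac
      rw [hi]
      ring
    rw [h2] at h1
    exact pow_eq_zero_iff (two_ne_zero) |>.1 h1
  · push Not at hz
    choose c m s p hc hm hp he using fun j => exists_pt h (hw j) (h0 j) (hz j)
    have h1 : w = fun j => D.scale (c j) (m j) (ptN D s (fun i j => p j i) j) := by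
      funext j
      rw [he j]
      rfl
    have h2 : OnS (alG D) D.be s (fun i j => p j i) := by
      intro i j
      unfold ev
      rw [coe_aeval_eq_eval]
      exact hp j i
    rw [h1, AN_scale h hc hm (onX_ptN h2), ← FG_on h2]
    exact H s _ h2

end Pool.Agent.TInf
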