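import Pool.Agent.TInf.RecutAlg

/-!
# Recutting does not change the state
-/

set_option autoImplicit false

noncomputable section

namespace Pool.Agent.TInf

open Polynomial

variable {K : Type*} [Field K] [CharZero K] {s₁ s₂ s₁' s₂' : Side K}

/-- `4 V` times `push`, in terms of the entries of `L = ((ζ P, -Q), (-R, ζ S))`. -/
private def phi (P Q R S : K) (M : Mq K) : Mq K where
  a := C (P * S + Q * R) * M.a + X * (C (P * R) * M.b - C (Q * S) * M.c)
  b := C (2 * (P * Q)) * M.a + C (P ^ 2) * M.b - C (Q ^ 2) * M.c -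
    (1 - X) * C (2 * (P * Q)) * M.t
  c := -(C (2 * (R * S)) * M.a) - C (R ^ 2) * M.b + C (S ^ 2) * M.c -
    (1 - X) * C (2 * (R * S)) * M.t
  t := C (P * S - Q * R) * M.t + C (P * R) * M.b + C (Q * S) * M.c

/-- The composition of two maps `phi`, in terms of the entries of the product of the matrices. -/
private def psi (A D C1 C2 E F : K) (M : Mq K) : Mq K where
  a := (C (A * D + C1 * C2 + E * F - (A * C2 + D * C1)) + X * C (2 * (A * C2 + D * C1))) * M.a +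
    X * C ((A + C1) * F) * M.b - X * C ((C2 + D) * E) * M.c -
    X * (1 - X) * C (2 * (A * C2 - D * C1)) * M.t
  b := C (2 * ((A + C1) * E)) * M.a + (C (A ^ 2 + C1 ^ 2 - 2 * (A * C1)) + X * C (4 * (A * C1))) *
    M.b - C (E ^ 2) * M.c - (1 - X) * C (2 * ((A - C1) * E)) * M.t
  c := -(C (2 * ((C2 + D) * F)) * M.a) - C (F ^ 2) * M.b +
    (C (C2 ^ 2 + D ^ 2 - 2 * (C2 * D)) + X * C (4 * (C2 * D))) * M.c -
    (1 - X) * C (2 * ((D - C2) * F)) * M.t
  t := C (2 * (A * C2 - D * C1)) * M.a + C ((A - C1) * F) * M.b + C ((D - C2) * E) * M.c +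
    (C (A * D + C1 * C2 - E * F - (A * C2 + D * C1)) + X * C (2 * (A * C2 + D * C1))) * M.t

omit [CharZero K] in
private theorem phi_phi [Infinite K] (P₁ Q₁ R₁ S₁ P₂ Q₂ R₂ S₂ : K) (M : Mq K) :
    phi P₂ Q₂ R₂ S₂ (phi P₁ Q₁ R₁ S₁ M) =
      psi (P₂ * P₁) (S₂ * S₁) (Q₂ * R₁) (R₂ * Q₁) (P₂ * Q₁ + Q₂ * S₁) (R₂ * P₁ + S₂ * R₁) M := by
  apply Mq.ext <;> refine Polynomial.funext fun x => ?_ <;>
    simp only [phi, psi, eval_add, eval_sub, eval_mul, eval_C, eval_X, eval_neg, eval_one] <;>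
    ring

/-- multiplication of the entries by a constant -/
private def scl (c : K) (M : Mq K) : Mq K := ⟨C c * M.a, C c * M.b, C c * M.c, C c * M.t⟩

omit [CharZero K] in
private theorem phi_scl (P Q R S c : K) (M : Mq K) :
    phi P Q R S (scl c M) = scl c (phi P Q R S M) := by
  apply Mq.ext <;> simp only [phi, scl] <;> ring

omit [CharZero K] in
private theorem scl_scl (c d : K) (M : Mq K) : scl c (scl d M) = scl (c * d) M := by
  apply Mq.ext <;> simp only [scl, C_mul] <;> ring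

private theorem push_eq {s : Side K} (hs : s.Good) (M : Mq K) :
    push s M = scl (1 / (4 * s.V)) (phi (s.p * (s.T + s.m) / s.T) (s.m * (s.T + s.p) / s.T)
      (s.T + s.m) (s.T + s.p) M) := by
  obtain ⟨h0, h1, h2⟩ := hs
  apply Mq.ext <;> refine Polynomial.funext fun x => ?_ <;>
    simp only [push, phi, scl, Side.V, eval_add, eval_sub, eval_mul, eval_C, eval_X, eval_neg,
      eval_one] <;> field_simp <;> ring

private theorem push_push {s₁ s₂ : Side K} (h₁ : s₁.Good) (h₂ : s₂.Good) (M : Mq K) :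
    push s₂ (push s₁ M) = scl (1 / (16 * (s₁.V * s₂.V))) (psi
      (s₂.p * (s₂.T + s₂.m) / s₂.T * (s₁.p * (s₁.T + s₁.m) / s₁.T))
      ((s₂.T + s₂.p) * (s₁.T + s₁.p))
      (s₂.m * (s₂.T + s₂.p) / s₂.T * (s₁.T + s₁.m))
      ((s₂.T + s₂.m) * (s₁.m * (s₁.T + s₁.p) / s₁.T))
      (s₂.p * (s₂.T + s₂.m) / s₂.T * (s₁.m * (s₁.T + s₁.p) / s₁.T) +
        s₂.m * (s₂.T + s₂.p) / s₂.T * (s₁.T + s₁.p))
      ((s₂.T + s₂.m) * (s₁.p * (s₁.T + s₁.m) / s₁.T) + (s₂.T + s₂.p) * (s₁.T + s₁.m)) M) := by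
  rw [push_eq h₂, push_eq h₁, phi_scl, scl_scl, phi_phi]
  congr 1
  rw [div_mul_div_comm, one_mul]
  congr 1
  ring

/-- Refactorisation. (One has `mat (push s M) ζ = (4 V)⁻¹ L(s, ζ) (mat M ζ) adj (L(s, ζ⁻¹))` with
`L(s, ζ) = ((ζ p (T + m) / T, -m (T + p) / T), (-(T + m), ζ (T + p)))` and
`mat M ζ = ((a + S t, κ b), (κ c, -a + S t))`, and (a) = `e₁`, (b) = `e₂`, (c), (d), (e), (f) are the
equations between the entries in `L(s₂) L(s₁) = L(s₁') L(s₂')`.) -/
theorem push_recut (h : Rcut s₁ s₂ s₁' s₂') (h₁ : s₁.Good) (h₂ : s₂.Good) (h₁' : s₁'.Good)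
    (h₂' : s₂'.Good) (M : Mq K) : push s₂ (push s₁ M) = push s₁' (push s₂' M) := by
  have hc := h.c h₁ h₂ h₁' h₂'
  have hd := h.d h₁ h₂ h₁' h₂'
  have he := h.e h₁ h₂ h₁' h₂'
  have hf := h.f h₁ h₂ h₁' h₂'
  have hV := h.V h₁ h₂ h₁' h₂'
  have e1 := h.e₁
  have e2 := h.e₂
  rw [push_push h₁ h₂, push_push h₂' h₁', mul_comm s₂'.V, hV, h.p₁, h.m₁, h.p₂, h.m₂]
  obtain ⟨a0, -, -⟩ := h₁
  obtain ⟨b0, -, -⟩ := h₂
  obtain ⟨c0, -, -⟩ := h₁'
  obtain ⟨d0, -, -⟩ := h₂'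
  congr 2
  · field_simp
    linear_combination s₁.p * s₂.p * e2
  · linear_combination e1
  · field_simp
    linear_combination -hc
  · field_simp
    linear_combination -hd
  · field_simp
    linear_combination -he
  · field_simp
    linear_combination -hf

end Pool.Agent.TInf
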