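import Pool.Agent.TInf.Recut
import Pool.Agent.TInf.RecutPush
import Pool.Agent.TInf.Conf
import Pool.Agent.TInf.Arr

/-!
# Invariance of the classes under change of the ordering and of the square roots
-/

set_option autoImplicit false

noncomputable section

namespace Pool.Agent.TInf

open Pool.Agent.ZCyc Polynomial
open Pool.Agent.VFP (Om tt)

universe u

variable {k : Type u} [Field k] [IsAlgClosed k] [CharZero k] {n : ℕ} {W : Type*} [AddCommGroup W]
  [Module ℚ W] {α B : Fin n → k} {f : (Fin n → EPt k) → W}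

/-- the statement for `arr_induction` -/
def InvP (α B : Fin n → k) (f : (Fin n → EPt k) → W) (ζ : k) (l : ZMod 3) (M : Mq k) (P : k)
    (S : W) (o : Equiv.Perm (Fin n)) (β : Fin n → k) : Prop :=
  ∃ T : Fin n → k, (⟨o, β, T⟩ : Cfg k n).Good α B ∧ (⟨o, β, T⟩ : Cfg k n).M B = M ∧
    ∀ w : Fin n → k, (∀ j, w j ^ 6 = ((⟨o, β, T⟩ : Cfg k n).side B j).V) → ∏ j, w j = P →
      Sl f ζ α ((⟨o, β, T⟩ : Cfg k n).side B) w l = ((Equiv.Perm.sign o : ℤˣ) : ℤ) • S

/-! ### Lists of sides which differ at one or two places -/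

private theorem list_two {n : ℕ} {a b : Fin n} (hab : a.val + 1 = b.val) :
    ∃ L₁ L₂ : List (Fin n), List.finRange n = L₁ ++ a :: b :: L₂ ∧ (∀ x ∈ L₁, x ≠ a ∧ x ≠ b) ∧
      ∀ x ∈ L₂, x ≠ a ∧ x ≠ b := by
  have hl : (List.finRange n).length = n := List.length_finRange
  have ha : a.val < (List.finRange n).length := by rw [hl]; exact a.2
  have hb : a.val + 1 < (List.finRange n).length := by rw [hl, hab]; exact b.2
  have e1 : (List.finRange n).drop a.val = a :: b :: (List.finRange n).drop (a.val + 1 + 1) := by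
    rw [List.drop_eq_getElem_cons ha, List.drop_eq_getElem_cons hb]
    congr 1
    · rw [List.getElem_finRange]; rfl
    · congr 1
      rw [List.getElem_finRange]
      exact Fin.ext hab
  have e2 : List.finRange n = (List.finRange n).take a.val ++
      a :: b :: (List.finRange n).drop (a.val + 1 + 1) := by
    rw [← e1, List.take_append_drop]
  have hnd := List.nodup_finRange n
  rw [e2] at hnd
  rw [List.nodup_append] at hnd
  obtain ⟨h1, h2, h3⟩ := hnd
  rw [List.nodup_cons, List.nodup_cons] at h2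
  obtain ⟨h4, h5, h6⟩ := h2
  refine ⟨_, _, e2, ?_, ?_⟩
  · intro x hx
    exact ⟨h3 x hx a (by simp), h3 x hx b (by simp)⟩
  · intro x hx
    constructor
    · rintro rfl
      exact h4 (List.mem_cons_of_mem _ hx)
    · rintro rfl
      exact h5 hx

private theorem list_last {n : ℕ} {a : Fin n} (ha : a.val + 1 = n) :
    ∃ L₁ : List (Fin n), List.finRange n = L₁ ++ [a] ∧ ∀ x ∈ L₁, x ≠ a := by
  have hl : (List.finRange n).length = n := List.length_finRange
  have ha' : a.val < (List.finRange n).length := by rw [hl]; exact a.2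
  have e1 : (List.finRange n).drop a.val = [a] := by
    rw [List.drop_eq_getElem_cons ha']
    congr 1
    · rw [List.getElem_finRange]; rfl
    · rw [List.drop_eq_nil_iff, hl, ha]
  have e2 : List.finRange n = (List.finRange n).take a.val ++ [a] := by
    rw [← e1, List.take_append_drop]
  have hnd := List.nodup_finRange n
  rw [e2] at hnd
  rw [List.nodup_append] at hnd
  obtain ⟨h1, h2, h3⟩ := hnd
  exact ⟨_, e2, fun x hx => h3 x hx a (by simp)⟩

private theorem fold_two {K : Type*} [Field K] {n : ℕ} {a b : Fin n} (hab : a.val + 1 = b.val)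
    (F G : Fin n → Side K) (hFG : ∀ x, x ≠ a → x ≠ b → G x = F x)
    (h : ∀ M, push (F a) (push (F b) M) = push (G a) (push (G b) M)) :
    ((List.finRange n).map G).foldr push Mq.one = ((List.finRange n).map F).foldr push Mq.one := by
  obtain ⟨L₁, L₂, e, h1, h2⟩ := list_two hab
  have e1 : L₁.map G = L₁.map F := List.map_congr_left fun x hx => hFG x (h1 x hx).1 (h1 x hx).2
  have e2 : L₂.map G = L₂.map F := List.map_congr_left fun x hx => hFG x (h2 x hx).1 (h2 x hx).2
  rw [e]
  simp only [List.map_append, List.map_cons, List.foldr_append, List.foldr_cons]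
  rw [e1, e2, h]

private theorem fold_last {K : Type*} [Field K] {n : ℕ} {a : Fin n} (ha : a.val + 1 = n)
    (F G : Fin n → Side K) (hFG : ∀ x, x ≠ a → G x = F x)
    (h : push (F a) Mq.one = push (G a) Mq.one) :
    ((List.finRange n).map G).foldr push Mq.one = ((List.finRange n).map F).foldr push Mq.one := by
  obtain ⟨L₁, e, h1⟩ := list_last ha
  have e1 : L₁.map G = L₁.map F := List.map_congr_left fun x hx => hFG x (h1 x hx)
  rw [e]
  simp only [List.map_append, List.map_cons, List.map_nil, List.foldr_append, List.foldr_cons,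
    List.foldr_nil]
  rw [e1, h]

/-! ### The product of the `V` -/

omit [IsAlgClosed k] in
private theorem prod_V {c : Cfg k n} (hc : c.Good α B) :
    ∏ j, (c.side B j).V = (c.M B).a.eval 1 + ((c.M B).b.eval 1 - (c.M B).c.eval 1) / 2 := by
  have h1 : ∀ s ∈ c.sides B, s.Good := by
    intro s hs
    obtain ⟨a, _, rfl⟩ := List.mem_map.1 hs
    exact hc.2 _
  rw [Cfg.M_eq, V_st h1, Cfg.sides, List.map_map]
  have h2 : ∏ a, (c.side B (c.ord a)).V = ∏ j, (c.side B j).V :=
    Equiv.prod_comp c.ord fun j => (c.side B j).V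
  rw [← h2, Fin.prod_univ_def]
  rfl

omit [IsAlgClosed k] in
private theorem V_ne' {s : Side k} (hs : s.Good) : s.V ≠ 0 := by
  obtain ⟨h1, h2, h3⟩ := hs
  exact div_ne_zero (mul_ne_zero h2 h3) (mul_ne_zero two_ne_zero h1)

/-- sixth roots with a given product -/
private theorem exists_roots {v : Fin n → k} (hv : ∀ j, v j ≠ 0) {P : k} (hP : P ^ 6 = ∏ j, v j)
    (i : Fin n) : ∃ w : Fin n → k, (∀ j, w j ^ 6 = v j) ∧ ∏ j, w j = P := by
  have h1 : ∀ j, ∃ w, w ^ 6 = v j := fun j => IsAlgClosed.exists_pow_nat_eq (v j) (by norm_num)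
  choose w hw using h1
  have hw0 : ∀ j, w j ≠ 0 := by
    intro j h
    apply hv j
    rw [← hw j, h]
    norm_num
  have hp0 : ∏ j, w j ≠ 0 := Finset.prod_ne_zero_iff.2 fun j _ => hw0 j
  have hp6 : (∏ j, w j) ^ 6 = P ^ 6 := by
    rw [← Finset.prod_pow, hP]
    exact Finset.prod_congr rfl fun j _ => hw j
  refine ⟨Function.update w i (P / (∏ j, w j) * w i), ?_, ?_⟩
  · intro j
    rcases eq_or_ne j i with rfl | hj
    · rw [Function.update_self, mul_pow, div_pow, hp6, div_self, one_mul, hw]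
      rw [← hp6]
      exact pow_ne_zero 6 hp0
    · rw [Function.update_of_ne hj, hw]
  · rw [Finset.prod_update_of_mem (Finset.mem_univ i)]
    have h2 : w i * ∏ j ∈ Finset.univ \ {i}, w j = ∏ j, w j := by
      rw [← Finset.prod_update_of_mem (Finset.mem_univ i), Function.update_eq_self]
    rw [mul_assoc, h2, div_mul_cancel₀ _ hp0]

/-! ### Signs -/

private theorem sign_smul_smul {m : ℕ} (o : Equiv.Perm (Fin m)) (x : W) :
    ((Equiv.Perm.sign o : ℤˣ) : ℤ) • (((Equiv.Perm.sign o : ℤˣ) : ℤ) • x) = x := by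
  rw [smul_smul]
  have : ((Equiv.Perm.sign o : ℤˣ) : ℤ) * ((Equiv.Perm.sign o : ℤˣ) : ℤ) = 1 := by
    rcases Int.units_eq_one_or (Equiv.Perm.sign o) with h | h <;> rw [h] <;> norm_num
  rw [this, one_smul]

private theorem sign_smul_ne {m : ℕ} (o : Equiv.Perm (Fin m)) {x : W} (hx : x ≠ 0) :
    ((Equiv.Perm.sign o : ℤˣ) : ℤ) • x ≠ 0 := by
  intro h
  apply hx
  rw [← sign_smul_smul o x, h, smul_zero]

/-- Exchange of the labels `o a`, `o b` at adjacent places: `recut`, `push_recut`. (There are sixth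
roots `w` of the `V` with product `P`: this is true for one configuration with the state `M` and then
for all of them by `V_st`: `P ^ 6 = ∏ V`.) -/
theorem InvP.swap (hf : ClassFn α B f) {ζ : k} (hζ : IsPrimitiveRoot ζ 3) (hα : ∀ j, α j ≠ 0)
    (hdisc : ∀ j, B j ^ 2 ≠ 4 * α j ^ 3)
    {l : ZMod 3} {M : Mq k} {P : k} {S : W} (hS : S ≠ 0)
    (hP : P ^ 6 = M.a.eval 1 + (M.b.eval 1 - M.c.eval 1) / 2) {o : Equiv.Perm (Fin n)}
    {β : Fin n → k} {a b : Fin n} (hab : a.val + 1 = b.val) (ho : InvP α B f ζ l M P S o β) :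
    InvP α B f ζ l M P S (o * Equiv.swap a b) β := by
  obtain ⟨T, hg, hM, hprop⟩ := ho
  set c : Cfg k n := ⟨o, β, T⟩ with hc
  have hne : o a ≠ o b := by
    intro h1
    have h2 := o.injective h1
    rw [h2] at hab
    omega
  have hV0 : ∀ j, (c.side B j).V ≠ 0 := fun j => V_ne' (hg.2 j)
  have hP' : P ^ 6 = ∏ j, (c.side B j).V := by rw [hP, prod_V hg, hM]
  obtain ⟨w, hw6, hwP⟩ := exists_roots hV0 hP' a
  have hSl := hprop w hw6 hwP
  have h0 : Sl f ζ α (c.side B) w l ≠ 0 := by
    rw [hSl]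
    exact sign_smul_ne o hS
  obtain ⟨Ti, Tj, hTi, hgi, hgj, e1, e2, hrec⟩ := recut hf hζ (c.side B) hg.2
    (fun j => by simp only [Cfg.side]; ring)
    (fun j => by
      have h1 : (c.side B j).p - (c.side B j).m = 2 * β j := by simp only [Cfg.side, hc]; ring
      have h2 : β j ^ 2 = α j ^ 3 := hg.1 j
      rw [h1, mul_pow, h2]
      ring) hα
    (fun j => by
      have h1 : (c.side B j).p * (c.side B j).m = (B j ^ 2 - 4 * β j ^ 2) / 4 := by
        simp only [Cfg.side, hc]; ring
      have h2 : β j ^ 2 = α j ^ 3 := hg.1 j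
      rw [h1, h2]
      exact div_ne_zero (sub_ne_zero.2 (hdisc j)) (by norm_num)) w hw6 hne l h0
  set T' : Fin n → k := Function.update (Function.update T (o a) Ti) (o b) Tj with hT'
  set c' : Cfg k n := ⟨o * Equiv.swap a b, β, T'⟩ with hc'
  have hside : c'.side B = upd (c.side B) (o a) (o b) Ti Tj := by
    funext j
    rw [upd]
    rcases eq_or_ne j (o b) with rfl | hj
    · rw [Function.update_self]
      simp only [Cfg.side, hc', hc, hT', Function.update_self]
    · rw [Function.update_of_ne hj]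
      rcases eq_or_ne j (o a) with rfl | hj'
      · rw [Function.update_self]
        simp only [Cfg.side, hc', hc, hT', Function.update_of_ne hj, Function.update_self]
      · rw [Function.update_of_ne hj']
        simp only [Cfg.side, hc', hc, hT', Function.update_of_ne hj, Function.update_of_ne hj']
  have hsa : c'.side B (o a) = ⟨(c.side B (o a)).p, (c.side B (o a)).m, Ti⟩ := by
    rw [hside, upd, Function.update_of_ne hne, Function.update_self]
  have hsb : c'.side B (o b) = ⟨(c.side B (o b)).p, (c.side B (o b)).m, Tj⟩ := by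
    rw [hside, upd, Function.update_self]
  have hso : ∀ j, j ≠ o a → j ≠ o b → c'.side B j = c.side B j := by
    intro j h1 h2
    rw [hside, upd, Function.update_of_ne h2, Function.update_of_ne h1]
  refine ⟨T', ⟨hg.1, ?_⟩, ?_, ?_⟩
  · intro j
    change (c'.side B j).Good
    rcases eq_or_ne j (o b) with rfl | hj
    · rw [hsb]
      exact hgj
    · rcases eq_or_ne j (o a) with rfl | hj'
      · rw [hsa]
        exact hgi
      · rw [hso j hj' hj]
        exact hg.2 j
  · have hR : Rcut (c.side B (o b)) (c.side B (o a)) (c'.side B (o b)) (c'.side B (o a)) := by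
      apply Rcut.symm
      rw [hsa, hsb]
      exact
      { p₁ := rfl
        m₁ := rfl
        p₂ := rfl
        m₂ := rfl
        e₁ := e1.symm
        e₂ := e2.symm
        ne := fun h1 => hTi h1.1 }
    have hga : (c'.side B (o a)).Good := by rw [hsa]; exact hgi
    have hgb : (c'.side B (o b)).Good := by rw [hsb]; exact hgj
    have := fold_two hab (fun x => c.side B (o x))
      (fun x => c'.side B ((o * Equiv.swap a b) x)) (fun x h1 h2 => by
        simp only [Equiv.Perm.mul_apply, Equiv.swap_apply_of_ne_of_ne h1 h2]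
        exact hso _ (fun h3 => h1 (o.injective h3)) (fun h3 => h2 (o.injective h3)))
      (fun M' => by
        simp only [Equiv.Perm.mul_apply, Equiv.swap_apply_left, Equiv.swap_apply_right]
        exact push_recut hR (hg.2 _) (hg.2 _) hgb hga M')
    rw [← hM]
    exact this
  · intro w' hw' hwP'
    change Sl f ζ α (c'.side B) w' l = _
    have h1 := hrec w' (fun j => by rw [← hside]; exact hw' j) (by rw [hwP', hwP])
    rw [hside, h1, hSl, Equiv.Perm.sign_mul, Equiv.Perm.sign_swap (fun h2 => hne (by rw [h2]))]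
    simp only [mul_neg, mul_one, Units.val_neg, neg_smul]

/-- Change of the square root at the last place: `push_flip`; `V` and `Sg` do not change. -/
theorem InvP.flip {ζ : k} {l : ZMod 3} {M : Mq k} {P : k} {S : W} {o : Equiv.Perm (Fin n)}
    {β : Fin n → k} {a : Fin n} (ha : a.val + 1 = n) (ho : InvP α B f ζ l M P S o β) :
    InvP α B f ζ l M P S o (Function.update β (o a) (-β (o a))) := by
  obtain ⟨T, hg, hM, hprop⟩ := ho
  set c : Cfg k n := ⟨o, β, T⟩ with hc
  set c' : Cfg k n := ⟨o, Function.update β (o a) (-β (o a)), T⟩ with hc'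
  have hsa : c'.side B (o a) = ⟨(c.side B (o a)).m, (c.side B (o a)).p, (c.side B (o a)).T⟩ := by
    simp only [Cfg.side, hc', hc, Function.update_self]
    congr 1 <;> ring
  have hso : ∀ j, j ≠ o a → c'.side B j = c.side B j := by
    intro j h1
    simp only [Cfg.side, hc', hc, Function.update_of_ne h1]
  have hV : ∀ j, (c'.side B j).V = (c.side B j).V := by
    intro j
    rcases eq_or_ne j (o a) with rfl | hj
    · rw [hsa]
      simp only [Side.V]
      ring
    · rw [hso j hj]
  have hSg : ∀ j, (c'.side B j).Sg = (c.side B j).Sg := by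
    intro j
    rcases eq_or_ne j (o a) with rfl | hj
    · rw [hsa]
      simp only [Side.Sg]
      ring
    · rw [hso j hj]
  refine ⟨T, ⟨?_, ?_⟩, ?_, ?_⟩
  · intro j
    change Function.update β (o a) (-β (o a)) j ^ 2 = α j ^ 3
    rcases eq_or_ne j (o a) with rfl | hj
    · rw [Function.update_self, neg_sq]
      exact hg.1 _
    · rw [Function.update_of_ne hj]
      exact hg.1 _
  · intro j
    change (c'.side B j).Good
    rcases eq_or_ne j (o a) with rfl | hj
    · rw [hsa]
      obtain ⟨h1, h2, h3⟩ := hg.2 (o a)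
      exact ⟨h1, h3, h2⟩
    · rw [hso j hj]
      exact hg.2 j
  · have := fold_last ha (fun x => c.side B (o x)) (fun x => c'.side B (o x)) (fun x h1 =>
      hso _ (fun h3 => h1 (o.injective h3))) (by
        rw [hsa]
        exact push_flip _ _ _)
    rw [← hM]
    exact this
  · intro w hw hwP
    change Sl f ζ α (c'.side B) w l = _
    rw [← hprop w (fun j => by rw [hw j]; exact hV j) hwP]
    unfold Sl
    refine Finset.sum_congr rfl fun x _ => ?_
    simp only [epoint, hSg]

/-- `arr_induction` -/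
theorem InvP.all' (hf : ClassFn α B f) {ζ : k} (hζ : IsPrimitiveRoot ζ 3) (hα : ∀ j, α j ≠ 0)
    (hdisc : ∀ j, B j ^ 2 ≠ 4 * α j ^ 3)
    {c : Cfg k n} (hc : c.Good α B) {w : Fin n → k} (hw : ∀ j, w j ^ 6 = (c.side B j).V)
    {l : ZMod 3} (h0 : Sl f ζ α (c.side B) w l ≠ 0) (o : Equiv.Perm (Fin n)) {β : Fin n → k}
    (hβ : ∀ j, β j ^ 2 = α j ^ 3) :
    InvP α B f ζ l (c.M B) (∏ j, w j)
      (((Equiv.Perm.sign c.ord : ℤˣ) : ℤ) • Sl f ζ α (c.side B) w l) o β := by
  have hw0 : ∀ j, w j ≠ 0 := by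
    intro j hj
    have := hw j
    rw [hj] at this
    exact V_ne' (hc.2 j) (by rw [← this]; norm_num)
  set S : W := ((Equiv.Perm.sign c.ord : ℤˣ) : ℤ) • Sl f ζ α (c.side B) w l with hS
  have hS0 : S ≠ 0 := sign_smul_ne c.ord h0
  have hP : (∏ j, w j) ^ 6 =
      (c.M B).a.eval 1 + ((c.M B).b.eval 1 - (c.M B).c.eval 1) / 2 := by
    rw [← prod_V hc, ← Finset.prod_pow]
    exact Finset.prod_congr rfl fun j _ => hw j
  have hstart : InvP α B f ζ l (c.M B) (∏ j, w j) S c.ord c.β := by
    refine ⟨c.T, hc, rfl, ?_⟩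
    intro w' hw' hp
    rw [hS, sign_smul_smul]
    exact Sl_congr hf hζ (c.side B) hw0 (fun j => by rw [hw j]; exact hw' j) hp l
  exact arr_induction (InvP α B f ζ l (c.M B) (∏ j, w j) S)
    (fun o β a b hab ho => ho.swap hf hζ hα hdisc hS0 hP hab)
    (fun o β a ha ho => ho.flip ha) c.ord c.β hstart o β (fun j => by
      have h1 : β j ^ 2 = c.β j ^ 2 := by rw [hβ j, hc.1 j]
      exact sq_eq_sq_iff_eq_or_eq_neg.1 h1)

/-- `arr_induction` -/
theorem InvP.all (hf : ClassFn α B f) {ζ : k} (hζ : IsPrimitiveRoot ζ 3) (h : Nd α B)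
    {c : Cfg k n} (hc : c.Good α B) {w : Fin n → k} (hw : ∀ j, w j ^ 6 = (c.side B j).V)
    {l : ZMod 3} (h0 : Sl f ζ α (c.side B) w l ≠ 0) (o : Equiv.Perm (Fin n)) {β : Fin n → k}
    (hβ : ∀ j, β j ^ 2 = α j ^ 3) :
    InvP α B f ζ l (c.M B) (∏ j, w j)
      (((Equiv.Perm.sign c.ord : ℤˣ) : ℤ) • Sl f ζ α (c.side B) w l) o β :=
  InvP.all' hf hζ h.hα h.disc hc hw h0 o hβ

/-- If the class of a configuration is not zero, then there are configurations with the same state
for all orderings and square roots. -/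
theorem full_of_ne (hf : ClassFn α B f) {ζ : k} (hζ : IsPrimitiveRoot ζ 3) (h : Nd α B)
    {c : Cfg k n} (hc : c.Good α B) {w : Fin n → k} (hw : ∀ j, w j ^ 6 = (c.side B j).V)
    {l : ZMod 3} (h0 : Sl f ζ α (c.side B) w l ≠ 0) : Full α B (c.M B) := by
  intro o β hβ
  obtain ⟨T, h1, h2, -⟩ := InvP.all hf hζ h hc hw h0 o hβ
  exact ⟨T, h1, h2⟩

/-- The classes of configurations with the same state are equal up to the signs of the orderings.
(If one of them is not zero use `InvP.all`, `full_of_ne` and `cfg_unique`.) -/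
theorem Sl_inv (hf : ClassFn α B f) {ζ : k} (hζ : IsPrimitiveRoot ζ 3) (h : Nd α B)
    {c c' : Cfg k n} (hc : c.Good α B) (hc' : c'.Good α B) (hM : c'.M B = c.M B)
    {w w' : Fin n → k} (hw : ∀ j, w j ^ 6 = (c.side B j).V)
    (hw' : ∀ j, w' j ^ 6 = (c'.side B j).V) (hP : ∏ j, w' j = ∏ j, w j) (l : ZMod 3) :
    ((Equiv.Perm.sign c'.ord : ℤˣ) : ℤ) • Sl f ζ α (c'.side B) w' l =
      ((Equiv.Perm.sign c.ord : ℤˣ) : ℤ) • Sl f ζ α (c.side B) w l := by
  have key : ∀ {c c' : Cfg k n}, c.Good α B → c'.Good α B → c'.M B = c.M B →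
      ∀ {w w' : Fin n → k}, (∀ j, w j ^ 6 = (c.side B j).V) → (∀ j, w' j ^ 6 = (c'.side B j).V) →
      ∏ j, w' j = ∏ j, w j → Sl f ζ α (c.side B) w l ≠ 0 →
      ((Equiv.Perm.sign c'.ord : ℤˣ) : ℤ) • Sl f ζ α (c'.side B) w' l =
        ((Equiv.Perm.sign c.ord : ℤˣ) : ℤ) • Sl f ζ α (c.side B) w l := by
    intro c c' hc hc' hM w w' hw hw' hP h0
    obtain ⟨T, h1, h2, h3⟩ := InvP.all hf hζ h hc hw h0 c'.ord hc'.1
    have hF := full_of_ne hf hζ h hc hw h0
    have h4 : c' = ⟨c'.ord, c'.β, T⟩ := cfg_unique h hF h1 hc' rfl rfl h2 hM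
    have h5 := h3 w' (fun j => by rw [← h4]; exact hw' j) hP
    rw [← h4] at h5
    rw [h5, sign_smul_smul]
  by_cases h0 : Sl f ζ α (c.side B) w l = 0
  · by_cases h1 : Sl f ζ α (c'.side B) w' l = 0
    · rw [h0, h1, smul_zero, smul_zero]
    · exact (key hc' hc hM.symm hw' hw hP.symm h1).symm
  · exact key hc hc' hM hw hw' hP h0

end Pool.Agent.TInf
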