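import Pool.Agent.TInf.PathUniq

/-!
# States over `Om k` with a value at a place
-/

set_option autoImplicit false

noncomputable section

namespace Pool.Agent.TInf

open Pool.Agent.ZCyc Polynomial
open Pool.Agent.VFP (Om tt)

universe u

variable {k : Type u} [Field k]

/-- the coefficients of `P` have the coefficients of `p` as values at `v` -/
def PAt (v : Place k (Om k)) (P : (Om k)[X]) (p : k[X]) : Prop := ∀ i, v.At (P.coeff i) (p.coeff i)

/-- the state `M'` has the value `M` at `v` -/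
structure MAt (v : Place k (Om k)) (M' : Mq (Om k)) (M : Mq k) : Prop where
  a : PAt v M'.a M.a
  b : PAt v M'.b M.b
  c : PAt v M'.c M.c
  t : PAt v M'.t M.t

/-- the side `s'` has the value `s` at `v` -/
structure SAt (v : Place k (Om k)) (s' : Side (Om k)) (s : Side k) : Prop where
  p : v.At s'.p s.p
  m : v.At s'.m s.m
  T : v.At s'.T s.T

variable {v : Place k (Om k)}

private lemma at_zero : v.At (0 : Om k) 0 := Place.at_zero_iff.2 v.vanishes_zero

private lemma at_one : v.At (1 : Om k) 1 := by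
  have := Place.at_const (v := v) (1 : k)
  rwa [map_one] at this

private lemma at_two : v.At (2 : Om k) 2 := by
  have := Place.at_const (v := v) (2 : k)
  rwa [map_ofNat] at this

private lemma at_ne {x : Om k} {y : k} (h : v.At x y) (hy : y ≠ 0) : x ≠ 0 := by
  rintro rfl
  exact hy (h.unique at_zero)

private lemma PAt.add {P Q : (Om k)[X]} {p q : k[X]} (h : PAt v P p) (h' : PAt v Q q) :
    PAt v (P + Q) (p + q) := fun i => by
  rw [coeff_add, coeff_add]
  exact (h i).add (h' i)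

private lemma PAt.sub {P Q : (Om k)[X]} {p q : k[X]} (h : PAt v P p) (h' : PAt v Q q) :
    PAt v (P - Q) (p - q) := fun i => by
  rw [coeff_sub, coeff_sub]
  exact (h i).sub (h' i)

private lemma PAt.neg {P : (Om k)[X]} {p : k[X]} (h : PAt v P p) : PAt v (-P) (-p) := fun i => by
  rw [coeff_neg, coeff_neg]
  exact (h i).neg

private lemma PAt.mul {P Q : (Om k)[X]} {p q : k[X]} (h : PAt v P p) (h' : PAt v Q q) :
    PAt v (P * Q) (p * q) := fun i => by
  rw [coeff_mul, coeff_mul]
  exact Place.At.sum fun x _ => (h x.1).mul (h' x.2)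

private lemma PAt.cst {x : Om k} {y : k} (h : v.At x y) : PAt v (Polynomial.C x) (Polynomial.C y) :=
  fun i => by
  rw [coeff_C, coeff_C]
  split_ifs
  · exact h
  · exact at_zero

private lemma PAt.var : PAt v (Polynomial.X : (Om k)[X]) (Polynomial.X : k[X]) := fun i => by
  rw [coeff_X, coeff_X]
  split_ifs
  · exact at_one
  · exact at_zero

private lemma PAt.one : PAt v (1 : (Om k)[X]) (1 : k[X]) := by
  rw [← Polynomial.C_1, ← Polynomial.C_1]
  exact PAt.cst at_one

private lemma PAt.zero : PAt v (0 : (Om k)[X]) (0 : k[X]) := fun i => by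
  rw [coeff_zero, coeff_zero]
  exact at_zero

theorem PAt.eval {P : (Om k)[X]} {p : k[X]} (h : PAt v P p) {x : Om k} {y : k} (hx : v.At x y) :
    v.At (P.eval x) (p.eval y) := by
  have h1 : P.natDegree < max P.natDegree p.natDegree + 1 :=
    Nat.lt_succ_of_le (le_max_left _ _)
  have h2 : p.natDegree < max P.natDegree p.natDegree + 1 :=
    Nat.lt_succ_of_le (le_max_right _ _)
  rw [Polynomial.eval_eq_sum_range' h1, Polynomial.eval_eq_sum_range' h2]
  exact Place.At.sum fun i _ => (h i).mul (hx.pow i)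

theorem PAt.unique {P : (Om k)[X]} {p q : k[X]} (h : PAt v P p) (h' : PAt v P q) : p = q := by
  ext i
  exact (h i).unique (h' i)

private lemma coeff_lin {R : Type*} [CommRing R] (b D : R) (P : R[X]) (i : ℕ) :
    ((Polynomial.C (b ^ 2) - Polynomial.C D * Polynomial.X) * P).coeff (i + 1) =
      b ^ 2 * P.coeff (i + 1) - D * P.coeff i := by
  rw [sub_mul, coeff_sub, coeff_C_mul, mul_assoc, coeff_C_mul, coeff_X_mul]

/-- division by `b ² - D X`: compare the coefficients, beginning with the leading one -/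
theorem PAt.div {P : (Om k)[X]} {p : k[X]} {b' D' : Om k} {b D : k} (hb : v.At b' b)
    (hD : v.At D' D) (h0 : D ≠ 0)
    (h : PAt v ((C (b' ^ 2) - C D' * X) * P) ((C (b ^ 2) - C D * X) * p)) : PAt v P p := by
  have hD' : D' ≠ 0 := at_ne hD h0
  have key : ∀ j i : ℕ, max P.natDegree p.natDegree + 1 ≤ i + j → v.At (P.coeff i) (p.coeff i) := by
    intro j
    induction j with
    | zero =>
      intro i hi
      have hi' : max P.natDegree p.natDegree < i := hi
      rw [coeff_eq_zero_of_natDegree_lt (lt_of_le_of_lt (le_max_left _ p.natDegree) hi'),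
        coeff_eq_zero_of_natDegree_lt (lt_of_le_of_lt (le_max_right P.natDegree _) hi')]
      exact at_zero
    | succ j ih =>
      intro i hi
      have h1 := ih (i + 1) (by omega)
      have h2 := h (i + 1)
      rw [coeff_lin, coeff_lin] at h2
      have h3 := (((hb.pow 2).mul h1).sub h2).div hD h0
      have e1 : (b' ^ 2 * P.coeff (i + 1) - (b' ^ 2 * P.coeff (i + 1) - D' * P.coeff i)) / D' =
          P.coeff i := by
        rw [sub_sub_cancel, mul_div_cancel_left₀ _ hD']
      have e2 : (b ^ 2 * p.coeff (i + 1) - (b ^ 2 * p.coeff (i + 1) - D * p.coeff i)) / D =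
          p.coeff i := by
        rw [sub_sub_cancel, mul_div_cancel_left₀ _ h0]
      rwa [e1, e2] at h3
  intro i
  exact key (max P.natDegree p.natDegree + 1) i (by omega)

variable [CharZero k]

theorem SAt.b {s' : Side (Om k)} {s : Side k} (h : SAt v s' s) : v.At s'.b s.b :=
  (h.p.add h.m).div at_two two_ne_zero

theorem SAt.g {s' : Side (Om k)} {s : Side k} (h : SAt v s' s) : v.At s'.g s.g :=
  (h.p.sub h.m).div at_two two_ne_zero

theorem SAt.D {s' : Side (Om k)} {s : Side k} (h : SAt v s' s) : v.At s'.D s.D :=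
  h.p.mul h.m

theorem SAt.th {s' : Side (Om k)} {s : Side k} (h : SAt v s' s) (h0 : s.D ≠ 0) :
    v.At s'.th s.th :=
  (h.b.pow 2).div h.D h0

theorem SAt.good {s' : Side (Om k)} {s : Side k} (h : SAt v s' s) (hs : s.Good) : s'.Good :=
  ⟨at_ne h.T hs.1, at_ne (h.T.add h.p) hs.2.1, at_ne (h.T.add h.m) hs.2.2⟩

theorem SAt.nd {s' : Side (Om k)} {s : Side k} (h : SAt v s' s) (hs : s.Nd) : s'.Nd :=
  ⟨at_ne h.b hs.b, at_ne h.g hs.g, at_ne h.D hs.D⟩

theorem MAt.push {s' : Side (Om k)} {s : Side k} (h : SAt v s' s) (hs : s.Good)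
    {M' : Mq (Om k)} {M : Mq k} (hM : MAt v M' M) :
    MAt v (TInf.push s' M') (TInf.push s M) := by
  obtain ⟨h0, h1, h2⟩ := hs
  have t0 : (2 : k) ≠ 0 := two_ne_zero
  have Tp := h.T.add h.p
  have Tm := h.T.add h.m
  have c1 := (h.p.mul Tm).div (at_two.mul Tp) (mul_ne_zero t0 h1)
  have c2 := (h.m.mul Tp).div (at_two.mul Tm) (mul_ne_zero t0 h2)
  have c3 := (h.p.mul h.m).div h.T h0
  have c4 := ((h.p.pow 2).mul Tm).div ((at_two.mul h.T).mul Tp)
    (mul_ne_zero (mul_ne_zero t0 h0) h1)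
  have c5 := ((h.m.pow 2).mul Tp).div ((at_two.mul h.T).mul Tm)
    (mul_ne_zero (mul_ne_zero t0 h0) h2)
  have c6 := (h.T.mul Tm).div (at_two.mul Tp) (mul_ne_zero t0 h1)
  have c7 := (h.T.mul Tp).div (at_two.mul Tm) (mul_ne_zero t0 h2)
  have x1 : PAt v (1 - X) (1 - X) := PAt.one.sub PAt.var
  refine ⟨?_, ?_, ?_, ?_⟩
  · exact ((PAt.cst h.b).mul hM.a).add
      (PAt.var.mul (((PAt.cst c1).mul hM.b).sub ((PAt.cst c2).mul hM.c)))
  · exact ((((PAt.cst c3).mul hM.a).add ((PAt.cst c4).mul hM.b)).sub ((PAt.cst c5).mul hM.c)).sub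
      ((x1.mul (PAt.cst c3)).mul hM.t)
  · exact ((((PAt.cst h.T).mul hM.a).neg.sub ((PAt.cst c6).mul hM.b)).add
      ((PAt.cst c7).mul hM.c)).sub ((x1.mul (PAt.cst h.T)).mul hM.t)
  · exact (((PAt.cst h.g).mul hM.t).add ((PAt.cst c1).mul hM.b)).add ((PAt.cst c2).mul hM.c)

theorem MAt.pull {s' : Side (Om k)} {s : Side k} (h : SAt v s' s) (hs : s.Good)
    {M' : Mq (Om k)} {M : Mq k} (hM : MAt v M' M) :
    MAt v (TInf.pull s' M') (TInf.pull s M) := by
  obtain ⟨h0, h1, h2⟩ := hs
  have t0 : (2 : k) ≠ 0 := two_ne_zero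
  have Tp := h.T.add h.p
  have Tm := h.T.add h.m
  have c1 := h.T.div at_two t0
  have c2 := h.D.div (at_two.mul h.T) (mul_ne_zero t0 h0)
  have c3 := Tp.div Tm h2
  have c4 := Tm.div Tp h1
  have c5 := (h.m.pow 2).div (at_two.mul h.T) (mul_ne_zero t0 h0)
  have c6 := (h.p.pow 2).div (at_two.mul h.T) (mul_ne_zero t0 h0)
  have x1 : PAt v (1 - X) (1 - X) := PAt.one.sub PAt.var
  refine ⟨?_, ?_, ?_, ?_⟩
  · exact ((PAt.cst h.b).mul hM.a).sub
      (PAt.var.mul (((PAt.cst c1).mul hM.b).sub ((PAt.cst c2).mul hM.c)))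
  · exact (PAt.cst c3).mul (((((PAt.cst h.m).mul hM.a).neg.add ((PAt.cst c1).mul hM.b)).sub
      ((PAt.cst c5).mul hM.c)).add ((x1.mul (PAt.cst h.m)).mul hM.t))
  · exact (PAt.cst c4).mul (((((PAt.cst h.p).mul hM.a).sub ((PAt.cst c1).mul hM.b)).add
      ((PAt.cst c6).mul hM.c)).add ((x1.mul (PAt.cst h.p)).mul hM.t))
  · exact (((PAt.cst c1).mul hM.b).neg.sub ((PAt.cst c2).mul hM.c)).add ((PAt.cst h.g).mul hM.t)

theorem MAt.st {l' : List (Side (Om k))} {l : List (Side k)} (h : List.Forall₂ (SAt v) l' l)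
    (hl : ∀ s ∈ l, s.Good) : MAt v (TInf.st l') (TInf.st l) := by
  induction h with
  | nil => exact ⟨PAt.one, PAt.zero, PAt.zero, PAt.zero⟩
  | cons hs _ ih =>
    rw [st_cons, st_cons]
    exact MAt.push hs (hl _ List.mem_cons_self) (ih fun t ht => hl t (List.mem_cons_of_mem _ ht))

end Pool.Agent.TInf
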