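import Pool.Agent.TInf.LiftBasic

/-!
# Lifting of one side
-/

set_option autoImplicit false

noncomputable section

namespace Pool.Agent.TInf

open Pool.Agent.ZCyc Polynomial
open Pool.Agent.VFP (Om tt)

universe u

variable {k : Type u} [Field k] [CharZero k] {v : Place k (Om k)}

/-- Take `T' = -b' c(th') / den s' M'` (`den` does not depend on `T`; its value at `v` is not zero by
`peel_T` and `hc`). Use `exists_inner` over `Om k`, and `PAt.div`, `pull_push` for the values. -/
theorem lift_step {s : Side k} (hs : s.Good) (hn : s.Nd) {M : Mq k}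
    (hc : (push s M).c.eval s.th ≠ 0) {p' m' : Om k} (hp : v.At p' s.p) (hm : v.At m' s.m)
    {M' : Mq (Om k)} (hM : MAt v M' (push s M))
    (hq : M'.q.eval (((p' + m') / 2) ^ 2 / (p' * m')) = 0) :
    ∃ (T' : Om k) (M₁ : Mq (Om k)), SAt v ⟨p', m', T'⟩ s ∧ push ⟨p', m', T'⟩ M₁ = M' ∧
      MAt v M₁ M := by
  -- a preliminary side
  set s₀ : Side (Om k) := ⟨p', m', algebraMap k (Om k) s.T⟩ with hs₀
  have hS₀ : SAt v s₀ s := ⟨hp, hm, Place.at_const _⟩
  have hb := hS₀.b
  have hg := hS₀.g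
  have hD := hS₀.D
  have hth := hS₀.th hn.D
  have hpT := peel_T hs hn M
  have hden0 : den s (push s M) ≠ 0 := by
    intro h
    rw [h, zero_mul] at hpT
    rcases mul_eq_zero.1 hpT.symm with h1 | h1
    · exact hn.b (neg_eq_zero.1 h1)
    · exact hc h1
  have hcv : v.At (M'.c.eval s₀.th) ((push s M).c.eval s.th) := hM.c.eval hth
  have hdv : v.At (den s₀ M') (den s (push s M)) := by
    unfold den
    have h1 := (hb.mul hg).mul (hD.inv hn.D)
    have h2 := (hM.a.eval hth).sub (h1.mul (hM.t.eval hth))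
    rw [← div_eq_mul_inv, ← div_eq_mul_inv] at h2
    exact h2
  have hne : ∀ {f : Om k} {c : k}, v.At f c → c ≠ 0 → f ≠ 0 := by
    intro f c h h0 hf
    rw [hf] at h
    have h1 : v.At (0 : Om k) (0 : k) := by
      have := Place.at_const (v := v) (0 : k)
      rwa [map_zero] at this
    exact h0 (h.unique h1)
  have hc' : M'.c.eval s₀.th ≠ 0 := hne hcv hc
  have hd' : den s₀ M' ≠ 0 := hne hdv hden0
  set T' : Om k := -s₀.b * M'.c.eval s₀.th / den s₀ M' with hT'
  have hT : v.At T' s.T := by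
    have h1 := (hb.neg.mul hcv).mul (hdv.inv hden0)
    rw [← div_eq_mul_inv, ← div_eq_mul_inv] at h1
    have h2 : -s.b * (push s M).c.eval s.th / den s (push s M) = s.T := by
      rw [← hpT, mul_div_cancel_left₀ _ hden0]
    rw [h2] at h1
    exact h1
  set s' : Side (Om k) := ⟨p', m', T'⟩ with hs'
  have hS : SAt v s' s := ⟨hp, hm, hT⟩
  have hTeq : den s' M' * s'.T = -s'.b * M'.c.eval s'.th := by
    change den s₀ M' * T' = -s₀.b * M'.c.eval s₀.th
    rw [hT', mul_div_cancel₀ _ hd']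
  obtain ⟨M₁, h1, h2⟩ := exists_inner (hS.good hs) (hS.nd hn) (M := M') hq hc' hTeq
  refine ⟨T', M₁, hS, h2, ?_⟩
  have h3 := MAt.pull hS hs hM
  rw [h1, pull_push hs M] at h3
  exact ⟨PAt.div hS.b hS.D hn.D h3.a, PAt.div hS.b hS.D hn.D h3.b,
    PAt.div hS.b hS.D hn.D h3.c, PAt.div hS.b hS.D hn.D h3.t⟩

end Pool.Agent.TInf
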