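import Pool.Agent.TInf.EVal

/-!
# Three points on a horizontal line
-/

set_option autoImplicit false

noncomputable section

namespace Pool.Agent.TInf

open Pool.Agent.ZCyc Polynomial
open Pool.Agent.VFP (Om tt)

universe u

variable {k : Type u} [Field k] [IsAlgClosed k] [CharZero k] {n : ℕ} {W : Type*} [AddCommGroup W]
  [Module ℚ W] {α B : Fin n → k} {f : (Fin n → EPt k) → W}

private theorem lr_roots {K : Type*} [Field K] [IsAlgClosed K] (a b : K) :
    ∃ r : Fin 3 → K, r 0 + r 1 + r 2 = 0 ∧ r 0 * r 1 + r 0 * r 2 + r 1 * r 2 = -3 * a ∧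
      r 0 * r 1 * r 2 = -b := by
  obtain ⟨r₀, h0⟩ := IsAlgClosed.exists_root
    (X ^ 3 + C (-3 * a) * X + C b : K[X]) (by
      have : (X ^ 3 + C (-3 * a) * X + C b : K[X]).degree = 3 := by compute_degree!
      rw [this]
      decide)
  have h0' : r₀ ^ 3 + (-3 * a) * r₀ + b = 0 := by
    have := h0
    rw [IsRoot.def] at this
    simpa using this
  obtain ⟨r₁, h1⟩ := IsAlgClosed.exists_root
    (X ^ 2 + C r₀ * X + C (r₀ ^ 2 - 3 * a) : K[X]) (by
      have : (X ^ 2 + C r₀ * X + C (r₀ ^ 2 - 3 * a) : K[X]).degree = 2 := by compute_degree!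
      rw [this]
      decide)
  have h1' : r₁ ^ 2 + r₀ * r₁ + (r₀ ^ 2 - 3 * a) = 0 := by
    have := h1
    rw [IsRoot.def] at this
    simpa using this
  refine ⟨![r₀, r₁, -r₀ - r₁], ?_, ?_, ?_⟩
  · simp
  · simp only [Matrix.cons_val_zero, Matrix.cons_val_one, Matrix.cons_val]
    linear_combination -h1'
  · simp only [Matrix.cons_val_zero, Matrix.cons_val_one, Matrix.cons_val]
    linear_combination h0' - r₀ * h1'

omit [IsAlgClosed k] in
/-- integral elements are in the ring of the place -/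
private theorem lr_mem (v : Place k (Om k)) {x a b : Om k} (ha : a ∈ v.ring) (hb : b ∈ v.ring)
    (h : x ^ 3 + a * x + b = 0) : x ∈ v.ring := by
  by_contra hx
  have hx0 : x ≠ 0 := by
    rintro rfl
    exact hx (zero_mem _)
  have h1 : v.Vanishes x⁻¹ := by
    rw [Place.vanishes_iff_or]
    right
    rwa [inv_inv]
  have h2 : v.Vanishes (x⁻¹ ^ 2) := h1.pow v (by norm_num)
  have h3 : v.Vanishes (x⁻¹ ^ 3) := h1.pow v (by norm_num)
  have h4 : v.Vanishes (x⁻¹ ^ 2 * (-a) + x⁻¹ ^ 3 * (-b)) :=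
    Place.Vanishes.add v (h2.mul v (neg_mem ha)) (h3.mul v (neg_mem hb))
  have h5 : x⁻¹ ^ 2 * (-a) + x⁻¹ ^ 3 * (-b) = algebraMap k (Om k) 1 := by
    rw [map_one]
    field_simp
    linear_combination -h
  rw [h5] at h4
  exact v.const_unit one_ne_zero h4

/-- values of the three roots -/
private theorem lr_val (v : Place k (Om k)) (a b c : k) (r : Fin 3 → Om k)
    (h1 : r 0 + r 1 + r 2 = 0)
    (h2 : r 0 * r 1 + r 0 * r 2 + r 1 * r 2 = -3 * algebraMap k (Om k) a)
    (h3 : r 0 * r 1 * r 2 = -(algebraMap k (Om k) b - tt k ^ 2)) (hv : v.At (tt k) c) :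
    ∃ q : Fin 3 → k, (∀ i, v.At (r i) (q i)) ∧ q 0 + q 1 + q 2 = 0 ∧
      q 0 * q 1 + q 0 * q 2 + q 1 * q 2 = -3 * a ∧ q 0 * q 1 * q 2 = -(b - c ^ 2) := by
  have hcub : ∀ i, r i ^ 3 + (-3 * algebraMap k (Om k) a) * r i +
      (algebraMap k (Om k) b - tt k ^ 2) = 0 := by
    intro i
    fin_cases i
    · show r 0 ^ 3 + (-3 * algebraMap k (Om k) a) * r 0 +
        (algebraMap k (Om k) b - tt k ^ 2) = 0
      linear_combination (-(r 0)) * h2 + h3 + r 0 ^ 2 * h1
    · show r 1 ^ 3 + (-3 * algebraMap k (Om k) a) * r 1 +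
        (algebraMap k (Om k) b - tt k ^ 2) = 0
      linear_combination (-(r 1)) * h2 + h3 + r 1 ^ 2 * h1
    · show r 2 ^ 3 + (-3 * algebraMap k (Om k) a) * r 2 +
        (algebraMap k (Om k) b - tt k ^ 2) = 0
      linear_combination (-(r 2)) * h2 + h3 + r 2 ^ 2 * h1
  have hmem : ∀ i, r i ∈ v.ring := by
    intro i
    refine lr_mem v ?_ ?_ (hcub i)
    · have : (-3 * algebraMap k (Om k) a) = algebraMap k (Om k) (-3 * a) := by
        rw [map_mul, map_neg, map_ofNat]
      rw [this]
      exact v.const_mem _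
    · exact sub_mem (v.const_mem _) (pow_mem hv.mem 2)
  choose q hq using fun i => DCI57.exists_at v (hmem i)
  refine ⟨q, hq, ?_, ?_, ?_⟩
  · have h4 := ((hq 0).add (hq 1)).add (hq 2)
    rw [h1] at h4
    have h5 : v.At (0 : Om k) (0 : k) := by
      have := Place.at_const (v := v) (0 : k)
      rwa [map_zero] at this
    exact h4.unique h5
  · have h4 := (((hq 0).mul (hq 1)).add ((hq 0).mul (hq 2))).add ((hq 1).mul (hq 2))
    rw [h2] at h4
    have h5 : v.At (-3 * algebraMap k (Om k) a) (-3 * a) := by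
      have := Place.at_const (v := v) (-3 * a)
      rwa [map_mul, map_neg, map_ofNat] at this
    exact h4.unique h5
  · have h4 := ((hq 0).mul (hq 1)).mul (hq 2)
    rw [h3] at h4
    exact h4.unique ((Place.at_const b).sub (hv.pow 2)).neg

omit [Module ℚ W] in
/-- sums over the roots of a cubic polynomial -/
private theorem lr_sum {K : Type*} [Field K] (q x : Fin 3 → K) (F : K → W)
    (h : ∀ X : K, (X - q 0) * (X - q 1) * (X - q 2) = (X - x 0) * (X - x 1) * (X - x 2))
    (h1 : q 0 + q 1 + q 2 = x 0 + x 1 + x 2)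
    (h2 : q 0 * q 1 + q 0 * q 2 + q 1 * q 2 = x 0 * x 1 + x 0 * x 2 + x 1 * x 2) :
    F (q 0) + F (q 1) + F (q 2) = F (x 0) + F (x 1) + F (x 2) := by
  have key : ∀ a b c d : K, a + b = c + d → a * b = c * d →
      F a + F b = F c + F d := by
    intro a b c d h3 h4
    have h5 : (a - c) * (a - d) = 0 := by linear_combination a * h3 - h4
    rcases mul_eq_zero.1 h5 with h6 | h6
    · have e1 : a = c := sub_eq_zero.1 h6
      have e2 : b = d := by
        rw [e1] at h3
        exact add_left_cancel h3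
      rw [e1, e2]
    · have e1 : a = d := sub_eq_zero.1 h6
      have e2 : b = c := by
        rw [e1, add_comm c d] at h3
        exact add_left_cancel h3
      rw [e1, e2, add_comm]
  have h0 := h (q 0)
  rw [sub_self, zero_mul, zero_mul] at h0
  rcases mul_eq_zero.1 h0.symm with h6 | h6
  · rcases mul_eq_zero.1 h6 with h7 | h7
    · have e : q 0 = x 0 := sub_eq_zero.1 h7
      have h8 := key (q 1) (q 2) (x 1) (x 2) (by linear_combination h1 - e)
        (by linear_combination h2 - e * (q 1 + q 2) - x 0 * (h1 - e))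
      rw [e, add_assoc, h8, add_assoc]
    · have e : q 0 = x 1 := sub_eq_zero.1 h7
      have h8 := key (q 1) (q 2) (x 0) (x 2) (by linear_combination h1 - e)
        (by linear_combination h2 - e * (q 1 + q 2) - x 1 * (h1 - e))
      rw [e, add_assoc, h8]
      abel
  · have e : q 0 = x 2 := sub_eq_zero.1 h6
    have h8 := key (q 1) (q 2) (x 0) (x 1) (by linear_combination h1 - e)
      (by linear_combination h2 - e * (q 1 + q 2) - x 2 * (h1 - e))
    rw [e, add_assoc, h8]
    abel

/-- Family over `t`: the three roots in `Om k` of `X ³ - 3 α j X + B j - t ²`, with `y = t`, the other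
points constant. At `t = y` one gets the three points (roots of a monic polynomial are integral, and
their values are the roots of the specialised polynomial, with multiplicities), at `t = 0` the
coordinate `y` is `0`, so `f = -f` by `ClassFn.odd`. -/
theorem line (hf : ClassFn α B f) (p : Fin n → EPt k) (hp : ∀ i, EOn (α i) (B i) (p i))
    (j : Fin n) (x₀ x₁ x₂ y : k)
    (h : ∀ X : k, X ^ 3 - 3 * α j * X + B j - y ^ 2 = (X - x₀) * (X - x₁) * (X - x₂)) :
    f (Function.update p j (some (x₀, y))) + f (Function.update p j (some (x₁, y))) +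
      f (Function.update p j (some (x₂, y))) = 0 := by
  obtain ⟨r, hr1, hr2, hr3⟩ := lr_roots (algebraMap k (Om k) (α j))
    (algebraMap k (Om k) (B j) - tt k ^ 2)
  set ι : k × k → Om k × Om k := fun z => (algebraMap k (Om k) z.1, algebraMap k (Om k) z.2)
    with hι
  set P : Fin 3 → Fin n → EPt (Om k) := fun i =>
    Function.update (fun l => Option.map ι (p l)) j (some (r i, tt k)) with hP
  have hcub : ∀ i, tt k ^ 2 = r i ^ 3 - 3 * algebraMap k (Om k) (α j) * r i +
      algebraMap k (Om k) (B j) := by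
    intro i
    fin_cases i
    · show tt k ^ 2 = r 0 ^ 3 - 3 * algebraMap k (Om k) (α j) * r 0 +
        algebraMap k (Om k) (B j)
      linear_combination r 0 * hr2 - hr3 - r 0 ^ 2 * hr1
    · show tt k ^ 2 = r 1 ^ 3 - 3 * algebraMap k (Om k) (α j) * r 1 +
        algebraMap k (Om k) (B j)
      linear_combination r 1 * hr2 - hr3 - r 1 ^ 2 * hr1
    · show tt k ^ 2 = r 2 ^ 3 - 3 * algebraMap k (Om k) (α j) * r 2 +
        algebraMap k (Om k) (B j)
      linear_combination r 2 * hr2 - hr3 - r 2 ^ 2 * hr1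
  have hon : ∀ i l, EOn (algebraMap k (Om k) (α l)) (algebraMap k (Om k) (B l)) (P i l) := by
    intro i l
    by_cases hl : l = j
    · subst hl
      simp only [hP, Function.update_self]
      exact hcub i
    · simp only [hP, Function.update_of_ne hl]
      have h1 := hp l
      rcases hpl : p l with _ | ⟨x, z⟩
      · exact trivial
      · rw [hpl] at h1
        have h2 : z ^ 2 = x ^ 3 - 3 * α l * x + B l := h1
        show algebraMap k (Om k) z ^ 2 = algebraMap k (Om k) x ^ 3 -
          3 * algebraMap k (Om k) (α l) * algebraMap k (Om k) x + algebraMap k (Om k) (B l)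
        rw [← map_pow, h2, map_add, map_sub, map_mul, map_mul, map_pow, map_ofNat]
  have hval : ∀ (v : Place k (Om k)) (c : k) (q : Fin 3 → k), v.At (tt k) c →
      (∀ i, v.At (r i) (q i)) → ∀ i l, EVal v (P i l)
        (Function.update p j (some (q i, c)) l) := by
    intro v c q hv hq i l
    by_cases hl : l = j
    · subst hl
      simp only [hP, Function.update_self]
      exact ⟨hq i, hv⟩
    · simp only [hP, Function.update_of_ne hl]
      exact evalue_const v (p l)
  have hx1 : x₀ + x₁ + x₂ = 0 := by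
    have e0 := h 0
    have e1 := h 1
    have e2 := h (-1)
    have h2 : (2 : k) ≠ 0 := two_ne_zero
    have : 2 * (x₀ + x₁ + x₂) = 0 := by linear_combination e1 + e2 - 2 * e0
    exact (mul_eq_zero.1 this).resolve_left h2
  have hx2 : x₀ * x₁ + x₀ * x₂ + x₁ * x₂ = -3 * α j := by
    have e0 := h 0
    have e1 := h 1
    linear_combination e0 - e1 + hx1
  have key := hf.bridge (fun _ : Fin 3 => (1 : ℚ)) P hon y 0
    (f (Function.update p j (some (x₀, y))) + f (Function.update p j (some (x₁, y))) +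
      f (Function.update p j (some (x₂, y)))) 0 ?_ ?_
  · exact key
  · intro v hv
    obtain ⟨q, hq, q1, q2, q3⟩ := lr_val v (α j) (B j) y r hr1 hr2 hr3 hv
    refine ⟨fun i => Function.update p j (some (q i, y)), hval v y q hv hq, ?_⟩
    rw [Fin.sum_univ_three, one_smul, one_smul, one_smul]
    have := lr_sum q ![x₀, x₁, x₂] (fun X => f (Function.update p j (some (X, y))))
      (fun X => by
        show (X - q 0) * (X - q 1) * (X - q 2) = (X - x₀) * (X - x₁) * (X - x₂)
        rw [← h X]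
        linear_combination (-(X ^ 2)) * q1 + X * q2 - q3)
      (by
        show q 0 + q 1 + q 2 = x₀ + x₁ + x₂
        rw [q1, hx1])
      (by
        show q 0 * q 1 + q 0 * q 2 + q 1 * q 2 = x₀ * x₁ + x₀ * x₂ + x₁ * x₂
        rw [q2, hx2])
    exact this
  · intro v hv
    obtain ⟨q, hq, q1, q2, q3⟩ := lr_val v (α j) (B j) 0 r hr1 hr2 hr3 hv
    refine ⟨fun i => Function.update p j (some (q i, 0)), hval v 0 q hv hq, ?_⟩
    refine Finset.sum_eq_zero fun i _ => ?_
    have h1 := hf.odd (Function.update p j (some (q i, 0))) j (q i) 0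
      (Function.update_self _ _ _)
    rw [neg_zero, Function.update_idem] at h1
    have h2 : (2 : ℚ) • f (Function.update p j (some (q i, 0))) = 0 := by
      rw [two_smul]
      nth_rewrite 1 [h1]
      exact neg_add_cancel _
    have h3 := (smul_eq_zero.1 h2).resolve_left two_ne_zero
    rw [h3, smul_zero]

private theorem lr_sg {K : Type*} [Field K] [CharZero K] {α B : K} {s : Side K} (hs : s.Good)
    (hB : s.p + s.m = -B) (hα : (s.p - s.m) ^ 2 = 4 * α ^ 3) :
    s.Sg ^ 2 = s.V ^ 2 + B * s.V + α ^ 3 := by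
  have hT := hs.1
  have hB' : B = -(s.p + s.m) := by rw [hB, neg_neg]
  have hα' : α ^ 3 = (s.p - s.m) ^ 2 / 4 := by
    rw [hα]
    field_simp
  rw [hB', hα', Side.Sg, Side.V]
  field_simp
  ring

private theorem lr_V {K : Type*} [Field K] [CharZero K] {s : Side K} (hs : s.Good) :
    s.V ≠ 0 := by
  obtain ⟨h1, h2, h3⟩ := hs
  exact div_ne_zero (mul_ne_zero h2 h3) (mul_ne_zero two_ne_zero h1)

/-- the sum over the three points with the same `w`; their `x`-coordinates are the roots `X` of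
`X ³ - 3 α X + B = y ²`, `y = Sg / w ³`: `(X - μ - α / μ) ⋯ = X ³ - 3 α X - μ ³ - α ³ / μ ³` -/
theorem line_epoint (hf : ClassFn α B f) {ζ : k} (hζ : IsPrimitiveRoot ζ 3)
    (s : Fin n → Side k) (hs : ∀ j, (s j).Good) (hB : ∀ j, (s j).p + (s j).m = -B j)
    (hα : ∀ j, ((s j).p - (s j).m) ^ 2 = 4 * α j ^ 3) (w : Fin n → k)
    (hw : ∀ j, w j ^ 6 = (s j).V) (a : Fin n → ZMod 3) (j : Fin n) :
    ∑ x : ZMod 3, f (fun i => epoint ζ (α i) (s i) (w i) (Function.update a j x i)) = 0 := by
  have hζ3 : ζ ^ 3 = 1 := hζ.pow_eq_one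
  have hζ1 : ζ ≠ 1 := hζ.ne_one (by norm_num)
  have hζ0 : ζ ≠ 0 := hζ.ne_zero (by norm_num)
  have hζ2 : ζ ^ 2 + ζ + 1 = 0 := by
    have h1 : (ζ - 1) * (ζ ^ 2 + ζ + 1) = 0 := by linear_combination hζ3
    exact (mul_eq_zero.1 h1).resolve_left (sub_ne_zero.2 hζ1)
  have hV := lr_V (hs j)
  have hw0 : w j ≠ 0 := by
    intro h
    apply hV
    rw [← hw j, h]
    norm_num
  have e : ∀ x : ZMod 3, (fun i => epoint ζ (α i) (s i) (w i) (Function.update a j x i)) =
      Function.update (fun i => epoint ζ (α i) (s i) (w i) (a i)) j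
        (epoint ζ (α j) (s j) (w j) x) := by
    intro x
    funext i
    by_cases hi : i = j
    · subst hi
      simp
    · simp [Function.update_of_ne hi]
  simp only [e]
  have h := line hf (fun i => epoint ζ (α i) (s i) (w i) (a i))
    (fun i => epoint_on hζ3 (hs i) (hB i) (hα i) (hw i) (a i)) j
    (w j ^ 2 + α j / w j ^ 2) (ζ * w j ^ 2 + α j / (ζ * w j ^ 2))
    (ζ ^ 2 * w j ^ 2 + α j / (ζ ^ 2 * w j ^ 2)) ((s j).Sg / w j ^ 3) (by
      intro X
      have h1 := lr_sg (hs j) (hB j) (hα j)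
      have h2 : ((s j).Sg / w j ^ 3) ^ 2 = w j ^ 6 + B j + α j ^ 3 / w j ^ 6 := by
        rw [div_pow, h1, ← hw j]
        field_simp
      have h3 : α j / (ζ * w j ^ 2) = ζ ^ 2 * (α j / w j ^ 2) := by
        rw [mul_comm ζ, ← div_div, div_eq_iff hζ0]
        linear_combination (-(α j / w j ^ 2)) * hζ3
      have h4 : α j / (ζ ^ 2 * w j ^ 2) = ζ * (α j / w j ^ 2) := by
        rw [mul_comm (ζ ^ 2), ← div_div, div_eq_iff (pow_ne_zero 2 hζ0)]
        linear_combination (-(α j / w j ^ 2)) * hζ3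
      rw [h2, h3, h4]
      obtain ⟨c, hc⟩ : ∃ c, c = α j / w j ^ 2 := ⟨_, rfl⟩
      have hc1 : α j = c * w j ^ 2 := by
        rw [hc]
        field_simp
      have hc2 : α j ^ 3 / w j ^ 6 = c ^ 3 := by
        rw [hc1]
        field_simp
      rw [← hc, hc2, hc1]
      obtain ⟨m, hm⟩ : ∃ m, m = w j ^ 2 := ⟨_, rfl⟩
      have hm6 : w j ^ 6 = m ^ 3 := by rw [hm]; ring
      rw [hm6, ← hm]
      have z3 : ζ ^ 2 = -ζ - 1 := by linear_combination hζ2
      rw [z3]
      linear_combination ((m - c) ^ 2 * (X - m - c)) * hζ2)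
  have h' : f (Function.update (fun i => epoint ζ (α i) (s i) (w i) (a i)) j
      (epoint ζ (α j) (s j) (w j) 0)) + f (Function.update
      (fun i => epoint ζ (α i) (s i) (w i) (a i)) j (epoint ζ (α j) (s j) (w j) 1)) +
      f (Function.update (fun i => epoint ζ (α i) (s i) (w i) (a i)) j
      (epoint ζ (α j) (s j) (w j) 2)) = 0 := by
    have v0 : (0 : ZMod 3).val = 0 := rfl
    have v1 : (1 : ZMod 3).val = 1 := rfl
    have v2 : (2 : ZMod 3).val = 2 := rfl
    simp only [epoint, v0, v1, v2, pow_zero, pow_one, one_mul]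
    exact h
  rw [← h']
  exact Fin.sum_univ_three _

/-- `∑ l, Sl f ζ α s w l` is the sum over all `a` -/
theorem sum_Sl (hf : ClassFn α B f) (hn : 0 < n) {ζ : k} (hζ : IsPrimitiveRoot ζ 3)
    (s : Fin n → Side k) (hs : ∀ j, (s j).Good) (hB : ∀ j, (s j).p + (s j).m = -B j)
    (hα : ∀ j, ((s j).p - (s j).m) ^ 2 = 4 * α j ^ 3) (w : Fin n → k)
    (hw : ∀ j, w j ^ 6 = (s j).V) : ∑ l : ZMod 3, Sl f ζ α s w l = 0 := by
  classical
  set F : (Fin n → ZMod 3) → W := fun a => f (fun j => epoint ζ (α j) (s j) (w j) (a j))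
    with hF
  have h1 : ∑ l : ZMod 3, Sl f ζ α s w l = ∑ a, F a := by
    unfold Sl
    rw [Finset.sum_comm]
    refine Finset.sum_congr rfl fun a _ => ?_
    rw [Finset.sum_ite_eq]
    simp [hF]
  rw [h1]
  set j : Fin n := ⟨0, hn⟩
  have h2 : ∀ a, ∑ x : ZMod 3, F (Function.update a j x) = 0 := fun a =>
    line_epoint hf hζ s hs hB hα w hw a j
  let e : (Fin n → ZMod 3) × ZMod 3 ≃ (Fin n → ZMod 3) × ZMod 3 :=
    { toFun := fun z => (Function.update z.1 j z.2, z.1 j)
      invFun := fun z => (Function.update z.1 j z.2, z.1 j)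
      left_inv := by
        rintro ⟨a, x⟩
        simp
      right_inv := by
        rintro ⟨a, x⟩
        simp }
  have h3 : ∑ z : (Fin n → ZMod 3) × ZMod 3, F (Function.update z.1 j z.2) =
      ∑ z : (Fin n → ZMod 3) × ZMod 3, F z.1 :=
    Equiv.sum_comp e fun z => F z.1
  rw [Fintype.sum_prod_type, Fintype.sum_prod_type] at h3
  simp only [h2, Finset.sum_const_zero, Finset.sum_const] at h3
  rw [← Finset.smul_sum] at h3
  have h4 : ((3 : ℕ) : ℚ) • ∑ a, F a = 0 := by
    rw [Nat.cast_smul_eq_nsmul]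
    rw [h3]
    rfl
  exact (smul_eq_zero.1 h4).resolve_left (by norm_num)

end Pool.Agent.TInf
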