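import Mathlib

/-!
# The product of the values of a polynomial at the roots of a monic polynomial
-/

set_option autoImplicit false

noncomputable section

namespace Pool.Agent.TInf

open Polynomial

universe u

variable {k : Type u} [Field k]

/-- `∏ i, g (s i)` for a polynomial `l = ∏ i, (X - s i)` of degree `N`, where `g` has coefficients
in the algebraically closed field `k`. -/
def Nm (N : ℕ) (g : k[X]) {R : Type*} [CommRing R] [Algebra k R] (l : R[X]) : R :=
  algebraMap k R (g.leadingCoeff ^ N) *
    (g.roots.map fun β => (-1) ^ N * l.eval (algebraMap k R β)).prod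

theorem Nm_map (N : ℕ) (g : k[X]) {R S : Type*} [CommRing R] [Algebra k R] [CommRing S]
    [Algebra k S] (f : R →ₐ[k] S) (l : R[X]) : f (Nm N g l) = Nm N g (l.map f.toRingHom) := by
  unfold Nm
  rw [map_mul, AlgHom.commutes, map_multiset_prod, Multiset.map_map]
  congr 2
  refine Multiset.map_congr rfl fun β _ => ?_
  simp only [Function.comp_apply, map_mul, map_pow, map_neg, map_one]
  congr 1
  have h1 : algebraMap k S β = f.toRingHom (algebraMap k R β) := by simp
  rw [h1, eval_map, eval₂_hom]
  rfl

private theorem prod_swap {N : ℕ} {K : Type*} [CommRing K] (s : Fin N → K) (m : Multiset K) :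
    (m.map fun β => (-1) ^ N * ∏ i, (β - s i)).prod = ∏ i, (m.map fun β => s i - β).prod := by
  induction m using Multiset.induction_on with
  | empty => simp
  | cons a m ih =>
    simp only [Multiset.map_cons, Multiset.prod_cons, Finset.prod_mul_distrib]
    rw [ih]
    congr 1
    have h1 : ((-1 : K)) ^ N = ∏ _i : Fin N, (-1 : K) := by simp
    rw [h1, ← Finset.prod_mul_distrib]
    exact Finset.prod_congr rfl fun i _ => by ring

/-- the main property -/
theorem Nm_eq_prod [IsAlgClosed k] {N : ℕ} (g : k[X]) {K : Type*} [Field K] [Algebra k K]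
    (s : Fin N → K) :
    Nm N g (∏ i, (X - C (s i))) = ∏ i, aeval (s i) g := by
  have h1 : ∀ i, aeval (s i) g = algebraMap k K g.leadingCoeff *
      ((g.roots.map (algebraMap k K)).map fun β => s i - β).prod := by
    intro i
    conv_lhs => rw [(IsAlgClosed.splits g).eq_prod_roots]
    rw [map_mul, aeval_C, map_multiset_prod, Multiset.map_map, Multiset.map_map]
    congr 2
    refine Multiset.map_congr rfl fun β _ => ?_
    simp
  unfold Nm
  simp only [h1, Finset.prod_mul_distrib, Finset.prod_const, Finset.card_univ, Fintype.card_fin,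
    map_pow]
  congr 1
  rw [← prod_swap, Multiset.map_map]
  refine congrArg _ (Multiset.map_congr rfl fun β _ => ?_)
  simp only [Function.comp_apply]
  rw [eval_prod]
  simp

/-- the degree in `t` for the linear family -/
theorem Nm_natDegree (N : ℕ) (g l h : k[X]) :
    (Nm N g (R := k[X]) (l.map C + C X * h.map C)).natDegree ≤ g.natDegree := by
  unfold Nm
  refine (natDegree_C_mul_le _ _).trans ?_
  refine (natDegree_multiset_prod_le _).trans ?_
  rw [Multiset.map_map]
  refine (Multiset.sum_le_card_nsmul _ 1 ?_).trans ?_
  · intro x hx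
    rw [Multiset.mem_map] at hx
    obtain ⟨β, -, rfl⟩ := hx
    simp only [Function.comp_apply]
    have h1 : eval (algebraMap k k[X] β) (l.map C + C X * h.map C) =
        C (l.eval β) + X * C (h.eval β) := by
      rw [eval_add, eval_mul, eval_C]
      have h2 : ∀ p : k[X], eval (algebraMap k k[X] β) (p.map C) = C (p.eval β) := by
        intro p
        rw [algebraMap_eq, eval_map, eval₂_hom]
      rw [h2, h2]
    rw [h1]
    have h3 : ((-1 : k[X]) ^ N) = C ((-1) ^ N) := by simp
    rw [h3]
    refine (natDegree_C_mul_le _ _).trans ?_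
    refine natDegree_add_le_of_degree_le (by simp) ?_
    rw [mul_comm]
    exact (natDegree_C_mul_le _ _).trans natDegree_X_le
  · rw [Multiset.card_map, smul_eq_mul, mul_one]
    exact card_roots' g

end Pool.Agent.TInf
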