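import Pool.Agent.TInf.Path

/-!
# Uniqueness of the list of sides with a given state
-/

set_option autoImplicit false

noncomputable section

namespace Pool.Agent.TInf

open Polynomial

variable {K : Type*} [Field K] [CharZero K]

/-- the outermost side is determined by its pair and the state -/
private theorem side_eq {s s' : Side K} (hs : s.Good) (hn : s.Nd) (hs' : s'.Good)
    (hpm : s'.pm = s.pm) {M M' : Mq K} (h : push s' M' = push s M)
    (hc : (push s M).c.eval s.th ≠ 0) : s' = s := by
  obtain ⟨hp, hm⟩ := Prod.ext_iff.1 hpm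
  change s'.p = s.p at hp
  change s'.m = s.m at hm
  have hb : s'.b = s.b := by rw [Side.b, Side.b, hp, hm]
  have hg : s'.g = s.g := by rw [Side.g, Side.g, hp, hm]
  have hD : s'.D = s.D := by rw [Side.D, Side.D, hp, hm]
  have hth : s'.th = s.th := by rw [Side.th, Side.th, hb, hD]
  have hn' : s'.Nd := ⟨hb ▸ hn.b, hg ▸ hn.g, hD ▸ hn.D⟩
  have h1 := peel_T hs hn M
  have h2 := peel_T hs' hn' M'
  have hden : den s' (push s' M') = den s (push s M) := by
    rw [den, den, h, hb, hg, hD, hth]
  rw [hden, h, hb, hth] at h2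
  have hd0 : den s (push s M) ≠ 0 := by
    intro h0
    rw [h0, zero_mul] at h1
    exact mul_ne_zero (neg_ne_zero.2 hn.b) hc h1.symm
  have hT : s'.T = s.T := mul_left_cancel₀ hd0 (h2.trans h1.symm)
  exact Side.ext hp hm hT

/-- uniqueness: `peel_T` and `push_inj` -/
theorem st_unique {l l' : List (Side K)} (hn : Ndl l) (hl : Gd l) (hl' : ∀ s ∈ l', s.Good)
    (hpm : l'.map Side.pm = l.map Side.pm) (h : st l' = st l) : l' = l := by
  induction l generalizing l' with
  | nil => simpa using hpm
  | cons s l ih =>
    rcases l' with _ | ⟨s', l'⟩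
    · simp at hpm
    · rw [List.map_cons, List.map_cons, List.cons.injEq] at hpm
      obtain ⟨h1, h2⟩ := hpm
      obtain ⟨hl1, hs, hc⟩ := hl
      have hnd : s.Nd := hn.1 s List.mem_cons_self
      have e : s' = s := side_eq hs hnd (hl' s' List.mem_cons_self) h1 h hc
      subst e
      have h3 : st l' = st l := push_inj hs hnd h
      rw [ih ⟨fun t ht => hn.1 t (List.mem_cons_of_mem _ ht), (List.pairwise_cons.1 hn.2).2⟩ hl1
        (fun t ht => hl' t (List.mem_cons_of_mem _ ht)) h2 h3]

/-- If good lists with the same state exist for all choices of signs, then all denominators are not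
zero. Use `peel_ne` for the first side, and for the rest: a list with other signs of the rest and
the same signs of the first side has the same `T` for the first side (by `peel_T`) and then the same
inner state (by `push_inj`). -/
theorem Gd_of_signs {l : List (Side K)} (hn : Ndl l) (hg : ∀ s ∈ l, s.Good)
    (h : ∀ d, Sgn (l.map Side.pm) d →
      ∃ l' : List (Side K), (∀ s ∈ l', s.Good) ∧ l'.map Side.pm = d ∧ st l' = st l) : Gd l := by
  induction l with
  | nil => trivial
  | cons s l ih =>
    have hnd : s.Nd := hn.1 s List.mem_cons_self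
    have hs : s.Good := hg s List.mem_cons_self
    have hn' : Ndl l :=
      ⟨fun t ht => hn.1 t (List.mem_cons_of_mem _ ht), (List.pairwise_cons.1 hn.2).2⟩
    have hg' : ∀ t ∈ l, t.Good := fun t ht => hg t (List.mem_cons_of_mem _ ht)
    have hrefl : Sgn (l.map Side.pm) (l.map Side.pm) :=
      List.forall₂_same.2 fun x _ => Or.inl rfl
    have hq : (st l).q.eval s.th ≠ 0 :=
      q_ne hg' hn'.1 fun t ht => ((List.pairwise_cons.1 hn.2).1 t ht).symm
    have hc : (push s (st l)).c.eval s.th ≠ 0 := by
      obtain ⟨l', h1, h2, h3⟩ := h ((s.m, s.p) :: l.map Side.pm)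
        (List.Forall₂.cons (Or.inr rfl) hrefl)
      rcases l' with _ | ⟨s', l'⟩
      · simp at h2
      · rw [List.map_cons, List.cons.injEq] at h2
        obtain ⟨hp, hm⟩ := Prod.ext_iff.1 h2.1
        exact (peel_ne hs (h1 s' List.mem_cons_self) hnd hp hm h3.symm hq).1
    refine ⟨ih hn' hg' fun d hd => ?_, hs, hc⟩
    obtain ⟨l', h1, h2, h3⟩ := h (s.pm :: d) (List.Forall₂.cons (Or.inl rfl) hd)
    rcases l' with _ | ⟨s', l'⟩
    · simp at h2
    · rw [List.map_cons, List.cons.injEq] at h2
      have e : s' = s := side_eq hs hnd (h1 s' List.mem_cons_self) h2.1 h3 hc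
      subst e
      exact ⟨l', fun t ht => h1 t (List.mem_cons_of_mem _ ht), h2.2, push_inj hs hnd h3⟩

end Pool.Agent.TInf
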