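import Pool.Agent.TInf.Alg

/-!
# Peeling off a side
-/

set_option autoImplicit false

noncomputable section

namespace Pool.Agent.TInf

open Polynomial

variable {K : Type*} [Field K]

/-- the denominator in the formula for `T` -/
def den (s : Side K) (M : Mq K) : K := M.a.eval s.th - s.b * s.g / s.D * M.t.eval s.th

/-- the degrees of the entries in the state of `n` sides -/
structure Mq.Deg (n : ℕ) (M : Mq K) : Prop where
  a : M.a.degree < ((n / 2 + 1 : ℕ) : WithBot ℕ)
  b : M.b.degree < (((n + 1) / 2 : ℕ) : WithBot ℕ)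
  c : M.c.degree < (((n + 1) / 2 : ℕ) : WithBot ℕ)
  t : M.t.degree < ((n / 2 : ℕ) : WithBot ℕ)

/-- `b, g, D` are not zero -/
structure Side.Nd (s : Side K) : Prop where
  b : s.b ≠ 0
  g : s.g ≠ 0
  D : s.D ≠ 0

variable [CharZero K] {s : Side K}

/-- the formula for `T` -/
theorem peel_T (hs : s.Good) (hn : s.Nd) (M : Mq K) :
    den s (push s M) * s.T = -s.b * (push s M).c.eval s.th := by
  obtain ⟨h0, h1, h2⟩ := hs
  obtain ⟨h3, h4, h5⟩ := hn
  simp only [Side.b, Side.g, Side.D, ne_eq, div_eq_zero_iff, not_or] at h3 h4 h5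
  have h6 : s.p ≠ 0 := left_ne_zero_of_mul h5
  have h7 : s.m ≠ 0 := right_ne_zero_of_mul h5
  simp only [den, push, Side.th, Side.b, Side.g, Side.D, eval_add, eval_sub, eval_mul, eval_C,
    eval_X, eval_neg, eval_one]
  field_simp
  ring

omit [CharZero K] in
theorem push_a_zero (M : Mq K) : (push s M).a.eval 0 = s.b * M.a.eval 0 := by
  simp [push, Side.b]

/-- `a(1) + (b(1) - c(1)) / 2` is multiplied by `V` -/
theorem push_V (hs : s.Good) (M : Mq K) :
    (push s M).a.eval 1 + ((push s M).b.eval 1 - (push s M).c.eval 1) / 2 =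
      s.V * (M.a.eval 1 + (M.b.eval 1 - M.c.eval 1) / 2) := by
  obtain ⟨h0, h1, h2⟩ := hs
  simp only [push, Side.V, eval_add, eval_sub, eval_mul, eval_C, eval_X, eval_neg, eval_one]
  field_simp
  ring

end Pool.Agent.TInf
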