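import Pool.Agent.TInf.Peel

/-!
# The formula for T is not 0 / 0
-/

set_option autoImplicit false

noncomputable section

namespace Pool.Agent.TInf

open Polynomial

variable {K : Type*} [Field K] [CharZero K] {s : Side K}

/-- If `a` and `t` of `push s M` are `0` at `s.th`, then `M.q` is `0` there. -/
theorem q_zero_of_push_zero (hs : s.Good) (hn : s.Nd) (M : Mq K)
    (ha : (push s M).a.eval s.th = 0) (ht : (push s M).t.eval s.th = 0) :
    M.q.eval s.th = 0 := by
  obtain ⟨h0, h1, h2⟩ := hs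
  obtain ⟨h3, h4, h5⟩ := hn
  have hth : s.th = s.b ^ 2 / s.D := rfl
  have hb : s.b = (s.p + s.m) / 2 := rfl
  have hg : s.g = (s.p - s.m) / 2 := rfl
  have hD : s.D = s.p * s.m := rfl
  have hbD : s.D * s.th = s.b ^ 2 := by
    rw [hth]
    field_simp
  have hgD : s.D * (1 - s.th) = -s.g ^ 2 := by
    rw [mul_sub, hbD, hb, hg, hD]
    ring
  simp only [push, eval_add, eval_sub, eval_mul, eval_C, eval_X] at ha ht
  obtain ⟨x, hx⟩ : ∃ x, x = (s.T + s.m) / (s.T + s.p) * M.b.eval s.th := ⟨_, rfl⟩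
  obtain ⟨y, hy⟩ : ∃ y, y = (s.T + s.p) / (s.T + s.m) * M.c.eval s.th := ⟨_, rfl⟩
  have hxy : x * y = M.b.eval s.th * M.c.eval s.th := by
    rw [hx, hy]
    field_simp
  have ha' : s.b * M.a.eval s.th + s.th * (s.p * x - s.m * y) / 2 = 0 := by
    rw [← ha, hb, hx, hy]
    field_simp
  have ht' : s.g * M.t.eval s.th + (s.p * x + s.m * y) / 2 = 0 := by
    rw [← ht, hg, hx, hy]
    field_simp
    ring
  have key : s.D * (s.b ^ 2 * M.q.eval s.th) = 0 := by
    have e : M.q.eval s.th = (M.a.eval s.th) ^ 2 + s.th * (x * y) +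
        s.th * (1 - s.th) * (M.t.eval s.th) ^ 2 := by
      rw [hxy]
      simp only [Mq.q, eval_add, eval_sub, eval_mul, eval_X, eval_one, eval_pow]
      ring
    have e1 : (s.b * M.a.eval s.th) ^ 2 = (s.th * (s.p * x - s.m * y) / 2) ^ 2 := by
      rw [eq_neg_of_add_eq_zero_left ha']
      ring
    have e2 : (s.g * M.t.eval s.th) ^ 2 = ((s.p * x + s.m * y) / 2) ^ 2 := by
      rw [eq_neg_of_add_eq_zero_left ht']
      ring
    have e3 : s.D * (s.b ^ 2 * M.q.eval s.th) = s.D * (s.b * M.a.eval s.th) ^ 2 +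
        s.b ^ 2 * (s.D * s.th * (x * y)) +
        s.b ^ 2 * s.th * (s.D * (1 - s.th) * (M.t.eval s.th) ^ 2) := by
      rw [e]
      ring
    have e4 : s.D * (1 - s.th) * (M.t.eval s.th) ^ 2 = -((s.p * x + s.m * y) / 2) ^ 2 := by
      rw [hgD, ← e2]
      ring
    rw [e3, e4, e1, ← hbD, hD]
    ring
  rcases mul_eq_zero.mp key with h | h
  · exact absurd h h5
  · rcases mul_eq_zero.mp h with h | h
    · exact absurd h (pow_ne_zero 2 h3)
    · exact h

/-- If the sides `(p, m, T)` and `(m, p, T')` can be peeled off, then the formula for `T` is not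
`0 / 0`: otherwise `a = t = c = 0` at `θ = s.th`, and this means `M.q = 0` there. -/
theorem peel_ne {s' : Side K} (hs : s.Good) (hs' : s'.Good) (hn : s.Nd) (hp : s'.p = s.m)
    (hm : s'.m = s.p) {M M' : Mq K} (h : push s M = push s' M') (hq : M.q.eval s.th ≠ 0) :
    (push s M).c.eval s.th ≠ 0 ∧ den s (push s M) ≠ 0 := by
  have hb' : s'.b = s.b := by simp only [Side.b, hp, hm, add_comm]
  have hg' : s'.g = -s.g := by simp only [Side.g, hp, hm]; ring
  have hD' : s'.D = s.D := by simp only [Side.D, hp, hm, mul_comm]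
  have hth' : s'.th = s.th := by simp only [Side.th, hb', hD']
  have hn' : s'.Nd := ⟨hb' ▸ hn.b, by rw [hg']; exact neg_ne_zero.mpr hn.g, hD' ▸ hn.D⟩
  have hc : (push s M).c.eval s.th ≠ 0 := by
    intro hc
    have h1 := peel_T hs hn M
    have h2 := peel_T hs' hn' M'
    rw [← h, hth', hb'] at h2
    rw [hc, mul_zero] at h1 h2
    have d1 : den s (push s M) = 0 := (mul_eq_zero.mp h1).resolve_right hs.1
    have d2 : den s' (push s M) = 0 := (mul_eq_zero.mp h2).resolve_right hs'.1
    simp only [den, hth', hb', hg', hD'] at d1 d2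
    have ha : (push s M).a.eval s.th = 0 := by
      have : 2 * (push s M).a.eval s.th = 0 := by linear_combination d1 + d2
      exact (mul_eq_zero.mp this).resolve_left two_ne_zero
    have ht : (push s M).t.eval s.th = 0 := by
      rw [ha] at d1
      have : s.b * s.g / s.D * (push s M).t.eval s.th = 0 := by linear_combination -d1
      exact (mul_eq_zero.mp this).resolve_left
        (div_ne_zero (mul_ne_zero hn.b hn.g) hn.D)
    exact hq (q_zero_of_push_zero hs hn M ha ht)
  refine ⟨hc, fun hd => ?_⟩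
  have h1 := peel_T hs hn M
  rw [hd, zero_mul] at h1
  rcases mul_eq_zero.mp h1.symm with h | h
  · exact hn.b (neg_eq_zero.mp h)
  · exact hc h

end Pool.Agent.TInf
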