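import Pool.Agent.TInf.Alg

/-!
# Recutting
-/

set_option autoImplicit false
set_option linter.unusedVariables false

noncomputable section

namespace Pool.Agent.TInf

open Polynomial

variable {K : Type*} [Field K]

/-- The sides `s₁`, `s₂` and `s₁'`, `s₂'` with the same `p` and `m` are related by recutting:
`(T₁, T₂)` and `(T₁', T₂')` are different solutions of the same two equations. -/
structure Rcut (s₁ s₂ s₁' s₂' : Side K) : Prop where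
  p₁ : s₁'.p = s₁.p
  m₁ : s₁'.m = s₁.m
  p₂ : s₂'.p = s₂.p
  m₂ : s₂'.m = s₂.m
  e₁ : (s₁.T + s₁.p) * (s₂.T + s₂.p) = (s₁'.T + s₁.p) * (s₂'.T + s₂.p)
  e₂ : (s₁.T + s₁.m) * (s₂.T + s₂.m) * (s₁'.T * s₂'.T) =
    (s₁'.T + s₁.m) * (s₂'.T + s₂.m) * (s₁.T * s₂.T)
  ne : ¬ (s₁'.T = s₁.T ∧ s₂'.T = s₂.T)

variable {s₁ s₂ s₁' s₂' : Side K}

private theorem Rcut.ne_x (h : Rcut s₁ s₂ s₁' s₂') (h₁ : s₁.Good) : s₁.T - s₁'.T ≠ 0 := by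
  intro h0
  have h1 : s₁'.T = s₁.T := (sub_eq_zero.1 h0).symm
  apply h.ne
  refine ⟨h1, ?_⟩
  have h2 := h.e₁
  rw [h1] at h2
  have h3 := mul_left_cancel₀ h₁.2.1 h2
  exact (add_right_cancel h3).symm

/-- the relation (c): (I) `Δx (y + p₂) = -(X + p₁) Δy` and (II')
`Δx y m₁ (Y + m₂) + X m₂ (x + m₁) Δy = 0`, where `x = T₁`, `y = T₂`, `X = T₁'`, `Y = T₂'`,
`Δx = x - X ≠ 0`, `Δy = y - Y` -/
theorem Rcut.c (h : Rcut s₁ s₂ s₁' s₂') (h₁ : s₁.Good) (h₂ : s₂.Good) (h₁' : s₁'.Good)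
    (h₂' : s₂'.Good) : s₁.m * (s₁'.T + s₁.p) * (s₂'.T + s₂.m) * s₂.T =
      s₂.m * (s₂.T + s₂.p) * (s₁.T + s₁.m) * s₁'.T := by
  have hx := h.ne_x h₁
  refine mul_left_cancel₀ hx ?_
  linear_combination (-(s₁'.T + s₁.p)) * h.e₂ - s₂.m * (s₁.T + s₁.m) * s₁'.T * h.e₁

/-- the relation (d): (I') `Δx (Y + p₂) = -(x + p₁) Δy` and (II)
`Δx Y m₁ (y + m₂) + x m₂ (X + m₁) Δy = 0` -/
theorem Rcut.d (h : Rcut s₁ s₂ s₁' s₂') (h₁ : s₁.Good) (h₂ : s₂.Good) (h₁' : s₁'.Good)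
    (h₂' : s₂'.Good) : s₂.m * (s₁'.T + s₁.m) * (s₂'.T + s₂.p) * s₁.T =
      s₁.m * (s₂.T + s₂.m) * (s₁.T + s₁.p) * s₂'.T := by
  have hx := h.ne_x h₁
  refine mul_left_cancel₀ hx ?_
  linear_combination (s₁.T + s₁.p) * h.e₂ + s₂.m * (s₁'.T + s₁.m) * s₁.T * h.e₁

/-- the relation (f); it follows from (c) and `e₁` -/
theorem Rcut.f (h : Rcut s₁ s₂ s₁' s₂') (h₁ : s₁.Good) (h₂ : s₂.Good) (h₁' : s₁'.Good)
    (h₂' : s₂'.Good) :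
    (s₂'.T + s₂.m) * (s₂.p * (s₁'.T + s₁.m) + (s₁'.T + s₁.p) * s₂'.T) * s₁.T =
      (s₁.T + s₁.m) * (s₁.p * (s₂.T + s₂.m) + (s₂.T + s₂.p) * s₁.T) * s₂'.T := by
  have hX : s₁'.T + s₁.p ≠ 0 := by
    rw [← h.p₁]
    exact h₁'.2.1
  have hc := h.c h₁ h₂ h₁' h₂'
  refine mul_left_cancel₀ hX ?_
  linear_combination (-(s₁.T + s₁.p)) * hc + (-(s₁'.T * s₂'.T * s₁.T) - s₁'.T * s₁.T * s₂.m -
    s₂'.T * s₁.T * s₁.p + s₁.p * s₁.m * s₂.m) * h.e₁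

/-- the relation (e); it follows from (d) and `e₁` -/
theorem Rcut.e (h : Rcut s₁ s₂ s₁' s₂') (h₁ : s₁.Good) (h₂ : s₂.Good) (h₁' : s₁'.Good)
    (h₂' : s₂'.Good) :
    (s₂'.T + s₂.p) * (s₁.p * s₂.m * (s₁'.T + s₁.m) + s₁.m * (s₁'.T + s₁.p) * s₂'.T) *
      (s₁.T * s₂.T) = (s₁.T + s₁.p) * (s₂.p * s₁.m * (s₂.T + s₂.m) +
        s₂.m * (s₂.T + s₂.p) * s₁.T) * (s₁'.T * s₂'.T) := by
  have hX : s₁'.T + s₁.m ≠ 0 := by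
    rw [← h.m₁]
    exact h₁'.2.2
  have hd := h.d h₁ h₂ h₁' h₂'
  refine mul_left_cancel₀ hX ?_
  linear_combination (-(s₁'.T * s₂'.T * (s₁.T + s₁.m))) * hd + (s₁'.T * s₂'.T * s₁.T -
    s₁'.T * s₁.p * s₂.p - s₂'.T * s₁.p * s₁.m - s₁.p * s₁.m * s₂.p) * h.e₂

variable [CharZero K]

theorem Rcut.V (h : Rcut s₁ s₂ s₁' s₂') (h₁ : s₁.Good) (h₂ : s₂.Good) (h₁' : s₁'.Good)
    (h₂' : s₂'.Good) : s₁'.V * s₂'.V = s₁.V * s₂.V := by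
  have hx := h₁.1
  have hy := h₂.1
  have hX := h₁'.1
  have hY := h₂'.1
  rw [Side.V, Side.V, Side.V, Side.V, h.p₁, h.m₁, h.p₂, h.m₂]
  field_simp
  linear_combination (-((s₁'.T + s₁.m) * (s₂'.T + s₂.m) * (s₁.T * s₂.T))) * h.e₁ -
    (s₁.T + s₁.p) * (s₂.T + s₂.p) * h.e₂

omit [CharZero K] in
/-- the symmetry in 1 and 2 -/
theorem Rcut.symm (h : Rcut s₁ s₂ s₁' s₂') : Rcut s₂ s₁ s₂' s₁' := by
  refine ⟨h.p₂, h.m₂, h.p₁, h.m₁, ?_, ?_, fun h0 => h.ne ⟨h0.2, h0.1⟩⟩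
  · linear_combination h.e₁
  · linear_combination h.e₂

end Pool.Agent.TInf
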