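import Pool.Agent.TInf.LiftBasic

/-!
# Change of the frame for lists of sides
-/

set_option autoImplicit false

noncomputable section

namespace Pool.Agent.TInf

open Pool.Agent.ZCyc Polynomial
open Pool.Agent.VFP (Om tt)

universe u

section alg

variable {K : Type*} [Field K]

/-- the factor for the next side -/
def Side.next (s : Side K) (ρ : K) : K :=
  ((s.T / ρ + s.p) * (s.T + s.m)) / ((s.T / ρ + s.m) * (s.T + s.p))

/-- the sides after the change of the frame by `ρ` -/
def rotL : K → List (Side K) → List (Side K)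
  | _, [] => []
  | ρ, s :: l => ⟨s.p, s.m, s.T / ρ⟩ :: rotL (s.next ρ) l

@[simp] lemma rotL_nil (ρ : K) : rotL ρ ([] : List (Side K)) = [] := rfl

@[simp] lemma rotL_cons (ρ : K) (s : Side K) (l : List (Side K)) :
    rotL ρ (s :: l) = ⟨s.p, s.m, s.T / ρ⟩ :: rotL (s.next ρ) l := rfl

theorem rotL_pm (ρ : K) (l : List (Side K)) : (rotL ρ l).map Side.pm = l.map Side.pm := by
  induction l generalizing ρ with
  | nil => rfl
  | cons s l ih => rw [rotL_cons, List.map_cons, List.map_cons, ih]; rfl

private lemma pm_ne {s : Side K} (hn : s.Nd) : s.p ≠ s.m := by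
  intro h
  exact hn.g (by rw [Side.g, h, sub_self, zero_div])

private lemma p_ne {s : Side K} (hn : s.Nd) : s.p ≠ 0 := by
  intro h
  exact hn.D (by rw [Side.D, h, zero_mul])

private lemma m_ne {s : Side K} (hn : s.Nd) : s.m ≠ 0 := by
  intro h
  exact hn.D (by rw [Side.D, h, mul_zero])

private lemma next_ne {s : Side K} (hs : s.Good) {ρ : K}
    (hs' : (⟨s.p, s.m, s.T / ρ⟩ : Side K).Good) : s.next ρ ≠ 0 :=
  div_ne_zero (mul_ne_zero hs'.2.1 hs.2.2) (mul_ne_zero hs'.2.2 hs.2.1)

/-- the formula for `s.next` without denominators -/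
private lemma next_mul {s : Side K} (hs : s.Good) {ρ : K} (hρ : ρ ≠ 0)
    (hs' : s.T / ρ + s.m ≠ 0) :
    s.next ρ * ((s.T + s.m * ρ) * (s.T + s.p)) = (s.T + s.p * ρ) * (s.T + s.m) := by
  obtain ⟨-, h1, -⟩ := hs
  unfold Side.next
  have e : s.T + s.m * ρ = (s.T / ρ + s.m) * ρ := by field_simp
  have e' : s.T + s.p * ρ = (s.T / ρ + s.p) * ρ := by field_simp
  rw [e, e', div_mul_eq_mul_div, div_eq_iff (mul_ne_zero hs' h1)]
  ring

variable [CharZero K]

/-- `push_rot` -/
theorem st_rotL {l : List (Side K)} (h : ∀ s ∈ l, s.Good) {ρ : K} (hρ : ρ ≠ 0)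
    (h' : ∀ s ∈ rotL ρ l, s.Good) : st (rotL ρ l) = (st l).rot ρ := by
  induction l generalizing ρ with
  | nil =>
    rw [rotL_nil, st_nil]
    apply Mq.ext <;> simp [Mq.rot, Mq.one]
  | cons s l ih =>
    rw [rotL_cons] at h' ⊢
    have hs : s.Good := h s List.mem_cons_self
    have hs' : (⟨s.p, s.m, s.T / ρ⟩ : Side K).Good := h' _ List.mem_cons_self
    rw [st_cons, st_cons, ih (fun t ht => h t (List.mem_cons_of_mem _ ht)) (next_ne hs hs')
      (fun t ht => h' t (List.mem_cons_of_mem _ ht))]
    exact push_rot hs hs' rfl rfl hρ rfl (st l)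

/-- `s.next` is a Möbius transformation of `ρ` with inverse of the same kind (since `p ≠ m`,
`T ≠ 0`), so only finitely many `ρ` are bad -/
theorem rotL_bad_finite {l : List (Side K)} (h : ∀ s ∈ l, s.Good) (hn : ∀ s ∈ l, s.Nd) :
    {ρ : K | ρ = 0 ∨ ¬ ∀ s ∈ rotL ρ l, s.Good}.Finite := by
  induction l with
  | nil =>
    refine (Set.finite_singleton (0 : K)).subset ?_
    rintro ρ (h1 | h1)
    · exact h1
    · exact absurd (fun s hs => by simp at hs) h1
  | cons s l ih =>
    have hs : s.Good := h s List.mem_cons_self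
    have hnd : s.Nd := hn s List.mem_cons_self
    have hfin := ih (fun t ht => h t (List.mem_cons_of_mem _ ht))
      (fun t ht => hn t (List.mem_cons_of_mem _ ht))
    set A : Set K := {ρ | (ρ ≠ 0 ∧ s.T / ρ + s.p ≠ 0 ∧ s.T / ρ + s.m ≠ 0) ∧
      (s.next ρ = 0 ∨ ¬ ∀ t ∈ rotL (s.next ρ) l, t.Good)} with hA
    have hAfin : A.Finite := by
      refine Set.Finite.of_finite_image (f := s.next) (hfin.subset ?_) ?_
      · rintro _ ⟨ρ, hρ, rfl⟩
        exact hρ.2
      · intro ρ hρ ρ' hρ' he
        have e1 := next_mul hs hρ.1.1 hρ.1.2.2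
        have e2 := next_mul hs hρ'.1.1 hρ'.1.2.2
        rw [he] at e1
        have n1 : (s.T + s.p) ≠ 0 := hs.2.1
        have n2 : (s.T + s.m) ≠ 0 := hs.2.2
        have n0 : s.T ≠ 0 := hs.1
        have npm : s.p - s.m ≠ 0 := sub_ne_zero.2 (pm_ne hnd)
        have e3 : (s.T + s.p * ρ) * (s.T + s.m * ρ') = (s.T + s.p * ρ') * (s.T + s.m * ρ) := by
          have e4 : ((s.T + s.p * ρ) * (s.T + s.m)) * ((s.T + s.m * ρ') * (s.T + s.p)) =
              ((s.T + s.p * ρ') * (s.T + s.m)) * ((s.T + s.m * ρ) * (s.T + s.p)) := by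
            rw [← e1, ← e2]
            ring
          have n3 : (s.T + s.m) * (s.T + s.p) ≠ 0 := mul_ne_zero n2 n1
          apply mul_right_cancel₀ n3
          linear_combination e4
        have e5 : (s.T * (s.p - s.m)) * (ρ - ρ') = 0 := by linear_combination e3
        rcases mul_eq_zero.1 e5 with e6 | e6
        · exact absurd e6 (mul_ne_zero n0 npm)
        · exact sub_eq_zero.1 e6
    refine (((Set.finite_singleton (0 : K)).union (Set.finite_singleton (-s.T / s.p))).union
      ((Set.finite_singleton (-s.T / s.m)).union hAfin)).subset ?_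
    rintro ρ hρ
    by_cases h0 : ρ = 0
    · exact Or.inl (Or.inl h0)
    by_cases h1 : s.T / ρ + s.p = 0
    · refine Or.inl (Or.inr ?_)
      have hp := p_ne hnd
      rw [Set.mem_singleton_iff, eq_div_iff hp]
      field_simp at h1
      linear_combination h1
    by_cases h2 : s.T / ρ + s.m = 0
    · refine Or.inr (Or.inl ?_)
      have hm := m_ne hnd
      rw [Set.mem_singleton_iff, eq_div_iff hm]
      field_simp at h2
      linear_combination h2
    refine Or.inr (Or.inr ⟨⟨h0, h1, h2⟩, ?_⟩)
    rcases hρ with hρ | hρ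
    · exact absurd hρ h0
    · refine Or.inr fun hall => hρ ?_
      rw [rotL_cons]
      intro t ht
      rcases List.mem_cons.1 ht with rfl | ht
      · exact ⟨div_ne_zero hs.1 h0, h1, h2⟩
      · exact hall t ht

/-- the closing side: `V₀ = a(1) + (b(1) - c(1)) / 2`, `Sg₀ = -(b(1) + c(1)) / 2`, and
`Sg₀ ² = V₀ ² - 2 a(1) V₀ + ∏ g ²` -/
theorem closing {l : List (Side K)} (h : ∀ s ∈ l, s.Good) :
    (-((st l).b.eval 1 + (st l).c.eval 1) / 2) ^ 2 =
      ((st l).a.eval 1 + ((st l).b.eval 1 - (st l).c.eval 1) / 2) ^ 2 -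
        2 * (st l).a.eval 1 * ((st l).a.eval 1 + ((st l).b.eval 1 - (st l).c.eval 1) / 2) +
        (l.map fun s => s.g ^ 2).prod := by
  have h1 := congrArg (fun P : K[X] => P.eval 1) (q_st h)
  simp only [Mq.q, eval_add, eval_mul, eval_pow, eval_X, eval_sub, eval_one, sub_self, mul_zero,
    zero_mul, add_zero, one_mul, eval_list_prod, List.map_map] at h1
  have h2 : (l.map ((Polynomial.eval 1) ∘ fun s => s.r)) = l.map fun s => s.g ^ 2 := by
    refine List.map_congr_left fun s _ => ?_
    simp only [Function.comp_apply, Side.r, Side.b, Side.D, Side.g, eval_sub, eval_mul, eval_C,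
      eval_X, mul_one]
    ring
  rw [h2] at h1
  rw [← h1]
  ring

end alg

variable {k : Type u} [Field k] [CharZero k]

/-- the side over `Om k` -/
def Side.up (s : Side k) : Side (Om k) :=
  ⟨algebraMap k (Om k) s.p, algebraMap k (Om k) s.m, algebraMap k (Om k) s.T⟩

/-- If `ρ` is not a constant, then the sides over `Om k` are good (`s.next ρ` is not a constant
either). -/
theorem rotL_good {l : List (Side k)} (h : ∀ s ∈ l, s.Good) (hn : ∀ s ∈ l, s.Nd) {ρ : Om k}
    (hρ : ∀ c : k, ρ ≠ algebraMap k (Om k) c) : ∀ s ∈ rotL ρ (l.map Side.up), s.Good := by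
  induction l generalizing ρ with
  | nil => intro s hs; simp at hs
  | cons s l ih =>
    have hs : s.Good := h s List.mem_cons_self
    have hnd : s.Nd := hn s List.mem_cons_self
    set ι := algebraMap k (Om k) with hι
    have hinj : Function.Injective ι := ι.injective
    have z : ∀ x : k, x ≠ 0 → ι x ≠ 0 := fun x hx => (map_ne_zero ι).2 hx
    have h0 : ρ ≠ 0 := by
      intro h0
      exact hρ 0 (by rw [h0, map_zero])
    have hp := p_ne hnd
    have hm := m_ne hnd
    have hp' := z _ hp
    have hm' := z _ hm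
    have n1 : ι s.T / ρ + ι s.p ≠ 0 := by
      intro h1
      apply hρ (-s.T / s.p)
      rw [map_div₀, map_neg, eq_div_iff hp']
      field_simp at h1
      linear_combination h1
    have n2 : ι s.T / ρ + ι s.m ≠ 0 := by
      intro h1
      apply hρ (-s.T / s.m)
      rw [map_div₀, map_neg, eq_div_iff hm']
      field_simp at h1
      linear_combination h1
    have hup : s.up.Good := ⟨z _ hs.1, by
      change ι s.T + ι s.p ≠ 0
      rw [← map_add]
      exact z _ hs.2.1, by
      change ι s.T + ι s.m ≠ 0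
      rw [← map_add]
      exact z _ hs.2.2⟩
    have hnext : ∀ c : k, s.up.next ρ ≠ ι c := by
      intro c hc
      have e1 := next_mul hup h0 n2
      rw [hc] at e1
      change ι c * ((ι s.T + ι s.m * ρ) * (ι s.T + ι s.p)) =
        (ι s.T + ι s.p * ρ) * (ι s.T + ι s.m) at e1
      set x : k := s.p * (s.T + s.m) - c * s.m * (s.T + s.p) with hx
      set y : k := c * s.T * (s.T + s.p) - s.T * (s.T + s.m) with hy
      have e2 : ι x * ρ = ι y := by
        simp only [hx, hy, map_sub, map_mul, map_add]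
        linear_combination (-1 : Om k) * e1
      by_cases hx0 : x = 0
      · rw [hx0, map_zero, zero_mul] at e2
        have hy0 : y = 0 := by
          apply hinj
          rw [← e2, map_zero]
        have e3 : s.T * (s.T + s.m) * (s.p - s.m) = 0 := by
          have : s.T * (s.T + s.m) * (s.p - s.m) = s.T * x + s.m * y := by
            rw [hx, hy]
            ring
          rw [this, hx0, hy0]
          ring
        exact mul_ne_zero (mul_ne_zero hs.1 hs.2.2) (sub_ne_zero.2 (pm_ne hnd)) e3
      · apply hρ (y / x)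
        rw [map_div₀, eq_div_iff (z _ hx0)]
        linear_combination e2
    intro t ht
    rw [List.map_cons, rotL_cons] at ht
    rcases List.mem_cons.1 ht with rfl | ht
    · exact ⟨div_ne_zero (z _ hs.1) h0, n1, n2⟩
    · exact ih (fun t ht => h t (List.mem_cons_of_mem _ ht))
        (fun t ht => hn t (List.mem_cons_of_mem _ ht)) hnext t ht

/-- the values of the sides at a place -/
theorem rotL_at {v : Place k (Om k)} {l : List (Side k)} (h : ∀ s ∈ l, s.Good) {ρ : Om k}
    {ρ' : k} (hρ : v.At ρ ρ') (h0 : ρ' ≠ 0) (h' : ∀ s ∈ rotL ρ' l, s.Good) :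
    List.Forall₂ (SAt v) (rotL ρ (l.map Side.up)) (rotL ρ' l) := by
  induction l generalizing ρ ρ' with
  | nil => exact List.Forall₂.nil
  | cons s l ih =>
    rw [List.map_cons, rotL_cons, rotL_cons]
    rw [rotL_cons] at h'
    have hs : s.Good := h s List.mem_cons_self
    have hs' : (⟨s.p, s.m, s.T / ρ'⟩ : Side k).Good := h' _ List.mem_cons_self
    have hT : v.At (s.up.T / ρ) (s.T / ρ') := (Place.at_const s.T).div hρ h0
    have hp : v.At s.up.p s.p := Place.at_const s.p
    have hm : v.At s.up.m s.m := Place.at_const s.m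
    have hT0 : v.At s.up.T s.T := Place.at_const s.T
    refine List.Forall₂.cons ⟨hp, hm, hT⟩ (ih (fun t ht => h t (List.mem_cons_of_mem _ ht)) ?_
      (next_ne hs hs') fun t ht => h' t (List.mem_cons_of_mem _ ht))
    exact ((hT.add hp).mul (hT0.add hm)).div ((hT.add hm).mul (hT0.add hp))
      (mul_ne_zero hs'.2.2 hs.2.1)

end Pool.Agent.TInf
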