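import Pool.Agent.TInf.Rot
import Pool.Agent.TInf.ConfU

/-!
# Change of the frame for configurations
-/

set_option autoImplicit false

noncomputable section

namespace Pool.Agent.TInf

open Pool.Agent.ZCyc Polynomial
open Pool.Agent.VFP (Om tt)

universe u

section alg

variable {K : Type*} [Field K] {n : ℕ}

/-- the configuration after the change of the frame by `ρ` -/
def Cfg.rotc (B : Fin n → K) (ρ : K) (c : Cfg K n) : Cfg K n :=
  ⟨c.ord, c.β, fun j => ((rotL ρ (c.sides B)).getD (c.ord.symm j).val ⟨0, 0, 0⟩).T⟩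

theorem rotL_length (ρ : K) (l : List (Side K)) : (rotL ρ l).length = l.length := by
  have := congrArg List.length (rotL_pm ρ l)
  rwa [List.length_map, List.length_map] at this

/-- `rotL_pm` -/
theorem Cfg.sides_rotc (B : Fin n → K) (ρ : K) (c : Cfg K n) :
    (c.rotc B ρ).sides B = rotL ρ (c.sides B) := by
  have hlen : ((c.rotc B ρ).sides B).length = (rotL ρ (c.sides B)).length := by
    rw [rotL_length, Cfg.length_sides, Cfg.length_sides]
  refine List.ext_getElem hlen fun i h1 h2 => ?_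
  have hi : i < n := by rwa [Cfg.length_sides] at h1
  have h3 : i < (c.sides B).length := by rwa [Cfg.length_sides]
  have hpm : ((rotL ρ (c.sides B))[i]).pm = ((c.sides B)[i]).pm := by
    have h4 : ((rotL ρ (c.sides B)).map Side.pm)[i]'(by rwa [List.length_map]) =
        ((c.sides B).map Side.pm)[i]'(by rwa [List.length_map]) := by
      simp only [rotL_pm]
    rwa [List.getElem_map, List.getElem_map] at h4
  rw [Cfg.getElem_sides] at hpm ⊢
  have hp := congrArg Prod.fst hpm
  have hm := congrArg Prod.snd hpm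
  refine Side.ext ?_ ?_ ?_
  · exact hp.symm
  · exact hm.symm
  · simp only [Cfg.side, Cfg.rotc, Equiv.symm_apply_apply]
    rw [List.getD_eq_getElem _ _ h2]

theorem Cfg.side_rotc (B : Fin n → K) (ρ : K) (c : Cfg K n) (j : Fin n)
    (h : (c.ord.symm j).val < (rotL ρ (c.sides B)).length) :
    (c.rotc B ρ).side B j = (rotL ρ (c.sides B))[(c.ord.symm j).val] := by
  have h1 : (c.ord.symm j).val < ((c.rotc B ρ).sides B).length := by
    rw [Cfg.length_sides]
    exact (c.ord.symm j).2
  have h2 : ((c.rotc B ρ).sides B)[(c.ord.symm j).val] =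
      (rotL ρ (c.sides B))[(c.ord.symm j).val] := by
    simp only [Cfg.sides_rotc]
  rw [← h2, Cfg.getElem_sides]
  congr 1
  exact (Equiv.apply_symm_apply c.ord j).symm

theorem Cfg.mem_side {B : Fin n → K} (c : Cfg K n) (j : Fin n) : c.side B j ∈ c.sides B := by
  simp only [Cfg.sides, List.mem_map]
  exact ⟨c.ord.symm j, List.mem_finRange _, by rw [Equiv.apply_symm_apply]⟩

variable [CharZero K] {α B : Fin n → K}

theorem Cfg.rotc_good {c : Cfg K n} (hc : c.Good α B) {ρ : K}
    (h : ∀ s ∈ rotL ρ (c.sides B), s.Good) : (c.rotc B ρ).Good α B := by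
  refine ⟨hc.1, fun j => h _ ?_⟩
  rw [← Cfg.sides_rotc]
  exact Cfg.mem_side _ j

/-- `st_rotL` -/
theorem Cfg.rotc_M {c : Cfg K n} (hc : c.Good α B) {ρ : K} (hρ : ρ ≠ 0)
    (h : (c.rotc B ρ).Good α B) : (c.rotc B ρ).M B = (c.M B).rot ρ := by
  have h' := Cfg.sides_good h
  rw [Cfg.sides_rotc] at h'
  rw [Cfg.M_eq, Cfg.M_eq, Cfg.sides_rotc]
  exact st_rotL (Cfg.sides_good hc) hρ h'

end alg

variable {k : Type u} [Field k] [CharZero k] {n : ℕ} {α B : Fin n → k}

/-- constants in `Om k` -/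
def up (B : Fin n → k) : Fin n → Om k := fun j => algebraMap k (Om k) (B j)

/-- the configuration over `Om k` -/
def Cfg.up (c : Cfg k n) : Cfg (Om k) n := ⟨c.ord, TInf.up c.β, TInf.up c.T⟩

theorem Cfg.side_up (B : Fin n → k) (c : Cfg k n) (j : Fin n) :
    c.up.side (TInf.up B) j = (c.side B j).up := by
  refine Side.ext ?_ ?_ rfl
  · simp only [Cfg.side, Side.up, Cfg.up, TInf.up, map_add, map_div₀, map_neg, map_ofNat]
  · simp only [Cfg.side, Side.up, Cfg.up, TInf.up, map_sub, map_div₀, map_neg, map_ofNat]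

theorem Cfg.sides_up (B : Fin n → k) (c : Cfg k n) :
    c.up.sides (TInf.up B) = (c.sides B).map Side.up := by
  unfold Cfg.sides
  rw [List.map_map]
  exact List.map_congr_left fun a _ => Cfg.side_up B c (c.ord a)

omit [CharZero k] in
theorem Side.up_good {s : Side k} (h : s.Good) : s.up.Good := by
  obtain ⟨h1, h2, h3⟩ := h
  have hinj : Function.Injective (algebraMap k (Om k)) := (algebraMap k (Om k)).injective
  refine ⟨?_, ?_, ?_⟩
  · exact fun h0 => h1 (hinj (by rw [map_zero]; exact h0))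
  · exact fun h0 => h2 (hinj (by rw [map_zero, map_add]; exact h0))
  · exact fun h0 => h3 (hinj (by rw [map_zero, map_add]; exact h0))

theorem Cfg.up_good {c : Cfg k n} (hc : c.Good α B) : c.up.Good (TInf.up α) (TInf.up B) := by
  refine ⟨fun j => ?_, fun j => ?_⟩
  · simp only [Cfg.up, TInf.up]
    rw [← map_pow, ← map_pow, hc.1 j]
  · rw [Cfg.side_up]
    exact Side.up_good (hc.2 j)

/-- `rotL_good` -/
theorem Cfg.rotc_up_good (h : NdU α B) {c : Cfg k n} (hc : c.Good α B) {ρ : Om k}
    (hρ : ∀ x : k, ρ ≠ algebraMap k (Om k) x) :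
    (c.up.rotc (TInf.up B) ρ).Good (TInf.up α) (TInf.up B) := by
  refine Cfg.rotc_good (Cfg.up_good hc) ?_
  rw [Cfg.sides_up]
  exact rotL_good (Cfg.sides_good hc) (Cfg.sides_ndU h hc) hρ

/-- `rotL_at` -/
theorem Cfg.rotc_at {v : Place k (Om k)} {c : Cfg k n} (hc : c.Good α B) {ρ : Om k} {ρ' : k}
    (hρ : v.At ρ ρ') (h0 : ρ' ≠ 0) (h' : (c.rotc B ρ').Good α B) (j : Fin n) :
    SAt v ((c.up.rotc (TInf.up B) ρ).side (TInf.up B) j) ((c.rotc B ρ').side B j) := by
  have h1 := Cfg.sides_good h'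
  rw [Cfg.sides_rotc] at h1
  have h2 := rotL_at (Cfg.sides_good hc) hρ h0 h1
  rw [← Cfg.sides_up] at h2
  have hl : (c.ord.symm j).val < (rotL ρ (c.up.sides (TInf.up B))).length := by
    rw [rotL_length, Cfg.length_sides]
    exact (c.ord.symm j).2
  have hl' : (c.ord.symm j).val < (rotL ρ' (c.sides B)).length := by
    rw [rotL_length, Cfg.length_sides]
    exact (c.ord.symm j).2
  have e1 : (c.up.rotc (TInf.up B) ρ).side (TInf.up B) j =
      (rotL ρ (c.up.sides (TInf.up B)))[(c.ord.symm j).val] := Cfg.side_rotc _ ρ c.up j hl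
  rw [e1, Cfg.side_rotc B ρ' c j hl']
  exact List.Forall₂.get h2 hl hl'

omit [CharZero k] in
theorem rotL_one {l : List (Side k)} (h : ∀ s ∈ l, s.Good) : rotL 1 l = l := by
  induction l with
  | nil => rfl
  | cons s l ih =>
    obtain ⟨h1, h2, h3⟩ := h s (List.mem_cons_self)
    have e : s.next 1 = 1 := by
      unfold Side.next
      rw [div_one, mul_comm (s.T + s.p)]
      exact div_self (mul_ne_zero h3 h2)
    rw [rotL_cons, e, ih fun s' hs' => h s' (List.mem_cons_of_mem _ hs'), div_one]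

theorem Cfg.rotc_one (B : Fin n → k) {c : Cfg k n} (hc : c.Good α B) : c.rotc B 1 = c := by
  refine Cfg.ext_sides (B := B) rfl rfl ?_
  rw [Cfg.sides_rotc, rotL_one (Cfg.sides_good hc)]

end Pool.Agent.TInf
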