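import Pool.Agent.TInf.ConfLift
import Pool.Agent.DCI57.At

/-!
# Sixth roots over `Om k`
-/

set_option autoImplicit false

noncomputable section

namespace Pool.Agent.TInf

open Pool.Agent.ZCyc Polynomial
open Pool.Agent.VFP (Om tt)

universe u

variable {k : Type u} [Field k] [IsAlgClosed k] [CharZero k] {n : ℕ}

/-- a sixth root of `V` -/
theorem bad_w {v : Place k (Om k)} {V w : Om k} (hw : w ^ 6 = V)
    (h : V ∉ v.ring ∨ v.At V 0) : w ∉ v.ring ∨ v.At w 0 := by
  subst hw
  rcases h with h | h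
  · exact Or.inl fun h1 => h (pow_mem h1 6)
  · exact Or.inr (Place.at_zero_iff.2 (v.vanishes_of_pow (Place.at_zero_iff.1 h)))

/-- sixth roots over `Om k` with a given product, and their values -/
theorem exists_w6 {V : Fin n → Om k} (hn : 0 < n) (hV : ∀ j, V j ≠ 0) {P : Om k}
    (hP : P ^ 6 = ∏ j, V j) : ∃ w : Fin n → Om k, (∀ j, w j ^ 6 = V j) ∧ ∏ j, w j = P := by
  obtain ⟨i⟩ : Nonempty (Fin n) := ⟨⟨0, hn⟩⟩
  have h1 : ∀ j, ∃ w, w ^ 6 = V j := fun j => IsAlgClosed.exists_pow_nat_eq (V j) (by norm_num)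
  choose w hw using h1
  have hw0 : ∀ j, w j ≠ 0 := by
    intro j h
    apply hV j
    rw [← hw j, h]
    norm_num
  have hp0 : ∏ j, w j ≠ 0 := Finset.prod_ne_zero_iff.2 fun j _ => hw0 j
  have hp6 : (∏ j, w j) ^ 6 = P ^ 6 := by
    rw [← Finset.prod_pow, hP]
    exact Finset.prod_congr rfl fun j _ => hw j
  refine ⟨Function.update w i (P / (∏ j, w j) * w i), ?_, ?_⟩
  · intro j
    rcases eq_or_ne j i with rfl | hj
    · rw [Function.update_self, mul_pow, div_pow, hp6, div_self, one_mul, hw]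
      rw [← hp6]
      exact pow_ne_zero 6 hp0
    · rw [Function.update_of_ne hj, hw]
  · rw [Finset.prod_update_of_mem (Finset.mem_univ i)]
    have h2 : w i * ∏ j ∈ Finset.univ \ {i}, w j = ∏ j, w j := by
      rw [← Finset.prod_update_of_mem (Finset.mem_univ i), Function.update_eq_self]
    rw [mul_assoc, h2, div_mul_cancel₀ _ hp0]

theorem w6_at {v : Place k (Om k)} {V w : Om k} {V' : k} (hw : w ^ 6 = V) (hV : v.At V V') :
    ∃ w' : k, v.At w w' ∧ w' ^ 6 = V' := by
  have h1 : w ∈ v.ring := by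
    have h2 := hV.mem
    rw [← hw, ← v.ring.valuation_le_one_iff, map_pow] at h2
    rw [← v.ring.valuation_le_one_iff]
    exact (pow_le_one_iff (by norm_num)).1 h2
  obtain ⟨w', hw'⟩ := Pool.Agent.DCI57.exists_at v h1
  refine ⟨w', hw', ?_⟩
  have h3 := hw'.pow 6
  rw [hw] at h3
  exact h3.unique hV

/-- if all `w j` are units then the product is a unit -/
theorem exists_bad_of_prod {v : Place k (Om k)} {w : Fin n → Om k}
    (h : v.At (∏ j, w j) 0) : ∃ j, w j ∉ v.ring ∨ v.At (w j) 0 := by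
  obtain ⟨j, -, hj⟩ := v.vanishes_prod (Place.at_zero_iff.1 h)
  exact ⟨j, Or.inr (Place.at_zero_iff.2 hj)⟩

end Pool.Agent.TInf
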